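import Pool.Agent.Lib.CF64.Fam

set_option linter.unusedSectionVars false
set_option linter.unusedVariables false
set_option linter.unusedSimpArgs false

namespace Pool.Agent.Lib.CF64

open Finset Pool.Agent.Lib.MP_aa6b05_co Pool.Agent.Lib.MP_aa6b05_co.MG

open scoped Classical

noncomputable section

variable {V E : Type} [Fintype V] [Fintype E] {G : MG V E} {N : Finset V} {f : ℕ}

structure Cfg (G : MG V E) (N : Finset V) (f : ℕ) (A1 A2 : Finset V) (M1 : Finset E) : Prop where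
  sp : Sp G N f
  h1 : A1 ⊆ N
  h2 : A2 ⊆ N
  dj : Disjoint A1 A2
  na : ∀ a ∈ A1, ∀ b ∈ A2, ¬ Adj G a b
  hm : M1 ⊆ eset G A1
  cnt : A1.card + 1 = M1.card + f

def Closed (G : MG V E) (A1 : Finset V) (M1 : Finset E) (B : Finset V) : Prop :=
  B ⊆ A1 ∧ ∀ e ∈ eset G A1, e ∉ M1 → (G.s e ∈ B ↔ G.t e ∈ B)

variable {A1 A2 : Finset V} {M1 : Finset E}

theorem acc (c : Cfg G N f A1 A2 M1) (X : Finset E)
    (hX : X ⊆ (eset G (N \ A1) \ eset G A2) ∩ (eset G (N \ A2) \ M1)) :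
    ∃ (C I : Finset V) (lam : V → V) (P : V → Finset V),
    (∀ r ∈ I, P r ⊆ N \ A1 ∧ (P r).Nonempty ∧ Disjoint (P r) A2 ∧ Nb G (P r)) ∧
    (∀ r ∈ I, ∀ r' ∈ I, r ≠ r' → Disjoint (P r) (P r')) ∧
    (∀ c, Closed G A1 M1 (A1.filter (fun v => lam v = c))) ∧
    (∀ c ∈ C, (A1.filter (fun v => lam v = c)).Nonempty ∨ (I.filter (fun v => lam v = c)).Nonempty) ∧
    (∀ r ∈ I, lam r ∈ C) ∧ (∀ r ∈ A1, lam r ∈ C) ∧
    cc G (N \ A2) ((eset G (N \ A2) \ M1) \ X) ≤ C.card ∧
    (∀ g ∈ zsp G (N \ A1) ((eset G (N \ A1) \ eset G A2) \ X),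
      (∀ r ∈ I, ∀ v ∈ P r, g v = g r) ∧ ∀ r ∈ I, ∀ x ∈ P r, ∀ a ∈ A2, Adj G a x → g a = g x) ∧
    (∀ v ∈ N \ A1, v ∉ A2 → ∃ r ∈ I, v ∈ P r) ∧
    ∑ c ∈ C, (base G M1 (A1.filter (fun v => lam v = c)) +
      ∑ r ∈ I.filter (fun v => lam v = c),
        (2 * ((P r).card : ℤ) - tch G (P r) (A2 ∪ A1.filter (fun v => lam v = c)))) +
      C.card + 2 * A2.card ≤ X.card + 3 + ein G A2 := by
  set W := (N \ A1) \ A2 with hW
  have mW : ∀ v, v ∈ W ↔ (v ∈ N ∧ v ∉ A1) ∧ v ∉ A2 := fun v => by simp [hW]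
  have mM : ∀ e ∈ M1, G.s e ∈ A1 ∧ G.t e ∈ A1 := fun e he => (mem_eset.mp (c.hm he)).2
  have XW : ∀ e ∈ X, G.s e ∈ W ∧ G.t e ∈ W := by
    intro e he
    have := hX he
    simp only [mem_inter, mem_sdiff, mem_eset] at this
    simp only [mW]
    tauto
  obtain ⟨κ, k1, k2⟩ := exists_rep (G := G) (eset G W \ X)
  obtain ⟨lam, l1, l2⟩ := exists_rep (G := G) ((eset G (N \ A2) \ M1) \ X)
  have sub2 : eset G W \ X ⊆ (eset G (N \ A2) \ M1) \ X := by
    intro e he
    have := mM e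
    simp only [mem_sdiff, mem_eset, mW] at he ⊢
    tauto
  have sub1 : eset G W \ X ⊆ (eset G (N \ A1) \ eset G A2) \ X := by
    intro e he
    simp only [mem_sdiff, mem_eset, mW] at he ⊢
    tauto
  have kW : ∀ v, κ v ∈ W ↔ v ∈ W := fun v => by
    have := k2 Prop (fun v => v ∈ W) (fun e he => by
      have := (mem_eset.mp (mem_sdiff.mp he).1).2
      exact propext ⟨fun _ => this.2, fun _ => this.1⟩) v
    exact this.to_iff
  have kk : ∀ v, κ (κ v) = κ v := k2 V κ k1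
  have lk : ∀ v, lam (κ v) = lam v := k2 V lam (fun e he => l1 e (sub2 he))
  have jk : ∀ e a b, G.Joins e a b → e ∈ eset G W \ X → κ a = κ b := by
    rintro e a b (⟨rfl, rfl⟩ | ⟨rfl, rfl⟩) he
    · exact k1 e he
    · exact (k1 e he).symm
  have jl : ∀ e a b, G.Joins e a b → e ∈ (eset G (N \ A2) \ M1) \ X → lam a = lam b := by
    rintro e a b (⟨rfl, rfl⟩ | ⟨rfl, rfl⟩) he
    · exact l1 e he
    · exact (l1 e he).symm
  set I := W.image κ with hI
  set C := (N \ A2).image lam with hC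
  set P : V → Finset V := fun r => W.filter (fun v => κ v = r) with hP
  have mP : ∀ r v, v ∈ P r ↔ v ∈ W ∧ κ v = r := fun r v => mem_filter
  have mI : ∀ r ∈ I, r ∈ W ∧ κ r = r := by
    intro r hr
    obtain ⟨v, hv, rfl⟩ := mem_image.mp hr
    exact ⟨(kW v).mpr hv, kk v⟩
  have lI : ∀ r ∈ I, lam r ∈ C := fun r hr => mem_image_of_mem _ (by
    have := (mW r).mp (mI r hr).1
    simp [this.1.1, this.2])
  have lA : ∀ r ∈ A1, lam r ∈ C := fun r hr => mem_image_of_mem _
    (mem_sdiff.mpr ⟨c.h1 hr, disjoint_left.mp c.dj hr⟩)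
  refine ⟨C, I, lam, P, fun r hr => ⟨?_, ⟨r, (mP r r).mpr (mI r hr)⟩, ?_, ?_⟩, ?_, ?_, ?_, lI, lA,
    ?_, ?_, ?_, ?_⟩
  · exact fun v hv => mem_sdiff.mpr ((mW v).mp ((mP r v).mp hv).1).1
  · exact disjoint_left.mpr fun v hv => ((mW v).mp ((mP r v).mp hv).1).2
  · intro v hv w hw hvw
    by_contra hn
    push Not at hn
    have a := k2 Prop (fun z => z = v) (fun e he => by
      have he' := mem_eset.mp (mem_sdiff.mp he).1
      apply propext
      constructor
      · intro h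
        refine absurd ⟨h ▸ he'.1, e, Or.inl ⟨h, rfl⟩⟩ (hn (G.t e) ((mP _ _).mpr ⟨he'.2.2, ?_⟩))
        rw [← k1 e he, h]
        exact ((mP _ _).mp hv).2
      · intro h
        refine absurd ⟨h ▸ he'.1.symm, e, Or.inr ⟨rfl, h⟩⟩ (hn (G.s e) ((mP _ _).mpr ⟨he'.2.1, ?_⟩))
        rw [k1 e he, h]
        exact ((mP _ _).mp hv).2)
    have a1 := a v
    have a2 := a w
    rw [((mP _ _).mp hv).2] at a1
    rw [((mP _ _).mp hw).2] at a2
    exact hvw ((a2.symm.trans a1).mpr rfl).symm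
  · intro r _ r' _ h
    exact disjoint_left.mpr fun v h1 h2 => h (((mP _ _).mp h1).2.symm.trans ((mP _ _).mp h2).2)
  · intro z
    refine ⟨filter_subset _ _, fun e he hm => ?_⟩
    have he' := mem_eset.mp he
    have : lam (G.s e) = lam (G.t e) := by
      apply l1
      have a1 := c.h1 he'.2.1
      have a2 := c.h1 he'.2.2
      have a3 := disjoint_left.mp c.dj he'.2.1
      have a4 := disjoint_left.mp c.dj he'.2.2
      have a5 : e ∉ X := fun h => ((mW _).mp (XW e h).1).1.2 he'.2.1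
      simp [mem_eset, he'.1, a1, a2, a3, a4, a5, hm]
    simp only [mem_filter, he'.2.1, he'.2.2, this]
  · intro z hz
    obtain ⟨v, hv, rfl⟩ := mem_image.mp hz
    by_cases h : v ∈ A1
    · exact Or.inl ⟨v, mem_filter.mpr ⟨h, rfl⟩⟩
    · have : v ∈ W := (mW v).mpr ⟨⟨(mem_sdiff.mp hv).1, h⟩, (mem_sdiff.mp hv).2⟩
      exact Or.inr ⟨κ v, mem_filter.mpr ⟨mem_image_of_mem _ this, lk v⟩⟩
  · apply cc_le
    intro g hg h0 v hv
    rw [← l2 _ g hg.2 v]
    exact h0 _ (mem_image_of_mem _ hv)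
  · intro g hg
    refine ⟨fun r hr v hv => ?_, fun r hr x hx a ha hax => ?_⟩
    · rw [← ((mP _ _).mp hv).2]
      exact (k2 _ g (fun e he => hg.2 e (sub1 he)) v).symm
    · obtain ⟨hne, e, hj⟩ := hax
      have hx' := (mW x).mp ((mP _ _).mp hx).1
      have he : e ∈ (eset G (N \ A1) \ eset G A2) \ X := by
        rw [mem_sdiff, mem_sdiff, mem_eset_j hj hne, mem_eset_j hj hne]
        refine ⟨⟨⟨mem_sdiff.mpr ⟨c.h2 ha, disjoint_right.mp c.dj ha⟩, mem_sdiff.mpr hx'.1⟩,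
          fun h => hx'.2 h.2⟩, fun h => ?_⟩
        have := XW e h
        rcases hj with ⟨h1, h2⟩ | ⟨h1, h2⟩
        · exact ((mW _).mp this.1).2 (h1 ▸ ha)
        · exact ((mW _).mp this.2).2 (h2 ▸ ha)
      have := hg.2 e he
      rcases hj with ⟨h1, h2⟩ | ⟨h1, h2⟩ <;> rw [h1, h2] at this
      · exact this
      · exact this.symm
  · intro v hv h2
    have : v ∈ W := mem_sdiff.mpr ⟨hv, h2⟩
    exact ⟨κ v, mem_image_of_mem _ this, (mP _ _).mpr ⟨this, rfl⟩⟩
  · set B : V → Finset V := fun z => A1.filter (fun v => lam v = z) with hB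
    have mB : ∀ z v, v ∈ B z ↔ v ∈ A1 ∧ lam v = z := fun z v => mem_filter
    have cover : eset G N ⊆ X ∪ eset G A2 ∪ M1 ∪ C.biUnion (fun z => eset G (B z) \ M1) ∪
        I.biUnion (fun r => eset G (P r ∪ (A2 ∪ B (lam r))) \ eset G (A2 ∪ B (lam r))) := by
      intro e he
      have he' := mem_eset.mp he
      by_cases hx : e ∈ X
      · simp [hx]
      by_cases hm : e ∈ M1
      · simp [hm]
      have key : ∀ a b, G.Joins e a b → a ≠ b → b ∈ N → a ∈ W → e ∈ I.biUnion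
          (fun r => eset G (P r ∪ (A2 ∪ B (lam r))) \ eset G (A2 ∪ B (lam r))) := by
        intro a b hj hab hb ha
        have ha' := (mW a).mp ha
        refine mem_biUnion.mpr ⟨κ a, mem_image_of_mem _ ha, ?_⟩
        rw [mem_sdiff, mem_eset_j hj hab, mem_eset_j hj hab]
        simp only [mem_union, mP, mB, lk]
        refine ⟨⟨Or.inl ⟨ha, trivial⟩, ?_⟩, by tauto⟩
        by_cases b2 : b ∈ A2
        · exact Or.inr (Or.inl b2)
        by_cases b1 : b ∈ A1
        · refine Or.inr (Or.inr ⟨b1, (jl e a b hj ?_).symm⟩)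
          rw [mem_sdiff, mem_sdiff, mem_eset_j hj hab]
          simp [hx, hm, ha'.1.1, ha'.2, hb, b2]
        · have hbW : b ∈ W := (mW b).mpr ⟨⟨hb, b1⟩, b2⟩
          refine Or.inl ⟨hbW, (jk e a b hj ?_).symm⟩
          rw [mem_sdiff, mem_eset_j hj hab]
          exact ⟨⟨ha, hbW⟩, hx⟩
      by_cases s1 : G.s e ∈ W
      · exact mem_union_right _ (key _ _ (joins_self e) he'.1 he'.2.2 s1)
      by_cases s2 : G.t e ∈ W
      · exact mem_union_right _ (key _ _ (joins_self e).symm he'.1.symm he'.2.1 s2)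
      apply mem_union_left
      rw [mW] at s1 s2
      have ad := adj_of_mem he
      by_cases a1 : G.s e ∈ A1 <;> by_cases a2 : G.t e ∈ A1
      · apply mem_union_right
        refine mem_biUnion.mpr ⟨lam (G.s e), lA _ a1, ?_⟩
        have : lam (G.s e) = lam (G.t e) := by
          apply l1
          have a3 := disjoint_left.mp c.dj a1
          have a4 := disjoint_left.mp c.dj a2
          simp [mem_eset, he'.1, he'.2.1, he'.2.2, a3, a4, hx, hm]
        rw [mem_sdiff, mem_eset, mB, mB]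
        exact ⟨⟨he'.1, ⟨a1, rfl⟩, a2, this.symm⟩, hm⟩
      · exact absurd ad (c.na _ a1 _ (by tauto))
      · exact absurd ad.symm (c.na _ a2 _ (by tauto))
      · apply mem_union_left
        apply mem_union_left
        apply mem_union_right
        rw [mem_eset]
        tauto
    have c1 := card_le_card cover
    have c2 := (card_union_le _ _).trans (Nat.add_le_add ((card_union_le _ _).trans (Nat.add_le_add
      ((card_union_le _ _).trans (Nat.add_le_add_right (card_union_le X (eset G A2)) M1.card))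
      (card_biUnion_le (s := C) (t := fun z => eset G (B z) \ M1))))
      (card_biUnion_le (s := I)
        (t := fun r => eset G (P r ∪ (A2 ∪ B (lam r))) \ eset G (A2 ∪ B (lam r)))))
    have c3 : (ein G N : ℤ) ≤ X.card + ein G A2 + M1.card +
        ∑ z ∈ C, ((ein G (B z) : ℤ) - (M1 ∩ eset G (B z)).card) +
        ∑ r ∈ I, tch G (P r) (A2 ∪ B (lam r)) := by
      have e1 : ∀ z ∈ C, ((ein G (B z) : ℤ) - (M1 ∩ eset G (B z)).card) =
          ((eset G (B z) \ M1).card : ℕ) := by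
        intro z _
        have := card_sdiff_add_card_inter (eset G (B z)) M1
        rw [inter_comm] at this
        unfold ein
        omega
      have e2 : ∀ r ∈ I, tch G (P r) (A2 ∪ B (lam r)) =
          ((eset G (P r ∪ (A2 ∪ B (lam r))) \ eset G (A2 ∪ B (lam r))).card : ℕ) := by
        intro r _
        have := card_sdiff_add_card_eq_card
          (eset_mono (G := G) (subset_union_right : A2 ∪ B (lam r) ⊆ P r ∪ (A2 ∪ B (lam r))))
        unfold tch ein
        omega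
      rw [sum_congr rfl e1, sum_congr rfl e2]
      have := c1.trans c2
      unfold ein
      exact_mod_cast this
    have c4 : ∑ z ∈ C, ∑ r ∈ I.filter (fun v => lam v = z),
        (2 * ((P r).card : ℤ) - tch G (P r) (A2 ∪ B z)) =
        ∑ r ∈ I, (2 * ((P r).card : ℤ) - tch G (P r) (A2 ∪ B (lam r))) := by
      rw [← sum_fiberwise_of_maps_to lI]
      apply sum_congr rfl
      intro z _
      apply sum_congr rfl
      intro r hr
      rw [(mem_filter.mp hr).2]
    have c5 : (A1.card : ℤ) = ∑ z ∈ C, ((B z).card : ℤ) := by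
      exact_mod_cast card_eq_sum_card_fiberwise (f := lam) (s := A1) (t := C) lA
    have c6 : (W.card : ℤ) = ∑ r ∈ I, ((P r).card : ℤ) := by
      exact_mod_cast card_eq_sum_card_fiberwise (f := κ) (s := W) (t := I)
        (fun v hv => mem_image_of_mem _ hv)
    have c7 : W.card + A2.card + A1.card = N.card := by
      rw [hW, card_sdiff_add_card_eq_card, card_sdiff_add_card_eq_card c.h1]
      exact fun v hv => mem_sdiff.mpr ⟨c.h2 hv, disjoint_right.mp c.dj hv⟩
    have c8 : ∑ z ∈ C, base G M1 (B z) = A1.card - C.card -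
        ∑ z ∈ C, ((ein G (B z) : ℤ) - (M1 ∩ eset G (B z)).card) := by
      rw [c5, card_eq_sum_ones C]
      push_cast
      rw [← sum_sub_distrib, ← sum_sub_distrib]
      apply sum_congr rfl
      intro z _
      unfold base
      ring
    have c9 := c.sp.tot
    have c10 := c.cnt
    unfold Fz at c9
    rw [sum_add_distrib, c4, c8, sum_sub_distrib (s := I), ← mul_sum, ← c6]
    omega

def Good (G : MG V E) (N A1 : Finset V) (M1 : Finset E) (p : V) : Prop :=
  ∀ B, Closed G A1 M1 B → B.Nonempty → GoodB G (N \ A1) (base G M1 B) (p ∈ B) B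

theorem Good.goodF (sp : Sp G N f) {p : V} (h : Good G N A1 M1 p) {B : Finset V}
    (hB : Closed G A1 M1 B) : GoodF G (N \ A1) (base G M1 B) (p ∈ B) B := by
  rcases B.eq_empty_or_nonempty with rfl | hne
  · have : base G M1 ∅ = -1 := by simp [base, ein_empty, eset]
    rw [this]
    exact goodF_empty sp sdiff_subset _
  · exact (h B hB hne).goodF

theorem sum_split {C I : Finset V} {lam : V → V} (lI : ∀ r ∈ I, lam r ∈ C) (b : V → ℤ)
    (A : V → V → ℤ) (χ : V → Prop) [DecidablePred χ] :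
    ∑ z ∈ C, (b z + ∑ r ∈ I.filter (fun v => lam v = z), (A r z - if χ r then 1 else 0)) =
      ∑ z ∈ C, (b z + ∑ r ∈ I.filter (fun v => lam v = z), A r z) - (I.filter χ).card := by
  have : ((I.filter χ).card : ℤ) =
      ∑ z ∈ C, ∑ r ∈ I.filter (fun v => lam v = z), if χ r then 1 else 0 := by
    rw [sum_fiberwise_of_maps_to lI, card_filter]
    push_cast
    rfl
  rw [this, ← sum_sub_distrib]
  apply sum_congr rfl
  intro z _
  rw [sum_sub_distrib]
  ring

theorem cond_V {u p : V} (c : Cfg G N f A1 {u} M1) (hg : Good G N A1 M1 p) (X : Finset E)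
    (hX : X ⊆ (eset G (N \ A1) \ eset G {u}) ∩ (eset G (N \ {u}) \ M1)) :
    cc G (N \ A1) ((eset G (N \ A1) \ eset G {u}) \ X) +
      cc G (N \ {u}) ((eset G (N \ {u}) \ M1) \ X) ≤ X.card + 2 := by
  obtain ⟨C, I, lam, P, a1, a2, a3, a4, a5, -, a6, a7, a8, a9⟩ := acc c X hX
  have hu : u ∈ N \ A1 := mem_sdiff.mpr ⟨c.h2 (by simp), disjoint_right.mp c.dj (by simp)⟩
  have b1 : 0 ≤ ∑ z ∈ C, (base G M1 (A1.filter (fun v => lam v = z)) +
      ∑ r ∈ I.filter (fun v => lam v = z),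
        ((2 * ((P r).card : ℤ) - tch G (P r) ({u} ∪ A1.filter (fun v => lam v = z))) -
          if dg G u (P r) = 0 then 1 else 0)) := by
    apply sum_nonneg
    intro z hz
    refine class_V c.sp.gi (hg.goodF c.sp (a3 z)) (sdiff_disjoint.mono_right (filter_subset _ _)) hu
      _ P (fun r hr => ?_) (fun r hr r' hr' => a2 r (mem_filter.mp hr).1 r' (mem_filter.mp hr').1)
      (a4 z hz)
    obtain ⟨b1, b2, b3, b4⟩ := a1 r (mem_filter.mp hr).1
    exact ⟨b1, b2, by simpa using b3, b4⟩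
  rw [sum_split a5 _ (fun r z => 2 * ((P r).card : ℤ) -
    tch G (P r) ({u} ∪ A1.filter (fun v => lam v = z))) (fun r => dg G u (P r) = 0)] at b1
  have b2 : cc G (N \ A1) ((eset G (N \ A1) \ eset G {u}) \ X) ≤
      (insert u (I.filter (fun r => dg G u (P r) = 0))).card := by
    apply cc_le
    intro g hg h0 v hv
    obtain ⟨g1, g2⟩ := a7 g hg
    have gu := h0 u (mem_insert_self _ _)
    by_cases hvu : v = u
    · rw [hvu, gu]
    obtain ⟨r, hr, hvr⟩ := a8 v hv (by simpa using hvu)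
    rw [g1 r hr v hvr]
    by_cases h : dg G u (P r) = 0
    · exact h0 r (mem_insert_of_mem (mem_filter.mpr ⟨hr, h⟩))
    · obtain ⟨x, hx, hux⟩ := dg_pos.mp (Nat.pos_of_ne_zero h)
      rw [← g1 r hr x hx, ← g2 r hr x hx u (by simp) hux, gu]
  have b3 := card_insert_le u (I.filter (fun r => dg G u (P r) = 0))
  rw [card_singleton, ein_single] at a9
  omega

theorem cond_E {x y p : V} (c : Cfg G N f A1 {x, y} M1) (hxy : Adj G x y) (hg : Good G N A1 M1 p)
    (X : Finset E)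
    (hX : X ⊆ (eset G (N \ A1) \ eset G {x, y}) ∩ (eset G (N \ {x, y}) \ M1)) :
    cc G (N \ A1) ((eset G (N \ A1) \ eset G {x, y}) \ X) +
      cc G (N \ {x, y}) ((eset G (N \ {x, y}) \ M1) \ X) ≤ X.card + 2 := by
  obtain ⟨C, I, lam, P, a1, a2, a3, a4, a5, -, a6, a7, a8, a9⟩ := acc c X hX
  have hx : x ∈ N \ A1 := mem_sdiff.mpr ⟨c.h2 (by simp), disjoint_right.mp c.dj (by simp)⟩
  have hy : y ∈ N \ A1 := mem_sdiff.mpr ⟨c.h2 (by simp), disjoint_right.mp c.dj (by simp)⟩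
  set T : V → ℤ := fun z => base G M1 (A1.filter (fun v => lam v = z)) +
      ∑ r ∈ I.filter (fun v => lam v = z),
        ((2 * ((P r).card : ℤ) - tch G (P r) ({x, y} ∪ A1.filter (fun v => lam v = z))) -
          if dg G x (P r) + dg G y (P r) = 0 then 1 else 0) with hT
  have b0 : ∀ z ∈ C, -1 ≤ T z ∧ (¬ p ∈ A1.filter (fun v => lam v = z) → 0 ≤ T z) ∧
      ((∀ r ∈ I.filter (fun v => lam v = z), dg G x (P r) = 0 ∨ dg G y (P r) = 0) → 0 ≤ T z) := by
    intro z hz
    refine class_E c.sp.gi (hg.goodF c.sp (a3 z)) (sdiff_disjoint.mono_right (filter_subset _ _))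
      hx hy hxy _ P (fun r hr => ?_)
      (fun r hr r' hr' => a2 r (mem_filter.mp hr).1 r' (mem_filter.mp hr').1) (a4 z hz) _ rfl
    obtain ⟨b1, b2, b3, b4⟩ := a1 r (mem_filter.mp hr).1
    exact ⟨b1, b2, by simpa using b3, b4⟩
  have b1 := sum_split a5 (fun z => base G M1 (A1.filter (fun v => lam v = z)))
    (fun r z => 2 * ((P r).card : ℤ) - tch G (P r) ({x, y} ∪ A1.filter (fun v => lam v = z)))
    (fun r => dg G x (P r) + dg G y (P r) = 0)
  change ∑ z ∈ C, T z = _ at b1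
  have b2 : ∀ R : Finset V, I.filter (fun r => dg G x (P r) + dg G y (P r) = 0) ⊆ R →
      (∀ g ∈ zsp G (N \ A1) ((eset G (N \ A1) \ eset G {x, y}) \ X), (∀ r ∈ R, g r = 0) →
        g x = 0 ∧ g y = 0) →
      cc G (N \ A1) ((eset G (N \ A1) \ eset G {x, y}) \ X) ≤ R.card := by
    intro R hR hR'
    apply cc_le
    intro g hg h0 v hv
    obtain ⟨g1, g2⟩ := a7 g hg
    obtain ⟨gx, gy⟩ := hR' g hg h0
    by_cases hvx : v = x
    · rw [hvx, gx]
    by_cases hvy : v = y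
    · rw [hvy, gy]
    obtain ⟨r, hr, hvr⟩ := a8 v hv (by simp [hvx, hvy])
    rw [g1 r hr v hvr]
    by_cases h : dg G x (P r) + dg G y (P r) = 0
    · exact h0 r (hR (mem_filter.mpr ⟨hr, h⟩))
    · by_cases h' : dg G x (P r) = 0
      · obtain ⟨w, hw, hyw⟩ := dg_pos.mp (show 0 < dg G y (P r) by omega)
        rw [← g1 r hr w hw, ← g2 r hr w hw y (by simp) hyw, gy]
      · obtain ⟨w, hw, hyw⟩ := dg_pos.mp (show 0 < dg G x (P r) by omega)
        rw [← g1 r hr w hw, ← g2 r hr w hw x (by simp) hyw, gx]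
  rw [card_pair hxy.ne, ein_pair c.sp.gi.np hxy] at a9
  by_cases hγ : ∀ r ∈ I, dg G x (P r) = 0 ∨ dg G y (P r) = 0
  · have b3 : 0 ≤ ∑ z ∈ C, T z :=
      sum_nonneg fun z hz => (b0 z hz).2.2 fun r hr => hγ r (mem_filter.mp hr).1
    have b4 := b2 (insert x (insert y (I.filter (fun r => dg G x (P r) + dg G y (P r) = 0))))
      ((subset_insert _ _).trans (subset_insert _ _))
      (fun g _ h0 => ⟨h0 x (by simp), h0 y (by simp)⟩)
    have b5 := card_insert_le x (insert y (I.filter (fun r => dg G x (P r) + dg G y (P r) = 0)))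
    have b6 := card_insert_le y (I.filter (fun r => dg G x (P r) + dg G y (P r) = 0))
    omega
  · push Not at hγ
    obtain ⟨r, hr, h1, h2⟩ := hγ
    have b3 : ∑ z ∈ C, (if lam p = z then (-1 : ℤ) else 0) ≤ ∑ z ∈ C, T z := by
      apply sum_le_sum
      intro z hz
      split_ifs with h
      · exact (b0 z hz).1
      · exact (b0 z hz).2.1 fun h' => h (mem_filter.mp h').2
    rw [sum_ite_eq] at b3
    have b3' : -1 ≤ ∑ z ∈ C, T z := by
      split_ifs at b3 <;> omega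
    have b4 := b2 (insert x (I.filter (fun r => dg G x (P r) + dg G y (P r) = 0)))
      (subset_insert _ _) (fun g hg h0 => by
        obtain ⟨g1, g2⟩ := a7 g hg
        obtain ⟨w, hw, hxw⟩ := dg_pos.mp (Nat.pos_of_ne_zero h1)
        obtain ⟨w', hw', hyw⟩ := dg_pos.mp (Nat.pos_of_ne_zero h2)
        have gx := h0 x (by simp)
        refine ⟨gx, ?_⟩
        rw [g2 r hr w' hw' y (by simp) hyw, g1 r hr w' hw', ← g1 r hr w hw,
          ← g2 r hr w hw x (by simp) hxw, gx])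
    have b5 := card_insert_le x (I.filter (fun r => dg G x (P r) + dg G y (P r) = 0))
    omega

def ind (M : Finset E) (e : E) : ZMod 2 := if e ∈ M then 1 else 0

theorem sum_df_zero {M : Type} [AddCommGroup M] (h2 : ∀ x : M, x + x = 0) (φ : E → M) :
    ∑ v, G.df φ v = 0 := by
  have := sum_cut (G := G) h2 φ Set.univ
  simp only [Set.mem_univ, filter_true] at this
  unfold df
  rw [← this]
  apply sum_eq_zero
  intro e he
  simp [MG.mem_cut] at he

theorem df_ind_off {A : Finset V} {M : Finset E} (hM : M ⊆ eset G A) {v : V} (hv : v ∉ A) :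
    G.df (ind M) v = 0 := by
  apply sum_eq_zero
  intro e he
  rw [mem_cut_single] at he
  unfold ind
  rw [if_neg]
  intro h
  have := mem_eset.mp (hM h)
  rcases he.2 with h | h
  · exact hv (h ▸ this.2.1)
  · exact hv (h ▸ this.2.2)

theorem join_with {A : Finset V} {M T : Finset E} (hM : M ⊆ eset G A) (hA : A ⊆ N)
    (hT : T ⊆ eset G (N \ A)) (hc : cc G (N \ A) T ≤ 1) (u : V → ZMod 2)
    (h0 : ∀ v, v ∉ N → u v = 0) (hs : ∑ v, u v = 0) (hu : ∀ v ∈ A, G.df (ind M) v = u v) :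
    ∃ J : E → ZMod 2, (∀ e, e ∉ T → e ∉ M → J e = 0) ∧ ∀ v, G.df J v = u v := by
  obtain ⟨J, j1, j2⟩ := exists_join (G := G) (W := N \ A) (S := T)
    (fun e he => by have := mem_eset.mp (hT he); simp only [this.2.1, this.2.2]) hc
    (fun v => u v + G.df (ind M) v) (fun v hv => by
      by_cases h : v ∈ A
      · rw [hu v h, zmod2_add_self]
      · rw [df_ind_off hM h, h0 v (fun h' => hv (mem_sdiff.mpr ⟨h', h⟩)), add_zero])
    (by rw [sum_add_distrib, hs, sum_df_zero zmod2_add_self, add_zero])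
  refine ⟨fun e => J e + ind M e, fun e h1 h2 => by simp [j1 e h1, ind, h2], fun v => ?_⟩
  rw [df_add, j2, add_assoc, zmod2_add_self, add_zero]

theorem joins_of_cond (c : Cfg G N f A1 A2 M1) (hne : A2.Nonempty)
    (hc : ∀ X ⊆ (eset G (N \ A1) \ eset G A2) ∩ (eset G (N \ A2) \ M1),
      cc G (N \ A1) ((eset G (N \ A1) \ eset G A2) \ X) +
      cc G (N \ A2) ((eset G (N \ A2) \ M1) \ X) ≤ X.card + 2)
    (u1 u2 : V → ZMod 2) (z1 : ∀ v, v ∉ N → u1 v = 0) (z2 : ∀ v, v ∉ N → u2 v = 0)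
    (s1 : ∑ v, u1 v = 0) (s2 : ∑ v, u2 v = 0) (h1 : ∀ v ∈ A1, G.df (ind M1) v = u1 v)
    (h2 : ∀ v ∈ A2, G.df (ind (eset G A2)) v = u2 v) :
    ∃ J1 J2 : E → ZMod 2, (∀ e, J1 e = 0 ∨ J2 e = 0) ∧ (∀ v, G.df J1 v = u1 v) ∧
      ∀ v, G.df J2 v = u2 v := by
  obtain ⟨T1, t1, T2, t2, t3, t4⟩ := pack _ _ (cc_super (G := G) (N \ A1)) (cc_super (G := G) (N \ A2))
    2 _ _ _ rfl hc
  have t1' : T1 ⊆ eset G (N \ A1) := t1.trans sdiff_subset
  have t2' : T2 ⊆ eset G (N \ A2) := t2.trans sdiff_subset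
  have n1 : 1 ≤ cc G (N \ A1) T1 := by
    obtain ⟨v, hv⟩ := hne
    exact one_le_cc ⟨v, mem_sdiff.mpr ⟨c.h2 hv, disjoint_right.mp c.dj hv⟩⟩
      (fun e he => by have := mem_eset.mp (t1' he); simp only [this.2.1, this.2.2])
  have n2 : 1 ≤ cc G (N \ A2) T2 := by
    obtain ⟨v, hv⟩ : A1.Nonempty := card_pos.mp (by have := c.cnt; have := c.sp.f2; omega)
    exact one_le_cc ⟨v, mem_sdiff.mpr ⟨c.h1 hv, disjoint_left.mp c.dj hv⟩⟩
      (fun e he => by have := mem_eset.mp (t2' he); simp only [this.2.1, this.2.2])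
  obtain ⟨J1, j1, j2⟩ := join_with c.hm c.h1 t1' (by omega) u1 z1 s1 h1
  obtain ⟨J2, j3, j4⟩ := join_with Subset.rfl c.h2 t2' (by omega) u2 z2 s2 h2
  refine ⟨J1, J2, fun e => ?_, j2, j4⟩
  by_cases a : e ∈ T1
  · exact Or.inr (j3 e (disjoint_left.mp t3 a) (mem_sdiff.mp (t1 a)).2)
  by_cases b : e ∈ M1
  · refine Or.inr (j3 e (fun h => (mem_sdiff.mp (t2 h)).2 b) (fun h => ?_))
    exact disjoint_left.mp c.dj (mem_eset.mp (c.hm b)).2.1 (mem_eset.mp h).2.1
  · exact Or.inl (j1 e a b)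

def Feas (G : MG V E) (β : V → K) : Prop := ∃ φ : E → K, (∀ e, φ e ≠ 0) ∧ ∀ v, G.df φ v = β v

def UU (G : MG V E) (β : V → K) (x : K) (v : V) : ZMod 2 := lam x (β v) + (G.d {v} : ZMod 2)

theorem df_one (v : V) : G.df (fun _ => (1 : ZMod 2)) v = (G.d {v} : ZMod 2) := by
  simp [df, MG.d]

theorem feas_of_joins {β : V → K} {a b : K} (ha : a ≠ 0) (hb : b ≠ 0) (hab : a ≠ b)
    {J1 J2 : E → ZMod 2} (h : ∀ e, J1 e = 0 ∨ J2 e = 0) (h1 : ∀ v, G.df J1 v = UU G β a v)
    (h2 : ∀ v, G.df J2 v = UU G β b v) : Feas G β := by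
  refine ⟨fun e => sm 1 (a + b) + (sm (J1 e) b + sm (J2 e) a), fun e => ?_, fun v => ?_⟩
  · have : ∀ (a b : K) (i j : ZMod 2), a ≠ 0 → b ≠ 0 → a ≠ b → (i = 0 ∨ j = 0) →
        sm 1 (a + b) + (sm i b + sm j a) ≠ 0 := by decide
    exact this a b _ _ ha hb hab (h e)
  · rw [df_add, df_add, df_hom (fun j => sm j b) (fun i j => sm_add b i j),
      df_hom (fun j => sm j a) (fun i j => sm_add a i j),
      df_hom (fun j => sm j (a + b)) (fun i j => sm_add (a + b) i j) (fun _ => 1), h1, h2, df_one]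
    have : ∀ (a b x : K) (j : ZMod 2), a ≠ 0 → b ≠ 0 → a ≠ b →
        sm j (a + b) + (sm (lam a x + j) b + sm (lam b x + j) a) = x := by decide
    exact this a b _ _ ha hb hab

theorem Sp.d_eq (h : Sp G N f) (v : V) : G.d {v} = dg G v N := by
  rw [d_eq_dg h.gi.np]
  unfold dg
  congr 1
  ext w
  simp only [mem_filter, mem_univ, true_and]
  exact ⟨fun a => ⟨h.adj_mem a, a⟩, fun a => a.2⟩

theorem UU_off (h : Sp G N f) {β : V → K} (hβ : ∀ v, v ∉ N → β v = 0) (x : K) (v : V)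
    (hv : v ∉ N) : UU G β x v = 0 := by
  have : dg G v N = 0 := dg_eq_zero.mpr fun w _ a => hv (h.adj_mem a.symm)
  simp [UU, hβ v hv, h.d_eq, this, lam]

theorem UU_sum {β : V → K} (hβ : ∑ v, β v = 0) {x : K} (hx : x ≠ 0) : ∑ v, UU G β x v = 0 := by
  unfold UU
  rw [sum_add_distrib]
  have h1 := map_sum (AddMonoidHom.mk' (lam x) (lam_add x hx)) β univ
  simp only [AddMonoidHom.mk'_apply, hβ] at h1
  rw [← h1]
  simp only [← df_one]
  rw [sum_df_zero zmod2_add_self]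
  simp [lam]

theorem eset_pair (np : G.NoPar) {e : E} {x y : V} (hj : G.Joins e x y) (hxy : x ≠ y) :
    eset G {x, y} = {e} := by
  have h1 := ein_pair np ⟨hxy, e, hj⟩
  obtain ⟨a, ha⟩ := card_eq_one.mp h1
  have : e ∈ eset G {x, y} := (mem_eset_j hj hxy).mpr (by simp)
  rw [ha] at this ⊢
  rw [mem_singleton.mp this]

theorem df_ind_single {e : E} {x y : V} (hj : G.Joins e x y) (v : V) :
    G.df (ind {e}) v = (if v = x then 1 else 0) + (if v = y then 1 else 0) := by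
  rw [← df_single zmod2_add_self hj]
  congr 1
  ext g
  simp [ind]

/-- items of class `a` on `A1`, and a far edge -/
theorem feas_far (sp : Sp G N f) {β : V → K} (hβ : ∀ v, v ∉ N → β v = 0) (hs : ∑ v, β v = 0)
    {a : K} (ha : a ≠ 0) {p : V} (h1 : A1 ⊆ N) (hm : M1 ⊆ eset G A1)
    (cnt : A1.card + 1 = M1.card + f) (hg : Good G N A1 M1 p)
    (hu : ∀ v ∈ A1, G.df (ind M1) v = UU G β a v) {x y : V} (hxy : Adj G x y)
    (hx : ∀ v ∈ A1, v ≠ x ∧ ¬ Adj G v x) (hy : ∀ v ∈ A1, v ≠ y ∧ ¬ Adj G v y) : Feas G β := by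
  obtain ⟨b, hb, hab⟩ := (by decide : ∀ a : K, ∃ b, b ≠ 0 ∧ a ≠ b) a
  have vert : ∀ u ∈ N, (∀ v ∈ A1, v ≠ u ∧ ¬ Adj G v u) → UU G β b u = 0 → Feas G β := by
    intro u hN hu' h0
    have c : Cfg G N f A1 {u} M1 := ⟨sp, h1, by simpa using hN,
      disjoint_left.mpr fun v hv => by simpa using (hu' v hv).1,
      fun v hv w hw => by rw [mem_singleton.mp hw]; exact (hu' v hv).2, hm, cnt⟩
    obtain ⟨J1, J2, j1, j2, j3⟩ := joins_of_cond c (singleton_nonempty _) (cond_V c hg) _ _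
      (UU_off sp hβ a) (UU_off sp hβ b) (UU_sum hs ha) (UU_sum hs hb) hu (fun v hv => by
        rw [mem_singleton.mp hv, h0, card_eq_zero.mp (ein_single u)]
        simp [df, ind])
    exact feas_of_joins ha hb hab j1 j2 j3
  rcases zmod2_cases (UU G β b x) with bx | bx
  · exact vert x (sp.adj_mem hxy.symm) hx bx
  rcases zmod2_cases (UU G β b y) with b2 | b2
  · exact vert y (sp.adj_mem hxy) hy b2
  have c : Cfg G N f A1 {x, y} M1 := ⟨sp, h1,
    by simp [insert_subset_iff, sp.adj_mem hxy.symm, sp.adj_mem hxy],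
    disjoint_left.mpr fun v hv => by simp [(hx v hv).1, (hy v hv).1],
    fun v hv w hw => by
      rw [mem_insert, mem_singleton] at hw
      rcases hw with rfl | rfl
      · exact (hx v hv).2
      · exact (hy v hv).2, hm, cnt⟩
  obtain ⟨J1, J2, j1, j2, j3⟩ := joins_of_cond c (insert_nonempty _ _) (cond_E c hxy hg) _ _
    (UU_off sp hβ a) (UU_off sp hβ b) (UU_sum hs ha) (UU_sum hs hb) hu (fun v hv => by
      obtain ⟨hne, e, hj⟩ := hxy
      rw [eset_pair sp.gi.np hj hne, df_ind_single hj]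
      rw [mem_insert, mem_singleton] at hv
      rcases hv with rfl | rfl
      · simp [hne, bx]
      · simp [hne.symm, b2])
  exact feas_of_joins ha hb hab j1 j2 j3

end

end Pool.Agent.Lib.CF64
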