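import Pool.Agent.Lib.CF64.Plus

set_option linter.unusedSectionVars false
set_option linter.unusedVariables false
set_option linter.unusedSimpArgs false

namespace Pool.Agent.Lib.CF64

open Finset Pool.Agent.Lib.MP_aa6b05_co Pool.Agent.Lib.MP_aa6b05_co.MG

open scoped Classical

noncomputable section

variable {V E : Type} [Fintype V] [Fintype E] {G : MG V E} {N : Finset V} {f : ℕ}

def rho (Y : Finset V) (p y v : V) : V := if v ∈ Y.erase p then y else v

/-- contract `Y - p` to `y` and keep only the edge `e1` inside `Y` -/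
def shr (G : MG V E) (Y : Finset V) (p y : V) (e1 : E) : MG V E where
  s := fun e => if e ∈ (eset G Y).erase e1 then p else rho Y p y (G.s e)
  t := fun e => if e ∈ (eset G Y).erase e1 then p else rho Y p y (G.t e)

structure Shr (G : MG V E) (N Y : Finset V) (p y w : V) (e1 e2 : E) : Prop where
  hN : ∀ e, G.s e ≠ G.t e → G.s e ∈ N ∧ G.t e ∈ N
  sp : ∀ Z ⊆ N, (1 ≤ Z.card → 0 ≤ Fz G Z) ∧ (2 ≤ Z.card → 1 ≤ Fz G Z) ∧ (4 ≤ Z.card → 3 ≤ Fz G Z)
  hY : Y ⊆ N
  c4 : 4 ≤ Y.card
  FY : Fz G Y ≤ 3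
  FN : Fz G N ≤ 3
  hp : p ∈ Y
  hy : y ∈ Y
  py : p ≠ y
  j1 : G.Joins e1 p y
  hw : w ∉ Y
  j2 : G.Joins e2 p w

variable {Y : Finset V} {p y w : V} {e1 e2 : E}

theorem rho_p : rho Y p y p = p := by simp [rho]

theorem rho_y : rho Y p y y = y := by simp [rho]

theorem rho_off {v : V} (h : v ∉ Y) : rho Y p y v = v := by simp [rho, h]

theorem rho_cases (v : V) : rho Y p y v = v ∨ (rho Y p y v = y ∧ v ∈ Y ∧ v ≠ p) := by
  unfold rho
  split_ifs with h
  · exact Or.inr ⟨rfl, (mem_erase.mp h).2, (mem_erase.mp h).1⟩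
  · exact Or.inl rfl

theorem mem_shr {K : Finset V} {e : E} : e ∈ eset (shr G Y p y e1) K ↔
    e ∉ (eset G Y).erase e1 ∧ rho Y p y (G.s e) ≠ rho Y p y (G.t e) ∧ rho Y p y (G.s e) ∈ K ∧
      rho Y p y (G.t e) ∈ K := by
  rw [mem_eset]
  unfold shr
  dsimp only
  split_ifs with h
  · simp [h]
  · simp only [h, not_false_iff, true_and]

theorem shr_joins {e : E} {a b : V} (h : e ∉ (eset G Y).erase e1) (hj : G.Joins e a b) :
    (shr G Y p y e1).Joins e (rho Y p y a) (rho Y p y b) := by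
  unfold Joins shr
  simp only [h, if_false]
  rcases hj with ⟨h1, h2⟩ | ⟨h1, h2⟩ <;> simp [h1, h2]

theorem Shr.rho_mem (h : Shr G N Y p y w e1 e2) {v : V} (hv : v ∈ N) :
    rho Y p y v ∈ N \ (Y.erase p).erase y := by
  unfold rho
  split_ifs with a
  · simp [h.hY h.hy]
  · exact mem_sdiff.mpr ⟨hv, fun b => a (mem_erase.mp b).2⟩

theorem Shr.hN' (h : Shr G N Y p y w e1 e2) (e : E)
    (he : (shr G Y p y e1).s e ≠ (shr G Y p y e1).t e) :
    (shr G Y p y e1).s e ∈ N \ (Y.erase p).erase y ∧ (shr G Y p y e1).t e ∈ N \ (Y.erase p).erase y := by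
  unfold shr at *
  dsimp only at *
  split_ifs at * with a
  · exact absurd rfl he
  · have := h.hN e (fun b => he (by rw [b]))
    exact ⟨h.rho_mem this.1, h.rho_mem this.2⟩

theorem Shr.F_ge (h : Shr G N Y p y w e1 e2) {K : Finset V} (hK : K ⊆ N) :
    (1 ≤ K.card → 0 ≤ Fz (shr G Y p y e1) K) ∧ (y ∉ K → 2 ≤ K.card → 1 ≤ Fz (shr G Y p y e1) K) ∧
      (p ∈ K → y ∈ K → 1 ≤ Fz (shr G Y p y e1) K) := by
  by_cases hy : y ∈ K
  · have a1 : eset (shr G Y p y e1) K ⊆
        (eset G (K ∪ Y) \ eset G Y) ∪ (if p ∈ K then {e1} else ∅) := by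
      intro e he
      obtain ⟨b1, b2, b3, b4⟩ := mem_shr.mp he
      by_cases c : e = e1
      · subst c
        have : p ∈ K := by
          rcases h.j1 with ⟨c1, c2⟩ | ⟨c1, c2⟩
          · rwa [c1, rho_p] at b3
          · rwa [c2, rho_p] at b4
        simp [this]
      · refine mem_union_left _ (mem_sdiff.mpr ⟨mem_eset.mpr ⟨fun d => b2 (by rw [d]), ?_, ?_⟩,
          fun d => b1 (mem_erase.mpr ⟨c, d⟩)⟩)
        · rcases rho_cases (Y := Y) (p := p) (y := y) (G.s e) with d | d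
          · exact mem_union_left _ (d ▸ b3)
          · exact mem_union_right _ d.2.1
        · rcases rho_cases (Y := Y) (p := p) (y := y) (G.t e) with d | d
          · exact mem_union_left _ (d ▸ b4)
          · exact mem_union_right _ d.2.1
    have a2 := (card_le_card a1).trans (card_union_le _ _)
    have a3 := card_sdiff_add_card_eq_card (eset_mono (G := G) (subset_union_right : Y ⊆ K ∪ Y))
    have a4 := (h.sp (K ∪ Y) (union_subset hK h.hY)).2.2
      (h.c4.trans (card_le_card subset_union_right))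
    have a5 := h.FY
    have a6 := card_union_add_card_inter K Y
    have a7 : 0 < (K ∩ Y).card := card_pos.mpr ⟨y, mem_inter.mpr ⟨hy, h.hy⟩⟩
    unfold Fz ein at *
    by_cases hp : p ∈ K
    · have a8 : 1 < (K ∩ Y).card :=
        one_lt_card.mpr ⟨p, mem_inter.mpr ⟨hp, h.hp⟩, y, mem_inter.mpr ⟨hy, h.hy⟩, h.py⟩
      rw [if_pos hp, card_singleton] at a2
      omega
    · rw [if_neg hp, card_empty] at a2
      exact ⟨fun _ => by omega, fun a => absurd hy a, fun a => absurd a hp⟩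
  · have a1 : eset (shr G Y p y e1) K ⊆ eset G K := by
      intro e he
      obtain ⟨b1, b2, b3, b4⟩ := mem_shr.mp he
      refine mem_eset.mpr ⟨fun d => b2 (by rw [d]), ?_, ?_⟩
      · rcases rho_cases (Y := Y) (p := p) (y := y) (G.s e) with d | d
        · exact d ▸ b3
        · exact absurd (d.1 ▸ b3) hy
      · rcases rho_cases (Y := Y) (p := p) (y := y) (G.t e) with d | d
        · exact d ▸ b4
        · exact absurd (d.1 ▸ b4) hy
    have a2 := card_le_card a1
    have a3 := h.sp K hK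
    unfold Fz ein at *
    exact ⟨fun _ => by omega, fun _ _ => by omega, fun _ a => absurd a hy⟩

theorem Shr.F_le (h : Shr G N Y p y w e1 e2) :
    Fz (shr G Y p y e1) (N \ (Y.erase p).erase y) ≤ 1 := by
  have m1 : e1 ∈ eset G Y := (mem_eset_j h.j1 h.py).mpr ⟨h.hp, h.hy⟩
  have a1 : insert e1 (eset G N \ eset G Y) ⊆ eset (shr G Y p y e1) (N \ (Y.erase p).erase y) := by
    intro e he
    rcases mem_insert.mp he with rfl | he
    · have := shr_joins (Y := Y) (p := p) (y := y) (notMem_erase e _) h.j1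
      rw [mem_eset_j this (by rw [rho_p, rho_y]; exact h.py)]
      exact ⟨h.rho_mem (h.hY h.hp), h.rho_mem (h.hY h.hy)⟩
    · obtain ⟨b1, b2⟩ := mem_sdiff.mp he
      obtain ⟨b3, b4, b5⟩ := mem_eset.mp b1
      refine mem_shr.mpr ⟨fun c => b2 (mem_erase.mp c).2, fun c => b2 (mem_eset.mpr ⟨b3, ?_⟩),
        h.rho_mem b4, h.rho_mem b5⟩
      have := h.hy
      rcases rho_cases (Y := Y) (p := p) (y := y) (G.s e) with d | d <;>
        rcases rho_cases (Y := Y) (p := p) (y := y) (G.t e) with d' | d'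
      · exact absurd (d.symm.trans (c.trans d')) b3
      · exact ⟨(d.symm.trans (c.trans d'.1)) ▸ this, d'.2.1⟩
      · exact ⟨d.2.1, (d'.symm.trans (c.symm.trans d.1)) ▸ this⟩
      · exact ⟨d.2.1, d'.2.1⟩
  have a2 := card_le_card a1
  rw [card_insert_of_notMem (by simp [m1])] at a2
  have a3 := card_sdiff_add_card_eq_card (eset_mono (G := G) h.hY)
  have a4 := card_sdiff_add_card_eq_card
    ((erase_subset y _).trans ((erase_subset p Y).trans h.hY))
  have a5 := card_erase_add_one (mem_erase.mpr ⟨h.py.symm, h.hy⟩)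
  have a6 := card_erase_add_one h.hp
  have a7 := (h.sp Y h.hY).2.2 h.c4
  have a8 := h.FN
  unfold Fz ein at *
  omega

theorem Shr.hyp (h : Shr G N Y p y w e1 e2) : Hyp 1 (shr G Y p y e1) :=
  hyp_of_sparse h.hN' (fun K hK hne => (h.F_ge (hK.trans sdiff_subset)).1 (card_pos.mpr hne)) h.F_le

theorem Shr.bl (h : Shr G N Y p y w e1 e2) : (shr G Y p y e1).Bl := by
  have key : ∀ X : Set V, y ∉ X → (shr G Y p y e1).d X ≠ 1 := by
    intro X hX
    set M := N \ (Y.erase p).erase y with hM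
    by_cases a : ∀ v ∈ M, v ∉ X
    · rw [d_zero h.hN' a]
      simp
    push Not at a
    obtain ⟨u, hu, a⟩ := a
    have pM : p ∈ M := by simp [hM, h.hY h.hp]
    have yM : y ∈ M := by simp [hM, h.hY h.hy]
    have c1 := d_ge (G := shr G Y p y e1) M X
    have c2 := h.F_ge ((filter_subset (fun v => v ∈ X) M).trans sdiff_subset)
    have c3 := h.F_ge ((filter_subset (fun v => v ∉ X) M).trans sdiff_subset)
    have c5 : 0 < (M.filter (fun v => v ∈ X)).card := card_pos.mpr ⟨u, mem_filter.mpr ⟨hu, a⟩⟩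
    have c6 : 0 < (M.filter (fun v => v ∉ X)).card := card_pos.mpr ⟨y, mem_filter.mpr ⟨yM, hX⟩⟩
    have c7 := h.F_le
    rw [← hM] at c7
    by_cases hp : p ∈ X
    swap
    · have := c3.2.2 (mem_filter.mpr ⟨pM, hp⟩) (mem_filter.mpr ⟨yM, hX⟩)
      omega
    by_cases c8 : 2 ≤ (M.filter (fun v => v ∈ X)).card
    · have := c2.2.1 (fun b => hX (mem_filter.mp b).2) c8
      omega
    have pw : p ≠ w := fun b => h.hw (b ▸ h.hp)
    have wX : w ∉ X := by
      intro b
      have wN : w ∈ N := NIs_sub h.hN (mem_NIs.mpr (h.j2.ni' pw))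
      exact pw (card_le_one.mp (show (M.filter (fun v => v ∈ X)).card ≤ 1 by omega) p
        (mem_filter.mpr ⟨pM, hp⟩) w (mem_filter.mpr ⟨by simp [hM, wN, h.hw], b⟩))
    have n2 : e2 ∉ eset G Y := fun b => h.hw ((mem_eset_j h.j2 pw).mp b).2
    have k1 := shr_joins (Y := Y) (p := p) (y := y) (notMem_erase e1 _) h.j1
    have k2 := shr_joins (Y := Y) (p := p) (y := y) (e1 := e1)
      (fun b => n2 (mem_erase.mp b).2) h.j2
    rw [rho_p, rho_y] at k1
    rw [rho_p, rho_off h.hw] at k2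
    have : 1 < (shr G Y p y e1).d X := one_lt_card.mpr ⟨e1, k1.mem_cut.mpr (by simp [hp, hX]), e2,
      k2.mem_cut.mpr (by simp [hp, wX]),
      fun b => n2 (b ▸ (mem_eset_j h.j1 h.py).mpr ⟨h.hp, h.hy⟩)⟩
    omega
  intro X
  by_cases a : y ∈ X
  · rw [← d_compl]
    exact key _ (by simpa using a)
  · exact key X a

theorem Shr.m_lt (h : Shr G N Y p y w e1 e2) : (shr G Y p y e1).m < G.m := by
  obtain ⟨e, he⟩ : ((eset G Y).erase e1).Nonempty := by
    have a1 := h.FY
    have a2 := h.c4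
    have a3 := pred_card_le_card_erase (s := eset G Y) (a := e1)
    unfold Fz ein at a1
    exact card_pos.mp (by omega)
  apply card_lt_card
  constructor
  · intro g hg
    simp only [mem_filter, mem_univ, true_and] at hg ⊢
    intro a
    apply hg
    simp only [shr, a]
  · intro a
    have := a (show e ∈ _ by simpa using (mem_eset.mp (mem_erase.mp he).2).1)
    simp only [mem_filter, mem_univ, true_and, shr, he, if_true] at this
    exact this rfl

theorem Shr.df_eq (h : Shr G N Y p y w e1 e2) (φ : E → K) {v : V} (hv : v = p ∨ v ∉ Y) :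
    (shr G Y p y e1).df φ v = G.df (fun e => if e ∈ (eset G Y).erase e1 then 0 else φ e) v := by
  have a : ∀ x, rho Y p y x = v ↔ x = v := by
    intro x
    rcases rho_cases (Y := Y) (p := p) (y := y) x with d | d
    · rw [d]
    · rw [d.1]
      rcases hv with rfl | hv
      · exact iff_of_false h.py.symm d.2.2
      · exact iff_of_false (fun b => hv (b ▸ h.hy)) (fun b => hv (b ▸ d.2.1))
  unfold df cut
  rw [sum_filter, sum_filter]
  apply sum_congr rfl
  intro e _
  by_cases c : e ∈ (eset G Y).erase e1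
  · simp only [shr, c, if_true, not_true, if_false, ite_self]
  · simp only [shr, c, if_false, Set.mem_singleton_iff, a]

theorem Shr.of_col (h : Shr G N Y p y w e1 e2) (hc : (shr G Y p y e1).Col) :
    ∃ φ, G.Loc (↑Y : Set V)ᶜ φ ∧ bdry G Y φ p ≠ 0 := by
  obtain ⟨φ, h1, h2⟩ := hc
  refine ⟨φ, ⟨h1, fun v hv => ?_⟩, fun h0 => ?_⟩
  · have hv' : v ∉ Y := hv
    rw [← h2 v trivial, h.df_eq φ (Or.inr hv')]
    apply df_congr
    intro e he
    rw [if_neg]
    intro a
    rw [mem_cut_single] at he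
    have := mem_eset.mp (mem_erase.mp a).2
    rcases he.2 with b | b
    · exact hv' (b ▸ this.2.1)
    · exact hv' (b ▸ this.2.2)
  · have a := h2 p trivial
    have m1 : e1 ∈ eset G Y := (mem_eset_j h.j1 h.py).mpr ⟨h.hp, h.hy⟩
    have b : (fun e => if e ∈ (eset G Y).erase e1 then 0 else φ e) =
        fun e => (if e ∈ eset G Y then 0 else φ e) + if e = e1 then φ e1 else 0 := by
      funext e
      by_cases c : e = e1
      · simp [c, m1]
      · simp [c]
    rw [bdry, if_pos h.hp] at h0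
    rw [h.df_eq φ (Or.inl rfl), b, df_add, df_single K.add_self h.j1, h0] at a
    simp [h.py, h1 e1] at a

theorem core (h4 : G.E4) (gi : Gi G) (hyp : Hyp 3 G) (hc : ¬ G.Col)
    (IH : ∀ {V' : Type} [Fintype V'] (G' : MG V' E), G'.m < G.m → G'.Bl → Hyp 3 G' → ¬ G'.Col →
      G'.Quo Pet) : G.Quo Pet := by
  have hb : G.Bl := fun X => (h4.1 X).1
  set N := NIs G with hN
  have edge : ∀ {Y : Finset V} {k : ℕ}, Sp (sub G Y) Y k → ∀ v ∈ Y, ∃ e y, G.Joins e v y ∧ v ≠ y ∧ y ∈ Y := by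
    intro Y k sp v hv
    obtain ⟨y, hy, a⟩ := dg_pos.mp (show 0 < dg (sub G Y) v Y by have := sp.deg v hv; omega)
    obtain ⟨b, e, c⟩ := (sub_adj.mp a).1
    exact ⟨e, y, c, b, hy⟩
  by_cases h2 : ∃ Z : Finset V, 6 ≤ Z.card ∧ Fz G Z ≤ (2 : ℕ)
  · obtain ⟨Z, z1, z2⟩ := h2
    obtain ⟨Y, -, sp⟩ := exists_sp gi le_rfl (by omega) z1 z2
    obtain ⟨v, hv⟩ : Y.Nonempty := card_pos.mp (by have := sp.ten; omega)
    obtain ⟨e, y, a1, a2, a3⟩ := edge sp v hv
    refine Quo.of_map (IH (G.map (con (↑Y : Set V))) (m_con_lt a1 a2 hv a3) (hb.map _) (hyp.map _) ?_)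
    rintro ⟨φ, hφ⟩
    have := loc_of_con hφ
    exact hc (col_of_feas this (feas2 sp bdry_off (bdry_sum this)))
  push Not at h2
  have dN : ∀ v ∈ N, 3 ≤ dg G v N := by
    intro v hv
    obtain ⟨e, b, hj, hne⟩ := mem_NIs.mp hv
    have a1 : dg G v N = dg G v univ := by
      unfold dg
      congr 1
      ext x
      simp only [mem_filter, mem_univ, true_and, and_iff_right_iff_imp]
      rintro ⟨c, g, d⟩
      exact mem_NIs.mpr (d.ni' c)
    have a2 : 0 < dg G v univ := dg_pos.mpr ⟨b, mem_univ _, hne, e, hj⟩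
    have a3 := h4.1 {v}
    rw [d_eq_dg gi.np] at a3
    omega
  obtain ⟨v, hv⟩ : N.Nonempty := by
    by_contra hn
    rw [not_nonempty_iff_eq_empty] at hn
    refine hc ⟨fun _ => K.k1, fun _ => (by decide : K.k1 ≠ 0), fun v _ => ?_⟩
    have : G.d {v} = 0 := d_zero NIs_hN (by simp [← hN, hn])
    unfold df
    rw [card_eq_zero.mp this, sum_empty]
  have n10 : 10 ≤ N.card := by
    have := gi.moore' hv 3 dN
    have := dN v hv
    omega
  obtain ⟨Y, hY, sp⟩ := exists_sp gi (by omega) le_rfl (show 6 ≤ N.card by omega) hyp.F_le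
  by_cases hYN : Y = N
  · have e : sub G Y = G := by
      unfold sub
      congr 1
      funext e
      split_ifs with a
      · rfl
      · by_contra b
        exact a (mem_eset.mpr ⟨Ne.symm b, hYN ▸ NIs_hN e (Ne.symm b)⟩)
    rw [e] at sp
    rcases key3 sp (β := fun _ => 0) (fun _ _ => rfl) (by simp) with ⟨φ, a1, a2⟩ | a
    · exact absurd ⟨φ, a1, fun v _ => a2 v⟩ hc
    · exact t16 hb (by omega) hc
  exfalso
  obtain ⟨c, c1, c2⟩ := exists_of_ssubset (ssubset_of_subset_of_ne hY hYN)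
  obtain ⟨a, ha⟩ : Y.Nonempty := card_pos.mp (by have := sp.ten; omega)
  have d3 := h4.three_le' (X := (↑Y : Set V)) (mem_NIs.mp (hY ha)) (mem_NIs.mp c1) ha c2
  obtain ⟨e2, he2⟩ : (G.cut (↑Y : Set V)).Nonempty := card_pos.mp (by unfold MG.d at d3; omega)
  obtain ⟨p, w, j2, hp, hw⟩ := exists_joins_of_mem_cut he2
  obtain ⟨e1, y, j1, py, hy⟩ := edge sp p hp
  have sh : Shr G N Y p y w e1 e2 := by
    refine ⟨NIs_hN, fun Z _ => ?_, hY, by have := sp.ten; omega, ?_, hyp.F_le, hp, hy, py, j1, hw, j2⟩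
    · have := gi.F_small Z
      have := h2 Z
      omega
    · have := sp.tot
      rw [sub_F Subset.rfl] at this
      omega
  have hcol : (shr G Y p y e1).Col := by
    by_contra hn
    exact (sh.hyp.mono (by omega)).not_pet (IH _ sh.m_lt sh.bl (sh.hyp.mono (by omega)) hn)
  obtain ⟨φ, a1, a2⟩ := sh.of_col hcol
  exact hc (col_of_feas a1 (feas3 sp bdry_off (bdry_sum a1) a2))

end

end Pool.Agent.Lib.CF64
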