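import Pool.Agent.Lib.MP_aa6b05_co.Quo

set_option linter.unusedSectionVars false
set_option linter.unusedVariables false
set_option linter.unusedSimpArgs false

namespace Pool.Agent.Lib.CF64

open Finset Pool.Agent.Lib.MP_aa6b05_co Pool.Agent.Lib.MP_aa6b05_co.MG

open scoped Classical

noncomputable section

variable {V E : Type} [Fintype V] [Fintype E]

/-- the non-loop edges with both ends in `Z` -/
def eset (G : MG V E) (Z : Finset V) : Finset E :=
  univ.filter (fun e => G.s e ≠ G.t e ∧ G.s e ∈ Z ∧ G.t e ∈ Z)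

def ein (G : MG V E) (Z : Finset V) : ℕ := (eset G Z).card

def Adj (G : MG V E) (a b : V) : Prop := a ≠ b ∧ ∃ e, G.Joins e a b

def dg (G : MG V E) (v : V) (Z : Finset V) : ℕ := (Z.filter (Adj G v)).card

def Fz (G : MG V E) (Z : Finset V) : ℤ := 2 * (Z.card : ℤ) - 2 - ein G Z

variable {G : MG V E}

theorem mem_eset {Z : Finset V} {e : E} :
    e ∈ eset G Z ↔ G.s e ≠ G.t e ∧ G.s e ∈ Z ∧ G.t e ∈ Z := by simp [eset]

theorem mem_eset_j {Z : Finset V} {e : E} {a b : V} (h : G.Joins e a b) (hab : a ≠ b) :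
    e ∈ eset G Z ↔ a ∈ Z ∧ b ∈ Z := by
  rw [mem_eset]
  rcases h with ⟨h1, h2⟩ | ⟨h1, h2⟩ <;> rw [h1, h2]
  · tauto
  · have := hab.symm
    tauto

theorem eset_mono {S T : Finset V} (h : S ⊆ T) : eset G S ⊆ eset G T := by
  intro e he
  rw [mem_eset] at he ⊢
  exact ⟨he.1, h he.2.1, h he.2.2⟩

theorem ein_mono {S T : Finset V} (h : S ⊆ T) : ein G S ≤ ein G T := card_le_card (eset_mono h)

theorem eset_inter (S T : Finset V) : eset G (S ∩ T) = eset G S ∩ eset G T := by
  ext e
  simp only [mem_eset, mem_inter]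
  tauto

theorem ein_super (S T : Finset V) : ein G S + ein G T ≤ ein G (S ∪ T) + ein G (S ∩ T) := by
  unfold ein
  rw [eset_inter, ← card_union_add_card_inter]
  have : eset G S ∪ eset G T ⊆ eset G (S ∪ T) :=
    union_subset (eset_mono subset_union_left) (eset_mono subset_union_right)
  have := card_le_card this
  omega

theorem ein_empty : ein G ∅ = 0 := by simp [ein, eset]

theorem ein_single (v : V) : ein G {v} = 0 := by
  unfold ein
  rw [card_eq_zero]
  ext e
  simp only [mem_eset, mem_singleton, notMem_empty, iff_false]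
  rintro ⟨h, a, b⟩
  exact h (a.trans b.symm)

theorem Adj.symm {a b : V} (h : Adj G a b) : Adj G b a :=
  ⟨h.1.symm, h.2.imp fun e he => he.symm⟩

theorem Adj.ne {a b : V} (h : Adj G a b) : a ≠ b := h.1

theorem adj_comm {a b : V} : Adj G a b ↔ Adj G b a := ⟨Adj.symm, Adj.symm⟩

theorem not_adj_self (a : V) : ¬ Adj G a a := fun h => h.1 rfl

theorem adj_of_mem {Z : Finset V} {e : E} (h : e ∈ eset G Z) : Adj G (G.s e) (G.t e) :=
  ⟨(mem_eset.mp h).1, e, joins_self e⟩

theorem dg_mono (v : V) {S T : Finset V} (h : S ⊆ T) : dg G v S ≤ dg G v T :=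
  card_le_card (filter_subset_filter _ h)

theorem dg_le_card (v : V) (S : Finset V) : dg G v S ≤ S.card := card_filter_le _ _

theorem dg_union_le (v : V) (S T : Finset V) : dg G v (S ∪ T) ≤ dg G v S + dg G v T := by
  unfold dg
  rw [filter_union]
  exact card_union_le _ _

theorem dg_union (v : V) {S T : Finset V} (h : Disjoint S T) :
    dg G v (S ∪ T) = dg G v S + dg G v T := by
  unfold dg
  rw [filter_union, card_union_of_disjoint (disjoint_filter_filter h)]

theorem dg_erase (v : V) (S : Finset V) : dg G v (S.erase v) = dg G v S := by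
  unfold dg
  congr 1
  ext w
  simp only [mem_filter, mem_erase]
  exact ⟨fun h => ⟨h.1.2, h.2⟩, fun h => ⟨⟨h.2.ne.symm, h.1⟩, h.2⟩⟩

theorem dg_eq_zero {v : V} {S : Finset V} : dg G v S = 0 ↔ ∀ w ∈ S, ¬ Adj G v w := by
  unfold dg
  rw [card_eq_zero, filter_eq_empty_iff]

theorem dg_pos {v : V} {S : Finset V} : 0 < dg G v S ↔ ∃ w ∈ S, Adj G v w := by
  unfold dg
  rw [card_pos]
  exact ⟨fun ⟨w, hw⟩ => ⟨w, mem_filter.mp hw⟩, fun ⟨w, hw⟩ => ⟨w, mem_filter.mpr hw⟩⟩

theorem one_lt_dg {v : V} {S : Finset V} :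
    1 < dg G v S ↔ ∃ a ∈ S, ∃ b ∈ S, Adj G v a ∧ Adj G v b ∧ a ≠ b := by
  unfold dg
  rw [one_lt_card]
  simp only [mem_filter]
  constructor
  · rintro ⟨a, ha, b, hb, h⟩
    exact ⟨a, ha.1, b, hb.1, ha.2, hb.2, h⟩
  · rintro ⟨a, ha, b, hb, h1, h2, h⟩
    exact ⟨a, ⟨ha, h1⟩, b, ⟨hb, h2⟩, h⟩

theorem dg_le_one {v : V} {S : Finset V} (h : ∀ a ∈ S, ∀ b ∈ S, Adj G v a → Adj G v b → a = b) :
    dg G v S ≤ 1 := by
  by_contra hc
  obtain ⟨a, ha, b, hb, h1, h2, h3⟩ := one_lt_dg.mp (not_le.mp hc)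
  exact h3 (h a ha b hb h1 h2)

/-- a vertex of degree at least two in `S` has a neighbour other than a given vertex -/
theorem exists_adj_ne {v : V} {S : Finset V} (h : 2 ≤ dg G v S) (x : V) :
    ∃ w ∈ S, Adj G v w ∧ w ≠ x := by
  obtain ⟨a, ha, b, hb, h1, h2, h3⟩ := one_lt_dg.mp (show 1 < dg G v S by omega)
  by_cases hx : a = x
  · exact ⟨b, hb, h2, fun h => h3 (hx.trans h.symm)⟩
  · exact ⟨a, ha, h1, hx⟩

theorem ein_insert (np : G.NoPar) {v : V} {Z : Finset V} (hv : v ∉ Z) :
    ein G (insert v Z) = ein G Z + dg G v Z := by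
  have hsub : eset G Z ⊆ eset G (insert v Z) := eset_mono (subset_insert _ _)
  have key : (eset G (insert v Z) \ eset G Z).card = dg G v Z := by
    unfold dg
    symm
    apply card_bij (fun w hw => (mem_filter.mp hw).2.2.choose)
    · intro w hw
      have hj := (mem_filter.mp hw).2.2.choose_spec
      have hne := (mem_filter.mp hw).2.1
      rw [mem_sdiff, mem_eset_j hj hne, mem_eset_j hj hne]
      simp [hv, (mem_filter.mp hw).1]
    · intro a ha b hb hab
      have h1 := (mem_filter.mp ha).2.2.choose_spec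
      have h2 := (mem_filter.mp hb).2.2.choose_spec
      rw [hab] at h1
      exact h1.unique h2
    · intro e he
      rw [mem_sdiff, mem_eset, mem_eset] at he
      obtain ⟨⟨h0, h1, h2⟩, h3⟩ := he
      obtain ⟨w, hw, hj⟩ : ∃ w ∈ Z, G.Joins e v w := by
        rw [mem_insert] at h1 h2
        rcases h1 with h1 | h1 <;> rcases h2 with h2 | h2
        · exact absurd (h1.trans h2.symm) h0
        · exact ⟨_, h2, Or.inl ⟨h1, rfl⟩⟩
        · exact ⟨_, h1, Or.inr ⟨rfl, h2⟩⟩
        · exact absurd ⟨h0, h1, h2⟩ h3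
      have hne : v ≠ w := fun h => hv (h ▸ hw)
      have hm : w ∈ Z.filter (Adj G v) := mem_filter.mpr ⟨hw, hne, e, hj⟩
      refine ⟨w, hm, ?_⟩
      by_contra hc
      exact np _ _ _ _ hc hne (mem_filter.mp hm).2.2.choose_spec hj
  unfold ein
  rw [← key, add_comm, card_sdiff_add_card_eq_card hsub]

theorem ein_erase (np : G.NoPar) {v : V} {Z : Finset V} (hv : v ∈ Z) :
    ein G Z = ein G (Z.erase v) + dg G v Z := by
  conv_lhs => rw [← insert_erase hv]
  rw [ein_insert np (notMem_erase _ _), dg_erase]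

theorem Fz_erase (np : G.NoPar) {v : V} {Z : Finset V} (hv : v ∈ Z) :
    Fz G Z = Fz G (Z.erase v) + 2 - dg G v Z := by
  unfold Fz
  rw [ein_erase np hv, card_erase_of_mem hv]
  have := card_pos.mpr ⟨v, hv⟩
  push_cast [Nat.cast_sub (show 1 ≤ Z.card from this)]
  ring

theorem dg_double (P Q : Finset V) : ∑ a ∈ P, dg G a Q = ∑ b ∈ Q, dg G b P := by
  unfold dg
  simp only [card_filter]
  rw [sum_comm]
  apply sum_congr rfl
  intro b _
  apply sum_congr rfl
  intro a _
  simp only [adj_comm (a := a)]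

theorem dg_insert (v w : V) {Z : Finset V} (hw : w ∉ Z) :
    dg G v (insert w Z) = dg G v Z + if Adj G v w then 1 else 0 := by
  unfold dg
  rw [filter_insert]
  split_ifs
  · rw [card_insert_of_notMem (by simp [hw])]
  · rfl

theorem sum_dg (np : G.NoPar) (Z : Finset V) : ∑ v ∈ Z, dg G v Z = 2 * ein G Z := by
  induction Z using Finset.induction_on with
  | empty => simp [ein_empty]
  | insert w Z hw ih =>
    rw [sum_insert hw, ein_insert np hw, dg_insert _ _ hw, if_neg (not_adj_self w)]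
    have : ∑ v ∈ Z, dg G v (insert w Z) = ∑ v ∈ Z, dg G v Z + dg G w Z := by
      rw [sum_congr rfl (fun v _ => dg_insert v w hw), sum_add_distrib]
      congr 1
      unfold dg
      rw [card_filter]
      apply sum_congr rfl
      intro v _
      simp only [adj_comm (a := v)]
    omega

theorem d_eq_dg (np : G.NoPar) (v : V) : G.d {v} = dg G v univ := by
  have h1 := ein_erase np (mem_univ v)
  have h2 : (eset G univ).card = (eset G (univ.erase v)).card + (G.cut {v}).card := by
    rw [← card_union_of_disjoint]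
    · congr 1
      ext e
      simp only [mem_union, mem_eset, mem_cut_single, mem_univ, mem_erase]
      tauto
    · rw [disjoint_left]
      intro e h1 h2
      simp only [mem_eset, mem_cut_single, mem_univ, mem_erase] at h1 h2
      tauto
  unfold ein at h1
  unfold MG.d
  omega

/-- girth at least five -/
structure Gi (G : MG V E) : Prop where
  np : G.NoPar
  nt : G.NoTri
  nq : G.NoQuad

theorem Gi.tri (h : Gi G) {a b c : V} (h1 : Adj G a b) (h2 : Adj G b c) (h3 : Adj G c a) : False := by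
  obtain ⟨n1, e, he⟩ := h1
  obtain ⟨n2, f, hf⟩ := h2
  obtain ⟨n3, g, hg⟩ := h3
  exact h.nt e f g a b c n1 n2 n3.symm he hf hg

theorem Gi.quad (h : Gi G) {a b c d : V} (h1 : Adj G a b) (h2 : Adj G b c) (h3 : Adj G c d)
    (h4 : Adj G d a) (hac : a ≠ c) : b = d := by
  by_contra hbd
  obtain ⟨n1, e, he⟩ := h1
  obtain ⟨n2, f, hf⟩ := h2
  obtain ⟨n3, g, hg⟩ := h3
  obtain ⟨n4, k, hk⟩ := h4
  exact h.nq e f g k a b c d n1 hac n4.symm n2 hbd n3 he hf hg hk

theorem Gi.moore (h : Gi G) {v : V} {Z : Finset V} (hv : v ∈ Z) :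
    1 + ∑ a ∈ Z.filter (Adj G v), dg G a Z ≤ Z.card := by
  have h1 : ∑ a ∈ Z.filter (Adj G v), dg G a Z =
      ((Z.filter (Adj G v)).sigma (fun a => Z.filter (Adj G a))).card := by
    rw [card_sigma]
    rfl
  have h2 : ((Z.filter (Adj G v)).sigma (fun a => Z.filter (Adj G a))).card ≤ (Z.erase v).card := by
    apply card_le_card_of_injOn (fun p => if p.2 = v then p.1 else p.2)
    · rintro ⟨a, x⟩ hp
      simp only [coe_sigma, Set.mem_sigma_iff, coe_filter, Set.mem_ofPred_eq] at hp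
      simp only [coe_erase, Set.mem_sdiff, mem_coe, Set.mem_singleton_iff]
      split_ifs with hx
      · exact ⟨hp.1.1, hp.1.2.ne.symm⟩
      · exact ⟨hp.2.1, hx⟩
    · rintro ⟨a, x⟩ hp ⟨b, y⟩ hq hxy
      simp only [coe_sigma, Set.mem_sigma_iff, coe_filter, Set.mem_ofPred_eq] at hp hq
      dsimp only at hxy
      split_ifs at hxy with hx hy hy
      · subst hxy
        rw [hx, hy]
      · subst hxy
        exact (h.tri hq.1.2 hq.2.2 hp.1.2.symm).elim
      · subst hxy
        exact (h.tri hp.1.2 hp.2.2 hq.1.2.symm).elim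
      · subst hxy
        have := h.quad hp.1.2 hp.2.2 hq.2.2.symm hq.1.2.symm (Ne.symm hx)
        subst this
        rfl
  rw [card_erase_of_mem hv] at h2
  have := card_pos.mpr ⟨v, hv⟩
  omega

theorem Gi.moore' (h : Gi G) {v : V} {Z : Finset V} (hv : v ∈ Z) (k : ℕ)
    (hk : ∀ a ∈ Z, k ≤ dg G a Z) : 1 + dg G v Z * k ≤ Z.card := by
  have h1 := h.moore hv
  have h2 : (Z.filter (Adj G v)).card * k ≤ ∑ a ∈ Z.filter (Adj G v), dg G a Z := by
    have := card_nsmul_le_sum (Z.filter (Adj G v)) (fun a => dg G a Z) k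
      (fun a ha => hk a (mem_filter.mp ha).1)
    simpa using this
  unfold dg at *
  omega

theorem Gi.small (h : Gi G) (n : ℕ) : ∀ Z : Finset V, Z.card = n →
    (1 ≤ n → n ≤ 4 → ein G Z + 1 ≤ n) ∧ (n = 5 → ein G Z ≤ 5) ∧ (n = 6 → ein G Z ≤ 6) := by
  induction n with
  | zero => intro Z _; omega
  | succ n ih =>
    intro Z hZ
    have hne : Z.Nonempty := card_pos.mp (by omega)
    obtain ⟨v, hv, hmin⟩ := exists_min_image Z (fun a => dg G a Z) hne
    have h1 := h.moore' hv _ hmin
    have h2 := ein_erase h.np hv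
    have h3 := ih (Z.erase v) (by rw [card_erase_of_mem hv]; omega)
    have h0 : n = 0 → ein G Z = 0 := by
      intro hn
      obtain ⟨a, rfl⟩ := card_eq_one.mp (show Z.card = 1 by omega)
      exact ein_single a
    refine ⟨fun _ h4 => ?_, fun h5 => ?_, fun h6 => ?_⟩
    · have : dg G v Z ≤ 1 := by
        by_contra hc
        nlinarith
      omega
    · have : dg G v Z ≤ 2 := by
        by_contra hc
        nlinarith
      omega
    · by_cases h7 : dg G v Z ≤ 1
      · omega
      · by_contra hc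
        have h8 := sum_dg h.np Z
        obtain ⟨w, hw, h9⟩ : ∃ w ∈ Z, 3 ≤ dg G w Z := by
          by_contra hn
          push Not at hn
          have := sum_le_card_nsmul Z (fun a => dg G a Z) 2 (fun a ha => by have := hn a ha; omega)
          simp only [smul_eq_mul] at this
          omega
        have := h.moore' hw 2 (fun a ha => by have := hmin a ha; omega)
        omega

theorem Gi.F_small (h : Gi G) (Z : Finset V) :
    (Z.card = 1 → Fz G Z = 0) ∧ (Z.card = 2 → 1 ≤ Fz G Z) ∧ (Z.card = 3 → 2 ≤ Fz G Z) ∧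
    (Z.card = 4 → 3 ≤ Fz G Z) ∧ (Z.card = 5 → 3 ≤ Fz G Z) ∧ (Z.card = 6 → 4 ≤ Fz G Z) := by
  have := h.small _ Z rfl
  unfold Fz
  omega

end

end Pool.Agent.Lib.CF64
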