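import Pool.Agent.Lib.CF64.Good

set_option linter.unusedSectionVars false
set_option linter.unusedVariables false
set_option linter.unusedSimpArgs false

namespace Pool.Agent.Lib.CF64

open Finset Pool.Agent.Lib.MP_aa6b05_co Pool.Agent.Lib.MP_aa6b05_co.MG

open scoped Classical

noncomputable section

variable {V E : Type} [Fintype V] [Fintype E] {G : MG V E} {N : Finset V} {f : ℕ}

theorem dg_nbr_le (gi : Gi G) {u w : V} (h : w ≠ u) {S : Finset V} (hS : ∀ z ∈ S, Adj G u z) :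
    dg G w S ≤ 1 :=
  dg_le_one fun a ha b hb h1 h2 => gi.quad h1 (hS a ha).symm (hS b hb) h2.symm h

theorem far_edge (sp : Sp G N f) {u v : V} (hu : u ∈ N) (huv : u ≠ v) :
    ∃ x y, Adj G x y ∧ (∀ z ∈ ({u, v} : Finset V), z ≠ x ∧ ¬ Adj G z x) ∧
      ∀ z ∈ ({u, v} : Finset V), z ≠ y ∧ ¬ Adj G z y := by
  set R := N.filter (fun w => ∀ z ∈ ({u, v} : Finset V), z ≠ w ∧ ¬ Adj G z w) with hR
  have mR : ∀ w, w ∈ R ↔ w ∈ N ∧ (u ≠ w ∧ ¬ Adj G u w) ∧ (v ≠ w ∧ ¬ Adj G v w) := by
    intro w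
    simp [hR]
  have cov : N ⊆ {u} ∪ ({v} ∪ (N.filter (Adj G u) ∪ (N.filter (Adj G v) ∪ R))) := by
    intro w hw
    simp only [mem_union, mem_singleton, mem_filter, mR, hw, true_and]
    have : w = u ↔ u = w := eq_comm
    have : w = v ↔ v = w := eq_comm
    tauto
  have bd : ∀ w ∈ N, 3 ≤ dg G w {u} + (dg G w {v} + (dg G w (N.filter (Adj G u)) +
      (dg G w (N.filter (Adj G v)) + dg G w R))) := by
    intro w hw
    refine (sp.deg w hw).trans ((dg_mono w cov).trans ((dg_union_le _ _ _).trans ?_))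
    refine Nat.add_le_add_left ((dg_union_le _ _ _).trans ?_) _
    refine Nat.add_le_add_left ((dg_union_le _ _ _).trans ?_) _
    exact Nat.add_le_add_left (dg_union_le _ _ _) _
  obtain ⟨r, hr⟩ : R.Nonempty := by
    obtain ⟨w, hw, h1, h2, h3⟩ : ∃ w ∈ N, Adj G u w ∧ w ≠ v ∧ ¬ Adj G v w := by
      by_contra hn
      push Not at hn
      have a1 : N.filter (Adj G u) ⊆ {v} ∪ (N.filter (Adj G v)).filter (Adj G u) := by
        intro w hw
        obtain ⟨b1, b2⟩ := mem_filter.mp hw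
        have := hn w b1 b2
        simp only [mem_union, mem_singleton, mem_filter]
        tauto
      have a2 := (card_le_card a1).trans (card_union_le _ _)
      have a3 := dg_nbr_le sp.gi huv (S := N.filter (Adj G v)) (fun z hz => (mem_filter.mp hz).2)
      have a4 := sp.deg u hu
      unfold dg at a3 a4
      rw [card_singleton] at a2
      omega
    have a1 := bd w hw
    have a2 := dg_le_card (G := G) w {u}
    have a3 : dg G w {v} = 0 := dg_eq_zero.mpr fun z hz a => h3 (mem_singleton.mp hz ▸ a.symm)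
    have a4 : dg G w (N.filter (Adj G u)) = 0 :=
      dg_eq_zero.mpr fun z hz a => sp.gi.tri h1 a (mem_filter.mp hz).2.symm
    have a5 := dg_nbr_le sp.gi h2 (S := N.filter (Adj G v)) (fun z hz => (mem_filter.mp hz).2)
    rw [card_singleton] at a2
    obtain ⟨r, hr, -⟩ := dg_pos.mp (show 0 < dg G w R by omega)
    exact ⟨r, hr⟩
  obtain ⟨r1, ⟨r2, r3⟩, r4, r5⟩ := (mR r).mp hr
  have a1 := bd r r1
  have a2 : dg G r {u} = 0 := dg_eq_zero.mpr fun z hz a => r3 (mem_singleton.mp hz ▸ a.symm)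
  have a3 : dg G r {v} = 0 := dg_eq_zero.mpr fun z hz a => r5 (mem_singleton.mp hz ▸ a.symm)
  have a4 := dg_nbr_le sp.gi r2.symm (S := N.filter (Adj G u)) (fun z hz => (mem_filter.mp hz).2)
  have a5 := dg_nbr_le sp.gi r4.symm (S := N.filter (Adj G v)) (fun z hz => (mem_filter.mp hz).2)
  obtain ⟨s, hs, h⟩ := dg_pos.mp (show 0 < dg G r R by omega)
  exact ⟨r, s, h, (mem_filter.mp hr).2, (mem_filter.mp hs).2⟩

theorem df_ind_empty (v : V) : G.df (ind ∅) v = 0 := by simp [df, ind]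

/-- a sparse graph two edges short of two trees accepts every boundary -/
theorem feas2 (sp : Sp G N 2) {β : V → K} (hβ : ∀ v, v ∉ N → β v = 0) (hs : ∑ v, β v = 0) :
    Feas G β := by
  obtain ⟨u, hu⟩ : N.Nonempty := card_pos.mp (by have := sp.ten; omega)
  obtain ⟨v, hv, huv⟩ := dg_pos.mp (show 0 < dg G u N by have := sp.deg u hu; omega)
  obtain ⟨x, y, hxy, hx, hy⟩ := far_edge sp hu huv.ne
  have ha : K.k1 ≠ 0 := by decide
  have vert : ∀ w ∈ ({u, v} : Finset V), UU G β K.k1 w = 0 → Feas G β := by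
    intro w hw h0
    have hwN : w ∈ N := by
      rw [mem_insert, mem_singleton] at hw
      rcases hw with rfl | rfl <;> assumption
    exact feas_far sp hβ hs ha (A1 := {w}) (M1 := ∅) (by simpa using hwN) (empty_subset _) (by simp)
      (good_V sp hwN) (fun z hz => by rw [mem_singleton.mp hz, h0, df_ind_empty]) hxy
      (fun z hz => mem_singleton.mp hz ▸ hx w hw) (fun z hz => mem_singleton.mp hz ▸ hy w hw)
  rcases zmod2_cases (UU G β K.k1 u) with b1 | b1
  · exact vert u (by simp) b1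
  rcases zmod2_cases (UU G β K.k1 v) with b2 | b2
  · exact vert v (by simp) b2
  obtain ⟨hne, e, hj⟩ := huv
  refine feas_far sp hβ hs ha (A1 := {u, v}) (M1 := {e}) (by simp [insert_subset_iff, hu, hv])
    (eset_pair sp.gi.np hj hne).ge (by simp [card_pair hne]) (good_E sp hj hne) (fun z hz => ?_)
    hxy hx hy
  rw [df_ind_single hj]
  rw [mem_insert, mem_singleton] at hz
  rcases hz with rfl | rfl
  · simp [hne, b1]
  · simp [hne.symm, b2]

theorem feasVV (sp : Sp G N 3) {β : V → K} (hβ : ∀ v, v ∉ N → β v = 0) (hs : ∑ v, β v = 0)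
    {a : K} (ha : a ≠ 0) {u v : V} (hu : u ∈ N) (hv : v ∈ N) (huv : u ≠ v)
    (h1 : UU G β a u = 0) (h2 : UU G β a v = 0) : Feas G β := by
  obtain ⟨x, y, hxy, hx, hy⟩ := far_edge sp hu huv
  refine feas_far sp hβ hs ha (A1 := {u, v}) (M1 := ∅) (by simp [insert_subset_iff, hu, hv])
    (empty_subset _) (by simp [card_pair huv]) (good_VV sp hu hv huv) (fun z hz => ?_) hxy hx hy
  rw [df_ind_empty]
  rw [mem_insert, mem_singleton] at hz
  rcases hz with rfl | rfl
  · exact h1.symm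
  · exact h2.symm

theorem feasVE (sp : Sp G N 3) {β : V → K} (hβ : ∀ v, v ∉ N → β v = 0) (hs : ∑ v, β v = 0)
    {k : K} (hk : k ≠ 0) {u a b : V} (h1 : Adj G u a) (h2 : Adj G a b) (hub : u ≠ b)
    (u1 : UU G β k u = 0) (u2 : UU G β k a = 1) (u3 : UU G β k b = 1) {x y : V} (hxy : Adj G x y)
    (hx : ∀ v ∈ ({u, a, b} : Finset V), v ≠ x ∧ ¬ Adj G v x)
    (hy : ∀ v ∈ ({u, a, b} : Finset V), v ≠ y ∧ ¬ Adj G v y) : Feas G β := by
  obtain ⟨hab, e, hj⟩ := id h2
  refine feas_far sp hβ hs hk (A1 := {u, a, b}) (M1 := {e})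
    (by simp [insert_subset_iff, sp.adj_mem h2, sp.adj_mem h2.symm, sp.adj_mem h1.symm])
    (by simp [mem_eset_j hj hab]) ?_ (good_VE sp h1 hj hab hub) (fun z hz => ?_) hxy hx hy
  · rw [card_insert_of_notMem (by simp [h1.ne, hub]), card_pair hab, card_singleton]
  · rw [df_ind_single hj]
    simp only [mem_insert, mem_singleton] at hz
    rcases hz with rfl | rfl | rfl
    · simp [h1.ne, hub, u1]
    · simp [hab, u2]
    · simp [hab.symm, u3]

theorem feasP (sp : Sp G N 3) {β : V → K} (hβ : ∀ v, v ∉ N → β v = 0) (hs : ∑ v, β v = 0)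
    {k : K} (hk : k ≠ 0) (h0 : ∀ u ∈ N, ∀ v ∈ N, UU G β k u = 0 → UU G β k v = 0 → u = v)
    {a b c d : V} (h1 : Adj G a b) (h2 : Adj G b c) (h3 : Adj G c d) (hac : a ≠ c) (hbd : b ≠ d)
    (hd : dg G d N ≤ 3) {x y : V} (hxy : Adj G x y)
    (hx : ∀ v ∈ ({a, b, c, d} : Finset V), v ≠ x ∧ ¬ Adj G v x)
    (hy : ∀ v ∈ ({a, b, c, d} : Finset V), v ≠ y ∧ ¬ Adj G v y) : Feas G β := by
  have had : a ≠ d := fun h => sp.gi.tri h1 h2 (h ▸ h3)
  have na := sp.adj_mem h1.symm
  have nb := sp.adj_mem h1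
  have nc := sp.adj_mem h2
  have nd := sp.adj_mem h3
  have k1 : ∀ u ∈ N, ∀ v ∈ N, u ≠ v → UU G β k u = 0 → UU G β k v = 1 := fun u hu v hv h h' =>
    (zmod2_cases _).resolve_left fun h'' => h (h0 u hu v hv h' h'')
  rcases zmod2_cases (UU G β k a) with ua | ua
  · exact feasVE sp hβ hs hk h1 h2 hac ua (k1 a na b nb h1.ne ua) (k1 a na c nc hac ua) hxy
      (fun v hv => hx v (by simp at hv ⊢; tauto)) (fun v hv => hy v (by simp at hv ⊢; tauto))
  rcases zmod2_cases (UU G β k b) with ub | ub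
  · exact feasVE sp hβ hs hk h2 h3 hbd ub (k1 b nb c nc h2.ne ub) (k1 b nb d nd hbd ub) hxy
      (fun v hv => hx v (by simp at hv ⊢; tauto)) (fun v hv => hy v (by simp at hv ⊢; tauto))
  rcases zmod2_cases (UU G β k c) with uc | uc
  · exact feasVE sp hβ hs hk h2.symm h1.symm hac.symm uc ub ua hxy
      (fun v hv => hx v (by simp at hv ⊢; tauto)) (fun v hv => hy v (by simp at hv ⊢; tauto))
  rcases zmod2_cases (UU G β k d) with ud | ud
  · exact feasVE sp hβ hs hk h3.symm h2.symm hbd.symm ud uc ub hxy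
      (fun v hv => hx v (by simp at hv ⊢; tauto)) (fun v hv => hy v (by simp at hv ⊢; tauto))
  obtain ⟨hab, e, j1⟩ := id h1
  obtain ⟨hcd, g, j3⟩ := id h3
  have heg : e ≠ g := j1.ne_edge j3 hac had
  refine feas_far sp hβ hs hk (A1 := {a, b, c, d}) (M1 := {e, g})
    (by simp [insert_subset_iff, na, nb, nc, nd])
    (by simp [insert_subset_iff, mem_eset_j j1 hab, mem_eset_j j3 hcd]) ?_
    (good_EE sp j1 hab h2 j3 hcd hac hbd hd) (fun z hz => ?_) hxy hx hy
  · rw [card_insert_of_notMem (by simp [hab, hac, had]),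
      card_insert_of_notMem (by simp [h2.ne, hbd]), card_pair hcd, card_pair heg]
  · have : ind ({e, g} : Finset E) = fun z => ind {e} z + ind {g} z := by
      funext z
      by_cases z1 : z = e
      · simp [ind, z1, heg]
      · simp [ind, z1]
    rw [this, df_add, df_ind_single j1, df_ind_single j3]
    have hbc := h2.ne
    simp only [mem_insert, mem_singleton] at hz
    rcases hz with rfl | rfl | rfl | rfl
    · simp [hab, hac, had, ua]
    · simp [hab.symm, hbc, hbd, ub]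
    · simp [hac.symm, hbc.symm, hcd, uc]
    · simp [had.symm, hbd.symm, hcd.symm, ud]

end

end Pool.Agent.Lib.CF64
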