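import Pool.Agent.Lib.CF64.Acc

set_option linter.unusedSectionVars false
set_option linter.unusedVariables false
set_option linter.unusedSimpArgs false

namespace Pool.Agent.Lib.CF64

open Finset Pool.Agent.Lib.MP_aa6b05_co Pool.Agent.Lib.MP_aa6b05_co.MG

open scoped Classical

noncomputable section

variable {V E : Type} [Fintype V] [Fintype E] {G : MG V E} {N Y : Finset V}

def Tch (G : MG V E) (S P : Finset V) : Prop := ∃ x ∈ P, ∃ a ∈ S, Adj G a x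

def eps (G : MG V E) (S1 S2 P : Finset V) : ℤ :=
  tch G P (S1 ∪ S2) - 2 * P.card + (if Tch G S1 P then 0 else 1) + (if Tch G S2 P then 0 else 1)

structure Fam4 (G : MG V E) (N S1 S2 : Finset V) (M1 M2 : Finset E) (I : Finset V)
    (P : V → Finset V) (μ ν : V → V) : Prop where
  sub : ∀ r ∈ I, (∀ v ∈ P r, v ∈ N ∧ v ∉ S1 ∧ v ∉ S2) ∧ (P r).Nonempty
  dj : ∀ r ∈ I, ∀ r' ∈ I, r ≠ r' → Disjoint (P r) (P r')
  cov : ∀ v ∈ N, v ∉ S1 → v ∉ S2 → ∃ r ∈ I, v ∈ P r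
  d1 : ∀ e ∈ eset G S1, e ∉ M1 → μ (G.s e) = μ (G.t e)
  d2 : ∀ e ∈ eset G S2, e ∉ M2 → ν (G.s e) = ν (G.t e)
  t1 : ∀ r, ∀ x ∈ P r, ∀ y ∈ P r, ∀ a ∈ S1, ∀ b ∈ S1, Adj G a x → Adj G b y → μ a = μ b
  t2 : ∀ r, ∀ x ∈ P r, ∀ y ∈ P r, ∀ a ∈ S2, ∀ b ∈ S2, Adj G a x → Adj G b y → ν a = ν b

def Tab (G : MG V E) (N S1 S2 : Finset V) (M1 M2 : Finset E) : Prop :=
  ∀ I P μ ν, Fam4 G N S1 S2 M1 M2 I P μ ν →
    ∑ r ∈ I, eps G S1 S2 (P r) + (S1.image μ).card + (S2.image ν).card ≤ Fz G S1 + Fz G S2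

structure FarG (G : MG V E) (S T : Finset V) : Prop where
  dj : Disjoint S T
  na : ∀ a ∈ S, ∀ b ∈ T, ¬ Adj G a b

theorem FarG.symm {S T : Finset V} (h : FarG G S T) : FarG G T S :=
  ⟨h.dj.symm, fun a ha b hb c => h.na b hb a ha c.symm⟩

theorem FarG.mono {S T S' T' : Finset V} (h : FarG G S T) (h1 : S' ⊆ S) (h2 : T' ⊆ T) :
    FarG G S' T' := ⟨h.dj.mono h1 h2, fun a ha b hb => h.na a (h1 ha) b (h2 hb)⟩

theorem FarG.F {S T : Finset V} (h : FarG G S T) : Fz G (S ∪ T) = Fz G S + Fz G T + 2 := by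
  have h1 : eset G (S ∪ T) = eset G S ∪ eset G T := by
    ext e
    have a1 := h.na (G.s e)
    have a2 := h.na (G.t e)
    have a3 : G.s e ≠ G.t e → Adj G (G.s e) (G.t e) := fun c => ⟨c, e, joins_self e⟩
    have a4 : G.s e ≠ G.t e → Adj G (G.t e) (G.s e) := fun c => (a3 c).symm
    simp only [mem_eset, mem_union]
    constructor
    · rintro ⟨c, c1 | c1, c2 | c2⟩
      · exact Or.inl ⟨c, c1, c2⟩
      · exact absurd (a3 c) (a1 c1 _ c2)
      · exact absurd (a4 c) (a2 c2 _ c1)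
      · exact Or.inr ⟨c, c1, c2⟩
    · tauto
  have h2 : Disjoint (eset G S) (eset G T) := disjoint_left.mpr fun e a b =>
    disjoint_left.mp h.dj (mem_eset.mp a).2.1 (mem_eset.mp b).2.1
  unfold Fz ein
  rw [h1, card_union_of_disjoint h2, card_union_of_disjoint h.dj]
  push_cast
  ring

theorem side4 {W S1 S2 I : Finset V} {M1 X : Finset E} {P : V → Finset V} {κ : V → V}
    (mW : ∀ v, v ∈ W ↔ v ∈ N ∧ v ∉ S1 ∧ v ∉ S2) (dj : Disjoint S1 S2) (h1 : S1 ⊆ N)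
    (hm : M1 ⊆ eset G S1) (XW : ∀ e ∈ X, G.s e ∈ W ∧ G.t e ∈ W)
    (k2 : ∀ (α : Type) (g : V → α), (∀ e ∈ eset G W \ X, g (G.s e) = g (G.t e)) → ∀ v, g (κ v) = g v)
    (mP : ∀ r v, v ∈ P r ↔ v ∈ W ∧ κ v = r) (hI : ∀ v ∈ W, κ v ∈ I) :
    ∃ μ : V → V, (∀ e ∈ eset G S1, e ∉ M1 → μ (G.s e) = μ (G.t e)) ∧
      (∀ r, ∀ x ∈ P r, ∀ y ∈ P r, ∀ a ∈ S1, ∀ b ∈ S1, Adj G a x → Adj G b y → μ a = μ b) ∧
      cc G (N \ S2) ((eset G (N \ S2) \ M1) \ X) ≤
        (S1.image μ).card + (I.filter (fun r => ¬ Tch G S1 (P r))).card := by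
  have mM : ∀ e ∈ M1, G.s e ∈ S1 ∧ G.t e ∈ S1 := fun e he => (mem_eset.mp (hm he)).2
  obtain ⟨lam, l1, l2⟩ := exists_rep (G := G) ((eset G (N \ S2) \ M1) \ X)
  have sub2 : eset G W \ X ⊆ (eset G (N \ S2) \ M1) \ X := by
    intro e he
    have := mM e
    simp only [mem_sdiff, mem_eset, mW] at he ⊢
    tauto
  have key : ∀ (α : Type) (g : V → α),
      (∀ e ∈ (eset G (N \ S2) \ M1) \ X, g (G.s e) = g (G.t e)) →
      ∀ x ∈ W, ∀ a ∈ S1, Adj G a x → g a = g (κ x) := by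
    intro α g hg x hx a ha ⟨hne, e, hj⟩
    have hx' := (mW x).mp hx
    rw [k2 α g (fun e he => hg e (sub2 he))]
    have he : e ∈ (eset G (N \ S2) \ M1) \ X := by
      rw [mem_sdiff, mem_sdiff, mem_eset_j hj hne]
      refine ⟨⟨⟨mem_sdiff.mpr ⟨h1 ha, disjoint_left.mp dj ha⟩, mem_sdiff.mpr ⟨hx'.1, hx'.2.2⟩⟩,
        fun h => hx'.2.1 ((mem_eset_j hj hne).mp (hm h)).2⟩, fun h => ?_⟩
      have := XW e h
      rcases hj with ⟨h1, h2⟩ | ⟨h1, h2⟩
      · exact ((mW _).mp this.1).2.1 (h1 ▸ ha)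
      · exact ((mW _).mp this.2).2.1 (h2 ▸ ha)
    have := hg e he
    rcases hj with ⟨h1, h2⟩ | ⟨h1, h2⟩ <;> rw [h1, h2] at this
    · exact this
    · exact this.symm
  refine ⟨lam, fun e he hm' => ?_, fun r x hx y hy a ha b hb ax hby => ?_, ?_⟩
  · have he' := mem_eset.mp he
    apply l1
    have a1 := h1 he'.2.1
    have a2 := h1 he'.2.2
    have a3 := disjoint_left.mp dj he'.2.1
    have a4 := disjoint_left.mp dj he'.2.2
    have a5 : e ∉ X := fun h => ((mW _).mp (XW e h).1).2.1 he'.2.1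
    simp [mem_eset, he'.1, a1, a2, a3, a4, a5, hm']
  · rw [key V lam l1 x ((mP _ _).mp hx).1 a ha ax, key V lam l1 y ((mP _ _).mp hy).1 b hb hby,
      ((mP _ _).mp hx).2, ((mP _ _).mp hy).2]
  · refine le_trans (cc_le (S1.image lam ∪ I.filter (fun r => ¬ Tch G S1 (P r))) ?_) (card_union_le _ _)
    intro g hg h0 v hv
    have z1 : ∀ a ∈ S1, g a = 0 := fun a ha => by
      rw [← l2 _ g hg.2 a]
      exact h0 _ (mem_union_left _ (mem_image_of_mem _ ha))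
    by_cases c : v ∈ S1
    · exact z1 v c
    have hv' : v ∈ W := (mW v).mpr ⟨(mem_sdiff.mp hv).1, c, (mem_sdiff.mp hv).2⟩
    rw [← k2 _ g (fun e he => hg.2 e (sub2 he)) v]
    by_cases t : Tch G S1 (P (κ v))
    · obtain ⟨x, hx, a, ha, ax⟩ := t
      rw [← ((mP _ _).mp hx).2, ← key _ g hg.2 x ((mP _ _).mp hx).1 a ha ax]
      exact z1 a ha
    · exact h0 _ (mem_union_right _ (mem_filter.mpr ⟨hI v hv', t⟩))

theorem acc4 {S1 S2 : Finset V} {M1 M2 : Finset E} (tot : Fz G N ≤ 4) (h1 : S1 ⊆ N) (h2 : S2 ⊆ N)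
    (far : FarG G S1 S2) (m1 : M1 ⊆ eset G S1) (m2 : M2 ⊆ eset G S2) (tab : Tab G N S1 S2 M1 M2)
    (X : Finset E) (hX : X ⊆ (eset G (N \ S1) \ M2) ∩ (eset G (N \ S2) \ M1)) :
    cc G (N \ S1) ((eset G (N \ S1) \ M2) \ X) + cc G (N \ S2) ((eset G (N \ S2) \ M1) \ X) ≤
      X.card + 2 := by
  set W := N \ (S1 ∪ S2) with hW
  have mW : ∀ v, v ∈ W ↔ v ∈ N ∧ v ∉ S1 ∧ v ∉ S2 := fun v => by simp [hW]
  have XW : ∀ e ∈ X, G.s e ∈ W ∧ G.t e ∈ W := by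
    intro e he
    have := hX he
    simp only [mem_inter, mem_sdiff, mem_eset] at this
    simp only [mW]
    tauto
  obtain ⟨κ, k1, k2⟩ := exists_rep (G := G) (eset G W \ X)
  have kW : ∀ v, κ v ∈ W ↔ v ∈ W := fun v => by
    have := k2 Prop (fun v => v ∈ W) (fun e he => by
      have := (mem_eset.mp (mem_sdiff.mp he).1).2
      exact propext ⟨fun _ => this.2, fun _ => this.1⟩) v
    exact this.to_iff
  have kk : ∀ v, κ (κ v) = κ v := k2 V κ k1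
  set I := W.image κ with hI
  set P : V → Finset V := fun r => W.filter (fun v => κ v = r) with hP
  have mP : ∀ r v, v ∈ P r ↔ v ∈ W ∧ κ v = r := fun r v => mem_filter
  have kI : ∀ v ∈ W, κ v ∈ I := fun v hv => mem_image_of_mem _ hv
  obtain ⟨μ, a1, a2, a3⟩ := side4 mW far.dj h1 m1 XW k2 mP kI
  obtain ⟨ν, b1, b2, b3⟩ := side4 (S1 := S2) (S2 := S1) (fun v => by rw [mW]; tauto) far.dj.symm h2 m2
    XW k2 mP kI
  have T := tab I P μ ν ⟨fun r hr => ⟨fun v hv => (mW v).mp ((mP _ _).mp hv).1, by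
      obtain ⟨v, hv, rfl⟩ := mem_image.mp hr
      exact ⟨v, (mP _ _).mpr ⟨hv, rfl⟩⟩⟩,
    fun r _ r' _ h => disjoint_left.mpr fun v h1 h2 =>
      h (((mP _ _).mp h1).2.symm.trans ((mP _ _).mp h2).2),
    fun v c1 c2 c3 => ⟨κ v, kI v ((mW v).mpr ⟨c1, c2, c3⟩), (mP _ _).mpr ⟨(mW v).mpr ⟨c1, c2, c3⟩, rfl⟩⟩,
    a1, b1, a2, b2⟩
  have cover : eset G N ⊆ X ∪ eset G (S1 ∪ S2) ∪
      I.biUnion (fun r => eset G (P r ∪ (S1 ∪ S2)) \ eset G (S1 ∪ S2)) := by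
    intro e he
    have he' := mem_eset.mp he
    by_cases hx : e ∈ X
    · simp [hx]
    have key : ∀ a b, G.Joins e a b → a ≠ b → b ∈ N → a ∈ W → e ∈ I.biUnion
        (fun r => eset G (P r ∪ (S1 ∪ S2)) \ eset G (S1 ∪ S2)) := by
      intro a b hj hab hb ha
      refine mem_biUnion.mpr ⟨κ a, kI a ha, ?_⟩
      rw [mem_sdiff, mem_eset_j hj hab, mem_eset_j hj hab]
      refine ⟨⟨mem_union_left _ ((mP _ _).mpr ⟨ha, rfl⟩), ?_⟩, fun c => (mem_sdiff.mp ha).2 c.1⟩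
      by_cases c : b ∈ S1 ∪ S2
      · exact mem_union_right _ c
      · have hbW : b ∈ W := mem_sdiff.mpr ⟨hb, c⟩
        have := k1 e (mem_sdiff.mpr ⟨(mem_eset_j hj hab).mpr ⟨ha, hbW⟩, hx⟩)
        refine mem_union_left _ ((mP _ _).mpr ⟨hbW, ?_⟩)
        rcases hj with ⟨c1, c2⟩ | ⟨c1, c2⟩ <;> rw [c1, c2] at this
        · exact this.symm
        · exact this
    by_cases s1 : G.s e ∈ W
    · exact mem_union_right _ (key _ _ (joins_self e) he'.1 he'.2.2 s1)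
    by_cases s2 : G.t e ∈ W
    · exact mem_union_right _ (key _ _ (joins_self e).symm he'.1.symm he'.2.1 s2)
    refine mem_union_left _ (mem_union_right _ (mem_eset.mpr ⟨he'.1, ?_, ?_⟩))
    · exact by_contra fun c => s1 (mem_sdiff.mpr ⟨he'.2.1, c⟩)
    · exact by_contra fun c => s2 (mem_sdiff.mpr ⟨he'.2.2, c⟩)
  have c1 := (card_le_card cover).trans ((card_union_le _ _).trans (Nat.add_le_add
    (card_union_le X (eset G (S1 ∪ S2))) (card_biUnion_le (s := I)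
      (t := fun r => eset G (P r ∪ (S1 ∪ S2)) \ eset G (S1 ∪ S2)))))
  have c3 : (ein G N : ℤ) ≤ X.card + ein G (S1 ∪ S2) + ∑ r ∈ I, tch G (P r) (S1 ∪ S2) := by
    have e2 : ∀ r ∈ I, tch G (P r) (S1 ∪ S2) =
        ((eset G (P r ∪ (S1 ∪ S2)) \ eset G (S1 ∪ S2)).card : ℕ) := by
      intro r _
      have := card_sdiff_add_card_eq_card
        (eset_mono (G := G) (subset_union_right : S1 ∪ S2 ⊆ P r ∪ (S1 ∪ S2)))
      unfold tch ein
      omega
    rw [sum_congr rfl e2]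
    unfold ein
    exact_mod_cast c1
  have c6 : (W.card : ℤ) = ∑ r ∈ I, ((P r).card : ℤ) := by
    exact_mod_cast card_eq_sum_card_fiberwise (f := κ) (s := W) (t := I) kI
  have c7 : W.card + (S1 ∪ S2).card = N.card := card_sdiff_add_card_eq_card (union_subset h1 h2)
  have c8 : ∀ S : Finset V, ∑ r ∈ I, (if Tch G S (P r) then (0 : ℤ) else 1) =
      (I.filter (fun r => ¬ Tch G S (P r))).card := by
    intro S
    rw [card_filter]
    push_cast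
    apply sum_congr rfl
    intro r _
    by_cases c : Tch G S (P r) <;> simp [c]
  have c9 := far.F
  unfold eps at T
  rw [sum_add_distrib, sum_add_distrib, sum_sub_distrib, ← mul_sum, ← c6, c8, c8] at T
  unfold Fz at tot c9 T
  omega

theorem col_of_tab {S1 S2 : Finset V} {M1 M2 : Finset E}
    (hN : ∀ e, G.s e ≠ G.t e → G.s e ∈ N ∧ G.t e ∈ N) (tot : Fz G N ≤ 4) (h1 : S1 ⊆ N) (h2 : S2 ⊆ N)
    (far : FarG G S1 S2) (m1 : M1 ⊆ eset G S1) (m2 : M2 ⊆ eset G S2) (n1 : S1.Nonempty)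
    (n2 : S2.Nonempty) (l1 : ∀ v ∈ S1, G.df (ind M1) v = (G.d {v} : ZMod 2))
    (l2 : ∀ v ∈ S2, G.df (ind M2) v = (G.d {v} : ZMod 2)) (tab : Tab G N S1 S2 M1 M2) : G.Col := by
  obtain ⟨T1, t1, T2, t2, t3, t4⟩ := pack _ _ (cc_super (G := G) (N \ S1)) (cc_super (G := G) (N \ S2))
    2 _ _ _ rfl (acc4 tot h1 h2 far m1 m2 tab)
  have t1' : T1 ⊆ eset G (N \ S1) := t1.trans sdiff_subset
  have t2' : T2 ⊆ eset G (N \ S2) := t2.trans sdiff_subset
  have c1 : 1 ≤ cc G (N \ S1) T1 := by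
    obtain ⟨v, hv⟩ := n2
    exact one_le_cc ⟨v, mem_sdiff.mpr ⟨h2 hv, disjoint_right.mp far.dj hv⟩⟩
      (fun e he => by have := mem_eset.mp (t1' he); simp only [this.2.1, this.2.2])
  have c2 : 1 ≤ cc G (N \ S2) T2 := by
    obtain ⟨v, hv⟩ := n1
    exact one_le_cc ⟨v, mem_sdiff.mpr ⟨h1 hv, disjoint_left.mp far.dj hv⟩⟩
      (fun e he => by have := mem_eset.mp (t2' he); simp only [this.2.1, this.2.2])
  have z : ∀ v, v ∉ N → (G.d {v} : ZMod 2) = 0 := by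
    intro v hv
    have : G.cut {v} = ∅ := by
      rw [eq_empty_iff_forall_notMem]
      intro e he
      rw [mem_cut_single] at he
      have := hN e he.1
      rcases he.2 with c | c
      · exact hv (c ▸ this.1)
      · exact hv (c ▸ this.2)
    simp [MG.d, this]
  have s : ∑ v, (G.d {v} : ZMod 2) = 0 := by
    simp only [← df_one]
    exact sum_df_zero zmod2_add_self _
  obtain ⟨J1, j1, j2⟩ := join_with m1 h1 t1' (by omega) _ z s l1
  obtain ⟨J2, j3, j4⟩ := join_with m2 h2 t2' (by omega) _ z s l2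
  have u : ∀ x v, UU G (fun _ => 0) x v = (G.d {v} : ZMod 2) := fun x v => by simp [UU, lam]
  obtain ⟨φ, a, b⟩ := feas_of_joins (G := G) (β := fun _ => 0) (a := K.k1) (b := K.k2) (by decide)
    (by decide) (by decide) (J1 := J1) (J2 := J2) (fun e => by
      by_cases a : e ∈ T1
      · exact Or.inr (j3 e (disjoint_left.mp t3 a) (mem_sdiff.mp (t1 a)).2)
      by_cases b : e ∈ M1
      · refine Or.inr (j3 e (fun h => (mem_sdiff.mp (t2 h)).2 b) (fun h => ?_))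
        exact disjoint_left.mp far.dj (mem_eset.mp (m1 b)).2.1 (mem_eset.mp (m2 h)).2.1
      · exact Or.inl (j1 e a b)) (fun v => by rw [u, j2]) (fun v => by rw [u, j4])
  exact ⟨φ, a, fun v _ => b v⟩

end

end Pool.Agent.Lib.CF64
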