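import Pool.Agent.Lib.CF64.F4Acc

set_option linter.unusedSectionVars false
set_option linter.unusedVariables false
set_option linter.unusedSimpArgs false

namespace Pool.Agent.Lib.CF64

open Finset Pool.Agent.Lib.MP_aa6b05_co Pool.Agent.Lib.MP_aa6b05_co.MG

open scoped Classical

noncomputable section

variable {V E : Type} [Fintype V] [Fintype E] {G : MG V E} {N Y : Finset V}

structure Cx4 (G : MG V E) (N Y : Finset V) : Prop where
  gi : Gi G
  hN : ∀ e, G.s e ≠ G.t e → G.s e ∈ N ∧ G.t e ∈ N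
  tot : Fz G N ≤ 4
  f4 : ∀ Z : Finset V, 6 ≤ Z.card → 4 ≤ Fz G Z
  hY : Y ⊆ N
  FY : Fz G Y ≤ 4
  cY : 7 ≤ Y.card
  mY : ∀ W ⊆ Y, W ≠ Y → 7 ≤ W.card → 5 ≤ Fz G W

theorem Cx4.F_ge (cx : Cx4 G N Y) (Z : Finset V) :
    (1 ≤ Z.card → 0 ≤ Fz G Z) ∧ (2 ≤ Z.card → 1 ≤ Fz G Z) ∧ (3 ≤ Z.card → 2 ≤ Fz G Z) ∧
      (4 ≤ Z.card → 3 ≤ Fz G Z) ∧ (6 ≤ Z.card → 4 ≤ Fz G Z) := by
  have := cx.gi.F_small Z
  have := cx.f4 Z
  omega

theorem Cx4.F_inter (cx : Cx4 G N Y) (Z : Finset V) : Fz G (Z ∩ Y) ≤ Fz G Z := by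
  have a1 := ein_super (G := G) Z Y
  have a2 := card_union_add_card_inter Z Y
  have a3 := cx.f4 (Z ∪ Y) (le_trans (by have := cx.cY; omega) (card_le_card subset_union_right))
  have a4 := cx.FY
  unfold Fz at *
  omega

theorem F_le_card (Z : Finset V) : Fz G Z ≤ 2 * (Z.card : ℤ) - 2 := by
  unfold Fz
  omega

theorem F_insert (np : G.NoPar) {v : V} {Z : Finset V} (hv : v ∉ Z) :
    Fz G (insert v Z) = Fz G Z + 2 - dg G v Z := by
  unfold Fz
  rw [ein_insert np hv, card_insert_of_notMem hv]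
  push_cast
  ring

theorem tch_congr {P T Z : Finset V} (h1 : T ⊆ Z) (h2 : Disjoint P Z)
    (h3 : ∀ x ∈ P, ∀ a ∈ Z, Adj G a x → a ∈ T) : tch G P Z = tch G P T := by
  have a1 := card_sdiff_add_card_eq_card (eset_mono (G := G) (subset_union_right : Z ⊆ P ∪ Z))
  have a2 := card_sdiff_add_card_eq_card (eset_mono (G := G) (subset_union_right : T ⊆ P ∪ T))
  have a3 : eset G (P ∪ Z) \ eset G Z = eset G (P ∪ T) \ eset G T := by
    ext e
    have b1 := h3 (G.s e)
    have b2 := h3 (G.t e)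
    have b3 : G.s e ≠ G.t e → Adj G (G.s e) (G.t e) := fun c => ⟨c, e, joins_self e⟩
    have b4 : G.s e ≠ G.t e → Adj G (G.t e) (G.s e) := fun c => (b3 c).symm
    have b5 := @h1 (G.s e)
    have b6 := @h1 (G.t e)
    have b7 := @disjoint_left.mp h2 (G.s e)
    have b8 := @disjoint_left.mp h2 (G.t e)
    simp only [mem_sdiff, mem_eset, mem_union]
    constructor
    · rintro ⟨⟨c, c1 | c1, c2 | c2⟩, c3⟩
      · exact ⟨⟨c, Or.inl c1, Or.inl c2⟩, fun d => b7 c1 (b5 d.2.1)⟩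
      · exact ⟨⟨c, Or.inl c1, Or.inr (b1 c1 _ c2 (b4 c))⟩, fun d => b7 c1 (b5 d.2.1)⟩
      · exact ⟨⟨c, Or.inr (b2 c2 _ c1 (b3 c)), Or.inl c2⟩, fun d => b8 c2 (b6 d.2.2)⟩
      · exact absurd ⟨c, c1, c2⟩ c3
    · rintro ⟨⟨c, c1 | c1, c2 | c2⟩, c3⟩
      · exact ⟨⟨c, Or.inl c1, Or.inl c2⟩, fun d => b7 c1 d.2.1⟩
      · exact ⟨⟨c, Or.inl c1, Or.inr (b6 c2)⟩, fun d => b7 c1 d.2.1⟩
      · exact ⟨⟨c, Or.inr (b5 c1), Or.inl c2⟩, fun d => b8 c2 d.2.2⟩
      · exact absurd ⟨c, c1, c2⟩ c3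
  rw [a3] at a1
  unfold tch ein
  omega

theorem Cx4.pair (cx : Cx4 G N Y) {g : Finset V} {x y : V} (hx : x ∉ g) (hy : y ∉ g)
    (hxy : Adj G x y) (h1 : 0 < dg G x g) (h2 : 0 < dg G y g) : 2 ≤ Fz G g := by
  obtain ⟨a, ha, a1⟩ := dg_pos.mp h1
  obtain ⟨b, hb, b1⟩ := dg_pos.mp h2
  have ab : a ≠ b := fun e => cx.gi.tri hxy b1 (e ▸ a1.symm)
  by_cases c : 3 ≤ g.card
  · exact (cx.F_ge g).2.2.1 c
  have e : g = {a, b} := (eq_of_subset_of_card_le (by simp [insert_subset_iff, ha, hb])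
    (by rw [card_pair ab]; omega)).symm
  have n : ¬ Adj G a b := fun c =>
    hx ((cx.gi.quad a1.symm hxy b1 c.symm (fun e => hy (e ▸ ha))) ▸ hb)
  rw [e, F_insert cx.gi.np (by simp [ab]), (cx.gi.F_small {b}).1 (by simp),
    dg_eq_zero.mpr (by simpa using n)]
  simp

theorem Cx4.cell0 (cx : Cx4 G N Y) {g h K : Finset V} {k : V} (far : FarG G g h) (ng : g.Nonempty)
    (nh : h.Nonempty) (dK : Disjoint K (g ∪ h)) (n1 : ∀ x ∈ K, dg G x g ≤ 1)
    (n2 : ∀ x ∈ K, x ≠ k → dg G x h ≤ 1) (n3 : k ∈ K → h.card ≤ 2)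
    (c6 : K.card ≤ 2 ∨ (K ∪ (g ∪ h)).card ≤ 6) :
    5 ≤ Fz G (K ∪ (g ∪ h)) ∨ Fz G (g ∪ h) - (if k ∈ K then 1 else 0) ≤ Fz G (K ∪ (g ∪ h)) := by
  have np := cx.gi.np
  have du : ∀ x, dg G x (g ∪ h) = dg G x g + dg G x h := fun x => dg_union x far.dj
  have off : ∀ x ∈ K, x ∉ g ∧ x ∉ h := fun x hx => by simpa using disjoint_left.mp dK hx
  have cg := card_pos.mpr ng
  have ch := card_pos.mpr nh
  have fF := far.F
  by_cases c0 : K = ∅
  · subst c0
    simp
  by_cases c1 : K.card = 1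
  · obtain ⟨x, rfl⟩ := card_eq_one.mp c1
    right
    rw [← insert_eq, F_insert np (disjoint_left.mp dK (by simp)), du]
    have a1 := n1 x (by simp)
    have a2 := dg_le_card (G := G) x h
    by_cases c : x = k
    · have := n3 (by simp [c])
      rw [if_pos (by simp [c])]
      omega
    · have := n2 x (by simp) c
      rw [if_neg (by simpa using Ne.symm c)]
      omega
  by_cases c2 : K.card = 2
  · have key : ∀ x y, x ≠ y → y ≠ k → K = {x, y} → 5 ≤ Fz G (K ∪ (g ∪ h)) ∨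
        Fz G (g ∪ h) - (if k ∈ K then 1 else 0) ≤ Fz G (K ∪ (g ∪ h)) := by
      intro x y xy yk e
      have mx : x ∈ K := by simp [e]
      have my : y ∈ K := by simp [e]
      have e1 : Fz G (K ∪ (g ∪ h)) = Fz G (g ∪ h) + 4 - (dg G x g + dg G x h) -
          (dg G y g + dg G y h) - (if Adj G x y then 1 else 0) := by
        rw [e, insert_union, ← insert_eq, F_insert np (by simp [xy, off x mx]),
          F_insert np (by simp [off y my]), dg_insert _ _ (by simp [off y my]), du, du]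
        split_ifs <;> push_cast <;> ring
      have a1 := n1 x mx
      have a2 := n1 y my
      have a3 := n2 y my yk
      by_cases c : x = k
      · have a4 := n3 (c ▸ mx)
        have a5 := dg_le_card (G := G) x h
        rw [if_pos (c ▸ mx)]
        split_ifs at e1 with a
        · by_cases b : 1 < dg G x h ∧ 0 < dg G y h
          · exfalso
            obtain ⟨z, z1, z2⟩ := dg_pos.mp b.2
            have : h.filter (Adj G x) = h := eq_of_subset_of_card_le (filter_subset _ _)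
              (by have := b.1; unfold dg at this; omega)
            rw [← this] at z1
            exact cx.gi.tri a z2 (mem_filter.mp z1).2.symm
          · omega
        · omega
      · have a4 := n2 x mx c
        have a5 : (0 : ℤ) ≤ if k ∈ K then 1 else 0 := by split_ifs <;> simp
        split_ifs at e1 with a
        · have b1 := cx.pair (off x mx).1 (off y my).1 a
          have b2 := cx.pair (off x mx).2 (off y my).2 a
          omega
        · omega
    obtain ⟨x, y, xy, e⟩ := card_eq_two.mp c2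
    by_cases c : y = k
    · exact key y x xy.symm (fun d => xy (d.trans c.symm)) (e.trans (pair_comm _ _))
    · exact key x y xy c e
  have c3 := card_pos.mpr (nonempty_iff_ne_empty.mpr c0)
  have a1 := card_union_of_disjoint dK
  have a2 := card_union_of_disjoint far.dj
  have a3 := F_le_card (G := G) (g ∪ h)
  have a4 := cx.F_ge (K ∪ (g ∪ h))
  have a5 : (0 : ℤ) ≤ if k ∈ K then 1 else 0 := by split_ifs <;> simp
  omega

theorem Cx4.cell (cx : Cx4 G N Y) {g h K : Finset V} {k : V} (far : FarG G g h) (hg : g ⊆ Y)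
    (hh : h ⊆ Y) (ng : g.Nonempty) (nh : h.Nonempty) (dK : Disjoint K (g ∪ h))
    (n1 : ∀ x ∈ K, dg G x g ≤ 1) (n2 : ∀ x ∈ K, x ≠ k → dg G x h ≤ 1) (n3 : k ∈ K → h.card ≤ 2)
    (nY : ¬ Y ⊆ K ∪ (g ∪ h)) :
    5 ≤ Fz G (K ∪ (g ∪ h)) ∨ Fz G (g ∪ h) - (if k ∈ K then 1 else 0) ≤ Fz G (K ∪ (g ∪ h)) := by
  have a1 := cx.F_inter (K ∪ (g ∪ h))
  have e : (K ∪ (g ∪ h)) ∩ Y = (K ∩ Y) ∪ (g ∪ h) := by
    rw [union_inter_distrib_right, inter_eq_left.mpr (union_subset hg hh)]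
  by_cases c : 7 ≤ ((K ∪ (g ∪ h)) ∩ Y).card
  · have := cx.mY _ inter_subset_right (fun d => nY (d ▸ inter_subset_left)) c
    omega
  rw [e] at a1 c
  have a2 := cx.cell0 (K := K ∩ Y) (k := k) far ng nh (dK.mono_left inter_subset_left)
    (fun x hx => n1 x (mem_inter.mp hx).1) (fun x hx => n2 x (mem_inter.mp hx).1)
    (fun hx => n3 (mem_inter.mp hx).1) (Or.inr (by omega))
  have a3 : (if k ∈ K ∩ Y then (1 : ℤ) else 0) ≤ if k ∈ K then 1 else 0 := by
    by_cases d : k ∈ K ∩ Y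
    · rw [if_pos d, if_pos (mem_inter.mp d).1]
    · rw [if_neg d]
      split_ifs <;> simp
  omega

/-- a small set of items with at most one outside vertex seeing two of them -/
structure Dbl (G : MG V E) (Y S : Finset V) (k : V) : Prop where
  hS : S ⊆ Y
  ne : S.Nonempty
  hk : k ∈ Y
  f3 : Fz G S ≤ 3
  f4 : Fz G S = 3 → 4 ≤ S.card
  nb : ∀ x, x ∉ S → x ≠ k → dg G x S ≤ 1
  c2 : k ∉ S → S.card ≤ 2

theorem Cx4.one (cx : Cx4 G N Y) {S P : Finset V} {k : V} (d : Dbl G Y S k) (nP : P.Nonempty)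
    (dj : Disjoint P S) : Fz G S + 1 - (if k ∈ P then 1 else 0) ≤ Fz G (P ∪ S) := by
  have a5 : (0 : ℤ) ≤ if k ∈ P then 1 else 0 := by split_ifs <;> simp
  by_cases c1 : P.card = 1
  · obtain ⟨x, rfl⟩ := card_eq_one.mp c1
    have hx : x ∉ S := disjoint_left.mp dj (by simp)
    rw [← insert_eq, F_insert cx.gi.np hx]
    by_cases c : x = k
    · have := d.c2 (c ▸ hx)
      have a2 := dg_le_card (G := G) x S
      rw [if_pos (by simp [c])]
      omega
    · have := d.nb x hx c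
      omega
  have a1 := card_union_of_disjoint dj
  have a2 := card_pos.mpr nP
  have a3 := card_pos.mpr d.ne
  have a4 := F_le_card (G := G) S
  have a6 := cx.F_ge (P ∪ S)
  have a7 := d.f3
  have a8 := d.f4
  omega

theorem tch_F {P Z : Finset V} (h : Disjoint P Z) :
    tch G P Z - 2 * P.card = Fz G Z - Fz G (P ∪ Z) := by
  unfold tch Fz
  rw [card_union_of_disjoint h]
  push_cast
  ring

theorem Cx4.eps_one (cx : Cx4 G N Y) {S1 S2 P : Finset V} {k1 k2 : V} (d1 : Dbl G Y S1 k1)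
    (d2 : Dbl G Y S2 k2) (nP : P.Nonempty) (dj : Disjoint P (S1 ∪ S2))
    (h : ¬ (Tch G S1 P ∧ Tch G S2 P)) :
    eps G S1 S2 P ≤ (if k1 ∈ P then 1 else 0) + (if k2 ∈ P then 1 else 0) := by
  have a1 : (0 : ℤ) ≤ if k1 ∈ P then 1 else 0 := by split_ifs <;> simp
  have a2 : (0 : ℤ) ≤ if k2 ∈ P then 1 else 0 := by split_ifs <;> simp
  have j1 : Disjoint P S1 := dj.mono_right subset_union_left
  have j2 : Disjoint P S2 := dj.mono_right subset_union_right
  unfold eps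
  by_cases t1 : Tch G S1 P
  · have t2 : ¬ Tch G S2 P := fun t => h ⟨t1, t⟩
    rw [if_pos t1, if_neg t2, tch_congr (T := S1) subset_union_left dj (fun x hx a ha b =>
      (mem_union.mp ha).elim id fun c => absurd ⟨x, hx, a, c, b⟩ t2), tch_F j1]
    have := cx.one d1 nP j1
    omega
  by_cases t2 : Tch G S2 P
  · rw [if_neg t1, if_pos t2, tch_congr (T := S2) subset_union_right dj (fun x hx a ha b =>
      (mem_union.mp ha).elim (fun c => absurd ⟨x, hx, a, c, b⟩ t1) id), tch_F j2]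
    have := cx.one d2 nP j2
    omega
  · rw [if_neg t1, if_neg t2, tch_congr (T := ∅) (empty_subset _) dj (fun x hx a ha b =>
      (mem_union.mp ha).elim (fun c => absurd ⟨x, hx, a, c, b⟩ t1)
        fun c => absurd ⟨x, hx, a, c, b⟩ t2), tch_F (disjoint_empty_right _), union_empty]
    have := (cx.F_ge P).1 (card_pos.mpr nP)
    have : Fz G ∅ = -2 := by simp [Fz, ein_empty]
    omega

/-- the fibre of a labelling -/
def fb (S : Finset V) (μ : V → V) (z : V) : Finset V := S.filter (fun v => μ v = z)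

theorem sum_mem_le {I : Finset V} {P : V → Finset V}
    (dj : ∀ r ∈ I, ∀ r' ∈ I, r ≠ r' → Disjoint (P r) (P r')) (k : V) :
    ∑ r ∈ I, (if k ∈ P r then (1 : ℤ) else 0) ≤ if k ∈ I.biUnion P then 1 else 0 := by
  split_ifs with h
  · obtain ⟨r, hr, a⟩ := mem_biUnion.mp h
    rw [sum_eq_single r (fun r' hr' b => if_neg (disjoint_right.mp (dj r' hr' r hr b) a))
      (fun b => absurd hr b), if_pos a]
  · exact le_of_eq (sum_eq_zero fun r hr => if_neg fun a => h (mem_biUnion.mpr ⟨r, hr, a⟩))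

theorem Cx4.cells (cx : Cx4 G N Y) {S1 S2 I : Finset V} {k1 k2 : V} {M1 M2 : Finset E}
    {P : V → Finset V} {μ ν : V → V} (d1 : Dbl G Y S1 k1) (d2 : Dbl G Y S2 k2)
    (fam : Fam4 G N S1 S2 M1 M2 I P μ ν) : ∃ (O : Finset V) (K : V × V → Finset V),
      Disjoint O (S1 ∪ S2) ∧ (∀ p, Disjoint (K p) (S1 ∪ S2)) ∧ (∀ p, Disjoint O (K p)) ∧
      (∀ p q, p ≠ q → Disjoint (K p) (K q)) ∧
      (∀ x ∈ O, ∀ a ∈ S1, ∀ b ∈ S2, Adj G a x → ¬ Adj G b x) ∧
      ∑ r ∈ I, eps G S1 S2 (P r) ≤ (if k1 ∈ O then 1 else 0) + (if k2 ∈ O then 1 else 0) +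
        ∑ p ∈ S1.image μ ×ˢ S2.image ν, (Fz G (fb S1 μ p.1 ∪ fb S2 ν p.2) -
          Fz G (K p ∪ (fb S1 μ p.1 ∪ fb S2 ν p.2))) := by
  set J := I.filter (fun r => Tch G S1 (P r) ∧ Tch G S2 (P r)) with hJ
  set J' := I.filter (fun r => ¬ (Tch G S1 (P r) ∧ Tch G S2 (P r))) with hJ'
  have dS : ∀ r ∈ I, Disjoint (P r) (S1 ∪ S2) := fun r hr => disjoint_left.mpr fun v hv => by
    simpa using ((fam.sub r hr).1 v hv).2
  have ex : ∀ r, ∃ p : V × V, r ∈ J → p ∈ S1.image μ ×ˢ S2.image ν ∧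
      ∀ x ∈ P r, ∀ a ∈ S1 ∪ S2, Adj G a x → (a ∈ S1 → μ a = p.1) ∧ (a ∈ S2 → ν a = p.2) := by
    intro r
    by_cases h : r ∈ J
    · obtain ⟨⟨x, hx, a, ha, ax⟩, y, hy, b, hb, by'⟩ := (mem_filter.mp h).2
      exact ⟨(μ a, ν b), fun _ => ⟨mem_product.mpr ⟨mem_image_of_mem _ ha, mem_image_of_mem _ hb⟩,
        fun z hz c _ cz => ⟨fun hc => fam.t1 r z hz x hx c hc a ha cz ax,
          fun hc => fam.t2 r z hz y hy c hc b hb cz by'⟩⟩⟩
    · exact ⟨(r, r), fun a => absurd a h⟩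
  choose lab hlab using ex
  have jI : ∀ p r, r ∈ J.filter (fun r => lab r = p) → r ∈ I := fun p r h =>
    (mem_filter.mp (mem_filter.mp h).1).1
  refine ⟨J'.biUnion P, fun p => (J.filter (fun r => lab r = p)).biUnion P, ?_, fun p => ?_,
    fun p => ?_, fun p q pq => ?_, ?_, ?_⟩
  · exact (disjoint_biUnion_left _ _ _).mpr fun r hr => dS r (mem_filter.mp hr).1
  · exact (disjoint_biUnion_left _ _ _).mpr fun r hr => dS r (jI p r hr)
  · refine (disjoint_biUnion_left _ _ _).mpr fun r hr => (disjoint_biUnion_right _ _ _).mpr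
      fun r' hr' => fam.dj r (mem_filter.mp hr).1 r' (jI p r' hr') fun e => ?_
    exact (mem_filter.mp hr).2 (e ▸ (mem_filter.mp (mem_filter.mp hr').1).2)
  · refine (disjoint_biUnion_left _ _ _).mpr fun r hr => (disjoint_biUnion_right _ _ _).mpr
      fun r' hr' => fam.dj r (jI p r hr) r' (jI q r' hr') fun e => ?_
    exact pq ((mem_filter.mp hr).2.symm.trans (e ▸ (mem_filter.mp hr').2))
  · intro x hx a ha b hb ax bx
    obtain ⟨r, hr, c⟩ := mem_biUnion.mp hx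
    exact (mem_filter.mp hr).2 ⟨⟨x, c, a, ha, ax⟩, x, c, b, hb, bx⟩
  rw [← sum_filter_add_sum_filter_not I (fun r => Tch G S1 (P r) ∧ Tch G S2 (P r)), ← hJ, ← hJ',
    add_comm]
  have dJ' : ∀ r ∈ J', ∀ r' ∈ J', r ≠ r' → Disjoint (P r) (P r') := fun r hr r' hr' =>
    fam.dj r (mem_filter.mp hr).1 r' (mem_filter.mp hr').1
  apply add_le_add
  · refine le_trans (sum_le_sum fun r hr => cx.eps_one d1 d2 (fam.sub r (mem_filter.mp hr).1).2
      (dS r (mem_filter.mp hr).1) (mem_filter.mp hr).2) ?_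
    rw [sum_add_distrib]
    exact add_le_add (sum_mem_le dJ' k1) (sum_mem_le dJ' k2)
  rw [← sum_fiberwise_of_maps_to (g := lab) (fun r hr => (hlab r hr).1)]
  apply sum_le_sum
  intro p _
  have sb : fb S1 μ p.1 ∪ fb S2 ν p.2 ⊆ S1 ∪ S2 :=
    union_subset_union (filter_subset _ _) (filter_subset _ _)
  have dj : ∀ r ∈ J.filter (fun r => lab r = p), ∀ r' ∈ J.filter (fun r => lab r = p), r ≠ r' →
      Disjoint (P r) (P r') := fun r hr r' hr' => fam.dj r (jI p r hr) r' (jI p r' hr')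
  have a1 : ∀ r ∈ J.filter (fun r => lab r = p), eps G S1 S2 (P r) =
      tch G (P r) (fb S1 μ p.1 ∪ fb S2 ν p.2) - 2 * (P r).card := by
    intro r hr
    obtain ⟨h1, h2⟩ := mem_filter.mp hr
    have t := (mem_filter.mp h1).2
    unfold eps
    rw [if_pos t.1, if_pos t.2, tch_congr sb (dS r (jI p r hr))]
    · simp
    · intro x hx a ha ax
      have := (hlab r h1).2 x hx a ha ax
      rw [h2] at this
      rcases mem_union.mp ha with c | c
      · exact mem_union_left _ (mem_filter.mpr ⟨c, this.1 c⟩)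
      · exact mem_union_right _ (mem_filter.mpr ⟨c, this.2 c⟩)
  rw [sum_congr rfl a1, sum_sub_distrib, ← mul_sum]
  have a2 := sum_tch_le (G := G) (fb S1 μ p.1 ∪ fb S2 ν p.2) P _ dj
  have a3 : (((J.filter (fun r => lab r = p)).biUnion P).card : ℤ) =
      ∑ r ∈ J.filter (fun r => lab r = p), ((P r).card : ℤ) := by
    exact_mod_cast card_biUnion dj
  have a4 := tch_F (G := G) (((disjoint_biUnion_left _ _ _).mpr
    fun r hr => dS r (jI p r hr)).mono_right sb)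
  unfold tch at a4
  beta_reduce
  omega

end

end Pool.Agent.Lib.CF64
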