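import Pool.Agent.Lib.CF64.F4Tab

set_option linter.unusedSectionVars false
set_option linter.unusedVariables false
set_option linter.unusedSimpArgs false

namespace Pool.Agent.Lib.CF64

open Finset Pool.Agent.Lib.MP_aa6b05_co Pool.Agent.Lib.MP_aa6b05_co.MG

open scoped Classical

noncomputable section

variable {V E : Type} [Fintype V] [Fintype E] {G : MG V E} {N Y : Finset V}

theorem rem_F (np : G.NoPar) {C W : Finset V} (h : C ⊆ W) (h3 : ∀ v ∈ C, dg G v W ≤ 3) :
    Fz G (W \ C) + ein G C ≤ Fz G W + C.card := by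
  have dj : Disjoint C (W \ C) := disjoint_sdiff
  have e : C ∪ (W \ C) = W := union_sdiff_of_subset h
  have a1 := sum_dg np W
  have a2 := sum_dg np C
  have a3 := sum_dg np (W \ C)
  have a4 := dg_double (G := G) C (W \ C)
  have a5 : ∀ v, dg G v W = dg G v C + dg G v (W \ C) := fun v => by rw [← dg_union v dj, e]
  have a6 := sum_sdiff (f := fun v => dg G v W) h
  have a7 := sum_le_card_nsmul C (fun v => dg G v W) 3 h3
  have a8 : ∑ v ∈ C, dg G v W = ∑ v ∈ C, dg G v C + ∑ v ∈ C, dg G v (W \ C) := by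
    rw [← sum_add_distrib]
    exact sum_congr rfl fun v _ => a5 v
  have a9 : ∑ v ∈ W \ C, dg G v W = ∑ v ∈ W \ C, dg G v C + ∑ v ∈ W \ C, dg G v (W \ C) := by
    rw [← sum_add_distrib]
    exact sum_congr rfl fun v _ => a5 v
  have a10 := card_sdiff_add_card_eq_card h
  simp only [smul_eq_mul] at a7
  unfold Fz
  omega

theorem theta7 (gi : Gi G) {Z : Finset V} (c7 : Z.card = 7) (d2 : ∀ v ∈ Z, 2 ≤ dg G v Z)
    (e8 : 8 ≤ ein G Z) {Q : V → Prop}
    (c5 : ∀ a b c d e, Adj G a b → Adj G b c → Adj G c d → Adj G d e → Adj G e a → Q a) :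
    ∀ v ∈ Z, Q v := by
  have d3 : ∀ v ∈ Z, dg G v Z ≤ 3 := fun v hv => by
    have := gi.moore' hv 2 d2
    omega
  obtain ⟨x, hx, y, hy, xy⟩ : ∃ x ∈ Z.filter (fun v => dg G v Z = 3),
      ∃ y ∈ Z.filter (fun v => dg G v Z = 3), x ≠ y := by
    rw [← one_lt_card]
    have a1 := sum_dg gi.np Z
    have a2 : ∑ v ∈ Z, dg G v Z ≤ ∑ v ∈ Z, (2 + if dg G v Z = 3 then 1 else 0) :=
      sum_le_sum fun v hv => by
        have := d3 v hv
        split_ifs <;> omega
    rw [sum_add_distrib, ← card_filter, sum_const, smul_eq_mul] at a2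
    omega
  obtain ⟨hx, x3⟩ := mem_filter.mp hx
  obtain ⟨hy, y3⟩ := mem_filter.mp hy
  have nxy : ¬ Adj G x y := by
    intro a
    have a1 := gi.moore hx
    have my : y ∈ Z.filter (Adj G x) := mem_filter.mpr ⟨hy, a⟩
    rw [← add_sum_erase _ _ my] at a1
    have a2 := card_nsmul_le_sum ((Z.filter (Adj G x)).erase y) (fun v => dg G v Z) 2
      (fun v hv => d2 v (mem_filter.mp (mem_erase.mp hv).2).1)
    have a3 := card_erase_add_one my
    simp only [smul_eq_mul] at a2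
    unfold dg at x3
    omega
  have a1 := card_union_add_card_inter (Z.filter (Adj G x)) (Z.filter (Adj G y))
  have a2 : ∀ u ∈ Z.filter (Adj G x) ∩ Z.filter (Adj G y), ∀ v ∈ Z.filter (Adj G x) ∩ Z.filter (Adj G y),
      u = v := by
    intro u hu v hv
    simp only [mem_inter, mem_filter] at hu hv
    exact gi.quad hu.1.2 hu.2.2.symm hv.2.2 hv.1.2.symm xy
  have a3 := card_le_one.mpr a2
  have a4 : insert x (insert y (Z.filter (Adj G x) ∪ Z.filter (Adj G y))) ⊆ Z := by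
    simp [insert_subset_iff, hx, hy, union_subset_iff]
  have a5 : (insert x (insert y (Z.filter (Adj G x) ∪ Z.filter (Adj G y)))).card =
      (Z.filter (Adj G x) ∪ Z.filter (Adj G y)).card + 2 := by
    rw [card_insert_of_notMem (by simp [xy, not_adj_self, adj_comm (a := y), nxy]),
      card_insert_of_notMem (by simp [not_adj_self, nxy])]
  have a6 := card_le_card a4
  unfold dg at x3 y3
  obtain ⟨m, hm⟩ : (Z.filter (Adj G x) ∩ Z.filter (Adj G y)).Nonempty := card_pos.mp (by omega)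
  have a7 := eq_of_subset_of_card_le a4 (by omega)
  have all : ∀ v ∈ Z, v = x ∨ v = y ∨ Adj G x v ∨ Adj G y v := by
    intro v hv
    rw [← a7] at hv
    simp only [mem_insert, mem_union, mem_filter] at hv
    tauto
  have uq : ∀ v ∈ Z, Adj G x v → Adj G y v → v = m := fun v hv b1 b2 =>
    a2 v (by simp [hv, b1, b2]) m hm
  simp only [mem_inter, mem_filter] at hm
  have key : ∀ x y, (∀ v ∈ Z, v = x ∨ v = y ∨ Adj G x v ∨ Adj G y v) →
      (∀ v ∈ Z, Adj G x v → Adj G y v → v = m) → Adj G x m → Adj G y m → ∀ a ∈ Z, Adj G x a → a ≠ m →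
      Q a ∧ Q x ∧ Q m ∧ Q y := by
    intro x y all uq b1 b2 a ha b3 b4
    obtain ⟨w, hw, b5, b6⟩ := exists_adj_ne (d2 a ha) x
    rcases all w hw with c | c | c | c
    · exact absurd c b6
    · exact absurd (uq a ha b3 (c ▸ b5.symm)) b4
    · exact (gi.tri b3 b5 c.symm).elim
    · exact ⟨c5 _ _ _ _ _ b3.symm b1 b2.symm c b5.symm, c5 _ _ _ _ _ b1 b2.symm c b5.symm b3.symm,
        c5 _ _ _ _ _ b2.symm c b5.symm b3.symm b1, c5 _ _ _ _ _ c b5.symm b3.symm b1 b2.symm⟩
  have k1 := key x y all uq hm.1.2 hm.2.2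
  have k2 := key y x (fun v hv => by have := all v hv; tauto) (fun v hv a b => uq v hv b a) hm.2.2 hm.1.2
  obtain ⟨a, ha, b1, b2⟩ := exists_adj_ne (d2 x hx) m
  have k3 := k1 a ha b1 b2
  intro v hv
  by_cases c : v = m
  · exact c ▸ k3.2.2.1
  rcases all v hv with d | d | d | d
  · exact d ▸ k3.2.1
  · exact d ▸ k3.2.2.2
  · exact (k1 v hv d c).1
  · exact (k2 v hv d c).1

theorem adj_avoid {v : V} {S T : Finset V} (h : T.card < dg G v S) : ∃ x ∈ S, Adj G v x ∧ x ∉ T := by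
  obtain ⟨x, h1, h2⟩ := exists_mem_notMem_of_card_lt_card h
  exact ⟨x, (mem_filter.mp h1).1, (mem_filter.mp h1).2, h2⟩

def sd (G : MG V E) (Y : Finset V) (x y : V) : Finset V :=
  Y.filter (fun v => v = x ∨ (Adj G x v ∧ v ≠ y) ∨ ∃ a, Adj G x a ∧ a ≠ y ∧ Adj G a v)

theorem sd_not (gi : Gi G) {x y : V} (h : Adj G x y) : y ∉ sd G Y x y := by
  intro a
  rcases (mem_filter.mp a).2 with b | b | ⟨a, b1, -, b2⟩
  · exact h.ne b.symm
  · exact b.2 rfl
  · exact gi.tri b1 b2 h.symm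

theorem sd_card (gi : Gi G) (d3 : ∀ v ∈ Y, 3 ≤ dg G v Y) {x y : V} (hx : x ∈ Y) (h : Adj G x y) :
    7 ≤ (sd G Y x y).card := by
  have a1 := gi.moore (Z := sd G Y x y) (v := x) (mem_filter.mpr ⟨hx, Or.inl rfl⟩)
  have a2 := card_nsmul_le_sum ((sd G Y x y).filter (Adj G x)) (fun v => dg G v (sd G Y x y)) 3 (by
    intro a ha
    obtain ⟨b1, b2⟩ := mem_filter.mp ha
    refine (d3 a (mem_filter.mp b1).1).trans (card_le_card fun v hv => ?_)
    obtain ⟨c1, c2⟩ := mem_filter.mp hv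
    exact mem_filter.mpr ⟨mem_filter.mpr ⟨c1, Or.inr (Or.inr
      ⟨a, b2, fun e => sd_not gi h (e ▸ b1), c2⟩)⟩, c2⟩)
  have a3 : (Y.filter (Adj G x)).erase y ⊆ (sd G Y x y).filter (Adj G x) := by
    intro v hv
    obtain ⟨c1, c2⟩ := mem_erase.mp hv
    obtain ⟨c2, c3⟩ := mem_filter.mp c2
    exact mem_filter.mpr ⟨mem_filter.mpr ⟨c2, Or.inr (Or.inl ⟨c3, c1⟩)⟩, c3⟩
  have a4 := card_le_card a3
  have a5 := pred_card_le_card_erase (s := Y.filter (Adj G x)) (a := y)
  have a6 := d3 x hx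
  simp only [smul_eq_mul] at a2
  unfold dg at a6
  omega

theorem card14 (gi : Gi G) (n5 : No5 G Y) (d3 : ∀ v ∈ Y, 3 ≤ dg G v Y) {x : V} (hx : x ∈ Y) :
    14 ≤ Y.card := by
  obtain ⟨y, hy, h⟩ := dg_pos.mp (show 0 < dg G x Y by have := d3 x hx; omega)
  have a1 := sd_card gi d3 hx h
  have a2 := sd_card gi d3 hy h.symm
  have a3 : Disjoint (sd G Y x y) (sd G Y y x) := by
    rw [disjoint_left]
    intro v h1 h2
    rcases (mem_filter.mp h1).2 with b | b | ⟨a, b1, b2, b3⟩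
    · exact sd_not gi h.symm (b ▸ h2)
    · rcases (mem_filter.mp h2).2 with c | c | ⟨a', c1, c2, c3⟩
      · exact b.2 c
      · exact gi.tri h c.1 b.1.symm
      · exact b.2 (gi.quad b.1 c3.symm c1.symm h.symm c2.symm)
    · rcases (mem_filter.mp h2).2 with c | c | ⟨a', c1, c2, c3⟩
      · exact sd_not gi h (c ▸ h1)
      · exact c.2 (gi.quad c.1 b3.symm b1.symm h b2.symm)
      · exact n5 x a v a' y hx b1 b3 c3.symm c1.symm h.symm
  have a4 := card_le_card (union_subset (filter_subset _ _ : sd G Y x y ⊆ Y)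
    (filter_subset _ _ : sd G Y y x ⊆ Y))
  have a5 := card_union_of_disjoint a3
  unfold sd at *
  omega

theorem col_of_min (gi : Gi G) (hN : ∀ e, G.s e ≠ G.t e → G.s e ∈ N ∧ G.t e ∈ N) (tot : Fz G N ≤ 4)
    (f4 : ∀ Z : Finset V, 6 ≤ Z.card → 4 ≤ Fz G Z) (n13 : 13 ≤ N.card)
    (c5 : ∀ a b c d e, Adj G a b → Adj G b c → Adj G c d → Adj G d e → Adj G e a → G.d {a} ≤ 3) :
    G.Col := by
  have np := gi.np
  have du : ∀ v W, dg G v W ≤ G.d {v} := fun v W => by
    rw [d_eq_dg np]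
    exact dg_mono v (subset_univ _)
  obtain ⟨Y, hY, hmin⟩ := exists_min_image
    (N.powerset.filter (fun Y => 7 ≤ Y.card ∧ Fz G Y ≤ 4)) card ⟨N, by simp [tot]; omega⟩
  simp only [mem_filter, mem_powerset] at hY hmin
  obtain ⟨h1, h2, h3⟩ := hY
  have mY : ∀ W ⊆ Y, W ≠ Y → 7 ≤ W.card → 5 ≤ Fz G W := by
    intro W a b c
    by_contra hn
    exact b (eq_of_subset_of_card_le a (hmin W ⟨a.trans h1, c, by omega⟩))
  have cx : Cx4 G N Y := ⟨gi, hN, tot, f4, h1, h3, h2, mY⟩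
  have h8 : 8 ≤ Y.card := by
    by_contra hn
    have c7 : Y.card = 7 := by omega
    have e8 : 8 ≤ ein G Y := by
      unfold Fz at h3
      omega
    have q := theta7 gi c7 (fun v hv => by
      have a := Fz_erase np hv
      have b := f4 (Y.erase v) (by rw [card_erase_of_mem hv]; omega)
      omega) e8 c5
    have a1 := rem_F np h1 fun v hv => (du v N).trans (q v hv)
    have a2 := card_sdiff_add_card_eq_card h1
    have a3 := f4 (N \ Y) (by omega)
    omega
  have d3 : ∀ v ∈ Y, 3 ≤ dg G v Y := by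
    intro v hv
    have a := Fz_erase np hv
    have b := mY (Y.erase v) (erase_subset _ _) (fun h => by rw [← h] at hv; simp at hv)
      (by rw [card_erase_of_mem hv]; omega)
    omega
  have s1 := sum_dg np Y
  have FY := f4 Y (by omega)
  have h12 : 12 ≤ Y.card := by
    have a := card_nsmul_le_sum Y (fun v => dg G v Y) 3 d3
    simp only [smul_eq_mul] at a
    unfold Fz at FY
    omega
  have cl : ∀ a ∈ Y, G.d {a} ≤ 3 → ∀ b, Adj G a b → b ∈ Y := by
    intro a ha h b hb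
    rw [d_eq_dg np] at h
    have e : Y.filter (Adj G a) = univ.filter (Adj G a) := eq_of_subset_of_card_le
      (filter_subset_filter _ (subset_univ _)) (h.trans (d3 a ha))
    have : b ∈ Y.filter (Adj G a) := by simp [e, hb]
    exact (mem_filter.mp this).1
  have n5 : No5 G Y := by
    intro a b c d e ha e1 e2 e3 e4 e5
    have q1 := c5 _ _ _ _ _ e1 e2 e3 e4 e5
    have q2 := c5 _ _ _ _ _ e2 e3 e4 e5 e1
    have q3 := c5 _ _ _ _ _ e3 e4 e5 e1 e2
    have q4 := c5 _ _ _ _ _ e4 e5 e1 e2 e3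
    have q5 := c5 _ _ _ _ _ e5 e1 e2 e3 e4
    have hb := cl a ha q1 b e1
    have hc := cl b hb q2 c e2
    have hd := cl c hc q3 d e3
    have he := cl d hd q4 e e4
    have sC : ({a, b, c, d, e} : Finset V) ⊆ Y := by simp [insert_subset_iff, *]
    have two : ∀ {C : Finset V} {a b c d e : V}, b ∈ C → e ∈ C → Adj G a b → Adj G b c → Adj G c d →
        Adj G d e → Adj G e a → 2 ≤ dg G a C := fun m1 m2 e1 e2 e3 e4 e5 =>
      one_lt_dg.mpr ⟨_, m1, _, m2, e1, e5.symm, fun h => gi.tri e2 e3 (h ▸ e4)⟩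
    have a1 := rem_F np sC (fun v hv => by
      simp only [mem_insert, mem_singleton] at hv
      rcases hv with rfl | rfl | rfl | rfl | rfl <;> exact (du _ Y).trans (by assumption))
    have a2 := card_nsmul_le_sum {a, b, c, d, e} (fun v => dg G v {a, b, c, d, e}) 2 (fun v hv => by
      simp only [mem_insert, mem_singleton] at hv
      rcases hv with rfl | rfl | rfl | rfl | rfl
      · exact two (by simp) (by simp) e1 e2 e3 e4 e5
      · exact two (by simp) (by simp) e2 e3 e4 e5 e1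
      · exact two (by simp) (by simp) e3 e4 e5 e1 e2
      · exact two (by simp) (by simp) e4 e5 e1 e2 e3
      · exact two (by simp) (by simp) e5 e1 e2 e3 e4)
    have a3 := sum_dg np {a, b, c, d, e}
    have a4 : ({a, b, c, d, e} : Finset V).card ≤ 5 := card_le_five
    have a5 := card_sdiff_add_card_eq_card sC
    have a6 := mY (Y \ {a, b, c, d, e}) sdiff_subset (fun h => by rw [← h] at ha; simp at ha) (by omega)
    simp only [smul_eq_mul] at a2
    omega
  obtain ⟨x, hx⟩ : Y.Nonempty := card_pos.mp (by omega)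
  have h14 := card14 gi n5 d3 hx
  obtain ⟨h, hh, h4⟩ : ∃ h ∈ Y, 4 ≤ dg G h Y := by
    by_contra hn
    push Not at hn
    have a := sum_le_card_nsmul Y (fun v => dg G v Y) 3 (fun v hv => by have := hn v hv; omega)
    simp only [smul_eq_mul] at a
    unfold Fz at h3
    omega
  have ax : Ax (AY G Y) (fun v => Even (G.d {v})) := by
    refine ⟨fun h => ⟨h.2.1, h.1, h.2.2.symm⟩, fun h => h.2.2.ne rfl,
      fun a b c => gi.tri a.2.2 b.2.2 c.2.2, fun a b c d => gi.quad a.2.2 b.2.2 c.2.2 d.2.2,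
      fun {v w} h a b => ?_, fun a b c d e => (n5 _ _ _ _ _ a.1 a.2.2 b.2.2 c.2.2 d.2.2 e.2.2).elim,
      fun a b c d e => (n5 _ _ _ _ _ a.1 a.2.2 b.2.2 c.2.2 d.2.2 e.2.2).elim,
      fun a b c d e => (n5 _ _ _ _ _ a.1 a.2.2 b.2.2 e.2.2.symm d.2.2.symm c.2.2.symm).elim⟩
    obtain ⟨x, x1, x2, x3⟩ := adj_avoid (T := {a, b}) (lt_of_le_of_lt card_le_two (d3 v h.1))
    exact ⟨x, ⟨h.1, x1, x2⟩, by simpa using x3⟩
  refine cx.col_of_good n5 (good_of_ax ax (h := h) fun a b c => ?_)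
  obtain ⟨x, x1, x2, x3⟩ := adj_avoid (T := {a, b, c}) (lt_of_le_of_lt card_le_three h4)
  exact ⟨x, ⟨hh, x1, x2⟩, by simpa using x3⟩

end

end Pool.Agent.Lib.CF64
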