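import Pool.Agent.Lib.CF64.Main
import Pool.Agent.Lib.CF64.F4Min

set_option linter.unusedSectionVars false
set_option linter.unusedVariables false
set_option linter.unusedSimpArgs false

namespace Pool.Agent.Lib.CF64

open Finset Pool.Agent.Lib.MP_aa6b05_co Pool.Agent.Lib.MP_aa6b05_co.MG

open scoped Classical

noncomputable section

variable {V E : Type} [Fintype V] [Fintype E] {G : MG V E} {N : Finset V} {f : ℕ}

structure Shr4 (G : MG V E) (N Y : Finset V) (p y w : V) (e1 e2 : E) : Prop where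
  hN : ∀ e, G.s e ≠ G.t e → G.s e ∈ N ∧ G.t e ∈ N
  sp : ∀ Z ⊆ N, (1 ≤ Z.card → 0 ≤ Fz G Z) ∧ (3 ≤ Z.card → 2 ≤ Fz G Z) ∧ (4 ≤ Z.card → 3 ≤ Fz G Z)
  hY : Y ⊆ N
  c4 : 4 ≤ Y.card
  FY : Fz G Y ≤ 3
  FN : Fz G N ≤ 4
  dN : ∀ v ∈ N, 3 ≤ dg G v N
  hp : p ∈ Y
  hy : y ∈ Y
  py : p ≠ y
  j1 : G.Joins e1 p y
  hw : w ∉ Y
  j2 : G.Joins e2 p w

variable {Y : Finset V} {p y w : V} {e1 e2 : E}

theorem Shr4.rho_mem (h : Shr4 G N Y p y w e1 e2) {v : V} (hv : v ∈ N) :
    rho Y p y v ∈ N \ (Y.erase p).erase y := by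
  unfold rho
  split_ifs with a
  · simp [h.hY h.hy]
  · exact mem_sdiff.mpr ⟨hv, fun b => a (mem_erase.mp b).2⟩

theorem Shr4.hN' (h : Shr4 G N Y p y w e1 e2) (e : E)
    (he : (shr G Y p y e1).s e ≠ (shr G Y p y e1).t e) :
    (shr G Y p y e1).s e ∈ N \ (Y.erase p).erase y ∧ (shr G Y p y e1).t e ∈ N \ (Y.erase p).erase y := by
  unfold shr at *
  dsimp only at *
  split_ifs at * with a
  · exact absurd rfl he
  · have := h.hN e (fun b => he (by rw [b]))
    exact ⟨h.rho_mem this.1, h.rho_mem this.2⟩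

theorem Shr4.F_ge (h : Shr4 G N Y p y w e1 e2) {K : Finset V} (hK : K ⊆ N) :
    (1 ≤ K.card → 0 ≤ Fz (shr G Y p y e1) K) ∧ (y ∉ K → 3 ≤ K.card → 2 ≤ Fz (shr G Y p y e1) K) := by
  by_cases hy : y ∈ K
  · have a1 : eset (shr G Y p y e1) K ⊆
        (eset G (K ∪ Y) \ eset G Y) ∪ (if p ∈ K then {e1} else ∅) := by
      intro e he
      obtain ⟨b1, b2, b3, b4⟩ := mem_shr.mp he
      by_cases c : e = e1
      · subst c
        have : p ∈ K := by
          rcases h.j1 with ⟨c1, c2⟩ | ⟨c1, c2⟩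
          · rwa [c1, rho_p] at b3
          · rwa [c2, rho_p] at b4
        simp [this]
      · refine mem_union_left _ (mem_sdiff.mpr ⟨mem_eset.mpr ⟨fun d => b2 (by rw [d]), ?_, ?_⟩,
          fun d => b1 (mem_erase.mpr ⟨c, d⟩)⟩)
        · rcases rho_cases (Y := Y) (p := p) (y := y) (G.s e) with d | d
          · exact mem_union_left _ (d ▸ b3)
          · exact mem_union_right _ d.2.1
        · rcases rho_cases (Y := Y) (p := p) (y := y) (G.t e) with d | d
          · exact mem_union_left _ (d ▸ b4)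
          · exact mem_union_right _ d.2.1
    have a2 := (card_le_card a1).trans (card_union_le _ _)
    have a3 := card_sdiff_add_card_eq_card (eset_mono (G := G) (subset_union_right : Y ⊆ K ∪ Y))
    have a4 := (h.sp (K ∪ Y) (union_subset hK h.hY)).2.2
      (h.c4.trans (card_le_card subset_union_right))
    have a5 := h.FY
    have a6 := card_union_add_card_inter K Y
    have a7 : 0 < (K ∩ Y).card := card_pos.mpr ⟨y, mem_inter.mpr ⟨hy, h.hy⟩⟩
    unfold Fz ein at *
    by_cases hp : p ∈ K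
    · have a8 : 1 < (K ∩ Y).card :=
        one_lt_card.mpr ⟨p, mem_inter.mpr ⟨hp, h.hp⟩, y, mem_inter.mpr ⟨hy, h.hy⟩, h.py⟩
      rw [if_pos hp, card_singleton] at a2
      exact ⟨fun _ => by omega, fun a => absurd hy a⟩
    · rw [if_neg hp, card_empty] at a2
      exact ⟨fun _ => by omega, fun a => absurd hy a⟩
  · have a1 : eset (shr G Y p y e1) K ⊆ eset G K := by
      intro e he
      obtain ⟨b1, b2, b3, b4⟩ := mem_shr.mp he
      refine mem_eset.mpr ⟨fun d => b2 (by rw [d]), ?_, ?_⟩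
      · rcases rho_cases (Y := Y) (p := p) (y := y) (G.s e) with d | d
        · exact d ▸ b3
        · exact absurd (d.1 ▸ b3) hy
      · rcases rho_cases (Y := Y) (p := p) (y := y) (G.t e) with d | d
        · exact d ▸ b4
        · exact absurd (d.1 ▸ b4) hy
    have a2 := card_le_card a1
    have a3 := h.sp K hK
    unfold Fz ein at *
    exact ⟨fun _ => by omega, fun _ _ => by omega⟩

theorem Shr4.F_le (h : Shr4 G N Y p y w e1 e2) :
    Fz (shr G Y p y e1) (N \ (Y.erase p).erase y) ≤ 2 := by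
  have m1 : e1 ∈ eset G Y := (mem_eset_j h.j1 h.py).mpr ⟨h.hp, h.hy⟩
  have a1 : insert e1 (eset G N \ eset G Y) ⊆ eset (shr G Y p y e1) (N \ (Y.erase p).erase y) := by
    intro e he
    rcases mem_insert.mp he with rfl | he
    · have := shr_joins (Y := Y) (p := p) (y := y) (notMem_erase e _) h.j1
      rw [mem_eset_j this (by rw [rho_p, rho_y]; exact h.py)]
      exact ⟨h.rho_mem (h.hY h.hp), h.rho_mem (h.hY h.hy)⟩
    · obtain ⟨b1, b2⟩ := mem_sdiff.mp he
      obtain ⟨b3, b4, b5⟩ := mem_eset.mp b1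
      refine mem_shr.mpr ⟨fun c => b2 (mem_erase.mp c).2, fun c => b2 (mem_eset.mpr ⟨b3, ?_⟩),
        h.rho_mem b4, h.rho_mem b5⟩
      have := h.hy
      rcases rho_cases (Y := Y) (p := p) (y := y) (G.s e) with d | d <;>
        rcases rho_cases (Y := Y) (p := p) (y := y) (G.t e) with d' | d'
      · exact absurd (d.symm.trans (c.trans d')) b3
      · exact ⟨(d.symm.trans (c.trans d'.1)) ▸ this, d'.2.1⟩
      · exact ⟨d.2.1, (d'.symm.trans (c.symm.trans d.1)) ▸ this⟩
      · exact ⟨d.2.1, d'.2.1⟩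
  have a2 := card_le_card a1
  rw [card_insert_of_notMem (by simp [m1])] at a2
  have a3 := card_sdiff_add_card_eq_card (eset_mono (G := G) h.hY)
  have a4 := card_sdiff_add_card_eq_card
    ((erase_subset y _).trans ((erase_subset p Y).trans h.hY))
  have a5 := card_erase_add_one (mem_erase.mpr ⟨h.py.symm, h.hy⟩)
  have a6 := card_erase_add_one h.hp
  have a7 := (h.sp Y h.hY).2.2 h.c4
  have a8 := h.FN
  unfold Fz ein at *
  omega

theorem Shr4.hyp (h : Shr4 G N Y p y w e1 e2) : Hyp 2 (shr G Y p y e1) :=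
  hyp_of_sparse h.hN' (fun K hK hne => (h.F_ge (hK.trans sdiff_subset)).1 (card_pos.mpr hne)) h.F_le

theorem Shr4.bl (h : Shr4 G N Y p y w e1 e2) : (shr G Y p y e1).Bl := by
  have key : ∀ X : Set V, y ∉ X → (shr G Y p y e1).d X ≠ 1 := by
    intro X hX
    set M := N \ (Y.erase p).erase y with hM
    by_cases a : ∀ v ∈ M, v ∉ X
    · rw [d_zero h.hN' a]
      simp
    push Not at a
    obtain ⟨u, hu, a⟩ := a
    have pM : p ∈ M := by simp [hM, h.hY h.hp]
    have yM : y ∈ M := by simp [hM, h.hY h.hy]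
    have c1 := d_ge (G := shr G Y p y e1) M X
    have c2 := h.F_ge ((filter_subset (fun v => v ∈ X) M).trans sdiff_subset)
    have c3 := h.F_ge ((filter_subset (fun v => v ∉ X) M).trans sdiff_subset)
    have c6 : 0 < (M.filter (fun v => v ∉ X)).card := card_pos.mpr ⟨y, mem_filter.mpr ⟨yM, hX⟩⟩
    have c7 := h.F_le
    rw [← hM] at c7
    by_cases c8 : 3 ≤ (M.filter (fun v => v ∈ X)).card
    · have := c2.2 (fun b => hX (mem_filter.mp b).2) c8
      omega
    by_cases c9 : ∃ u ∈ M, u ∈ X ∧ u ∉ Y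
    · obtain ⟨u, hu, a, uY⟩ := c9
      have uA : u ∈ M.filter (fun v => v ∈ X) := mem_filter.mpr ⟨hu, a⟩
      have b1 := h.dN u (mem_sdiff.mp hu).1
      have b2 := card_erase_add_one uA
      obtain ⟨z, z1, ⟨z2, e, z3⟩, z4⟩ := adj_avoid (G := G) (v := u) (S := N)
        (T := (M.filter (fun v => v ∈ X)).erase u) (by omega)
      obtain ⟨z', z1', ⟨z2', e', z3'⟩, z4'⟩ := adj_avoid (G := G) (v := u) (S := N)
        (T := insert z ((M.filter (fun v => v ∈ X)).erase u))
        (lt_of_le_of_lt (card_insert_le _ _) (by omega))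
      have cut : ∀ z e, z ∈ N → u ≠ z → G.Joins e u z → z ∉ (M.filter (fun v => v ∈ X)).erase u →
          e ∈ (shr G Y p y e1).cut X := by
        intro z e z1 z2 z3 z4
        have k := shr_joins (Y := Y) (p := p) (y := y) (e1 := e1)
          (fun b => uY ((mem_eset_j z3 z2).mp (mem_erase.mp b).2).1) z3
        rw [rho_off uY] at k
        refine k.mem_cut.mpr ?_
        have : rho Y p y z ∉ X := by
          intro b
          have m := h.rho_mem z1
          rcases rho_cases (Y := Y) (p := p) (y := y) z with d | d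
          · rw [d] at b m
            exact z4 (mem_erase.mpr ⟨z2.symm, mem_filter.mpr ⟨m, b⟩⟩)
          · exact hX (d.1 ▸ b)
        simp [a, this]
      have : 1 < (shr G Y p y e1).d X := one_lt_card.mpr ⟨e, cut z e z1 z2 z3 z4, e',
        cut z' e' z1' z2' z3' (fun b => z4' (mem_insert_of_mem b)),
        fun b => z4' (by subst b; rw [← z3.unique z3']; simp)⟩
      omega
    push Not at c9
    have hp : p ∈ X := by
      have b := c9 u hu a
      have : u = p := by
        by_contra d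
        exact (mem_sdiff.mp hu).2 (by simp [b, d, show u ≠ y from fun e => hX (e ▸ a)])
      exact this ▸ a
    have pw : p ≠ w := fun b => h.hw (b ▸ h.hp)
    have wX : w ∉ X := by
      intro b
      have wN : w ∈ N := NIs_sub h.hN (mem_NIs.mpr (h.j2.ni' pw))
      exact h.hw (c9 w (by simp [hM, wN, h.hw]) b)
    have n2 : e2 ∉ eset G Y := fun b => h.hw ((mem_eset_j h.j2 pw).mp b).2
    have k1 := shr_joins (Y := Y) (p := p) (y := y) (notMem_erase e1 _) h.j1
    have k2 := shr_joins (Y := Y) (p := p) (y := y) (e1 := e1)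
      (fun b => n2 (mem_erase.mp b).2) h.j2
    rw [rho_p, rho_y] at k1
    rw [rho_p, rho_off h.hw] at k2
    have : 1 < (shr G Y p y e1).d X := one_lt_card.mpr ⟨e1, k1.mem_cut.mpr (by simp [hp, hX]), e2,
      k2.mem_cut.mpr (by simp [hp, wX]),
      fun b => n2 (b ▸ (mem_eset_j h.j1 h.py).mpr ⟨h.hp, h.hy⟩)⟩
    omega
  intro X
  by_cases a : y ∈ X
  · rw [← d_compl]
    exact key _ (by simpa using a)
  · exact key X a

theorem Shr4.m_lt (h : Shr4 G N Y p y w e1 e2) : (shr G Y p y e1).m < G.m := by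
  obtain ⟨e, he⟩ : ((eset G Y).erase e1).Nonempty := by
    have a1 := h.FY
    have a2 := h.c4
    have a3 := pred_card_le_card_erase (s := eset G Y) (a := e1)
    unfold Fz ein at a1
    exact card_pos.mp (by omega)
  apply card_lt_card
  constructor
  · intro g hg
    simp only [mem_filter, mem_univ, true_and] at hg ⊢
    intro a
    apply hg
    simp only [shr, a]
  · intro a
    have := a (show e ∈ _ by simpa using (mem_eset.mp (mem_erase.mp he).2).1)
    simp only [mem_filter, mem_univ, true_and, shr, he, if_true] at this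
    exact this rfl

theorem Shr4.df_eq (h : Shr4 G N Y p y w e1 e2) (φ : E → K) {v : V} (hv : v = p ∨ v ∉ Y) :
    (shr G Y p y e1).df φ v = G.df (fun e => if e ∈ (eset G Y).erase e1 then 0 else φ e) v := by
  have a : ∀ x, rho Y p y x = v ↔ x = v := by
    intro x
    rcases rho_cases (Y := Y) (p := p) (y := y) x with d | d
    · rw [d]
    · rw [d.1]
      rcases hv with rfl | hv
      · exact iff_of_false h.py.symm d.2.2
      · exact iff_of_false (fun b => hv (b ▸ h.hy)) (fun b => hv (b ▸ d.2.1))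
  unfold df cut
  rw [sum_filter, sum_filter]
  apply sum_congr rfl
  intro e _
  by_cases c : e ∈ (eset G Y).erase e1
  · simp only [shr, c, if_true, not_true, if_false, ite_self]
  · simp only [shr, c, if_false, Set.mem_singleton_iff, a]

theorem Shr4.of_col (h : Shr4 G N Y p y w e1 e2) (hc : (shr G Y p y e1).Col) :
    ∃ φ, G.Loc (↑Y : Set V)ᶜ φ ∧ bdry G Y φ p ≠ 0 := by
  obtain ⟨φ, h1, h2⟩ := hc
  refine ⟨φ, ⟨h1, fun v hv => ?_⟩, fun h0 => ?_⟩
  · have hv' : v ∉ Y := hv
    rw [← h2 v trivial, h.df_eq φ (Or.inr hv')]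
    apply df_congr
    intro e he
    rw [if_neg]
    intro a
    rw [mem_cut_single] at he
    have := mem_eset.mp (mem_erase.mp a).2
    rcases he.2 with b | b
    · exact hv' (b ▸ this.2.1)
    · exact hv' (b ▸ this.2.2)
  · have a := h2 p trivial
    have m1 : e1 ∈ eset G Y := (mem_eset_j h.j1 h.py).mpr ⟨h.hp, h.hy⟩
    have b : (fun e => if e ∈ (eset G Y).erase e1 then 0 else φ e) =
        fun e => (if e ∈ eset G Y then 0 else φ e) + if e = e1 then φ e1 else 0 := by
      funext e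
      by_cases c : e = e1
      · simp [c, m1]
      · simp [c]
    rw [bdry, if_pos h.hp] at h0
    rw [h.df_eq φ (Or.inl rfl), b, df_add, df_single K.add_self h.j1, h0] at a
    simp [h.py, h1 e1] at a

theorem split_m {c1 c2 : E} {v a b : V} {α : Type} (π : V → α) :
    (G.map π).m ≤ ((G.split c1 c2 v a b).map π).m + 2 := by
  obtain ⟨C, hC, mC⟩ : ∃ C : Finset E, C.card = ((G.split c1 c2 v a b).map π).m ∧
      ∀ e, π ((G.split c1 c2 v a b).s e) ≠ π ((G.split c1 c2 v a b).t e) → e ∈ C :=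
    ⟨_, rfl, fun e h => by simpa [MG.map] using h⟩
  have : (G.map π).m ≤ (C ∪ {c1, c2}).card := by
    apply card_le_card
    intro e he
    by_cases h1 : e = c1
    · simp [h1]
    by_cases h2 : e = c2
    · simp [h2]
    exact mem_union_left _ (mC e (by simpa [split, h1, h2, MG.map] using he))
  have := card_union_le C {c1, c2}
  have := card_le_two (a := c1) (b := c2)
  omega

/-- every pentagon of a smallest counterexample is cubic -/
theorem pent_cubic (h4 : G.E4) (gi : Gi G) (FN : Fz G (NIs G) ≤ 4)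
    (f4 : ∀ Z : Finset V, 6 ≤ Z.card → 4 ≤ Fz G Z) (n15 : 15 ≤ (NIs G).card) (hc : ¬ G.Col)
    (v a x y b : V) (h1 : Adj G v a) (h2 : Adj G a x) (h3 : Adj G x y) (h4' : Adj G y b)
    (h5 : Adj G b v) : G.d {v} ≤ 3 := by
  by_contra hv
  have ab : a ≠ b := fun e => gi.tri h2 h3 (e ▸ h4')
  have ay : a ≠ y := fun e => gi.tri h1 (e ▸ h4') h5
  have xb : x ≠ b := fun e => gi.tri h1 h2 (e ▸ h5)
  have vx : v ≠ x := fun e => gi.tri h3 h4' (e ▸ h5)
  have vy : v ≠ y := fun e => gi.tri h2 h3 (e ▸ h1)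
  obtain ⟨va, c1, j1⟩ := h1
  obtain ⟨ax, e1, j2⟩ := h2
  obtain ⟨xy, e2, j3⟩ := h3
  obtain ⟨yb, e3, j4⟩ := h4'
  obtain ⟨bv, c2, j5⟩ := h5
  have h12 : c1 ≠ c2 := fun e => ab (j1.unique (e ▸ j5.symm))
  set G' := G.split c1 c2 v a b with hG'
  set N := NIs G with hN
  have na := j2.ni ax
  have nb := j5.ni bv
  have hb : G'.Bl := by
    have key : ∀ X, v ∈ X → G'.d X ≠ 1 := by
      intro X hX h
      have := d_split h12 j1 j5.symm X
      rw [← hG'] at this
      split_ifs at this with c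
      · rcases h4.2 X (by omega) with t | t
        · have := t.d_eq (j1.ni va) hX
          omega
        · exact ab (t.eq' na nb (by tauto) (by tauto))
      · exact (h4.1 X).1 (by omega)
    intro X
    by_cases c : v ∈ X
    · exact key X c
    · rw [← d_compl]
      exact key _ c
  have hN' : ∀ e, G'.s e ≠ G'.t e → G'.s e ∈ N ∧ G'.t e ∈ N := by
    intro e he
    simp only [hG', split] at he ⊢
    split_ifs at he ⊢
    · exact ⟨mem_NIs.mpr na, mem_NIs.mpr nb⟩
    · exact absurd rfl he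
    · exact NIs_hN e he
  have js : ∀ e p q, G.Joins e p q → v ≠ p → v ≠ q → G'.Joins e p q := by
    intro e p q j d1 d2
    have b1 : e ≠ c1 := (j1.ne_edge j d1 d2).symm
    have b2 : e ≠ c2 := (j5.symm.ne_edge j d1 d2).symm
    unfold Joins at j ⊢
    simpa only [hG', split, b1, b2, if_false] using j
  have F0 : ∀ Z : Finset V, (1 ≤ Z.card → 0 ≤ Fz G Z) ∧ (2 ≤ Z.card → 1 ≤ Fz G Z) ∧
      (4 ≤ Z.card → 3 ≤ Fz G Z) := fun Z => by
    have := gi.F_small Z
    have := f4 Z
    omega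
  have key : ∀ {α : Type} [DecidableEq α] (π : Option V → α),
      let ρ := π ∘ con ({a, x, y, b} : Set V)
      2 * (N.image ρ).card ≤ (G'.map ρ).m + 5 ∧
        ((G'.map ρ).m + 5 ≤ 2 * (N.image ρ).card → N.card ≤ (N.image ρ).card + 4) := by
    intro α _ π ρ
    have a1 := part_sum (G := G) ρ N
    have a2 := split_m (G := G) (c1 := c1) (c2 := c2) (v := v) (a := a) (b := b) ρ
    rw [← hG'] at a2
    have m0 : ρ a ∈ N.image ρ := mem_image_of_mem _ (mem_NIs.mpr na)
    have a3 : ({a, x, y, b} : Finset V) ⊆ N.filter (fun v => ρ v = ρ a) := by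
      have := mem_NIs.mpr na
      have := mem_NIs.mpr nb
      have := mem_NIs.mpr (j3.ni xy)
      have := mem_NIs.mpr (j4.ni yb)
      simp [insert_subset_iff, ρ, con, *]
    have a4 := card_le_card a3
    rw [card_insert_of_notMem (by simp [ax, ay, ab]), card_insert_of_notMem (by simp [xy, xb]),
      card_pair yb] at a4
    have a5 := (F0 _).2.2 a4
    have pos : ∀ i ∈ N.image ρ, 1 ≤ (N.filter (fun v => ρ v = i)).card := fun i hi => by
      obtain ⟨w, hw, rfl⟩ := mem_image.mp hi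
      exact card_pos.mpr ⟨w, by simp [hw]⟩
    have nn : ∀ i ∈ (N.image ρ).erase (ρ a), 0 ≤ Fz G (N.filter (fun v => ρ v = i)) :=
      fun i hi => (F0 _).1 (pos i (mem_erase.mp hi).2)
    have a6 := sum_nonneg nn
    rw [← add_sum_erase _ _ m0] at a1
    refine ⟨by omega, fun h => ?_⟩
    have a7 := card_eq_sum_card_fiberwise (f := ρ) (s := N) (t := N.image ρ)
      (fun v hv => mem_image_of_mem _ hv)
    rw [← add_sum_erase _ _ m0] at a7
    have a8 := sum_le_card_nsmul ((N.image ρ).erase (ρ a))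
      (fun i => (N.filter (fun v => ρ v = i)).card) 1 (fun i hi => by
        have := single_le_sum nn hi
        have := (F0 (N.filter (fun v => ρ v = i))).2.1
        omega)
    have a9 := card_erase_add_one m0
    have a10 := f4 (N.filter (fun v => ρ v = ρ a))
    simp only [smul_eq_mul] at a8
    omega
  have hyp : Hyp 3 (G'.map (con ({a, x, y, b} : Set V))) := by
    intro π
    refine le_trans (Nat.mul_le_mul_left 2 (card_le_card ?_)) (key π).1
    intro i hi
    obtain ⟨w, hw, rfl⟩ := mem_image.mp hi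
    obtain ⟨e, q, hj, hne⟩ := mem_NIs.mp hw
    have h1 : G'.s e ≠ G'.t e := fun h => hj.ne hne (congrArg (con _) h)
    rcases hj with ⟨d, -⟩ | ⟨-, d⟩
    · exact mem_image.mpr ⟨_, (hN' e h1).1, congrArg π d⟩
    · exact mem_image.mpr ⟨_, (hN' e h1).2, congrArg π d⟩
  have ncol : ¬ (G'.map (con ({a, x, y, b} : Set V))).Col := fun h =>
    hc (col_of_split h12 j1 j5.symm (col_of_quad ax ay ab xy xb yb (js _ _ _ j2 va vx)
      (js _ _ _ j3 vx vy) (js _ _ _ j4 vy bv.symm) (h := c1) (Or.inr (by simp [split])) h))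
  obtain ⟨π, ι, q⟩ := induct3 _ _ le_rfl (hb.map _) hyp ncol
  have q' := q.of_map
  have b1 := quo_m_le q' id
  have b2 : (N.image (π ∘ con ({a, x, y, b} : Set V))).card = 10 := by
    rw [eq_univ_of_forall (s := N.image _) fun w => ?_]
    · simp
    by_contra hn
    have d1 := q'.d_eq {w}
    have d2 : G'.d (π ∘ con ({a, x, y, b} : Set V) ⁻¹' {w}) = 0 :=
      d_zero hN' (fun u hu hu' => hn (mem_image.mpr ⟨u, hu, hu'⟩))
    rw [pet_d, d2] at d1
    omega
  have b3 := (key π).2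
  rw [Function.id_comp] at b1
  omega

theorem core4 (h4 : G.E4) (gi : Gi G) (hyp : Hyp 4 G) (hc : ¬ G.Col)
    (IH : ∀ {V' : Type} [Fintype V'] (G' : MG V' E), G'.m < G.m → G'.Bl → Hyp 4 G' → ¬ G'.Col →
      G'.Quo Pet) : G.Quo Pet := by
  have hb : G.Bl := fun X => (h4.1 X).1
  set N := NIs G with hN
  have edge : ∀ {Y : Finset V} {k : ℕ}, Sp (sub G Y) Y k → ∀ v ∈ Y, ∃ e y, G.Joins e v y ∧ v ≠ y ∧ y ∈ Y := by
    intro Y k sp v hv
    obtain ⟨y, hy, a⟩ := dg_pos.mp (show 0 < dg (sub G Y) v Y by have := sp.deg v hv; omega)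
    obtain ⟨b, e, c⟩ := (sub_adj.mp a).1
    exact ⟨e, y, c, b, hy⟩
  by_cases h2 : ∃ Z : Finset V, 6 ≤ Z.card ∧ Fz G Z ≤ (2 : ℕ)
  · obtain ⟨Z, z1, z2⟩ := h2
    obtain ⟨Y, -, sp⟩ := exists_sp gi le_rfl (by omega) z1 z2
    obtain ⟨v, hv⟩ : Y.Nonempty := card_pos.mp (by have := sp.ten; omega)
    obtain ⟨e, y, a1, a2, a3⟩ := edge sp v hv
    refine Quo.of_map (IH (G.map (con (↑Y : Set V))) (m_con_lt a1 a2 hv a3) (hb.map _) (hyp.map _) ?_)
    rintro ⟨φ, hφ⟩
    have := loc_of_con hφ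
    exact hc (col_of_feas this (feas2 sp bdry_off (bdry_sum this)))
  push Not at h2
  have F0 : ∀ Z : Finset V, (1 ≤ Z.card → 0 ≤ Fz G Z) ∧ (3 ≤ Z.card → 2 ≤ Fz G Z) ∧
      (4 ≤ Z.card → 3 ≤ Fz G Z) := fun Z => by
    have := gi.F_small Z
    have := h2 Z
    omega
  have dN : ∀ v ∈ N, 3 ≤ dg G v N := by
    intro v hv
    obtain ⟨e, b, hj, hne⟩ := mem_NIs.mp hv
    have a1 : dg G v N = dg G v univ := by
      unfold dg
      congr 1
      ext x
      simp only [mem_filter, mem_univ, true_and, and_iff_right_iff_imp]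
      rintro ⟨c, g, d⟩
      exact mem_NIs.mpr (d.ni' c)
    have a2 : 0 < dg G v univ := dg_pos.mpr ⟨b, mem_univ _, hne, e, hj⟩
    have a3 := h4.1 {v}
    rw [d_eq_dg gi.np] at a3
    omega
  by_cases h3 : ∃ Z : Finset V, 6 ≤ Z.card ∧ Fz G Z ≤ (3 : ℕ)
  · obtain ⟨Z, z1, z2⟩ := h3
    obtain ⟨Y, -, sp⟩ := exists_sp gi (by omega) le_rfl z1 z2
    have hY : Y ⊆ N := fun v hv => by
      obtain ⟨e, y, a1, a2, -⟩ := edge sp v hv
      exact mem_NIs.mpr (a1.ni a2)
    have FY : Fz G Y ≤ 3 := by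
      have := sp.tot
      rw [sub_F Subset.rfl] at this
      omega
    by_cases hYN : Y = N
    · exact induct3 _ G le_rfl hb (hyp_of_sparse NIs_hN (fun K _ hK => (F0 K).1 (card_pos.mpr hK))
        (by rw [← hN, ← hYN]; exact FY)) hc
    exfalso
    obtain ⟨c, c1, c2⟩ := exists_of_ssubset (ssubset_of_subset_of_ne hY hYN)
    obtain ⟨a, ha⟩ : Y.Nonempty := card_pos.mp (by have := sp.ten; omega)
    have d3 := h4.three_le' (X := (↑Y : Set V)) (mem_NIs.mp (hY ha)) (mem_NIs.mp c1) ha c2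
    obtain ⟨e2, he2⟩ : (G.cut (↑Y : Set V)).Nonempty := card_pos.mp (by unfold MG.d at d3; omega)
    obtain ⟨p, w, j2, hp, hw⟩ := exists_joins_of_mem_cut he2
    obtain ⟨e1, y, j1, py, hy⟩ := edge sp p hp
    have sh : Shr4 G N Y p y w e1 e2 := ⟨NIs_hN, fun Z _ => F0 Z, hY, by have := sp.ten; omega, FY,
      hyp.F_le, dN, hp, hy, py, j1, hw, j2⟩
    have hcol : (shr G Y p y e1).Col := by
      by_contra hn
      exact sh.hyp.not_pet (IH _ sh.m_lt sh.bl (sh.hyp.mono (by omega)) hn)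
    obtain ⟨φ, a1, a2⟩ := sh.of_col hcol
    exact hc (col_of_feas a1 (feas3 sp bdry_off (bdry_sum a1) a2))
  push Not at h3
  have f4 : ∀ Z : Finset V, 6 ≤ Z.card → 4 ≤ Fz G Z := fun Z hZ => by
    have := h3 Z hZ
    omega
  by_cases ho : G.oc Set.univ ≤ 17
  · exact t16 hb ho hc
  have n18 : G.oc Set.univ ≤ N.card := by
    apply card_le_card
    intro v hv
    by_contra hn
    simp only [mem_filter] at hv
    have a := hv.2.2
    have b : G.d {v} = 0 := d_zero NIs_hN (fun u hu hu' => hn ((show u = v from hu') ▸ hu))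
    rw [b] at a
    simp at a
  rw [hN] at n18
  exact absurd (col_of_min gi NIs_hN hyp.F_le f4 (by omega)
    (pent_cubic h4 gi hyp.F_le f4 (by omega) hc)) hc

end

end Pool.Agent.Lib.CF64
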