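import Pool.Agent.Lib.CF64.F4Sel

set_option linter.unusedSectionVars false
set_option linter.unusedVariables false
set_option linter.unusedSimpArgs false

namespace Pool.Agent.Lib.CF64

open Finset

open scoped Classical

noncomputable section

variable {V : Type} {A : V → V → Prop} {Ev : V → Prop}

def Safe (A : V → V → Prop) (Ev : V → Prop) (S : Finset V) : Prop :=
  (∃ u v, A u v ∧ Ev u ∧ Ev v ∧ S = {u, v}) ∨
  (∃ u a b, A u a ∧ A a b ∧ u ≠ b ∧ Ev u ∧ ¬ Ev a ∧ ¬ Ev b ∧ S = {u, a, b}) ∨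
  ∃ a b c d, NC A a b c d ∧ ¬ Ev a ∧ ¬ Ev b ∧ ¬ Ev c ∧ ¬ Ev d ∧ S = {a, b, c, d}

def IsC (A : V → V → Prop) (Ev : V → Prop) (S : Finset V) (k : V) : Prop :=
  ∃ u v, A u k ∧ A k v ∧ u ≠ v ∧ Ev u ∧ Ev v ∧ S = {u, v}

def GoodP (A : V → V → Prop) (Ev : V → Prop) : Prop :=
  ∃ S T, Far A S T ∧ ((Safe A Ev S ∧ (Safe A Ev T ∨ ∃ k, IsC A Ev T k)) ∨
    ∃ k k', IsC A Ev S k ∧ IsC A Ev T k' ∧ ∃ v ∈ T, A k v)

theorem p3type {u a c : V} (h : Ev u) (h1 : A u a) (h2 : A a c) (h3 : u ≠ c) :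
    ∃ S ⊆ ({u, a, c} : Finset V), Safe A Ev S ∨ (u ∈ S ∧ ∃ k, IsC A Ev S k) := by
  by_cases e1 : Ev a
  · exact ⟨{u, a}, by simp [insert_subset_iff], Or.inl (Or.inl ⟨u, a, h1, h, e1, rfl⟩)⟩
  by_cases e2 : Ev c
  · exact ⟨{u, c}, by simp [insert_subset_iff], Or.inr ⟨by simp, a, u, c, h1, h2, h3, h, e2, rfl⟩⟩
  · exact ⟨_, Subset.rfl, Or.inl (Or.inr (Or.inl ⟨u, a, c, h1, h2, h3, h, e1, e2, rfl⟩))⟩

theorem p4type (ax : Ax A Ev) {a b c d : V} (h : NC A a b c d) :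
    (∃ S ⊆ ({a, b, c, d} : Finset V), Safe A Ev S) ∨ ∃ u k v, A u k ∧ A k v ∧ u ≠ v ∧ Ev u ∧ Ev v ∧
      ¬ Ev k ∧ ({u, k, v} : Finset V) ⊆ {a, b, c, d} := by
  have tA : ∀ u v, A u v → Ev u → Ev v → ({u, v} : Finset V) ⊆ {a, b, c, d} →
      ∃ S ⊆ ({a, b, c, d} : Finset V), Safe A Ev S :=
    fun u v e1 e2 e3 e4 => ⟨_, e4, Or.inl ⟨u, v, e1, e2, e3, rfl⟩⟩
  have tD : ∀ u v w, A u v → A v w → u ≠ w → Ev u → ¬ Ev v → ¬ Ev w →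
      ({u, v, w} : Finset V) ⊆ {a, b, c, d} → ∃ S ⊆ ({a, b, c, d} : Finset V), Safe A Ev S :=
    fun u v w e1 e2 e3 e4 e5 e6 e7 => ⟨_, e7, Or.inr (Or.inl ⟨u, v, w, e1, e2, e3, e4, e5, e6, rfl⟩)⟩
  by_cases e2 : Ev b <;> by_cases e3 : Ev c
  · exact Or.inl (tA b c h.e2 e2 e3 (by simp [insert_subset_iff]))
  · by_cases e1 : Ev a
    · exact Or.inl (tA a b h.e1 e1 e2 (by simp [insert_subset_iff]))
    by_cases e4 : Ev d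
    · exact Or.inr ⟨b, c, d, h.e2, h.e3, h.n2, e2, e4, e3, by simp [insert_subset_iff]⟩
    · exact Or.inl (tD b c d h.e2 h.e3 h.n2 e2 e3 e4 (by simp [insert_subset_iff]))
  · by_cases e4 : Ev d
    · exact Or.inl (tA c d h.e3 e3 e4 (by simp [insert_subset_iff]))
    by_cases e1 : Ev a
    · exact Or.inr ⟨a, b, c, h.e1, h.e2, h.n1, e1, e3, e2, by simp [insert_subset_iff]⟩
    · exact Or.inl (tD c b a (ax.sy h.e2) (ax.sy h.e1) h.n1.symm e3 e2 e1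
        (by simp [insert_subset_iff]))
  · by_cases e1 : Ev a
    · exact Or.inl (tD a b c h.e1 h.e2 h.n1 e1 e2 e3 (by simp [insert_subset_iff]))
    by_cases e4 : Ev d
    · exact Or.inl (tD d c b (ax.sy h.e3) (ax.sy h.e2) h.n2.symm e4 e3 e2
        (by simp [insert_subset_iff]))
    · exact Or.inl ⟨_, Subset.rfl, Or.inr (Or.inr ⟨a, b, c, d, h, e1, e2, e3, e4, rfl⟩)⟩

theorem good_sp {S : Finset V} {u a c : V} (hS : Safe A Ev S) (hf : Far A S {u, a, c}) (h : Ev u)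
    (h1 : A u a) (h2 : A a c) (h3 : u ≠ c) : GoodP A Ev := by
  obtain ⟨T, t1, t2⟩ := p3type h h1 h2 h3
  exact ⟨S, T, hf.mono Subset.rfl t1, Or.inl ⟨hS, t2.imp id fun e => e.2⟩⟩

theorem far33 {a b c p q r : V} (h1 : a ≠ p ∧ ¬ A a p) (h2 : a ≠ q ∧ ¬ A a q) (h3 : a ≠ r ∧ ¬ A a r)
    (h4 : b ≠ p ∧ ¬ A b p) (h5 : b ≠ q ∧ ¬ A b q) (h6 : b ≠ r ∧ ¬ A b r) (h7 : c ≠ p ∧ ¬ A c p)
    (h8 : c ≠ q ∧ ¬ A c q) (h9 : c ≠ r ∧ ¬ A c r) : Far A {a, b, c} {p, q, r} := by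
  simp only [Far, mem_insert, mem_singleton, forall_eq_or_imp, forall_eq]
  exact ⟨⟨h1, h2, h3⟩, ⟨h4, h5, h6⟩, h7, h8, h9⟩

/-- three even neighbours -/
theorem good_e3 (ax : Ax A Ev) {u v w k : V} (h1 : A k u) (h2 : A k v) (h3 : A k w) (uv : u ≠ v)
    (wv : w ≠ v) (uw : u ≠ w) (e1 : Ev u) (e2 : Ev v) (e3 : Ev w) : GoodP A Ev := by
  obtain ⟨o, o1, o2, -⟩ := ax.deg (ax.sy h2) k k
  obtain ⟨p, p1, p2, -⟩ := ax.deg (ax.sy o1) v v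
  have key : ∀ u, A k u → u ≠ v → Ev u → ∀ x ∈ ({v, o, p} : Finset V), u ≠ x ∧ ¬ A u x := by
    intro u h1 uv e1
    have a1 : ¬ A u v := fun e => ax.tri h1 e (ax.sy h2)
    have a2 : ¬ A u o := fun e => o2 (ax.quad (ax.sy h1) h2 o1 (ax.sy e) uv).symm
    simp only [mem_insert, mem_singleton, forall_eq_or_imp, forall_eq]
    exact ⟨⟨uv, a1⟩, ⟨fun e => a1 (e ▸ ax.sy o1), a2⟩, fun e => a2 (e ▸ ax.sy p1),
      fun e => ax.ev5 (ax.sy h1) h2 o1 p1 (ax.sy e) e1⟩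
  have hf : Far A {u, w} {v, o, p} := by
    intro x hx
    simp only [mem_insert, mem_singleton] at hx
    rcases hx with rfl | rfl
    · exact key _ h1 uv e1
    · exact key _ h3 wv e3
  have hc : IsC A Ev {u, w} k := ⟨u, w, ax.sy h1, h3, uw, e1, e3, rfl⟩
  obtain ⟨T, t1, t2 | ⟨t2, k', t3⟩⟩ := p3type e2 o1 p1 p2.symm
  · exact ⟨T, _, (hf.mono Subset.rfl t1).symm ax, Or.inl ⟨t2, Or.inr ⟨k, hc⟩⟩⟩
  · exact ⟨_, T, hf.mono Subset.rfl t1, Or.inr ⟨k, k', hc, t3, v, t2, h2⟩⟩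

theorem good_far (ax : Ax A Ev) {u v w k z : V} (h1 : A k u) (h2 : A k v) (h3 : A k w) (uv : u ≠ v)
    (wu : w ≠ u) (wv : w ≠ v) (e1 : Ev u) (e2 : Ev v) (e3 : ¬ Ev w) (e4 : ¬ Ev k) (ez : Ev z)
    (z1 : u ≠ z ∧ ¬ A u z) (z2 : v ≠ z ∧ ¬ A v z) (z3 : k ≠ z ∧ ¬ A k z) (z4 : w ≠ z ∧ ¬ A w z)
    {k' : V} (z5 : A z k') (z6 : ∀ a, A z a → ¬ A w a) : GoodP A Ev := by
  obtain ⟨a, a1, a2⟩ : ∃ a, A z a ∧ ¬ A k a := by
    obtain ⟨a, b, b1, b2, -, -, b3⟩ := ax.two z5 z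
    by_cases e : A k a
    · exact ⟨b, b2, fun e' => b3 (ax.quad b1 (ax.sy e) e' (ax.sy b2) z3.1.symm)⟩
    · exact ⟨a, b1, e⟩
  have a3 := z6 a a1
  have ka : k ≠ a := fun e => z3.2 (e ▸ ax.sy a1)
  have wa : w ≠ a := fun e => z4.2 (e ▸ ax.sy a1)
  have fin : ∀ u c, A k u → w ≠ u → Ev u → (u ≠ z ∧ ¬ A u z) → ¬ A u a → A a c → c ≠ z → ¬ A u c →
      ¬ A k c → ¬ A w c → GoodP A Ev := by
    intro u c h1 wu e1 z1 b1 b2 b3 b4 b5 b6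
    exact good_sp (Or.inr (Or.inl ⟨u, k, w, ax.sy h1, h3, wu.symm, e1, e4, e3, rfl⟩))
      (far33 z1 ⟨fun e => z1.2 (e ▸ ax.sy a1), b1⟩ ⟨fun e => b1 (e ▸ ax.sy b2), b4⟩ z3 ⟨ka, a2⟩
        ⟨fun e => a2 (e ▸ ax.sy b2), b5⟩ z4 ⟨wa, a3⟩ ⟨fun e => a3 (e ▸ ax.sy b2), b6⟩) ez a1 b2 b3.symm
  have adj : ∀ u v, A k u → A k v → u ≠ v → w ≠ u → Ev u → Ev v → (u ≠ z ∧ ¬ A u z) → A v a →
      GoodP A Ev := by
    intro u v h1 h2 uv wu e1 e2 z1 va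
    obtain ⟨c, c1, c2, c3⟩ := ax.deg (ax.sy a1) z v
    exact fin u c h1 wu e1 z1 (fun e => ka (ax.quad (ax.sy h1) h2 va (ax.sy e) uv)) c1 c2
      (fun e => ax.ev5 (ax.sy h2) h1 e (ax.sy c1) (ax.sy va) e2)
      (fun e => c3 (ax.quad e (ax.sy c1) (ax.sy va) (ax.sy h2) ka))
      (fun e => ax.ev5 (ax.sy h2) h3 e (ax.sy c1) (ax.sy va) e2)
  by_cases va : A v a
  · exact adj u v h1 h2 uv wu e1 e2 z1 va
  by_cases ua : A u a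
  · exact adj v u h2 h1 uv.symm wv e2 e1 z2 ua
  have one : ∀ c, A a c → c ≠ z → ¬ A k c → ¬ A w c → GoodP A Ev := by
    intro c c1 c2 c3 c4
    by_cases e : A u c
    · exact fin v c h2 wv e2 z2 va c1 c2 (fun e' => a2 (ax.sy
        ((ax.quad (ax.sy h1) h2 e' (ax.sy e) uv) ▸ c1))) c3 c4
    · exact fin u c h1 wu e1 z1 ua c1 c2 e c3 c4
  have two : ∀ c d, A a c → A a d → A k c → A w d → False := by
    intro c d c1 d1 c2 d2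
    exact uv (ax.cub5 h3 d2 (ax.sy d1) c1 (ax.sy c2) h1 h2 wu.symm (fun e => ua (e ▸ ax.sy c1))
      wv.symm (fun e => va (e ▸ ax.sy c1)))
  obtain ⟨c, d, c1, d1, c2, d2, cd⟩ := ax.two (ax.sy a1) z
  by_contra n
  have hc : A k c ∨ A w c := by_contra fun e => n (one c c1 c2 (not_or.mp e).1 (not_or.mp e).2)
  have hd : A k d ∨ A w d := by_contra fun e => n (one d d1 d2 (not_or.mp e).1 (not_or.mp e).2)
  rcases hc with hc | hc <;> rcases hd with hd | hd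
  · exact cd (ax.quad c1 (ax.sy hc) hd (ax.sy d1) ka.symm)
  · exact two c d c1 d1 hc hd
  · exact two d c d1 c1 hd hc
  · exact cd (ax.quad c1 (ax.sy hc) hd (ax.sy d1) wa.symm)

theorem good_cc (ax : Ax A Ev) {u k v u' k' v' : V} (h1 : A u k) (h2 : A k v) (uv : u ≠ v) (e1 : Ev u)
    (e2 : Ev v) (e3 : ¬ Ev k) (h3 : A u' k') (h4 : A k' v') (uv' : u' ≠ v') (e4 : Ev u') (e5 : Ev v')
    (hf : Far A {u, k, v} {u', k', v'}) : GoodP A Ev := by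
  obtain ⟨w, w1, w2, w3⟩ := ax.deg h2 u v
  by_cases ew : Ev w
  · exact good_e3 ax (ax.sy h1) h2 w1 uv w3 w2.symm e1 e2 ew
  have f1 := hf u (by simp)
  have f2 := hf k (by simp)
  have f3 := hf v (by simp)
  have key : ∀ u' v', A u' k' → A k' v' → u' ≠ v' → Ev u' → u' ∈ ({u', k', v'} : Finset V) →
      (u ≠ u' ∧ ¬ A u u') → (v ≠ u' ∧ ¬ A v u') → (k ≠ u' ∧ ¬ A k u') → A w v' → GoodP A Ev := by
    intro u' v' h3 h4 uv' e4 _ b1 b2 b3 b4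
    refine good_far ax (ax.sy h1) h2 w1 uv w2 w3 e1 e2 ew e3 e4 b1 b2 b3
      ⟨fun e => b3.2 (e ▸ w1), fun e => ?_⟩ h3 fun a a1 a2 => ?_
    · exact (f2 k' (by simp)).2 ((ax.quad h3 h4 (ax.sy b4) e uv').symm ▸ w1)
    · exact ax.ev5 h3 h4 (ax.sy b4) a2 (ax.sy a1) e4
  by_cases c1 : A w v'
  · exact key u' v' h3 h4 uv' e4 (by simp) (f1 _ (by simp)) (f3 _ (by simp)) (f2 _ (by simp)) c1
  by_cases c2 : A w u'
  · exact key v' u' (ax.sy h4) (ax.sy h3) uv'.symm e5 (by simp) (f1 _ (by simp)) (f3 _ (by simp))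
      (f2 _ (by simp)) c2
  refine ⟨{u, k, w}, {u', v'}, ?_, Or.inl ⟨Or.inr (Or.inl ⟨u, k, w, h1, w1, w2.symm, e1, e3, ew, rfl⟩),
    Or.inr ⟨k', u', v', h3, h4, uv', e4, e5, rfl⟩⟩⟩
  simp only [Far, mem_insert, mem_singleton, forall_eq_or_imp, forall_eq]
  exact ⟨⟨f1 _ (by simp), f1 _ (by simp)⟩, ⟨f2 _ (by simp), f2 _ (by simp)⟩,
    ⟨fun e => (f2 u' (by simp)).2 (e ▸ w1), c2⟩, fun e => (f2 v' (by simp)).2 (e ▸ w1), c1⟩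

theorem good_of_ax (ax : Ax A Ev) {h : V} (h4 : ∀ a b c, ∃ x, A h x ∧ x ≠ a ∧ x ≠ b ∧ x ≠ c) :
    GoodP A Ev := by
  obtain ⟨a, b, c, d, p, q, r, s, h1, h2, hf⟩ := sel0 ax h4
  rcases p4type ax h1 with ⟨S, s1, s2⟩ | ⟨u, k, v, a1, a2, a3, a4, a5, a6, a7⟩ <;>
    rcases p4type ax h2 with ⟨T, t1, t2⟩ | ⟨u', k', v', b1, b2, b3, b4, b5, b6, b7⟩
  · exact ⟨S, T, hf.mono s1 t1, Or.inl ⟨s2, Or.inl t2⟩⟩
  · exact ⟨S, {u', v'}, hf.mono s1 (Subset.trans (by simp [insert_subset_iff]) b7),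
      Or.inl ⟨s2, Or.inr ⟨k', u', v', b1, b2, b3, b4, b5, rfl⟩⟩⟩
  · exact ⟨T, {u, v}, (hf.mono (Subset.trans (by simp [insert_subset_iff]) a7) t1).symm ax,
      Or.inl ⟨t2, Or.inr ⟨k, u, v, a1, a2, a3, a4, a5, rfl⟩⟩⟩
  · exact good_cc ax a1 a2 a3 a4 a5 a6 b1 b2 b3 b4 b5 (hf.mono a7 b7)

end

end Pool.Agent.Lib.CF64
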