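import Pool.Agent.Lib.CF64.F4Core

set_option linter.unusedSectionVars false
set_option linter.unusedVariables false
set_option linter.unusedSimpArgs false

namespace Pool.Agent.Lib.CF64

open Finset Pool.Agent.Lib.MP_aa6b05_co Pool.Agent.Lib.MP_aa6b05_co.MG
  Pool.Agent.Lib.MP_aa6b05_co.D

open scoped Classical

noncomputable section

theorem induct4 {E : Type} [Fintype E] (n : ℕ) : ∀ {V : Type} [Fintype V] (G : MG V E), G.m ≤ n →
    G.Bl → Hyp 4 G → ¬ G.Col → G.Quo Pet := by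
  induction n using Nat.strong_induction_on with
  | _ n ih =>
  intro V _ G hm hb hyp hcol
  have IH : ∀ X : Set V, (G.map (con X)).m < G.m → ¬ (G.map (con X)).Col → G.Quo Pet :=
    fun X h1 h2 => Quo.of_map (ih _ (lt_of_lt_of_le h1 hm) _ le_rfl (hb.map _) (hyp.map _) h2)
  by_cases h2 : ∃ X, G.d X = 2
  · obtain ⟨X, hX⟩ := h2
    obtain ⟨e, f, hef, hc⟩ := card_eq_two.mp hX
    obtain ⟨a, b, hj, ha, hb'⟩ := exists_joins_of_mem_cut (G := G) (X := X) (e := e) (by simp [hc])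
    have hab : a ≠ b := fun h => hb' (h ▸ ha)
    exact IH {a, b} (m_con_lt hj hab (by simp) (by simp))
      (fun h => hcol (col_of_two_cut hc hef hj ha hb' h))
  push Not at h2
  have h12 : ∀ X, G.d X ≠ 1 ∧ G.d X ≠ 2 := fun X => ⟨hb X, h2 X⟩
  by_cases h3 : ∃ X, G.d X ≤ 3 ∧ ¬ G.Triv X ∧ ¬ G.Triv Xᶜ
  · obtain ⟨X, hX, t1, t2⟩ := h3
    have : Nonempty V := by
      by_contra hV
      apply hcol
      refine ⟨fun _ => .k1, fun _ => (by decide : K.k1 ≠ 0), fun v _ => absurd ⟨v⟩ hV⟩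
    obtain ⟨e, a, b, hj, hab, ha, hb'⟩ := inner_edge_of_not_triv h12 hX t1
    obtain ⟨f, c, d, hj', hcd, hc, hd⟩ := inner_edge_of_not_triv h12 (by rwa [d_compl]) t2
    have hd03 : G.d X = 0 ∨ G.d X = 3 := by
      have := h12 X
      omega
    by_cases c1 : (G.map (con X)).Col
    · by_cases c2 : (G.map (con Xᶜ)).Col
      · exact absurd (col_of_small_cut hd03 c1 c2) hcol
      · exact IH _ (m_con_lt hj' hcd hc hd) c2
    · exact IH _ (m_con_lt hj hab ha hb') c1
  have h4 : G.E4 := by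
    refine ⟨h12, fun X hX => ?_⟩
    by_contra h
    push Not at h
    exact h3 ⟨X, hX, h.1, h.2⟩
  by_cases hp : G.NoPar
  swap
  · unfold NoPar at hp
    push Not at hp
    obtain ⟨e, f, a, b, hef, hab, he, hf⟩ := hp
    exact IH {a, b} (m_con_lt he hab (by simp) (by simp))
      (fun h => hcol (col_of_par hef hab he hf h))
  by_cases ht : G.NoTri
  swap
  · unfold NoTri at ht
    push Not at ht
    obtain ⟨e, f, g, a, b, c, hab, hbc, hac, he, hf, hg⟩ := ht
    exact IH {a, b, c} (m_con_lt he hab (by simp) (by simp))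
      (fun h => hcol (col_of_tri hab hbc hac he hf hg h))
  by_cases hq : G.NoQuad
  swap
  · unfold NoQuad at hq
    push Not at hq
    obtain ⟨e, f, g, k, a, b, c, d, hab, hac, had, hbc, hbd, hcd, he, hf, hg, hk⟩ := hq
    exact IH {a, b, c, d} (m_con_lt he hab (by simp) (by simp))
      (fun h => hcol (col_of_quad hab hac had hbc hbd hcd he hf hg hk h))
  exact core4 h4 ⟨hp, ht, hq⟩ hyp hcol
    (fun G' h1 h2 h3 h4 => ih _ (lt_of_lt_of_le h1 hm) G' le_rfl h2 h3 h4)

theorem final4 {V E : Type} [Fintype V] [Fintype E] [DecidableEq V] (s t : E → V)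
    (hc : ∀ a b, Conn s t Set.univ Set.univ a b) (hb : Bridgeless s t) {k : ℕ} (hk : k ≤ 4)
    (h3 : ∃ (s' t' : Fin k → V) (c : E ⊕ Fin k → Bool),
      ∀ b u v, Conn (Sum.elim s s') (Sum.elim t t') Set.univ {e | c e = b} u v) :
    HasNZ4Flow s t ∨ ContractsToPetersen s t := by
  let G : MG V E := ⟨s, t⟩
  have hb' : G.Bl := bl_of hb
  obtain ⟨s', t', c, h3⟩ := h3
  by_cases h : G.Col
  · exact Or.inl h.flow
  · exact Or.inr ((induct4 _ G le_rfl hb' ((hyp_of_trees s t k s' t' c h3).mono hk) h).contracts hb' hc)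

end

end Pool.Agent.Lib.CF64
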