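import Pool.Agent.Lib.CF64.Count

set_option linter.unusedSectionVars false
set_option linter.unusedVariables false
set_option linter.unusedSimpArgs false

namespace Pool.Agent.Lib.CF64

open Finset

open scoped Classical

noncomputable section

variable {V : Type} {A : V → V → Prop} {Ev : V → Prop}

/-- girth five, minimum degree three, cubic odd pentagons, no two pentagons share two edges -/
structure Ax (A : V → V → Prop) (Ev : V → Prop) : Prop where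
  sy : ∀ {a b}, A a b → A b a
  ir : ∀ {a}, ¬ A a a
  tri : ∀ {a b c}, A a b → A b c → A c a → False
  quad : ∀ {a b c d}, A a b → A b c → A c d → A d a → a ≠ c → b = d
  deg : ∀ {v w}, A v w → ∀ a b, ∃ x, A v x ∧ x ≠ a ∧ x ≠ b
  ev5 : ∀ {a b c d e}, A a b → A b c → A c d → A d e → A e a → ¬ Ev a
  cub5 : ∀ {a b c d e x y}, A a b → A b c → A c d → A d e → A e a → A a x → A a y → x ≠ b →
    x ≠ e → y ≠ b → y ≠ e → x = y
  th : ∀ {x m y a b c d}, A x m → A m y → A x a → A a b → A b y → A x c → A c d → A d y → a = c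

/-- a path on four vertices whose ends have no common neighbour -/
structure NC (A : V → V → Prop) (a b c d : V) : Prop where
  e1 : A a b
  e2 : A b c
  e3 : A c d
  n1 : a ≠ c
  n2 : b ≠ d
  nc : ∀ q, A a q → A q d → False

def Far (A : V → V → Prop) (S T : Finset V) : Prop := ∀ a ∈ S, ∀ b ∈ T, a ≠ b ∧ ¬ A a b

def Goal0 (A : V → V → Prop) : Prop :=
  ∃ a b c d p q r s, NC A a b c d ∧ NC A p q r s ∧ Far A {a, b, c, d} {p, q, r, s}

theorem Far.mono {S T S' T' : Finset V} (h : Far A S T) (h1 : S' ⊆ S) (h2 : T' ⊆ T) : Far A S' T' :=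
  fun a ha b hb => h a (h1 ha) b (h2 hb)

theorem Far.symm (ax : Ax A Ev) {S T : Finset V} (h : Far A S T) : Far A T S :=
  fun a ha b hb => ⟨(h b hb a ha).1.symm, fun c => (h b hb a ha).2 (ax.sy c)⟩

theorem uniq_ex {α : Type} (d : α) {p : α → Prop} (h : ∀ a b, p a → p b → a = b) :
    ∃ t, ∀ a, p a → a = t := by
  by_cases c : ∃ t, p t
  · obtain ⟨t, ht⟩ := c
    exact ⟨t, fun a ha => h a t ha ht⟩
  · exact ⟨d, fun a ha => absurd ⟨a, ha⟩ c⟩

theorem Ax.two (ax : Ax A Ev) {v w : V} (h : A v w) (a : V) :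
    ∃ x y, A v x ∧ A v y ∧ x ≠ a ∧ y ≠ a ∧ x ≠ y := by
  obtain ⟨x, h1, h2, -⟩ := ax.deg h a a
  obtain ⟨y, h3, h4, h5⟩ := ax.deg h a x
  exact ⟨x, y, h1, h3, h2, h4, h5.symm⟩

theorem sel0 (ax : Ax A Ev) {h : V} (h4 : ∀ a b c, ∃ x, A h x ∧ x ≠ a ∧ x ≠ b ∧ x ≠ c) :
    Goal0 A := by
  have h5 : ∀ {b c d e}, A h b → A b c → A c d → A d e → A e h → False := by
    intro b c d e a1 a2 a3 a4 a5
    obtain ⟨x, x1, x2, x3, -⟩ := h4 b e e
    obtain ⟨y, y1, y2, y3, y4⟩ := h4 b e x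
    exact y4 (ax.cub5 a1 a2 a3 a4 a5 y1 x1 y2 y3 x2 x3)
  let N2 : V → Prop := fun y => y ≠ h ∧ ∃ x, A h x ∧ A x y
  have ind : ∀ {y y'}, N2 y → N2 y' → ¬ A y y' := by
    rintro y y' ⟨-, x, a1, a2⟩ ⟨-, x', a3, a4⟩ a5
    exact h5 a1 a2 a5 (ax.sy a4) (ax.sy a3)
  have par : ∀ {y x x'}, y ≠ h → A h x → A x y → A h x' → A x' y → x = x' :=
    fun a a1 a2 a3 a4 => ax.quad a1 a2 (ax.sy a4) (ax.sy a3) a.symm
  have out2 : ∀ {y}, N2 y → ¬ A h y := by
    rintro y ⟨-, x, a1, a2⟩ a3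
    exact ax.tri a1 a2 (ax.sy a3)
  have fin : ∀ {p q r s x x' c}, NC A p q r s → (∀ v ∈ ({p, q, r, s} : Finset V), v ≠ h ∧ ¬ A h v) →
      A h x → A h x' → x ≠ x' → (∀ v ∈ ({p, q, r, s} : Finset V), ¬ A x v) →
      (∀ v ∈ ({p, q, r, s} : Finset V), ¬ A x' v) → A x' c → c ≠ h →
      (∀ v ∈ ({p, q, r, s} : Finset V), ¬ A c v) → Goal0 A := by
    intro p q r s x x' c a1 a2 a3 a4 a5 a6 a7 a8 a9 a10
    refine ⟨x, h, x', c, p, q, r, s, ⟨ax.sy a3, a4, a8, a5, a9.symm,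
      fun q b1 b2 => h5 a3 b1 b2 (ax.sy a8) (ax.sy a4)⟩, a1, fun a ha v hv => ?_⟩
    simp only [mem_insert, mem_singleton] at ha
    rcases ha with rfl | rfl | rfl | rfl
    · exact ⟨fun e => (a2 v hv).2 (e ▸ a3), a6 v hv⟩
    · exact ⟨(a2 v hv).1.symm, (a2 v hv).2⟩
    · exact ⟨fun e => (a2 v hv).2 (e ▸ a4), a7 v hv⟩
    · exact ⟨fun e => a7 v hv (e ▸ a8), a10 v hv⟩
  have fin2 : ∀ {p q r s} (a b t1 t2 : V), NC A p q r s →
      (∀ v ∈ ({p, q, r, s} : Finset V), v ≠ h ∧ ¬ A h v) →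
      (∀ v ∈ ({p, q, r, s} : Finset V), ∀ x, A h x → A x v → x = a ∨ x = b) →
      (∀ v ∈ ({p, q, r, s} : Finset V), ∀ c, N2 c → A c v →
        c ∈ ({p, q, r, s} : Finset V) ∨ c = t1 ∨ c = t2) → Goal0 A := by
    intro p q r s a b t1 t2 a1 a2 a3 a4
    obtain ⟨x, x1, x2, x3, -⟩ := h4 a b b
    obtain ⟨y, y1, y2, y3, y4⟩ := h4 a b x
    have ux : ∀ v ∈ ({p, q, r, s} : Finset V), ¬ A x v := fun v hv e => by
      rcases a3 v hv x x1 e with e | e <;> contradiction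
    have uy : ∀ v ∈ ({p, q, r, s} : Finset V), ¬ A y v := fun v hv e => by
      rcases a3 v hv y y1 e with e | e <;> contradiction
    obtain ⟨c1, c2, b1, b2, b3, b4, b5⟩ := ax.two (ax.sy x1) h
    obtain ⟨c3, b6, b7, -⟩ := ax.deg (ax.sy y1) h h
    have n13 : c1 ≠ c3 := fun e => y4 (par b7 y1 b6 x1 (e ▸ b1))
    have n23 : c2 ≠ c3 := fun e => y4 (par b7 y1 b6 x1 (e ▸ b2))
    have kx : ∀ c, A x c → c ≠ h → c ≠ t1 → c ≠ t2 → Goal0 A := fun c e1 e2 e3 e4 =>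
      fin a1 a2 y1 x1 y4 uy ux e1 e2 fun v hv e => by
        rcases a4 v hv c ⟨e2, x, x1, e1⟩ e with e | e | e
        · exact ux c e e1
        · exact e3 e
        · exact e4 e
    have ky : c3 ≠ t1 → c3 ≠ t2 → Goal0 A := fun e3 e4 =>
      fin a1 a2 x1 y1 y4.symm ux uy b6 b7 fun v hv e => by
        rcases a4 v hv c3 ⟨b7, y, y1, b6⟩ e with e | e | e
        · exact uy c3 e b6
        · exact e3 e
        · exact e4 e
    by_cases e1 : c1 ≠ t1 ∧ c1 ≠ t2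
    · exact kx c1 b1 b3 e1.1 e1.2
    by_cases e2 : c2 ≠ t1 ∧ c2 ≠ t2
    · exact kx c2 b2 b4 e2.1 e2.2
    apply ky <;> grind
  by_cases cA : ∃ z y y', N2 y ∧ N2 y' ∧ A z y ∧ A z y' ∧ y ≠ y' ∧ ¬ A h z
  · obtain ⟨z, y, y', hy, hy', zy, zy', yy, hz⟩ := cA
    have zh : z ≠ h := fun e => out2 hy (e ▸ zy)
    have z2 : ¬ N2 z := fun e => ind e hy zy
    obtain ⟨yh, a, a1, a2⟩ := id hy
    obtain ⟨yh', b, b1, b2⟩ := id hy'
    by_cases cl : ∃ z' q, A y' z' ∧ A z' q ∧ A q y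
    · obtain ⟨z', q, c1, c2, c3⟩ := cl
      have qh : q ≠ h := fun e => out2 hy (e ▸ c3)
      have zh' : z' ≠ h := fun e => out2 hy' (e ▸ ax.sy c1)
      have q2 : ¬ N2 q := fun e => ind e hy c3
      have z2' : ¬ N2 z' := fun e => ind hy' e c1
      have hq : ¬ A h q := fun e => z2' ⟨zh', q, e, ax.sy c2⟩
      obtain ⟨q3, d1, d2, d3⟩ := ax.deg c3 y z'
      obtain ⟨z0, d4, d5, d6⟩ := ax.deg zy y y'
      have nc : NC A z y q q3 := ⟨zy, ax.sy c3, d1, fun e => ax.tri c1 c2 (e ▸ zy'), d2.symm,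
        fun r e1 e2 => by
          have := ax.th zy (ax.sy c3) zy' c1 c2 e1 e2 (ax.sy d1)
          subst this
          exact d3 (ax.quad c1 c2 d1 (ax.sy e2) (fun e => ind hy' hy (e ▸ c3))).symm⟩
      have o : ∀ v ∈ ({z, y, q, q3} : Finset V), v ≠ h ∧ ¬ A h v := by
        simp only [mem_insert, mem_singleton, forall_eq_or_imp, forall_eq]
        exact ⟨⟨zh, hz⟩, ⟨yh, out2 hy⟩, ⟨qh, hq⟩, fun e => hq (e ▸ ax.sy d1),
          fun e => q2 ⟨qh, q3, e, ax.sy d1⟩⟩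
      have q3h : q3 ≠ h := (o q3 (by simp)).1
      have bz : ∀ c, A c z → c = y ∨ c = y' ∨ c = z0 := fun c e => by
        by_contra n
        push Not at n
        exact n.2.2 (ax.cub5 zy' c1 c2 c3 (ax.sy zy) (ax.sy e) d4 n.2.1 n.1 d6 d5)
      have bq : ∀ c, A c q → c = y ∨ c = z' ∨ c = q3 := fun c e => by
        by_contra n
        push Not at n
        exact n.2.2 (ax.cub5 c3 (ax.sy zy) zy' c1 c2 (ax.sy e) d1 n.1 n.2.1 d2 d3)
      by_cases c4 : N2 q3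
      · obtain ⟨-, p, p1, p2⟩ := id c4
        refine fin2 a p y' z0 nc o ?_ ?_
        · simp only [mem_insert, mem_singleton, forall_eq_or_imp, forall_eq]
          exact ⟨fun x e1 e2 => absurd ⟨zh, x, e1, e2⟩ z2, fun x e1 e2 => Or.inl (par yh e1 e2 a1 a2),
            fun x e1 e2 => absurd ⟨qh, x, e1, e2⟩ q2, fun x e1 e2 => Or.inr (par q3h e1 e2 p1 p2)⟩
        · simp only [mem_insert, mem_singleton, forall_eq_or_imp, forall_eq]
          refine ⟨fun c e1 e2 => ?_, fun c e1 e2 => absurd e2 (ind e1 hy), fun c e1 e2 => ?_,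
            fun c e1 e2 => absurd e2 (ind e1 c4)⟩
          · rcases bz c e2 with e | e | e <;> simp [e]
          · rcases bq c e2 with e | e | e
            · simp [e]
            · exact absurd (e ▸ e1) z2'
            · simp [e]
      · have un : ∀ x, A h x → x ≠ a → ∀ v ∈ ({z, y, q, q3} : Finset V), ¬ A x v := by
          intro x e1 e2
          simp only [mem_insert, mem_singleton, forall_eq_or_imp, forall_eq]
          exact ⟨fun e => z2 ⟨zh, x, e1, e⟩, fun e => e2 (par yh e1 e a1 a2),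
            fun e => q2 ⟨qh, x, e1, e⟩, fun e => c4 ⟨q3h, x, e1, e⟩⟩
        have ch : ∀ x, A h x → ∃ c, A x c ∧ c ≠ h ∧ ¬ A c q3 := by
          intro x e1
          obtain ⟨c1, c2, b1, b2, b3, b4, b5⟩ := ax.two (ax.sy e1) h
          by_cases e : A c1 q3
          · exact ⟨c2, b2, b4, fun e' => b5 (ax.quad b1 e (ax.sy e') (ax.sy b2)
              (fun e'' => (o q3 (by simp)).2 (e'' ▸ e1)))⟩
          · exact ⟨c1, b1, b3, e⟩
        have k : ∀ x x' c, A h x → A h x' → x ≠ a → x' ≠ a → x ≠ x' → A x' c → c ≠ h → ¬ A c q3 →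
            c ≠ y' → c ≠ z0 → Goal0 A := by
          intro x x' c e1 e2 e3 e4 e5 e6 e7 e8 e9 e10
          refine fin nc o e1 e2 e5 (un x e1 e3) (un x' e2 e4) e6 e7 ?_
          have cy : c ≠ y := fun e => e4 (par yh e2 (e ▸ e6) a1 a2)
          have c2 : N2 c := ⟨e7, x', e2, e6⟩
          simp only [mem_insert, mem_singleton, forall_eq_or_imp, forall_eq]
          refine ⟨fun e => ?_, ind c2 hy, fun e => ?_, e8⟩
          · rcases bz c e with e | e | e <;> contradiction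
          · rcases bq c e with e | e | e
            · exact cy e
            · exact z2' (e ▸ c2)
            · exact c4 (e ▸ c2)
        obtain ⟨x1, e1, e2, -⟩ := h4 a a a
        obtain ⟨x2, e3, e4, e5, -⟩ := h4 a x1 x1
        obtain ⟨x3, e6, e7, e8, e9⟩ := h4 a x1 x2
        obtain ⟨u1, f1, f2, f3⟩ := ch x1 e1
        obtain ⟨u2, f4, f5, f6⟩ := ch x2 e3
        obtain ⟨u3, f7, f8, f9⟩ := ch x3 e6
        have n12 : u1 ≠ u2 := fun e => e5 (par f5 e3 f4 e1 (e ▸ f1))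
        have n13 : u1 ≠ u3 := fun e => e8 (par f8 e6 f7 e1 (e ▸ f1))
        have n23 : u2 ≠ u3 := fun e => e9 (par f8 e6 f7 e3 (e ▸ f4))
        by_cases g1 : u1 ≠ y' ∧ u1 ≠ z0
        · exact k x2 x1 u1 e3 e1 e4 e2 e5 f1 f2 f3 g1.1 g1.2
        by_cases g2 : u2 ≠ y' ∧ u2 ≠ z0
        · exact k x1 x2 u2 e1 e3 e2 e4 e5.symm f4 f5 f6 g2.1 g2.2
        apply k x1 x3 u3 e1 e6 e2 e7 e8.symm f7 f8 f9 <;> grind
    · push Not at cl
      obtain ⟨x, x1, x2, x3, -⟩ := h4 a b b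
      obtain ⟨x', x4, x5, x6, x7⟩ := h4 a b x
      have key : ∀ {y y' a b z'}, N2 y → N2 y' → A h a → A a y → A h b → A b y' → A z y → A z y' →
          y ≠ y' → (∀ q, A y q → A q z' → False) → A y' z' → z' ≠ b → z' ≠ z →
          ∀ x x' c, A h x → A h x' → x ≠ a → x ≠ b → x' ≠ a → x' ≠ b → x ≠ x' → A x' c → c ≠ h →
          ¬ A c z → ¬ A c z' → Goal0 A := by
        intro y y' a b z' hy hy' a1 a2 b1 b2 zy zy' yy cl c1 c2 c3 x x' c e1 e2 e3 e4 e5 e6 e7 e8 e9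
          e10 e11
        have zh' : z' ≠ h := fun e => out2 hy' (e ▸ ax.sy c1)
        have z2' : ¬ N2 z' := fun e => ind hy' e c1
        have un : ∀ x, A h x → x ≠ a → x ≠ b → ∀ v ∈ ({y, z, y', z'} : Finset V), ¬ A x v := by
          intro x e1 e2 e3
          simp only [mem_insert, mem_singleton, forall_eq_or_imp, forall_eq]
          exact ⟨fun e => e2 (par hy.1 e1 e a1 a2), fun e => z2 ⟨zh, x, e1, e⟩,
            fun e => e3 (par hy'.1 e1 e b1 b2), fun e => z2' ⟨zh', x, e1, e⟩⟩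
        refine fin ⟨ax.sy zy, zy', c1, yy, c3.symm, cl⟩ ?_ e1 e2 e7 (un x e1 e3 e4) (un x' e2 e5 e6)
          e8 e9 ?_
        · simp only [mem_insert, mem_singleton, forall_eq_or_imp, forall_eq]
          exact ⟨⟨hy.1, out2 hy⟩, ⟨zh, hz⟩, ⟨hy'.1, out2 hy'⟩, zh',
            fun e => c2 (par hy'.1 e (ax.sy c1) b1 b2)⟩
        · have c2 : N2 c := ⟨e9, x', e2, e8⟩
          simp only [mem_insert, mem_singleton, forall_eq_or_imp, forall_eq]
          exact ⟨ind c2 hy, e10, ind c2 hy', e11⟩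
      obtain ⟨z1, c1, c2, c3⟩ := ax.deg (ax.sy b2) b z
      obtain ⟨z3, c4, c5, c6⟩ := ax.deg (ax.sy a2) a z
      have k1 := key hy hy' a1 a2 b1 b2 zy zy' yy
        (fun q e1 e2 => cl z1 q c1 (ax.sy e2) (ax.sy e1)) c1 c2 c3
      have k2 := key hy' hy b1 b2 a1 a2 zy' zy yy.symm
        (fun q e1 e2 => cl q z3 e1 e2 (ax.sy c4)) c4 c5 c6
      have ch : ∀ x, A h x → ∃ c, A x c ∧ c ≠ h ∧ ¬ A c z := by
        intro x e1
        obtain ⟨c1, c2, b1, b2, b3, b4, b5⟩ := ax.two (ax.sy e1) h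
        by_cases e : A c1 z
        · exact ⟨c2, b2, b4, fun e' => b5 (ax.quad b1 e (ax.sy e') (ax.sy b2)
            (fun e'' => hz (e'' ▸ e1)))⟩
        · exact ⟨c1, b1, b3, e⟩
      obtain ⟨u, f1, f2, f3⟩ := ch x x1
      obtain ⟨u', f4, f5, f6⟩ := ch x' x4
      by_contra n
      have g1 : A u z1 := by_contra fun e => n (k1 x' x u x4 x1 x5 x6 x2 x3 x7 f1 f2 f3 e)
      have g2 : A u z3 := by_contra fun e => n (k2 x' x u x4 x1 x6 x5 x3 x2 x7 f1 f2 f3 e)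
      have g3 : A u' z1 := by_contra fun e => n (k1 x x' u' x1 x4 x2 x3 x5 x6 x7.symm f4 f5 f6 e)
      have g4 : A u' z3 := by_contra fun e => n (k2 x x' u' x1 x4 x3 x2 x6 x5 x7.symm f4 f5 f6 e)
      have g5 : z1 ≠ z3 := fun e => c3 (ax.quad (ax.sy zy) zy' c1 (e ▸ ax.sy c4) yy).symm
      have g6 := ax.quad (ax.sy g1) g2 (ax.sy g4) g3 g5
      exact x7 (par f5 x4 f4 x1 (g6 ▸ f1))
  · push Not at cA
    obtain ⟨x, x1, -⟩ := h4 h h h
    obtain ⟨y, y1, y2, -⟩ := ax.deg (ax.sy x1) h h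
    have hy : N2 y := ⟨y2, x, x1, y1⟩
    obtain ⟨z, z1, z2, -⟩ := ax.deg (ax.sy y1) x x
    have zh : z ≠ h := fun e => out2 hy (e ▸ ax.sy z1)
    have hz : ¬ A h z := fun e => z2 (par y2 e (ax.sy z1) x1 y1)
    have z3 : ¬ N2 z := fun e => ind hy e z1
    obtain ⟨a, a1, a2, -⟩ := ax.deg (ax.sy z1) y y
    have ah : a ≠ h := fun e => hz (e ▸ ax.sy a1)
    have ha : ¬ A h a := fun e => z3 ⟨zh, a, e, ax.sy a1⟩
    have a3 : ¬ N2 a := fun e => hz (cA z a y e hy a1 (ax.sy z1) a2)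
    obtain ⟨b, b1, b2, b3⟩ : ∃ b, A a b ∧ b ≠ z ∧ ∀ q, A y q → A q b → False := by
      obtain ⟨c1, c2, b1, b2, b3, b4, b5⟩ := ax.two (ax.sy a1) z
      by_cases e : ∃ q, A y q ∧ A q c1
      · obtain ⟨q, e1, e2⟩ := e
        exact ⟨c2, b2, b4, fun q' e3 e4 => b5 (ax.th (ax.sy a1) (ax.sy z1) b1 (ax.sy e2) (ax.sy e1) b2
          (ax.sy e4) (ax.sy e3))⟩
      · exact ⟨c1, b1, b3, fun q e1 e2 => e ⟨q, e1, e2⟩⟩
    have bh : b ≠ h := fun e => ha (e ▸ ax.sy b1)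
    have hb : ¬ A h b := fun e => a3 ⟨ah, b, e, ax.sy b1⟩
    obtain ⟨p, hp⟩ := uniq_ex h (p := fun x => A h x ∧ A x b)
      (fun u v e1 e2 => par bh e1.1 e1.2 e2.1 e2.2)
    obtain ⟨t1, t2⟩ := uniq_ex h (p := fun c => N2 c ∧ A c a)
      (fun u v e1 e2 => by_contra fun e => ha (cA a u v e1.1 e2.1 (ax.sy e1.2) (ax.sy e2.2) e))
    obtain ⟨t3, t4⟩ := uniq_ex h (p := fun c => N2 c ∧ A c b)
      (fun u v e1 e2 => by_contra fun e => hb (cA b u v e1.1 e2.1 (ax.sy e1.2) (ax.sy e2.2) e))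
    refine fin2 x p t1 t3 ⟨z1, a1, b1, a2.symm, b2.symm, b3⟩ ?_ ?_ ?_ <;>
      simp only [mem_insert, mem_singleton, forall_eq_or_imp, forall_eq]
    · exact ⟨⟨y2, out2 hy⟩, ⟨zh, hz⟩, ⟨ah, ha⟩, bh, hb⟩
    · exact ⟨fun v e1 e2 => Or.inl (par y2 e1 e2 x1 y1), fun v e1 e2 => absurd ⟨zh, v, e1, e2⟩ z3,
        fun v e1 e2 => absurd ⟨ah, v, e1, e2⟩ a3, fun v e1 e2 => Or.inr (hp v ⟨e1, e2⟩)⟩
    · exact ⟨fun c e1 e2 => absurd e2 (ind e1 hy), fun c e1 e2 => Or.inl (Or.inl (by_contra fun e =>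
        hz (cA z c y e1 hy (ax.sy e2) (ax.sy z1) e))), fun c e1 e2 => Or.inr (Or.inl (t2 c ⟨e1, e2⟩)),
        fun c e1 e2 => Or.inr (Or.inr (t4 c ⟨e1, e2⟩))⟩

end

end Pool.Agent.Lib.CF64
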