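import Pool.Agent.Lib.CF64.F4Cell
import Pool.Agent.Lib.CF64.F4Lab
import Pool.Agent.Lib.CF64.Exist

set_option linter.unusedSectionVars false
set_option linter.unusedVariables false
set_option linter.unusedSimpArgs false

namespace Pool.Agent.Lib.CF64

open Finset Pool.Agent.Lib.MP_aa6b05_co Pool.Agent.Lib.MP_aa6b05_co.MG

open scoped Classical

noncomputable section

variable {V E : Type} [Fintype V] [Fintype E] {G : MG V E} {N Y : Finset V}

structure Prof (Γ : Finset V) (f : V → ℤ) (B : ℤ) : Prop where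
  p1 : ∑ z ∈ Γ, max 0 (f z - 1) ≤ B
  p2 : ∑ z ∈ Γ, f z ≤ B + 2
  p3 : ∀ z ∈ Γ, 0 ≤ f z ∧ f z ≤ 3
  p4 : ∀ z ∈ Γ, f z = 3 → Γ = {z} ∧ B = 2
  p5 : B ≤ 2

theorem Prof.num {Γ Γ' : Finset V} {f f' : V → ℤ} {B B' : ℤ} (h : Prof Γ f B) (h' : Prof Γ' f' B') :
    ∑ p ∈ Γ ×ˢ Γ', max 0 (f p.1 + f' p.2 - 3) ≤ B + B' := by
  by_cases c : ∃ z ∈ Γ, f z = 3
  · obtain ⟨z, hz, c⟩ := c
    obtain ⟨e, rfl⟩ := h.p4 z hz c
    rw [e, sum_product, sum_singleton, sum_congr rfl (g := f') fun w hw => by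
      have := h'.p3 w hw
      dsimp only
      omega]
    exact (add_comm B' 2) ▸ h'.p2
  by_cases c' : ∃ z ∈ Γ', f' z = 3
  · obtain ⟨z, hz, c'⟩ := c'
    obtain ⟨e, rfl⟩ := h'.p4 z hz c'
    rw [e, sum_product_right, sum_singleton, sum_congr rfl (g := f) fun w hw => by
      have := h.p3 w hw
      dsimp only
      omega]
    exact h.p2
  push Not at c c'
  have a1 : ∑ p ∈ Γ ×ˢ Γ', max 0 (f p.1 + f' p.2 - 3) ≤
      (∑ z ∈ Γ, max 0 (f z - 1)) * ∑ z ∈ Γ', max 0 (f' z - 1) := by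
    rw [sum_mul_sum, ← sum_product']
    apply sum_le_sum
    intro p hp
    obtain ⟨b1, b2⟩ := mem_product.mp hp
    have := h.p3 _ b1
    have := h'.p3 _ b2
    have := c _ b1
    have := c' _ b2
    by_cases d : f p.1 = 2 ∧ f' p.2 = 2
    · rw [d.1, d.2]
      norm_num
    · rw [show max 0 (f p.1 + f' p.2 - 3) = 0 by omega]
      positivity
  have a2 : 0 ≤ ∑ z ∈ Γ, max 0 (f z - 1) := sum_nonneg fun _ _ => le_max_left _ _
  have a3 : 0 ≤ ∑ z ∈ Γ', max 0 (f' z - 1) := sum_nonneg fun _ _ => le_max_left _ _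
  have a4 := h.p1
  have a5 := h'.p1
  have a6 := h.p5
  have a7 := h'.p5
  nlinarith

theorem fb_sub (S : Finset V) (μ : V → V) (z : V) : fb S μ z ⊆ S := filter_subset _ _

theorem star_F (np : G.NoPar) {b c : V} (bc : Adj G b c) (R : Finset V)
    (h : ∀ x ∈ R, x = b ∨ x = c ∨ Adj G x b ∨ Adj G x c) :
    Fz G (R ∪ {b, c}) + 1 ≤ (R ∪ {b, c}).card := by
  induction R using Finset.induction_on with
  | empty => simp [Fz, ein_pair np bc, card_pair bc.ne]
  | insert x R hx ih =>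
    have a := ih fun y hy => h y (mem_insert_of_mem hy)
    rw [insert_union]
    by_cases d : x ∈ R ∪ {b, c}
    · rwa [insert_eq_of_mem d]
    rw [F_insert np d, card_insert_of_notMem d]
    have : 0 < dg G x (R ∪ {b, c}) := by
      rcases h x (by simp) with e | e | e | e
      · exact absurd (by simp [e]) d
      · exact absurd (by simp [e]) d
      · exact dg_pos.mpr ⟨b, by simp, e⟩
      · exact dg_pos.mpr ⟨c, by simp, e⟩
    push_cast
    omega

/-- a tree on at most four vertices whose central edge carries no label -/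
structure Star (G : MG V E) (S : Finset V) (M : Finset E) (b c : V) : Prop where
  hb : b ∈ S
  hc : c ∈ S
  c4 : S.card ≤ 4
  st : ∀ x ∈ S, x = b ∨ x = c ∨ Adj G x b ∨ Adj G x c
  bc : b ≠ c
  ed : ∃ e, e ∉ M ∧ G.Joins e b c

theorem Star.sub (np : G.NoPar) {S T : Finset V} {M : Finset E} {b c : V} (h : Star G S M b c)
    (h1 : T ⊆ S) (hb : b ∈ T) (hc : c ∈ T) : Fz G T + 1 ≤ T.card := by
  obtain ⟨e, -, he⟩ := h.ed
  have := star_F np ⟨h.bc, e, he⟩ T fun x hx => h.st x (h1 hx)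
  rwa [union_eq_left.mpr (by simp [insert_subset_iff, hb, hc])] at this

theorem Cx4.prof (cx : Cx4 G N Y) {S : Finset V} {M : Finset E} {b c : V} (h : Star G S M b c)
    {μ : V → V} (hμ : ∀ e ∈ eset G S, e ∉ M → μ (G.s e) = μ (G.t e)) :
    Prof (S.image μ) (fun z => Fz G (fb S μ z)) (Fz G S - (S.image μ).card) := by
  have np := cx.gi.np
  have bc : μ c = μ b := by
    obtain ⟨e, e1, e2⟩ := h.ed
    have := hμ e ((mem_eset_j e2 h.bc).mpr ⟨h.hb, h.hc⟩) e1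
    rcases e2 with ⟨c1, c2⟩ | ⟨c1, c2⟩ <;> rw [c1, c2] at this
    · exact this.symm
    · exact this
  have m0 : μ b ∈ S.image μ := mem_image_of_mem _ h.hb
  have b0 : b ∈ fb S μ (μ b) := mem_filter.mpr ⟨h.hb, rfl⟩
  have c0 : c ∈ fb S μ (μ b) := mem_filter.mpr ⟨h.hc, bc⟩
  have s0 : 1 < (fb S μ (μ b)).card := one_lt_card.mpr ⟨b, b0, c, c0, h.bc⟩
  have f0 := h.sub np (fb_sub S μ (μ b)) b0 c0
  have fS := h.sub np Subset.rfl h.hb h.hc
  have fS' := cx.F_ge S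
  have f0' := cx.F_ge (fb S μ (μ b))
  have c4 := h.c4
  have pos : ∀ z ∈ S.image μ, 0 < (fb S μ z).card := fun z hz => by
    obtain ⟨v, hv, rfl⟩ := mem_image.mp hz
    exact card_pos.mpr ⟨v, mem_filter.mpr ⟨hv, rfl⟩⟩
  have tot : (fb S μ (μ b)).card + ∑ z ∈ (S.image μ).erase (μ b), (fb S μ z).card = S.card := by
    rw [add_sum_erase _ (fun z => (fb S μ z).card) m0]
    exact (card_eq_sum_card_fiberwise (f := μ) (s := S) (t := S.image μ)
      (fun v hv => mem_image_of_mem _ hv)).symm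
  have cΓ := card_erase_add_one m0
  have sm : ∀ z ∈ (S.image μ).erase (μ b), (fb S μ z).card ≤
      ∑ z ∈ (S.image μ).erase (μ b), (fb S μ z).card := fun z hz =>
    single_le_sum (f := fun z => (fb S μ z).card) (fun _ _ => Nat.zero_le _) hz
  have cs : ∀ (a : ℤ), ∑ z ∈ (S.image μ).erase (μ b), (a * ((fb S μ z).card : ℤ) - a) =
      a * (∑ z ∈ (S.image μ).erase (μ b), (fb S μ z).card : ℕ) -
        a * ((S.image μ).erase (μ b)).card := by
    intro a
    rw [sum_sub_distrib, ← mul_sum, sum_const, nsmul_eq_mul]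
    push_cast
    ring
  have e0 : ((S.image μ).erase (μ b)).card = 0 →
      ∑ z ∈ (S.image μ).erase (μ b), (fb S μ z).card = 0 := fun d => by
    rw [card_eq_zero.mp d, sum_empty]
  have e1 : ((S.image μ).erase (μ b)).card ≤ ∑ z ∈ (S.image μ).erase (μ b), (fb S μ z).card := by
    rw [card_eq_sum_ones]
    exact sum_le_sum fun z hz => pos z (mem_erase.mp hz).2
  refine ⟨?_, ?_, fun z hz => ?_, fun z hz d => ?_, by omega⟩
  · rw [← add_sum_erase _ _ m0]
    have a : ∑ z ∈ (S.image μ).erase (μ b), max 0 (Fz G (fb S μ z) - 1) ≤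
        ∑ z ∈ (S.image μ).erase (μ b), (1 * ((fb S μ z).card : ℤ) - 1) := sum_le_sum fun z hz => by
      have := pos z (mem_erase.mp hz).2
      have := sm z hz
      have := F_le_card (G := G) (fb S μ z)
      omega
    rw [cs] at a
    omega
  · rw [← add_sum_erase _ _ m0]
    have a : ∑ z ∈ (S.image μ).erase (μ b), Fz G (fb S μ z) ≤
        ∑ z ∈ (S.image μ).erase (μ b), (2 * ((fb S μ z).card : ℤ) - 2) :=
      sum_le_sum fun z hz => F_le_card _
    rw [cs] at a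
    omega
  · have := (cx.F_ge (fb S μ z)).1 (pos z hz)
    have := F_le_card (G := G) (fb S μ z)
    by_cases d : z = μ b
    · subst d
      omega
    · have := sm z (mem_erase.mpr ⟨d, hz⟩)
      omega
  · have := F_le_card (G := G) (fb S μ z)
    by_cases d' : z = μ b
    · subst d'
      have a : ((S.image μ).erase (μ b)).card = 0 := by omega
      refine ⟨?_, by omega⟩
      rw [← insert_erase m0, card_eq_zero.mp a]
      rfl
    · have := sm z (mem_erase.mpr ⟨d', hz⟩)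
      omega

theorem Cx4.tab_of (cx : Cx4 G N Y) {S1 S2 : Finset V} {k1 k2 : V} {M1 M2 : Finset E}
    (d1 : Dbl G Y S1 k1) (d2 : Dbl G Y S2 k2) (far : FarG G S1 S2)
    (H : ∀ I P μ ν, Fam4 G N S1 S2 M1 M2 I P μ ν → ∀ (O : Finset V) (K : V × V → Finset V),
      Disjoint O (S1 ∪ S2) → (∀ p, Disjoint (K p) (S1 ∪ S2)) → (∀ p, Disjoint O (K p)) →
      (∀ p q, p ≠ q → Disjoint (K p) (K q)) →
      (∀ x ∈ O, ∀ a ∈ S1, ∀ b ∈ S2, Adj G a x → ¬ Adj G b x) →
      (∀ p ∈ S1.image μ ×ˢ S2.image ν, ¬ Y ⊆ K p ∪ (fb S1 μ p.1 ∪ fb S2 ν p.2)) →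
      (if k1 ∈ O then 1 else 0) + (if k2 ∈ O then 1 else 0) +
        ∑ p ∈ S1.image μ ×ˢ S2.image ν, (Fz G (fb S1 μ p.1 ∪ fb S2 ν p.2) -
          Fz G (K p ∪ (fb S1 μ p.1 ∪ fb S2 ν p.2))) + (S1.image μ).card + (S2.image ν).card ≤
        Fz G S1 + Fz G S2) : Tab G N S1 S2 M1 M2 := by
  intro I P μ ν fam
  obtain ⟨O, K, o1, o2, o3, o4, o5, o6⟩ := cx.cells d1 d2 fam
  by_cases c : ∀ p ∈ S1.image μ ×ˢ S2.image ν, ¬ Y ⊆ K p ∪ (fb S1 μ p.1 ∪ fb S2 ν p.2)
  · have := H I P μ ν fam O K o1 o2 o3 o4 o5 c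
    omega
  push Not at c
  obtain ⟨p, hp, c⟩ := c
  have sb : fb S1 μ p.1 ∪ fb S2 ν p.2 ⊆ S1 ∪ S2 :=
    union_subset_union (filter_subset _ _) (filter_subset _ _)
  have a1 : ∀ v ∈ S1, μ v = p.1 := by
    intro v hv
    rcases mem_union.mp (c (d1.hS hv)) with d | d
    · exact absurd (mem_union_left _ hv) (disjoint_left.mp (o2 p) d)
    · rcases mem_union.mp d with d | d
      · exact (mem_filter.mp d).2
      · exact absurd (mem_filter.mp d).1 (disjoint_left.mp far.dj hv)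
  have a2 : ∀ v ∈ S2, ν v = p.2 := by
    intro v hv
    rcases mem_union.mp (c (d2.hS hv)) with d | d
    · exact absurd (mem_union_right _ hv) (disjoint_left.mp (o2 p) d)
    · rcases mem_union.mp d with d | d
      · exact absurd (mem_filter.mp d).1 (disjoint_right.mp far.dj hv)
      · exact (mem_filter.mp d).2
  have b1 : S1.image μ = {p.1} := (image_congr (g := fun _ => p.1) a1).trans (image_const d1.ne _)
  have b2 : S2.image ν = {p.2} := (image_congr (g := fun _ => p.2) a2).trans (image_const d2.ne _)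
  have b3 : ∀ k ∈ Y, k ∉ O := fun k hk ho => by
    rcases mem_union.mp (c hk) with d | d
    · exact disjoint_left.mp (o3 p) ho d
    · exact disjoint_left.mp o1 ho (sb d)
  have b4 := cx.f4 _ (le_trans (by have := cx.cY; omega) (card_le_card c))
  rw [b1, b2, singleton_product_singleton, sum_singleton, if_neg (b3 _ d1.hk),
    if_neg (b3 _ d2.hk)] at o6
  rw [show fb S1 μ p.1 = S1 from filter_true_of_mem a1,
    show fb S2 ν p.2 = S2 from filter_true_of_mem a2] at o6 b4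
  have b5 := far.F
  rw [b1, b2, card_singleton, card_singleton]
  rw [Prod.mk.eta] at o6
  omega

theorem fb_ne {S : Finset V} {μ : V → V} {z : V} (hz : z ∈ S.image μ) : (fb S μ z).Nonempty := by
  obtain ⟨v, hv, rfl⟩ := mem_image.mp hz
  exact ⟨v, mem_filter.mpr ⟨hv, rfl⟩⟩

theorem Cx4.val (cx : Cx4 G N Y) {S1 S2 K : Finset V} {k1 k2 : V} (d1 : Dbl G Y S1 k1)
    (d2 : Dbl G Y S2 k2) (far : FarG G S1 S2) {g h : Finset V} (hg : g ⊆ S1) (hh : h ⊆ S2)
    (ng : g.Nonempty) (nh : h.Nonempty) (dK : Disjoint K (S1 ∪ S2)) (hk : k1 ∉ K)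
    (nY : ¬ Y ⊆ K ∪ (g ∪ h)) : Fz G (g ∪ h) - Fz G (K ∪ (g ∪ h)) ≤ Fz G g + Fz G h - 3 ∨
      Fz G (g ∪ h) - Fz G (K ∪ (g ∪ h)) ≤ (if k2 ∈ K then 1 else 0) := by
  have off : ∀ x ∈ K, x ∉ S1 ∧ x ∉ S2 := fun x hx => by simpa using disjoint_left.mp dK hx
  have a := cx.cell (K := K) (k := k2) (far.mono hg hh) (hg.trans d1.hS) (hh.trans d2.hS) ng nh
    (dK.mono_right (union_subset_union hg hh))
    (fun x hx => (dg_mono x hg).trans (d1.nb x (off x hx).1 fun e => hk (e ▸ hx)))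
    (fun x hx e => (dg_mono x hh).trans (d2.nb x (off x hx).2 e))
    (fun hx => (card_le_card hh).trans (d2.c2 (off _ hx).2)) nY
  have b := (far.mono hg hh).F
  omega

theorem Cx4.T1 (cx : Cx4 G N Y) {S1 S2 : Finset V} {b c b' c' : V} {M1 M2 : Finset E}
    (d1 : Dbl G Y S1 b) (d2 : Dbl G Y S2 b') (far : FarG G S1 S2) (s1 : Star G S1 M1 b c)
    (s2 : Star G S2 M2 b' c') : Tab G N S1 S2 M1 M2 := by
  refine cx.tab_of d1 d2 far fun I P μ ν fam O K o1 o2 o3 o4 o5 nY => ?_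
  have a1 := (cx.prof s1 fam.d1).num (cx.prof s2 fam.d2)
  have a2 : ∑ p ∈ S1.image μ ×ˢ S2.image ν, (Fz G (fb S1 μ p.1 ∪ fb S2 ν p.2) -
      Fz G (K p ∪ (fb S1 μ p.1 ∪ fb S2 ν p.2))) ≤ ∑ p ∈ S1.image μ ×ˢ S2.image ν,
        max 0 (Fz G (fb S1 μ p.1) + Fz G (fb S2 ν p.2) - 3) := by
    apply sum_le_sum
    intro p hp
    have := cx.val d1 d2 far (fb_sub _ _ _) (fb_sub _ _ _) (fb_ne (mem_product.mp hp).1)
      (fb_ne (mem_product.mp hp).2) (o2 p) (disjoint_right.mp (o2 p) (mem_union_left _ s1.hb)) (nY p hp)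
    rw [if_neg (disjoint_right.mp (o2 p) (mem_union_right _ s2.hb))] at this
    omega
  rw [if_neg (disjoint_right.mp o1 (mem_union_left _ s1.hb)),
    if_neg (disjoint_right.mp o1 (mem_union_right _ s2.hb))]
  omega

/-- two vertices with a common neighbour outside the items lie in one group -/
theorem one_grp {S1 S2 : Finset V} {k : V} {I : Finset V} {P : V → Finset V} {ν : V → V}
    (cov : ∃ r ∈ I, k ∈ P r) (t2 : ∀ r, ∀ x ∈ P r, ∀ y ∈ P r, ∀ a ∈ S2, ∀ b ∈ S2,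
      Adj G a x → Adj G b y → ν a = ν b) (ne : S2.Nonempty) (hk : ∀ a ∈ S2, Adj G a k) :
    ∃ z, S2.image ν = {z} ∧ fb S2 ν z = S2 := by
  obtain ⟨r, -, hr⟩ := cov
  obtain ⟨a, ha⟩ := id ne
  have h : ∀ v ∈ S2, ν v = ν a := fun v hv => t2 r k hr k hr v hv a ha (hk v hv) (hk a ha)
  exact ⟨ν a, (image_congr (g := fun _ => ν a) h).trans (image_const ne _), filter_true_of_mem h⟩

theorem Cx4.T2 (cx : Cx4 G N Y) {S1 S2 : Finset V} {b c k : V} {M1 M2 : Finset E}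
    (d1 : Dbl G Y S1 b) (d2 : Dbl G Y S2 k) (far : FarG G S1 S2) (s1 : Star G S1 M1 b c)
    (hk : ∀ a ∈ S2, Adj G a k) (f2 : Fz G S2 = 2) : Tab G N S1 S2 M1 M2 := by
  refine cx.tab_of d1 d2 far fun I P μ ν fam O K o1 o2 o3 o4 o5 nY => ?_
  obtain ⟨a, ha⟩ := d2.ne
  obtain ⟨z, z1, z2⟩ := one_grp (S1 := S1) (fam.cov k (cx.hY d2.hk)
    (fun h => far.na k h a ha (hk a ha).symm) fun h => (hk k h).ne rfl) fam.t2 d2.ne hk
  have a1 := (cx.prof s1 fam.d1).p1
  rw [z1] at nY ⊢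
  rw [sum_product_right, sum_singleton]
  have a2 : ∑ w ∈ S1.image μ, (Fz G (fb S1 μ w ∪ fb S2 ν z) -
      Fz G (K (w, z) ∪ (fb S1 μ w ∪ fb S2 ν z))) ≤ ∑ w ∈ S1.image μ,
        (max 0 (Fz G (fb S1 μ w) - 1) + if k ∈ K (w, z) then 1 else 0) := by
    apply sum_le_sum
    intro w hw
    have := cx.val d1 d2 far (fb_sub _ _ _) (fb_sub _ _ _) (fb_ne hw)
      (fb_ne (μ := ν) (z := z) (by simp [z1])) (o2 (w, z))
      (disjoint_right.mp (o2 _) (mem_union_left _ s1.hb)) (nY (w, z) (by simp [hw]))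
    have a5 : (0 : ℤ) ≤ if k ∈ K (w, z) then 1 else 0 := by split_ifs <;> simp
    rw [z2] at this ⊢
    omega
  have a3 := sum_mem_le (I := S1.image μ) (P := fun w => K (w, z))
    (fun r _ r' _ h => o4 _ _ (by simpa using h)) k
  have a4 : (if k ∈ O then (1 : ℤ) else 0) +
      (if k ∈ (S1.image μ).biUnion (fun w => K (w, z)) then 1 else 0) ≤ 1 := by
    split_ifs with h1 h2
    · obtain ⟨w, -, h2⟩ := mem_biUnion.mp h2
      exact absurd h2 (disjoint_left.mp (o3 _) h1)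
    all_goals simp
  rw [sum_add_distrib] at a2
  rw [if_neg (disjoint_right.mp o1 (mem_union_left _ s1.hb)), card_singleton]
  dsimp only at a1 ⊢
  omega

theorem Cx4.T3 (cx : Cx4 G N Y) {S1 S2 : Finset V} {k1 k2 : V} {M1 M2 : Finset E}
    (d1 : Dbl G Y S1 k1) (d2 : Dbl G Y S2 k2) (far : FarG G S1 S2) (h1 : ∀ a ∈ S1, Adj G a k1)
    (h2 : ∀ a ∈ S2, Adj G a k2) (c1 : S1.card = 2) (c2 : S2.card = 2) (f1 : Fz G S1 = 2)
    (f2 : Fz G S2 = 2) {v : V} (hv : v ∈ S2) (kv : Adj G k1 v) : Tab G N S1 S2 M1 M2 := by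
  refine cx.tab_of d1 d2 far fun I P μ ν fam O K o1 o2 o3 o4 o5 nY => ?_
  obtain ⟨a, ha⟩ := d1.ne
  obtain ⟨w, w1, w2⟩ := one_grp (S1 := S1) (fam.cov k1 (cx.hY d1.hk) (fun h => (h1 k1 h).ne rfl)
    (fun h => far.na a ha k1 h (h1 a ha))) fam.t1 d1.ne h1
  obtain ⟨z, z1, z2⟩ := one_grp (S1 := S1) (fam.cov k2 (cx.hY d2.hk)
    (fun h => far.na k2 h v hv (h2 v hv).symm) fun h => (h2 k2 h).ne rfl) fam.t2 d2.ne h2
  rw [z1, w1] at nY ⊢
  have nY' := nY (w, z) (by simp)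
  rw [singleton_product_singleton, sum_singleton, card_singleton, card_singleton,
    if_neg (fun h => o5 k1 h a ha v hv (h1 a ha) kv.symm)]
  dsimp only at nY' ⊢
  rw [w2, z2] at nY' ⊢
  have a1 := far.F
  by_cases c : k2 ∈ O
  · have := cx.val d2 d1 far.symm Subset.rfl Subset.rfl d2.ne d1.ne (K := K (w, z))
      (union_comm S1 S2 ▸ o2 _) (disjoint_left.mp (o3 _) c) (union_comm S1 S2 ▸ nY')
    rw [union_comm S2 S1] at this
    rw [if_pos c]
    split_ifs at this <;> omega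
  rw [if_neg c]
  have a2 := card_union_of_disjoint (o2 (w, z))
  have a3 := card_union_of_disjoint far.dj
  have a4 := cx.f4 (K (w, z) ∪ (S1 ∪ S2))
  by_cases c0 : K (w, z) = ∅
  · rw [c0, empty_union]
    omega
  by_cases c1' : (K (w, z)).card = 1
  · obtain ⟨x, e⟩ := card_eq_one.mp c1'
    have := dg_le_card (G := G) x (S1 ∪ S2)
    rw [e, ← insert_eq, F_insert cx.gi.np (disjoint_left.mp (o2 (w, z)) (by simp [e]))]
    omega
  have := card_pos.mpr (nonempty_iff_ne_empty.mpr c0)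
  omega

def AY (G : MG V E) (Y : Finset V) (a b : V) : Prop := a ∈ Y ∧ b ∈ Y ∧ Adj G a b

def No5 (G : MG V E) (Y : Finset V) : Prop :=
  ∀ a b c d e, a ∈ Y → Adj G a b → Adj G b c → Adj G c d → Adj G d e → Adj G e a → False

theorem Star.dbl (cx : Cx4 G N Y) (n5 : No5 G Y) {S : Finset V} {M : Finset E} {b c : V}
    (h : Star G S M b c) (hS : S ⊆ Y) : Dbl G Y S b := by
  have f := h.sub cx.gi.np Subset.rfl h.hb h.hc
  have c4 := h.c4
  obtain ⟨e, -, he⟩ := h.ed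
  have bc : Adj G b c := ⟨h.bc, e, he⟩
  refine ⟨hS, ⟨b, h.hb⟩, hS h.hb, by omega, by omega, fun x hx _ => dg_le_one ?_,
    fun a => absurd h.hb a⟩
  have xb : x ≠ b := fun a => hx (a ▸ h.hb)
  have xc : x ≠ c := fun a => hx (a ▸ h.hc)
  intro u hu v hv a1 a2
  by_contra uv
  rcases h.st u hu with rfl | rfl | c1 | c1 <;> rcases h.st v hv with rfl | rfl | c2 | c2
  · exact uv rfl
  · exact cx.gi.tri a1 bc a2.symm
  · exact cx.gi.tri a1 c2.symm a2.symm
  · exact uv (cx.gi.quad a1 bc c2.symm a2.symm xc)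
  · exact cx.gi.tri a2 bc a1.symm
  · exact uv rfl
  · exact uv (cx.gi.quad a1 bc.symm c2.symm a2.symm xb)
  · exact cx.gi.tri a1 c2.symm a2.symm
  · exact cx.gi.tri a1 c1 a2.symm
  · exact uv (cx.gi.quad a1 c1 bc a2.symm xb)
  · exact uv (cx.gi.quad a1 c1 c2.symm a2.symm xb)
  · exact n5 b c v x u (hS h.hb) bc c2.symm a2.symm a1 c1
  · exact uv (cx.gi.quad a1 c1 bc.symm a2.symm xc)
  · exact cx.gi.tri a1 c1 a2.symm
  · exact n5 b c u x v (hS h.hb) bc c1.symm a1.symm a2 c2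
  · exact uv (cx.gi.quad a1 c1 c2.symm a2.symm xc)

theorem safe_data (gi : Gi G) {S : Finset V} (h : Safe (AY G Y) (fun v => Even (G.d {v})) S) :
    ∃ M b c, S ⊆ Y ∧ Star G S M b c ∧ M ⊆ eset G S ∧
      ∀ v ∈ S, G.df (ind M) v = (G.d {v} : ZMod 2) := by
  have ev : ∀ n : ℕ, Even n → (n : ZMod 2) = 0 := fun n h => ZMod.natCast_eq_zero_iff_even.mpr h
  have od : ∀ n : ℕ, ¬ Even n → (n : ZMod 2) = 1 := fun n h =>
    ZMod.natCast_eq_one_iff_odd.mpr (Nat.not_even_iff_odd.mp h)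
  rcases h with ⟨u, v, ⟨h1, h2, h3, e, he⟩, e1, e2, rfl⟩ |
    ⟨u, a, b, ⟨h1, h2, h3, e, he⟩, ⟨-, h4, h5, g, hg⟩, ub, e1, e2, e3, rfl⟩ |
    ⟨a, b, c, d, nc, e1, e2, e3, e4, rfl⟩
  · refine ⟨∅, u, v, by simp [insert_subset_iff, h1, h2], ⟨by simp, by simp,
      card_le_two.trans (by omega), fun x hx => ?_, h3, e, by simp, he⟩, empty_subset _, fun x hx => ?_⟩
    · simp only [mem_insert, mem_singleton] at hx
      tauto
    · rw [df_ind_empty]
      simp only [mem_insert, mem_singleton] at hx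
      rcases hx with rfl | rfl
      · exact (ev _ e1).symm
      · exact (ev _ e2).symm
  · refine ⟨{g}, u, a, by simp [insert_subset_iff, h1, h2, h4], ⟨by simp, by simp,
      card_le_three.trans (by omega), fun x hx => ?_, h3, e, ?_, he⟩,
      by simp [mem_eset_j hg h5], fun x hx => ?_⟩
    · simp only [mem_insert, mem_singleton] at hx
      rcases hx with rfl | rfl | rfl
      · simp
      · simp
      · exact Or.inr (Or.inr (Or.inr ⟨h5.symm, g, hg.symm⟩))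
    · simpa using he.ne_edge hg h3 ub
    · rw [df_ind_single hg]
      simp only [mem_insert, mem_singleton] at hx
      rcases hx with rfl | rfl | rfl
      · simp [h3, ub, ev _ e1]
      · simp [h5, od _ e2]
      · simp [h5.symm, od _ e3]
  · obtain ⟨⟨h1, h2, hab, e, j1⟩, ⟨-, h3, hbc, f, j2⟩, ⟨-, h4, hcd, g, j3⟩, hac, hbd, -⟩ := nc
    have had : a ≠ d := fun k => gi.tri ⟨hab, e, j1⟩ ⟨hbc, f, j2⟩ (k ▸ ⟨hcd, g, j3⟩)
    have heg : e ≠ g := j1.ne_edge j3 hac had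
    refine ⟨{e, g}, b, c, by simp [insert_subset_iff, h1, h2, h3, h4], ⟨by simp, by simp,
      card_le_four, fun x hx => ?_, hbc, f, ?_, j2⟩,
      by simp [insert_subset_iff, mem_eset_j j1 hab, mem_eset_j j3 hcd], fun x hx => ?_⟩
    · simp only [mem_insert, mem_singleton] at hx
      rcases hx with rfl | rfl | rfl | rfl
      · exact Or.inr (Or.inr (Or.inl ⟨hab, e, j1⟩))
      · simp
      · simp
      · exact Or.inr (Or.inr (Or.inr ⟨hcd.symm, g, j3.symm⟩))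
    · simpa using ⟨(j1.ne_edge j2 hab hac).symm, j2.ne_edge j3 hbc hbd⟩
    · have : ind ({e, g} : Finset E) = fun z => ind {e} z + ind {g} z := by
        funext z
        by_cases z1 : z = e
        · simp [ind, z1, heg]
        · simp [ind, z1]
      rw [this, df_add, df_ind_single j1, df_ind_single j3]
      simp only [mem_insert, mem_singleton] at hx
      rcases hx with rfl | rfl | rfl | rfl
      · simp [hab, hac, had, od _ e1]
      · simp [hab.symm, hbc, hbd, od _ e2]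
      · simp [hac.symm, hbc.symm, hcd, od _ e3]
      · simp [had.symm, hbd.symm, hcd.symm, od _ e4]

theorem c_data (gi : Gi G) {S : Finset V} {k : V} (h : IsC (AY G Y) (fun v => Even (G.d {v})) S k) :
    Dbl G Y S k ∧ (∀ a ∈ S, Adj G a k) ∧ S.card = 2 ∧ Fz G S = 2 ∧
      ∀ v ∈ S, G.df (ind ∅) v = (G.d {v} : ZMod 2) := by
  obtain ⟨u, v, ⟨h1, h2, h3⟩, ⟨-, h4, h5⟩, uv, e1, e2, rfl⟩ := h
  have f : Fz G {u, v} = 2 := by
    rw [F_insert gi.np (by simp [uv]), (gi.F_small {v}).1 (by simp),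
      dg_eq_zero.mpr (by simpa using fun a => gi.tri h3 h5 a.symm)]
    simp
  refine ⟨⟨by simp [insert_subset_iff, h1, h4], by simp, h2, by omega, by omega,
    fun x _ xk => dg_le_one fun a ha b hb a1 a2 => ?_, fun _ => card_le_two⟩, by simp [h3, h5.symm],
    card_pair uv, f, fun x hx => ?_⟩
  · simp only [mem_insert, mem_singleton] at ha hb
    rcases ha with rfl | rfl <;> rcases hb with rfl | rfl
    · rfl
    · exact absurd (gi.quad h3 h5 a2.symm a1 uv).symm xk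
    · exact absurd (gi.quad h3 h5 a1.symm a2 uv).symm xk
    · rfl
  · rw [df_ind_empty]
    simp only [mem_insert, mem_singleton] at hx
    rcases hx with rfl | rfl
    · exact (ZMod.natCast_eq_zero_iff_even.mpr e1).symm
    · exact (ZMod.natCast_eq_zero_iff_even.mpr e2).symm

theorem farG_of {S T : Finset V} (h : Far (AY G Y) S T) (h1 : S ⊆ Y) (h2 : T ⊆ Y) : FarG G S T :=
  ⟨disjoint_left.mpr fun a ha hb => (h a ha a hb).1 rfl,
    fun a ha b hb c => (h a ha b hb).2 ⟨h1 ha, h2 hb, c⟩⟩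

theorem Cx4.col_of_good (cx : Cx4 G N Y) (n5 : No5 G Y)
    (h : GoodP (AY G Y) (fun v => Even (G.d {v}))) : G.Col := by
  obtain ⟨S, T, far, ⟨h1, h2 | ⟨k, h2⟩⟩ | ⟨k, k', h1, h2, v, hv, kv⟩⟩ := h
  · obtain ⟨M, b, c, a1, a2, a3, a4⟩ := safe_data cx.gi h1
    obtain ⟨M', b', c', b1, b2, b3, b4⟩ := safe_data cx.gi h2
    have f := farG_of far a1 b1
    exact col_of_tab cx.hN cx.tot (a1.trans cx.hY) (b1.trans cx.hY) f a3 b3 ⟨b, a2.hb⟩ ⟨b', b2.hb⟩
      a4 b4 (cx.T1 (a2.dbl cx n5 a1) (b2.dbl cx n5 b1) f a2 b2)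
  · obtain ⟨M, b, c, a1, a2, a3, a4⟩ := safe_data cx.gi h1
    obtain ⟨b1, b2, b3, b4, b5⟩ := c_data cx.gi h2
    have f := farG_of far a1 b1.hS
    exact col_of_tab cx.hN cx.tot (a1.trans cx.hY) (b1.hS.trans cx.hY) f a3 (empty_subset _)
      ⟨b, a2.hb⟩ b1.ne a4 b5 (cx.T2 (a2.dbl cx n5 a1) b1 f a2 b2 b4)
  · obtain ⟨a1, a2, a3, a4, a5⟩ := c_data cx.gi h1
    obtain ⟨b1, b2, b3, b4, b5⟩ := c_data cx.gi h2
    have f := farG_of far a1.hS b1.hS
    exact col_of_tab cx.hN cx.tot (a1.hS.trans cx.hY) (b1.hS.trans cx.hY) f (empty_subset _)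
      (empty_subset _) a1.ne b1.ne a5 b5 (cx.T3 a1 b1 f a2 b2 a3 b3 a4 b4 hv kv.2.2)

end

end Pool.Agent.Lib.CF64
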