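import Pool.Agent.Lib.CF64.Pack

set_option linter.unusedSectionVars false
set_option linter.unusedVariables false
set_option linter.unusedSimpArgs false

namespace Pool.Agent.Lib.CF64

open Finset Pool.Agent.Lib.MP_aa6b05_co Pool.Agent.Lib.MP_aa6b05_co.MG

open scoped Classical

noncomputable section

variable {V E : Type} [Fintype V] [Fintype E] {G : MG V E}

structure Sp (G : MG V E) (N : Finset V) (f : ℕ) : Prop where
  gi : Gi G
  hN : ∀ e, G.s e ≠ G.t e → G.s e ∈ N ∧ G.t e ∈ N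
  tot : Fz G N = f
  sp : ∀ Z ⊆ N, Z ≠ N → 6 ≤ Z.card → (f : ℤ) + 1 ≤ Fz G Z
  deg : ∀ v ∈ N, 3 ≤ dg G v N
  f2 : 2 ≤ f
  f3 : f ≤ 3

variable {N : Finset V} {f : ℕ}

theorem Sp.ten (h : Sp G N f) : 10 ≤ N.card := by
  have hne : N.Nonempty := by
    rw [nonempty_iff_ne_empty]
    rintro rfl
    have := h.tot
    simp [Fz, ein_empty] at this
  obtain ⟨v, hv⟩ := hne
  have := h.gi.moore' hv 3 h.deg
  have := h.deg v hv
  omega

theorem Sp.adj_mem (h : Sp G N f) {a b : V} (hab : Adj G a b) : b ∈ N := by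
  obtain ⟨hne, e, hj⟩ := hab
  have := h.hN e (hj.ne hne)
  rcases hj with ⟨h1, h2⟩ | ⟨h1, h2⟩
  · exact h2 ▸ this.2
  · exact h1 ▸ this.1

theorem Sp.F_ge (h : Sp G N f) {Z : Finset V} (hZ : Z ⊆ N) :
    (1 ≤ Z.card → 0 ≤ Fz G Z) ∧ (2 ≤ Z.card → 1 ≤ Fz G Z) ∧ (3 ≤ Z.card → 2 ≤ Fz G Z) ∧
    (4 ≤ Z.card → (f : ℤ) ≤ Fz G Z) ∧ (4 ≤ Z.card → Z ≠ N → 3 ≤ Fz G Z) ∧
    (6 ≤ Z.card → Z ≠ N → (f : ℤ) + 1 ≤ Fz G Z) := by
  have h1 := h.gi.F_small Z
  have h2 := h.f2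
  have h3 := h.f3
  by_cases hN : Z = N
  · have := h.tot
    rw [← hN] at this
    simp only [hN, ne_eq, not_true, IsEmpty.forall_iff, implies_true, and_true] at *
    omega
  · have := h.sp Z hZ hN
    simp only [hN, ne_eq, not_false_iff, forall_true_left] at *
    omega

def hh (G : MG V E) (B K : Finset V) : ℤ := Fz G (K ∪ B) - Fz G B - 1

def tch (G : MG V E) (K Z : Finset V) : ℤ := (ein G (K ∪ Z) : ℤ) - ein G Z

def base (G : MG V E) (M : Finset E) (B : Finset V) : ℤ :=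
  (B.card : ℤ) - 1 - ein G B + (M ∩ eset G B).card

theorem hh_eq {B K : Finset V} (h : Disjoint K B) : hh G B K = 2 * (K.card : ℤ) - 1 - tch G K B := by
  unfold hh tch Fz
  rw [card_union_of_disjoint h]
  push_cast
  ring

theorem tch_insert (np : G.NoPar) {K Z : Finset V} {a : V} (h : Disjoint K Z) (hK : a ∉ K)
    (hZ : a ∉ Z) : tch G K (insert a Z) = tch G K Z + dg G a K := by
  unfold tch
  rw [union_insert, ein_insert np (by simp [hK, hZ]), ein_insert np hZ, dg_union a h]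
  push_cast
  ring

theorem sum_tch_le (Z : Finset V) (P : V → Finset V) (I : Finset V)
    (hd : ∀ r ∈ I, ∀ r' ∈ I, r ≠ r' → Disjoint (P r) (P r')) :
    ∑ r ∈ I, tch G (P r) Z ≤ (ein G (I.biUnion P ∪ Z) : ℤ) - ein G Z := by
  induction I using Finset.induction_on with
  | empty => simp
  | insert a I ha ih =>
    rw [sum_insert ha, biUnion_insert]
    have h1 := ih (fun r hr r' hr' => hd r (mem_insert_of_mem hr) r' (mem_insert_of_mem hr'))
    have h2 := ein_super (G := G) (P a ∪ Z) (I.biUnion P ∪ Z)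
    have h3 : (P a ∪ Z) ∪ (I.biUnion P ∪ Z) = P a ∪ I.biUnion P ∪ Z := by
      ext x; simp only [mem_union]; tauto
    have h4 : (P a ∪ Z) ∩ (I.biUnion P ∪ Z) = Z := by
      ext x
      simp only [mem_union, mem_inter, mem_biUnion]
      constructor
      · rintro ⟨h5 | h5, ⟨r, hr, h6⟩ | h6⟩
        · exact absurd h6 (disjoint_left.mp (hd a (mem_insert_self _ _) r (mem_insert_of_mem hr)
            (fun h => ha (h ▸ hr))) h5)
        all_goals assumption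
      · tauto
    rw [h3, h4] at h2
    unfold tch at *
    omega

theorem merge_bound {B A : Finset V} (P : V → Finset V) (I : Finset V)
    (hd : ∀ r ∈ I, ∀ r' ∈ I, r ≠ r' → Disjoint (P r) (P r')) (hAB : Disjoint A B)
    (hA : ∀ r ∈ I, Disjoint (P r) A) (hB : ∀ r ∈ I, Disjoint (P r) B) :
    hh G B (A ∪ I.biUnion P) + 1 - 2 * (A.card : ℤ) + ein G A ≤
      ∑ r ∈ I, (2 * ((P r).card : ℤ) - tch G (P r) (A ∪ B)) := by
  have d1 : Disjoint A (I.biUnion P) := by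
    rw [disjoint_biUnion_right]
    exact fun r hr => (hA r hr).symm
  have d2 : Disjoint (A ∪ I.biUnion P) B := by
    rw [disjoint_union_left, disjoint_biUnion_left]
    exact ⟨hAB, hB⟩
  rw [hh_eq d2, sum_sub_distrib, ← mul_sum, card_union_of_disjoint d1, card_biUnion hd]
  have h1 := sum_tch_le (G := G) (A ∪ B) P I hd
  have h2 := ein_super (G := G) A B
  have h3 : I.biUnion P ∪ (A ∪ B) = A ∪ I.biUnion P ∪ B := by
    ext x; simp only [mem_union]; tauto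
  rw [h3] at h1
  rw [disjoint_iff_inter_eq_empty.mp hAB, ein_empty] at h2
  unfold tch at *
  push_cast
  omega

structure GoodB (G : MG V E) (W : Finset V) (b : ℤ) (pB : Prop) (B : Finset V) : Prop where
  g1 : ∀ K ⊆ W, K.Nonempty → -1 ≤ hh G B K
  g2 : ∀ K ⊆ W, ∀ K' ⊆ W, K.Nonempty → K'.Nonempty → Disjoint K K' → hh G B K < 0 → 0 ≤ hh G B K'
  g3 : 0 ≤ b
  g3' : ∀ K ⊆ W, K.Nonempty → hh G B K < 0 → 1 ≤ b
  g4 : ∀ K1 ⊆ W, 5 ≤ K1.card → 1 ≤ b + hh G B K1 ∧ (¬ pB → 2 ≤ b + hh G B K1)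
  g4' : ∀ K1 ⊆ W, 5 ≤ K1.card → ∀ K ⊆ W, K.Nonempty → Disjoint K1 K → hh G B K < 0 →
    2 ≤ b + hh G B K1 ∧ (¬ pB → 3 ≤ b + hh G B K1)
  g6 : ∀ K1 ⊆ W, 5 ≤ K1.card → ∀ K2 ⊆ W, 5 ≤ K2.card → Disjoint K1 K2 →
    2 ≤ b + hh G B K1 + hh G B K2
  g6' : ∀ K1 ⊆ W, 5 ≤ K1.card → ∀ K2 ⊆ W, 5 ≤ K2.card → Disjoint K1 K2 →
    ∀ K ⊆ W, K.Nonempty → Disjoint K1 K → Disjoint K2 K → hh G B K < 0 →
    3 ≤ b + hh G B K1 + hh G B K2

def GoodF (G : MG V E) (W : Finset V) (b : ℤ) (pB : Prop) (B : Finset V) : Prop :=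
  ∀ (I : Finset V) (P : V → Finset V), (∀ r ∈ I, P r ⊆ W ∧ (P r).Nonempty) →
    (∀ r ∈ I, ∀ r' ∈ I, r ≠ r' → Disjoint (P r) (P r')) →
    ((B.Nonempty ∨ I.Nonempty) → 0 ≤ b + ∑ r ∈ I, hh G B (P r)) ∧
    (∀ K1 ⊆ W, 5 ≤ K1.card → (∀ r ∈ I, Disjoint K1 (P r)) →
      1 ≤ b + hh G B K1 + ∑ r ∈ I, hh G B (P r) ∧
      (¬ pB → 2 ≤ b + hh G B K1 + ∑ r ∈ I, hh G B (P r))) ∧
    (∀ K1 ⊆ W, 5 ≤ K1.card → ∀ K2 ⊆ W, 5 ≤ K2.card → Disjoint K1 K2 →
      (∀ r ∈ I, Disjoint K1 (P r)) → (∀ r ∈ I, Disjoint K2 (P r)) →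
      2 ≤ b + hh G B K1 + hh G B K2 + ∑ r ∈ I, hh G B (P r))

theorem GoodB.goodF {W B : Finset V} {b : ℤ} {pB : Prop} (h : GoodB G W b pB B) :
    GoodF G W b pB B := by
  intro I P hP hd
  have key : 0 ≤ ∑ r ∈ I, hh G B (P r) ∨
      (-1 ≤ ∑ r ∈ I, hh G B (P r) ∧ ∃ r ∈ I, hh G B (P r) < 0) := by
    by_cases h0 : ∃ r ∈ I, hh G B (P r) < 0
    · right
      refine ⟨?_, h0⟩
      obtain ⟨r, hr, h1⟩ := h0
      rw [← add_sum_erase _ _ hr]
      have h2 := h.g1 _ (hP r hr).1 (hP r hr).2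
      have h3 : 0 ≤ ∑ x ∈ I.erase r, hh G B (P x) := by
        apply sum_nonneg
        intro x hx
        obtain ⟨h4, h5⟩ := mem_erase.mp hx
        exact h.g2 _ (hP r hr).1 _ (hP x h5).1 (hP r hr).2 (hP x h5).2 (hd r hr x h5 h4.symm) h1
      omega
    · left
      push Not at h0
      exact sum_nonneg h0
  refine ⟨fun _ => ?_, fun K1 h1 h2 h3 => ?_, fun K1 h1 h2 K2 h3 h4 h5 h6 h7 => ?_⟩
  · rcases key with k | ⟨k, r, hr, k'⟩
    · have := h.g3
      omega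
    · have := h.g3' _ (hP r hr).1 (hP r hr).2 k'
      omega
  · rcases key with k | ⟨k, r, hr, k'⟩
    · have := h.g4 K1 h1 h2
      exact ⟨by omega, fun hp => by have := this.2 hp; omega⟩
    · have := h.g4' K1 h1 h2 _ (hP r hr).1 (hP r hr).2 (h3 r hr) k'
      exact ⟨by omega, fun hp => by have := this.2 hp; omega⟩
  · rcases key with k | ⟨k, r, hr, k'⟩
    · have := h.g6 K1 h1 h2 K2 h3 h4 h5
      omega
    · have := h.g6' K1 h1 h2 K2 h3 h4 h5 _ (hP r hr).1 (hP r hr).2 (h6 r hr) (h7 r hr) k'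
      omega

theorem goodF_empty (h : Sp G N f) {W : Finset V} (hW : W ⊆ N) (pB : Prop) :
    GoodF G W (-1) pB ∅ := by
  intro I P hP hd
  have e : ∀ K, hh G ∅ K = Fz G K + 1 := by
    intro K
    simp only [hh, union_empty, Fz, ein_empty, card_empty]
    push_cast
    ring
  have h1 : ∀ r ∈ I, 1 ≤ hh G ∅ (P r) := by
    intro r hr
    have := (h.F_ge ((hP r hr).1.trans hW)).1 (card_pos.mpr (hP r hr).2)
    rw [e]
    omega
  have h0 : 0 ≤ ∑ r ∈ I, hh G ∅ (P r) := sum_nonneg fun r hr => by have := h1 r hr; omega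
  have h2 : ∀ K ⊆ W, 5 ≤ K.card → 3 ≤ hh G ∅ K := by
    intro K hK h5
    have := (h.F_ge (hK.trans hW)).2.2.1 (by omega)
    rw [e]
    omega
  refine ⟨fun hI => ?_, fun K1 a1 a2 a3 => ?_, fun K1 a1 a2 K2 a3 a4 a5 a6 a7 => ?_⟩
  · obtain ⟨r, hr⟩ := hI.resolve_left (by simp)
    have := single_le_sum (f := fun r => hh G ∅ (P r)) (fun r hr => by have := h1 r hr; omega) hr
    have := h1 r hr
    omega
  · have := h2 K1 a1 a2
    exact ⟨by omega, fun _ => by omega⟩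
  · have := h2 K1 a1 a2
    have := h2 K2 a3 a4
    omega

/-- every vertex of a part with at least two vertices has a neighbour in the part -/
def Nb (G : MG V E) (K : Finset V) : Prop := ∀ v ∈ K, ∀ w ∈ K, v ≠ w → ∃ x ∈ K, Adj G v x

theorem big_V (gi : Gi G) {K : Finset V} {u : V} (hK : Nb G K) (hu : u ∉ K) (h : 2 ≤ dg G u K) :
    4 ≤ K.card := by
  obtain ⟨a, ha, b, hb, h1, h2, h3⟩ := one_lt_dg.mp (show 1 < dg G u K by omega)
  obtain ⟨x, hx, h4⟩ := hK a ha b hb h3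
  obtain ⟨y, hy, h5⟩ := hK b hb a ha h3.symm
  have n1 : x ≠ b := fun h => gi.tri h1 (h ▸ h4) h2.symm
  have n2 : y ≠ a := fun h => gi.tri h2 (h ▸ h5) h1.symm
  have n3 : x ≠ y := fun h => hu (by
    have := gi.quad h4 (h ▸ h5.symm) h2.symm h1 h3
    exact this ▸ hx)
  have : ({a, b, x, y} : Finset V).card = 4 := by
    rw [card_insert_of_notMem, card_insert_of_notMem, card_pair n3]
    · simp [n1.symm, h5.ne]
    · simp [h3, h4.ne, n2.symm]
  rw [← this]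
  apply card_le_card
  intro z hz
  simp only [mem_insert, mem_singleton] at hz
  rcases hz with rfl | rfl | rfl | rfl <;> assumption

theorem big_E (gi : Gi G) {K : Finset V} {a b : V} (hK : Nb G K) (hab : Adj G a b) (ha : a ∉ K)
    (hb : b ∉ K) (h1 : 0 < dg G a K) (h2 : 0 < dg G b K) : 3 ≤ K.card := by
  obtain ⟨x, hx, h3⟩ := dg_pos.mp h1
  obtain ⟨y, hy, h4⟩ := dg_pos.mp h2
  have n1 : x ≠ y := fun h => gi.tri hab h4 (h ▸ h3.symm)
  obtain ⟨z, hz, h5⟩ := hK x hx y hy n1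
  have n2 : z ≠ y := fun h => hb (by
    have := gi.quad hab h4 (h ▸ h5.symm) h3.symm (fun h => ha (h ▸ hy))
    exact this ▸ hx)
  have : ({x, y, z} : Finset V).card = 3 := by
    rw [card_insert_of_notMem, card_pair n2.symm]
    simp [n1, h5.ne]
  rw [← this]
  apply card_le_card
  intro z hz
  simp only [mem_insert, mem_singleton] at hz
  rcases hz with rfl | rfl | rfl <;> assumption

theorem ein_pair (np : G.NoPar) {a b : V} (h : Adj G a b) : ein G {a, b} = 1 := by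
  rw [ein_insert np (by simp [h.ne]), ein_single]
  unfold dg
  rw [filter_singleton, if_pos h]
  simp

theorem star_facts {W A : Finset V} (P : V → Finset V) (I J : Finset V) (hA : A ⊆ W)
    (hP : ∀ r ∈ I, P r ⊆ W) (hA' : ∀ r ∈ I, Disjoint (P r) A)
    (hd : ∀ r ∈ I, ∀ r' ∈ I, r ≠ r' → Disjoint (P r) (P r')) (hJ : J ⊆ I) :
    A ∪ J.biUnion P ⊆ W ∧ (∀ r ∈ J, A.card + (P r).card ≤ (A ∪ J.biUnion P).card) ∧
      ∀ r ∈ I, r ∉ J → Disjoint (A ∪ J.biUnion P) (P r) := by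
  refine ⟨union_subset hA (biUnion_subset.mpr fun r hr => hP r (hJ hr)), fun r hr => ?_,
    fun r hr h => ?_⟩
  · rw [← card_union_of_disjoint (hA' r (hJ hr)).symm]
    exact card_le_card (union_subset_union Subset.rfl (subset_biUnion_of_mem P hr))
  · rw [disjoint_union_left, disjoint_biUnion_left]
    exact ⟨(hA' r hr).symm, fun x hx => hd x (hJ hx) r hr (fun e => h (e ▸ hx))⟩

theorem class_V (gi : Gi G) {W B : Finset V} {b : ℤ} {pB : Prop} (hg : GoodF G W b pB B)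
    (hWB : Disjoint W B) {u : V} (hu : u ∈ W) (I : Finset V) (P : V → Finset V)
    (hP : ∀ r ∈ I, P r ⊆ W ∧ (P r).Nonempty ∧ u ∉ P r ∧ Nb G (P r))
    (hd : ∀ r ∈ I, ∀ r' ∈ I, r ≠ r' → Disjoint (P r) (P r')) (hne : B.Nonempty ∨ I.Nonempty) :
    0 ≤ b + ∑ r ∈ I, (2 * ((P r).card : ℤ) - tch G (P r) ({u} ∪ B) -
      if dg G u (P r) = 0 then 1 else 0) := by
  have uB : u ∉ B := disjoint_left.mp hWB hu
  have dB : ∀ r ∈ I, Disjoint (P r) B := fun r hr => hWB.mono_left (hP r hr).1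
  rw [← sum_filter_add_sum_filter_not I (fun r => 2 ≤ dg G u (P r))]
  set I1 := I.filter (fun r => 2 ≤ dg G u (P r)) with hI1
  set I0 := I.filter (fun r => ¬ 2 ≤ dg G u (P r)) with hI0
  have s1 : I1 ⊆ I := filter_subset _ _
  have s0 : I0 ⊆ I := filter_subset _ _
  have e0 : ∑ r ∈ I0, (2 * ((P r).card : ℤ) - tch G (P r) ({u} ∪ B) -
      if dg G u (P r) = 0 then 1 else 0) = ∑ r ∈ I0, hh G B (P r) := by
    apply sum_congr rfl
    intro r hr
    have := (mem_filter.mp hr).2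
    rw [hh_eq (dB r (s0 hr)), ← insert_eq, tch_insert gi.np (dB r (s0 hr)) (hP r (s0 hr)).2.2.1 uB]
    split_ifs <;> omega
  have e1 : ∑ r ∈ I1, (2 * ((P r).card : ℤ) - tch G (P r) ({u} ∪ B) -
      if dg G u (P r) = 0 then 1 else 0) =
      ∑ r ∈ I1, (2 * ((P r).card : ℤ) - tch G (P r) ({u} ∪ B)) := by
    apply sum_congr rfl
    intro r hr
    have := (mem_filter.mp hr).2
    rw [if_neg (by omega), sub_zero]
  rw [e0, e1]
  have g := hg I0 P (fun r hr => ⟨(hP r (s0 hr)).1, (hP r (s0 hr)).2.1⟩)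
    (fun r hr r' hr' => hd r (s0 hr) r' (s0 hr'))
  rcases I1.eq_empty_or_nonempty with h | ⟨r, hr⟩
  · rw [h, sum_empty, zero_add]
    apply g.1
    refine hne.imp_right fun ⟨r, hr⟩ => ⟨r, mem_filter.mpr ⟨hr, fun h2 => ?_⟩⟩
    have : r ∈ I1 := mem_filter.mpr ⟨hr, h2⟩
    simp [h] at this
  · have dA : ∀ r ∈ I, Disjoint (P r) {u} := fun r hr => by simpa using (hP r hr).2.2.1
    obtain ⟨k1, k2, k3⟩ := star_facts P I I1 (A := {u}) (by simpa using hu)
      (fun r hr => (hP r hr).1) dA hd s1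
    have k4 := k2 r hr
    have k5 := big_V gi (hP r (s1 hr)).2.2.2 (hP r (s1 hr)).2.2.1 (mem_filter.mp hr).2
    rw [card_singleton] at k4
    have k6 := (g.2.1 _ k1 (by omega) (fun x hx => k3 x (s0 hx)
      (fun h => (mem_filter.mp hx).2 (mem_filter.mp h).2))).1
    have k7 := merge_bound (G := G) (A := {u}) (B := B) P I1 (fun r hr r' hr' => hd r (s1 hr) r' (s1 hr'))
      (by simpa using uB) (fun r hr => dA r (s1 hr)) (fun r hr => dB r (s1 hr))
    rw [card_singleton, ein_single] at k7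
    omega

theorem class_E (gi : Gi G) {W B : Finset V} {b : ℤ} {pB : Prop} (hg : GoodF G W b pB B)
    (hWB : Disjoint W B) {x y : V} (hx : x ∈ W) (hy : y ∈ W) (hxy : Adj G x y) (I : Finset V)
    (P : V → Finset V)
    (hP : ∀ r ∈ I, P r ⊆ W ∧ (P r).Nonempty ∧ (x ∉ P r ∧ y ∉ P r) ∧ Nb G (P r))
    (hd : ∀ r ∈ I, ∀ r' ∈ I, r ≠ r' → Disjoint (P r) (P r')) (hne : B.Nonempty ∨ I.Nonempty)
    (T : ℤ) (hT : T = b + ∑ r ∈ I, (2 * ((P r).card : ℤ) - tch G (P r) ({x, y} ∪ B) -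
      if dg G x (P r) + dg G y (P r) = 0 then 1 else 0)) :
    -1 ≤ T ∧ (¬ pB → 0 ≤ T) ∧ ((∀ r ∈ I, dg G x (P r) = 0 ∨ dg G y (P r) = 0) → 0 ≤ T) := by
  have xB : x ∉ B := disjoint_left.mp hWB hx
  have yB : y ∉ B := disjoint_left.mp hWB hy
  have dB : ∀ r ∈ I, Disjoint (P r) B := fun r hr => hWB.mono_left (hP r hr).1
  have t1 : ∀ r ∈ I, tch G (P r) ({x} ∪ B) = tch G (P r) B + dg G x (P r) := fun r hr => by
    rw [← insert_eq, tch_insert gi.np (dB r hr) (hP r hr).2.2.1.1 xB]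
  have t2 : ∀ r ∈ I, tch G (P r) ({y} ∪ B) = tch G (P r) B + dg G y (P r) := fun r hr => by
    rw [← insert_eq, tch_insert gi.np (dB r hr) (hP r hr).2.2.1.2 yB]
  have t3 : ∀ r ∈ I, tch G (P r) ({x, y} ∪ B) = tch G (P r) B + dg G x (P r) + dg G y (P r) := by
    intro r hr
    rw [insert_union, tch_insert gi.np _ (hP r hr).2.2.1.1 (by simp [xB, hxy.ne]), t2 r hr]
    · ring
    · rw [disjoint_union_right]
      exact ⟨by simpa using (hP r hr).2.2.1.2, dB r hr⟩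
  have part1 : -1 ≤ T ∧ (¬ pB → 0 ≤ T) := by
    rw [← sum_filter_add_sum_filter_not I (fun r => 2 ≤ dg G x (P r) + dg G y (P r))] at hT
    set I1 := I.filter (fun r => 2 ≤ dg G x (P r) + dg G y (P r)) with hI1
    set I0 := I.filter (fun r => ¬ 2 ≤ dg G x (P r) + dg G y (P r)) with hI0
    have s1 : I1 ⊆ I := filter_subset _ _
    have s0 : I0 ⊆ I := filter_subset _ _
    have e0 : ∑ r ∈ I0, (2 * ((P r).card : ℤ) - tch G (P r) ({x, y} ∪ B) -
        if dg G x (P r) + dg G y (P r) = 0 then 1 else 0) = ∑ r ∈ I0, hh G B (P r) := by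
      apply sum_congr rfl
      intro r hr
      have := (mem_filter.mp hr).2
      rw [hh_eq (dB r (s0 hr)), t3 r (s0 hr)]
      split_ifs <;> omega
    have e1 : ∑ r ∈ I1, (2 * ((P r).card : ℤ) - tch G (P r) ({x, y} ∪ B) -
        if dg G x (P r) + dg G y (P r) = 0 then 1 else 0) =
        ∑ r ∈ I1, (2 * ((P r).card : ℤ) - tch G (P r) ({x, y} ∪ B)) := by
      apply sum_congr rfl
      intro r hr
      have := (mem_filter.mp hr).2
      rw [if_neg (by omega), sub_zero]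
    rw [e0, e1] at hT
    have g := hg I0 P (fun r hr => ⟨(hP r (s0 hr)).1, (hP r (s0 hr)).2.1⟩)
      (fun r hr r' hr' => hd r (s0 hr) r' (s0 hr'))
    rcases I1.eq_empty_or_nonempty with h | ⟨r, hr⟩
    · rw [h, sum_empty, zero_add] at hT
      have : 0 ≤ T := by
        rw [hT]
        apply g.1
        refine hne.imp_right fun ⟨r, hr⟩ => ⟨r, mem_filter.mpr ⟨hr, fun h2 => ?_⟩⟩
        have : r ∈ I1 := mem_filter.mpr ⟨hr, h2⟩
        simp [h] at this
      exact ⟨by omega, fun _ => this⟩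
    · have dA : ∀ r ∈ I, Disjoint (P r) {x, y} := fun r hr => by simpa using (hP r hr).2.2.1
      obtain ⟨k1, k2, k3⟩ := star_facts P I I1 (A := {x, y}) (by simp [insert_subset_iff, hx, hy])
        (fun r hr => (hP r hr).1) dA hd s1
      have k4 := k2 r hr
      have k5 : 3 ≤ (P r).card := by
        have a0 := (mem_filter.mp hr).2
        obtain ⟨-, -, ⟨a1, a2⟩, a3⟩ := hP r (s1 hr)
        by_cases c1 : 2 ≤ dg G x (P r)
        · have := big_V gi a3 a1 c1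
          omega
        by_cases c2 : 2 ≤ dg G y (P r)
        · have := big_V gi a3 a2 c2
          omega
        exact big_E gi a3 hxy a1 a2 (by omega) (by omega)
      rw [card_pair hxy.ne] at k4
      have k6 := g.2.1 _ k1 (by omega) (fun x hx => k3 x (s0 hx)
        (fun h => (mem_filter.mp hx).2 (mem_filter.mp h).2))
      have k7 := merge_bound (G := G) (A := {x, y}) (B := B) P I1
        (fun r hr r' hr' => hd r (s1 hr) r' (s1 hr'))
        (by simp [xB, yB]) (fun r hr => dA r (s1 hr)) (fun r hr => dB r (s1 hr))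
      rw [card_pair hxy.ne, ein_pair gi.np hxy] at k7
      exact ⟨by omega, fun hp => by have := k6.2 hp; omega⟩
  refine ⟨part1.1, part1.2, fun h0 => ?_⟩
  by_cases c2 : ∀ r ∈ I, dg G y (P r) ≤ 1
  · have := class_V gi hg hWB hx I P
      (fun r hr => ⟨(hP r hr).1, (hP r hr).2.1, (hP r hr).2.2.1.1, (hP r hr).2.2.2⟩) hd hne
    rw [hT]
    convert this using 2
    apply sum_congr rfl
    intro r hr
    have := h0 r hr
    have := c2 r hr
    rw [t1 r hr, t3 r hr]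
    split_ifs <;> omega
  by_cases c1 : ∀ r ∈ I, dg G x (P r) ≤ 1
  · have := class_V gi hg hWB hy I P
      (fun r hr => ⟨(hP r hr).1, (hP r hr).2.1, (hP r hr).2.2.1.2, (hP r hr).2.2.2⟩) hd hne
    rw [hT]
    convert this using 2
    apply sum_congr rfl
    intro r hr
    have := h0 r hr
    have := c1 r hr
    rw [t2 r hr, t3 r hr]
    split_ifs <;> omega
  push Not at c1 c2
  obtain ⟨r1, hr1, c1⟩ := c1
  obtain ⟨r2, hr2, c2⟩ := c2
  rw [← sum_filter_add_sum_filter_not I (fun r => 2 ≤ dg G x (P r)),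
    ← sum_filter_add_sum_filter_not (I.filter (fun r => ¬ 2 ≤ dg G x (P r)))
      (fun r => 2 ≤ dg G y (P r))] at hT
  set I1 := I.filter (fun r => 2 ≤ dg G x (P r)) with hI1
  set I2 := (I.filter (fun r => ¬ 2 ≤ dg G x (P r))).filter (fun r => 2 ≤ dg G y (P r)) with hI2
  set I0 := (I.filter (fun r => ¬ 2 ≤ dg G x (P r))).filter (fun r => ¬ 2 ≤ dg G y (P r)) with hI0
  have m1 : ∀ r, r ∈ I1 ↔ r ∈ I ∧ 2 ≤ dg G x (P r) := fun r => mem_filter
  have m2 : ∀ r, r ∈ I2 ↔ (r ∈ I ∧ ¬ 2 ≤ dg G x (P r)) ∧ 2 ≤ dg G y (P r) := fun r => by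
    rw [hI2, mem_filter, mem_filter]
  have m0 : ∀ r, r ∈ I0 ↔ (r ∈ I ∧ ¬ 2 ≤ dg G x (P r)) ∧ ¬ 2 ≤ dg G y (P r) := fun r => by
    rw [hI0, mem_filter, mem_filter]
  have s1 : I1 ⊆ I := fun r hr => ((m1 r).mp hr).1
  have s2 : I2 ⊆ I := fun r hr => ((m2 r).mp hr).1.1
  have s0 : I0 ⊆ I := fun r hr => ((m0 r).mp hr).1.1
  have e0 : ∑ r ∈ I0, (2 * ((P r).card : ℤ) - tch G (P r) ({x, y} ∪ B) -
      if dg G x (P r) + dg G y (P r) = 0 then 1 else 0) = ∑ r ∈ I0, hh G B (P r) := by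
    apply sum_congr rfl
    intro r hr
    have := (m0 r).mp hr
    have := h0 r (s0 hr)
    rw [hh_eq (dB r (s0 hr)), t3 r (s0 hr)]
    split_ifs <;> omega
  have e1 : ∑ r ∈ I1, (2 * ((P r).card : ℤ) - tch G (P r) ({x, y} ∪ B) -
      if dg G x (P r) + dg G y (P r) = 0 then 1 else 0) =
      ∑ r ∈ I1, (2 * ((P r).card : ℤ) - tch G (P r) ({x} ∪ B)) := by
    apply sum_congr rfl
    intro r hr
    have := (m1 r).mp hr
    have := h0 r (s1 hr)
    rw [t1 r (s1 hr), t3 r (s1 hr), if_neg (by omega)]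
    omega
  have e2 : ∑ r ∈ I2, (2 * ((P r).card : ℤ) - tch G (P r) ({x, y} ∪ B) -
      if dg G x (P r) + dg G y (P r) = 0 then 1 else 0) =
      ∑ r ∈ I2, (2 * ((P r).card : ℤ) - tch G (P r) ({y} ∪ B)) := by
    apply sum_congr rfl
    intro r hr
    have := (m2 r).mp hr
    have := h0 r (s2 hr)
    rw [t2 r (s2 hr), t3 r (s2 hr), if_neg (by omega)]
    omega
  rw [e0, e1, e2] at hT
  have g := hg I0 P (fun r hr => ⟨(hP r (s0 hr)).1, (hP r (s0 hr)).2.1⟩)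
    (fun r hr r' hr' => hd r (s0 hr) r' (s0 hr'))
  have dA1 : ∀ r ∈ I, Disjoint (P r) {x} := fun r hr => by simpa using (hP r hr).2.2.1.1
  have dA2 : ∀ r ∈ I, Disjoint (P r) {y} := fun r hr => by simpa using (hP r hr).2.2.1.2
  obtain ⟨k1, k2, k3⟩ := star_facts P I I1 (A := {x}) (by simpa using hx)
    (fun r hr => (hP r hr).1) dA1 hd s1
  obtain ⟨l1, l2, l3⟩ := star_facts P I I2 (A := {y}) (by simpa using hy)
    (fun r hr => (hP r hr).1) dA2 hd s2
  have k4 := k2 r1 ((m1 r1).mpr ⟨hr1, c1⟩)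
  have l4 := l2 r2 ((m2 r2).mpr ⟨⟨hr2, by have := h0 r2 hr2; omega⟩, c2⟩)
  have k5 := big_V gi (hP r1 hr1).2.2.2 (hP r1 hr1).2.2.1.1 c1
  have l5 := big_V gi (hP r2 hr2).2.2.2 (hP r2 hr2).2.2.1.2 c2
  rw [card_singleton] at k4 l4
  have dd : Disjoint ({x} ∪ I1.biUnion P) ({y} ∪ I2.biUnion P) := by
    rw [disjoint_union_right, disjoint_biUnion_right]
    refine ⟨?_, fun r hr => k3 r (s2 hr) (fun h => ((m2 r).mp hr).1.2 ((m1 r).mp h).2)⟩
    rw [disjoint_union_left, disjoint_biUnion_left]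
    exact ⟨by simpa using hxy.ne, fun r hr => dA2 r (s1 hr)⟩
  have k6 := g.2.2 _ k1 (by omega) _ l1 (by omega) dd
    (fun r hr => k3 r (s0 hr) (fun h => ((m0 r).mp hr).1.2 ((m1 r).mp h).2))
    (fun r hr => l3 r (s0 hr) (fun h => ((m0 r).mp hr).2 ((m2 r).mp h).2))
  have k7 := merge_bound (G := G) (A := {x}) (B := B) P I1 (fun r hr r' hr' => hd r (s1 hr) r' (s1 hr'))
    (by simpa using xB) (fun r hr => dA1 r (s1 hr)) (fun r hr => dB r (s1 hr))
  have l7 := merge_bound (G := G) (A := {y}) (B := B) P I2 (fun r hr r' hr' => hd r (s2 hr) r' (s2 hr'))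
    (by simpa using yB) (fun r hr => dA2 r (s2 hr)) (fun r hr => dB r (s2 hr))
  rw [card_singleton, ein_single] at k7 l7
  omega

end

end Pool.Agent.Lib.CF64
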