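import Pool.Agent.Lib.CF64.Acc

set_option linter.unusedSectionVars false
set_option linter.unusedVariables false
set_option linter.unusedSimpArgs false

namespace Pool.Agent.Lib.CF64

open Finset Pool.Agent.Lib.MP_aa6b05_co Pool.Agent.Lib.MP_aa6b05_co.MG

open scoped Classical

noncomputable section

variable {V E : Type} [Fintype V] [Fintype E] {G : MG V E} {N : Finset V} {f : ℕ}
  {A1 B : Finset V} {M1 : Finset E} {p : V}

theorem Fz_sub (S T : Finset V) : Fz G (S ∪ T) + Fz G (S ∩ T) ≤ Fz G S + Fz G T := by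
  have h1 := ein_super (G := G) S T
  have h2 := card_union_add_card_inter S T
  unfold Fz
  omega

theorem dKB (hB : B ⊆ A1) {K : Finset V} (hK : K ⊆ N \ A1) : Disjoint K B :=
  disjoint_left.mpr fun v h1 h2 => (mem_sdiff.mp (hK h1)).2 (hB h2)

theorem hfacts (sp : Sp G N f) (h1 : A1 ⊆ N) (hB : B ⊆ A1) {K : Finset V} (hK : K ⊆ N \ A1) :
    (2 ≤ K.card + B.card → 1 ≤ Fz G (K ∪ B)) ∧ (3 ≤ K.card + B.card → 2 ≤ Fz G (K ∪ B)) ∧
    (4 ≤ K.card + B.card → (f : ℤ) ≤ Fz G (K ∪ B)) ∧ (K.card + B.card = 6 → 4 ≤ Fz G (K ∪ B)) ∧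
    (K ∪ B ≠ N → 6 ≤ K.card + B.card → (f : ℤ) + 1 ≤ Fz G (K ∪ B)) := by
  have a := sp.F_ge (Z := K ∪ B) (union_subset (hK.trans sdiff_subset) (hB.trans h1))
  have b := sp.gi.F_small (K ∪ B)
  rw [card_union_of_disjoint (dKB hB hK)] at a b
  exact ⟨a.2.1, a.2.2.1, a.2.2.2.1, b.2.2.2.2.2, fun x y => a.2.2.2.2.2 y x⟩

theorem proper_p (h1 : A1 ⊆ N) (hp : p ∈ A1) (hpB : p ∉ B) {K : Finset V} (hK : K ⊆ N \ A1) :
    K ∪ B ≠ N := by
  intro h
  have := h1 hp
  rw [← h, mem_union] at this
  exact this.elim (fun a => (mem_sdiff.mp (hK a)).2 hp) hpB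

theorem proper_d (hB : B ⊆ A1) {K K' : Finset V} (hK' : K' ⊆ N \ A1) (hne : K'.Nonempty)
    (hd : Disjoint K K') : K ∪ B ≠ N := by
  intro h
  obtain ⟨z, hz⟩ := hne
  have := (mem_sdiff.mp (hK' hz)).1
  rw [← h, mem_union] at this
  exact this.elim (disjoint_right.mp hd hz) (fun a => (mem_sdiff.mp (hK' hz)).2 (hB a))

theorem two_neg (hB : B ⊆ A1) {K K' : Finset V} (hd : Disjoint K K') :
    Fz G ((K ∪ K') ∪ B) + Fz G B ≤ Fz G (K ∪ B) + Fz G (K' ∪ B) := by
  have := Fz_sub (G := G) (K ∪ B) (K' ∪ B)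
  rwa [← union_union_distrib_right, ← inter_union_distrib_right, disjoint_iff_inter_eq_empty.mp hd,
    empty_union] at this

theorem goodB_tame (sp : Sp G N f) (h1 : A1 ⊆ N) (hB : B ⊆ A1) (hp : p ∈ A1) {b : ℤ}
    (sig : (B.card = 1 ∧ 0 ≤ b) ∨ (B.card = 2 ∧ Fz G B ≤ 1 ∧ 1 ≤ b) ∨
      (f = 3 ∧ B.card = 2 ∧ Fz G B ≤ 1 ∧ 0 ≤ b) ∨ (f = 3 ∧ B.card = 3 ∧ Fz G B ≤ 2 ∧ 1 ≤ b)) :
    GoodB G (N \ A1) b (p ∈ B) B := by
  have f2 := sp.f2
  have s := (sp.gi.F_small B).1
  have t0 : ∀ K ⊆ N \ A1, K.Nonempty → 0 ≤ hh G B K := by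
    intro K hK hne
    have := hfacts sp h1 hB hK
    have := card_pos.mpr hne
    unfold hh
    omega
  have t2 : ∀ K ⊆ N \ A1, 5 ≤ K.card → 1 ≤ b + hh G B K := by
    intro K hK hne
    have := hfacts sp h1 hB hK
    unfold hh
    omega
  have t3 : ∀ K ⊆ N \ A1, 5 ≤ K.card → K ∪ B ≠ N → 2 ≤ b + hh G B K := by
    intro K hK hne hN
    have := (hfacts sp h1 hB hK).2.2.2.2 hN
    unfold hh
    omega
  refine ⟨fun K a b => ?_, fun K a K' b c d e _ => t0 K' b d, by omega, fun K a b c => ?_,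
    fun K a b => ⟨t2 K a b, fun h => t3 K a b (proper_p h1 hp h a)⟩, fun K1 a b K c d e g => ?_,
    fun K1 a b K2 c d e => ?_, fun K1 a b K2 c d e K g h _ _ i => ?_⟩
  · have := t0 K a b
    omega
  · have := t0 K a b
    omega
  · have := t0 K c d
    omega
  · have := t3 K1 a b (proper_d hB c (card_pos.mp (by omega)) e)
    have := t0 K2 c (card_pos.mp (by omega))
    omega
  · have := t0 K g h
    omega

theorem base_ge (gi : Gi G) (h1 : 1 ≤ B.card) (h4 : B.card ≤ 4) :
    ((M1 ∩ eset G B).card : ℤ) ≤ base G M1 B := by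
  have := (gi.small _ B rfl).1 h1 h4
  unfold base
  omega

theorem goodB_one (sp : Sp G N f) (h1 : A1 ⊆ N) (hB : B ⊆ A1) (hp : p ∈ A1) (h : B.card = 1) :
    GoodB G (N \ A1) (base G M1 B) (p ∈ B) B := by
  have := base_ge (M1 := M1) (B := B) sp.gi (by omega) (by omega)
  exact goodB_tame sp h1 hB hp (Or.inl ⟨h, by omega⟩)

theorem goodB_adj (sp : Sp G N 3) (h1 : A1 ⊆ N) (hB : B ⊆ A1) (hp : p ∈ A1) (h : B.card = 2)
    (he : 1 ≤ ein G B) : GoodB G (N \ A1) (base G M1 B) (p ∈ B) B := by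
  have := base_ge (M1 := M1) (B := B) sp.gi (by omega) (by omega)
  exact goodB_tame sp h1 hB hp (Or.inr (Or.inr (Or.inl ⟨rfl, h, by unfold Fz; omega, by omega⟩)))

theorem goodB_three (sp : Sp G N 3) (h1 : A1 ⊆ N) (hB : B ⊆ A1) (hp : p ∈ A1) (h : B.card = 3)
    (he : 2 ≤ ein G B) (hm : (M1 ∩ eset G B).Nonempty) :
    GoodB G (N \ A1) (base G M1 B) (p ∈ B) B := by
  have := base_ge (M1 := M1) (B := B) sp.gi (by omega) (by omega)
  have := card_pos.mpr hm
  exact goodB_tame sp h1 hB hp (Or.inr (Or.inr (Or.inr ⟨rfl, h, by unfold Fz; omega, by omega⟩)))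

theorem goodB_pair (sp : Sp G N 3) (h1 : A1 ⊆ N) (hB : B ⊆ A1) (hp : p ∈ B) (h : B.card = 2) :
    GoodB G (N \ A1) (base G M1 B) (p ∈ B) B := by
  by_cases he : 1 ≤ ein G B
  · exact goodB_adj sp h1 hB (hB hp) h he
  have hb : 1 ≤ base G M1 B := by unfold base; omega
  have hF : Fz G B = 2 := by unfold Fz; omega
  have t3 : ∀ K ⊆ N \ A1, 5 ≤ K.card → K ∪ B ≠ N → 1 ≤ hh G B K := by
    intro K hK hne hN
    have := (hfacts sp h1 hB hK).2.2.2.2 hN
    unfold hh
    omega
  refine ⟨fun K a b => ?_, fun K a K' b c d e g => ?_, by omega, fun K a b c => hb,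
    fun K a b => ⟨?_, fun h => absurd hp h⟩, fun K1 a b K c d e g => ⟨?_, fun h => absurd hp h⟩,
    fun K1 a b K2 c d e => ?_, fun K1 a b K2 c d e K g h _ _ i => ?_⟩
  · have := hfacts sp h1 hB a
    have := card_pos.mpr b
    unfold hh
    omega
  · have := hfacts sp h1 hB (union_subset a b)
    rw [card_union_of_disjoint e] at this
    have := card_pos.mpr c
    have := card_pos.mpr d
    have := two_neg (G := G) hB e
    unfold hh at *
    omega
  · have := hfacts sp h1 hB a
    unfold hh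
    omega
  · have := t3 K1 a b (proper_d hB c d e)
    omega
  · have := t3 K1 a b (proper_d hB c (card_pos.mp (by omega)) e)
    have := t3 K2 c d (proper_d hB a (card_pos.mp (by omega)) e.symm)
    omega
  · have := t3 K1 a b (proper_d hB c (card_pos.mp (by omega)) e)
    have := t3 K2 c d (proper_d hB a (card_pos.mp (by omega)) e.symm)
    omega

theorem goodB_four (sp : Sp G N 3) (h1 : A1 ⊆ N) (hB : B ⊆ A1) (hp : p ∈ B) (h : B.card = 4)
    (he : 3 ≤ ein G B) (hm : 2 ≤ (M1 ∩ eset G B).card) {q : V} (hq : q ∈ B) (q1 : dg G q B ≤ 1)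
    (q3 : dg G q N ≤ 3) : GoodB G (N \ A1) (base G M1 B) (p ∈ B) B := by
  have hb := base_ge (M1 := M1) (B := B) sp.gi (by omega) (by omega)
  have hF : Fz G B = 3 := by
    have := (sp.gi.F_small B).2.2.2.1 h
    unfold Fz at *
    omega
  have t3 : ∀ K ⊆ N \ A1, 2 ≤ K.card → K ∪ B ≠ N → 0 ≤ hh G B K := by
    intro K hK hne hN
    have := (hfacts sp h1 hB hK).2.2.2.2 hN
    unfold hh
    omega
  have t4 : ∀ K ⊆ N \ A1, 5 ≤ K.card → dg G q K = 0 → 1 ≤ hh G B K := by
    intro K hK hne h0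
    have a1 := Fz_erase sp.gi.np (mem_union_right K hq)
    have a2 := dg_union_le (G := G) q K B
    have a3 := sp.sp ((K ∪ B).erase q) ((erase_subset _ _).trans
      (union_subset (hK.trans sdiff_subset) (hB.trans h1)))
      (fun h => by have := h1 (hB hq); rw [← h] at this; simp at this)
      (by rw [card_erase_of_mem (mem_union_right K hq), card_union_of_disjoint (dKB hB hK)]; omega)
    unfold hh
    omega
  refine ⟨fun K a b => ?_, fun K a K' b c d e g => ?_, by omega, fun K a b c => by omega,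
    fun K a b => ⟨?_, fun h => absurd hp h⟩, fun K1 a b K c d e g => ⟨?_, fun h => absurd hp h⟩,
    fun K1 a b K2 c d e => ?_, fun K1 a b K2 c d e K g h j k i => ?_⟩
  · have := hfacts sp h1 hB a
    unfold hh
    omega
  · have := hfacts sp h1 hB (union_subset a b)
    rw [card_union_of_disjoint e] at this
    have := card_pos.mpr c
    have := card_pos.mpr d
    have := two_neg (G := G) hB e
    have := fun h => t3 K a h (proper_d hB b d e)
    have := fun h => t3 K' b h (proper_d hB a c e.symm)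
    unfold hh at *
    omega
  · have := hfacts sp h1 hB a
    unfold hh
    omega
  · have := t3 K1 a (by omega) (proper_d hB c d e)
    omega
  · have := t3 K1 a (by omega) (proper_d hB c (card_pos.mp (by omega)) e)
    have := t3 K2 c (by omega) (proper_d hB a (card_pos.mp (by omega)) e.symm)
    omega
  · have a1 := t3 K1 a (by omega) (proper_d hB c (card_pos.mp (by omega)) e)
    have a2 := t3 K2 c (by omega) (proper_d hB a (card_pos.mp (by omega)) e.symm)
    have a3 := fun h => t3 K g h (proper_d hB a (card_pos.mp (by omega)) j.symm)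
    have a4 := card_pos.mpr h
    have a5 := Fz_erase sp.gi.np (mem_union_right K hq)
    have a6 := (sp.gi.F_small ((K ∪ B).erase q)).2.2.2.1
      (by rw [card_erase_of_mem (mem_union_right K hq), card_union_of_disjoint (dKB hB g)]; omega)
    have a7 : dg G q (K1 ∪ (K2 ∪ (K ∪ B))) ≤ dg G q N := dg_mono q
      (union_subset (a.trans sdiff_subset) (union_subset (c.trans sdiff_subset)
        (union_subset (g.trans sdiff_subset) (hB.trans h1))))
    rw [dg_union q (by simp [disjoint_union_right, e, j, dKB hB a]),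
      dg_union q (by simp [disjoint_union_right, k, dKB hB c])] at a7
    have a8 := t4 K1 a b
    have a9 := t4 K2 c d
    unfold hh at *
    omega

theorem ein_path3 (np : G.NoPar) {a b c : V} (h1 : Adj G a b) (h2 : Adj G b c) (hac : a ≠ c) :
    2 ≤ ein G {a, b, c} := by
  rw [ein_insert np (by simp [h1.ne, hac]), ein_pair np h2]
  have : 0 < dg G a {b, c} := dg_pos.mpr ⟨b, by simp, h1⟩
  omega

theorem good_V (sp : Sp G N f) {u : V} (hu : u ∈ N) : Good G N {u} ∅ u := by
  intro B hB hne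
  have := card_le_card hB.1
  have := card_pos.mpr hne
  rw [card_singleton] at *
  exact goodB_one sp (by simpa using hu) hB.1 (by simp) (by omega)

theorem good_E (sp : Sp G N f) {u v : V} {e : E} (hj : G.Joins e u v) (huv : u ≠ v) :
    Good G N {u, v} {e} u := by
  intro B hB hne
  have ad : Adj G u v := ⟨huv, e, hj⟩
  have hN : ({u, v} : Finset V) ⊆ N := by
    simp [insert_subset_iff, sp.adj_mem ad, sp.adj_mem ad.symm]
  have a1 := card_le_card hB.1
  have a2 := card_pos.mpr hne
  by_cases h : B.card = 1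
  · exact goodB_one sp hN hB.1 (by simp) h
  have a3 : B = {u, v} := eq_of_subset_of_card_le hB.1 (by rw [card_pair huv] at *; omega)
  subst a3
  have a4 := base_ge (M1 := {e}) (B := {u, v}) sp.gi (by omega) (by rw [card_pair huv]; omega)
  rw [eset_pair sp.gi.np hj huv, inter_self, card_singleton] at a4
  refine goodB_tame sp hN hB.1 (by simp) (Or.inr (Or.inl ⟨card_pair huv, ?_, by omega⟩))
  unfold Fz
  rw [ein_pair sp.gi.np ad, card_pair huv]
  omega

theorem good_VV (sp : Sp G N 3) {u v : V} (hu : u ∈ N) (hv : v ∈ N) (huv : u ≠ v) :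
    Good G N {u, v} ∅ u := by
  intro B hB hne
  have hN : ({u, v} : Finset V) ⊆ N := by simp [insert_subset_iff, hu, hv]
  have a1 := card_le_card hB.1
  have a2 := card_pos.mpr hne
  by_cases h : B.card = 1
  · exact goodB_one sp hN hB.1 (by simp) h
  have a3 : B = {u, v} := eq_of_subset_of_card_le hB.1 (by rw [card_pair huv] at *; omega)
  subst a3
  exact goodB_pair sp hN hB.1 (by simp) (card_pair huv)

theorem Closed.iff (h : Closed G A1 M1 B) {e : E} {a b : V} (hj : G.Joins e a b) (hab : a ≠ b)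
    (ha : a ∈ A1) (hb : b ∈ A1) (he : e ∉ M1) : a ∈ B ↔ b ∈ B := by
  have := h.2 e ((mem_eset_j hj hab).mpr ⟨ha, hb⟩) he
  rcases hj with ⟨h1, h2⟩ | ⟨h1, h2⟩ <;> rw [h1, h2] at this
  · exact this
  · exact this.symm

theorem good_VE (sp : Sp G N 3) {u a b : V} {e : E} (h1 : Adj G u a) (hj : G.Joins e a b)
    (hab : a ≠ b) (hub : u ≠ b) : Good G N {u, a, b} {e} u := by
  intro B hB hne
  have ad : Adj G a b := ⟨hab, e, hj⟩
  have hN : ({u, a, b} : Finset V) ⊆ N := by
    simp [insert_subset_iff, sp.adj_mem ad, sp.adj_mem ad.symm, sp.adj_mem h1.symm]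
  have c3 : ({u, a, b} : Finset V).card = 3 := by
    rw [card_insert_of_notMem (by simp [h1.ne, hub]), card_pair hab]
  have a1 := card_le_card hB.1
  have a2 := card_pos.mpr hne
  by_cases h : B.card = 1
  · exact goodB_one sp hN hB.1 (by simp) h
  obtain ⟨n1, e1, j1⟩ := h1
  have cl := hB.iff j1 n1 (by simp) (by simp) (by simpa using j1.ne_edge hj n1 hub)
  have hu : u ∈ B := by
    by_contra hu
    have : B ⊆ {b} := by
      intro z hz
      have := hB.1 hz
      simp only [mem_insert, mem_singleton] at this ⊢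
      rcases this with rfl | rfl | rfl <;> tauto
    have := card_le_card this
    rw [card_singleton] at this
    omega
  by_cases h' : B.card = 2
  · exact goodB_pair sp hN hB.1 hu h'
  have a3 : B = {u, a, b} := eq_of_subset_of_card_le hB.1 (by omega)
  subst a3
  exact goodB_three sp hN hB.1 (by simp) c3 (ein_path3 sp.gi.np ⟨n1, e1, j1⟩ ad hub)
    ⟨e, by simp [mem_eset_j hj hab]⟩

theorem good_EE (sp : Sp G N 3) {a b c d : V} {e g : E} (j1 : G.Joins e a b) (hab : a ≠ b)
    (h2 : Adj G b c) (j3 : G.Joins g c d) (hcd : c ≠ d) (hac : a ≠ c) (hbd : b ≠ d)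
    (h3 : dg G d N ≤ 3) : Good G N {a, b, c, d} {e, g} a := by
  intro B hB hne
  have ad1 : Adj G a b := ⟨hab, e, j1⟩
  have ad3 : Adj G c d := ⟨hcd, g, j3⟩
  have had : a ≠ d := fun h => sp.gi.tri ad1 h2 (h ▸ ad3)
  have hN : ({a, b, c, d} : Finset V) ⊆ N := by
    simp [insert_subset_iff, sp.adj_mem ad1, sp.adj_mem ad1.symm, sp.adj_mem ad3.symm,
      sp.adj_mem ad3]
  have a2 := card_pos.mpr hne
  by_cases h : B.card = 1
  · exact goodB_one sp hN hB.1 (by simp) h
  obtain ⟨hbc, e2, j2⟩ := id h2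
  have cl := hB.iff j2 hbc (by simp) (by simp) (by
    simp [(j1.ne_edge j2 hab hac).symm, j2.ne_edge j3 hbc hbd])
  have hf : B = ({a, b, c, d} : Finset V).filter (fun z => z ∈ B) := by
    rw [filter_mem_eq_inter, inter_eq_right.mpr hB.1]
  by_cases mb : b ∈ B
  · have mc := cl.mp mb
    by_cases ma : a ∈ B <;> by_cases md : d ∈ B <;>
      simp only [filter_insert, filter_singleton, ma, mb, mc, md, if_true, if_false,
        insert_empty_eq] at hf <;> subst hf
    · have c4 : ({a, b, c, d} : Finset V).card = 4 := by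
        rw [card_insert_of_notMem (by simp [hab, hac, had]),
          card_insert_of_notMem (by simp [hbc, hbd]), card_pair hcd]
      refine goodB_four sp hN hB.1 ma c4 ?_ ?_ md ?_ h3
      · rw [ein_insert sp.gi.np (by simp [hab, hac, had])]
        have := ein_path3 sp.gi.np h2 ad3 hbd
        have : 0 < dg G a {b, c, d} := dg_pos.mpr ⟨b, by simp, ad1⟩
        omega
      · rw [inter_eq_left.mpr, card_pair (j1.ne_edge j3 hac had)]
        simp [insert_subset_iff, mem_eset_j j1 hab, mem_eset_j j3 hcd]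
      · have : ∀ z ∈ ({a, b, c, d} : Finset V), Adj G d z → z = c := by
          intro z hz hdz
          simp only [mem_insert, mem_singleton] at hz
          rcases hz with rfl | rfl | rfl | rfl
          · exact absurd (sp.gi.quad ad1 h2 ad3 hdz hac) hbd
          · exact (sp.gi.tri h2 ad3 hdz).elim
          · rfl
          · exact absurd hdz (not_adj_self _)
        exact dg_le_one fun x hx y hy a1 a2 => (this x hx a1).trans (this y hy a2).symm
    · exact goodB_three sp hN hB.1 (by simp)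
        (by rw [card_insert_of_notMem (by simp [hab, hac]), card_pair hbc])
        (ein_path3 sp.gi.np ad1 h2 hac) ⟨e, by simp [mem_eset_j j1 hab]⟩
    · exact goodB_three sp hN hB.1 (by simp)
        (by rw [card_insert_of_notMem (by simp [hbc, hbd]), card_pair hcd])
        (ein_path3 sp.gi.np h2 ad3 hbd) ⟨g, by simp [mem_eset_j j3 hcd]⟩
    · exact goodB_adj sp hN hB.1 (by simp) (card_pair hbc) (ein_pair sp.gi.np h2).ge
  · have mc : c ∉ B := fun h => mb (cl.mpr h)
    by_cases ma : a ∈ B <;> by_cases md : d ∈ B <;>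
      simp only [filter_insert, filter_singleton, ma, mb, mc, md, if_true, if_false,
        insert_empty_eq] at hf <;> subst hf
    · exact goodB_pair sp hN hB.1 ma (card_pair had)
    · simp at h
    · simp at h
    · simp at hne

end

end Pool.Agent.Lib.CF64
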