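import Pool.Agent.Lib.CF64.Small

set_option linter.unusedSectionVars false
set_option linter.unusedVariables false
set_option linter.unusedSimpArgs false

namespace Pool.Agent.Lib.CF64

open Finset Pool.Agent.Lib.MP_aa6b05_co Pool.Agent.Lib.MP_aa6b05_co.MG

open scoped Classical

noncomputable section

variable {V E : Type} [Fintype V] [Fintype E] {G : MG V E} {N : Finset V} {f : ℕ}

/-- the subgraph induced on `Y`; all other edges become loops -/
def sub (G : MG V E) (Y : Finset V) : MG V E where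
  s := fun e => if e ∈ eset G Y then G.s e else G.t e
  t := G.t

theorem sub_ne {Y : Finset V} {e : E} : (sub G Y).s e ≠ (sub G Y).t e ↔ e ∈ eset G Y := by
  unfold sub
  dsimp only
  split_ifs with h
  · simp [h, (mem_eset.mp h).1]
  · simp [h]

theorem sub_joins {Y : Finset V} {e : E} {a b : V} (hab : a ≠ b) :
    (sub G Y).Joins e a b ↔ G.Joins e a b ∧ a ∈ Y ∧ b ∈ Y := by
  constructor
  · intro h
    have h1 := sub_ne.mp (h.ne hab)
    have h2 : G.Joins e a b := by
      unfold Joins sub at h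
      simp only [h1, if_true] at h
      exact h
    exact ⟨h2, (mem_eset_j h2 hab).mp h1⟩
  · rintro ⟨h, h'⟩
    have h1 := (mem_eset_j h hab).mpr h'
    unfold Joins sub
    simp only [h1, if_true]
    exact h

theorem sub_adj {Y : Finset V} {a b : V} : Adj (sub G Y) a b ↔ Adj G a b ∧ a ∈ Y ∧ b ∈ Y := by
  constructor
  · rintro ⟨h, e, he⟩
    have := (sub_joins h).mp he
    exact ⟨⟨h, e, this.1⟩, this.2⟩
  · rintro ⟨⟨h, e, he⟩, h'⟩
    exact ⟨h, e, (sub_joins h).mpr ⟨he, h'⟩⟩

theorem sub_eset {Y Z : Finset V} (h : Z ⊆ Y) : eset (sub G Y) Z = eset G Z := by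
  ext e
  rw [mem_eset, sub_ne]
  constructor
  · rintro ⟨h1, h2, h3⟩
    simp only [sub, h1, if_true] at h2 h3
    exact mem_eset.mpr ⟨(mem_eset.mp h1).1, h2, h3⟩
  · intro h1
    have h2 := eset_mono h h1
    simp only [sub, h2, if_true, true_and]
    exact (mem_eset.mp h1).2

theorem sub_F {Y Z : Finset V} (h : Z ⊆ Y) : Fz (sub G Y) Z = Fz G Z := by
  unfold Fz ein
  rw [sub_eset h]

theorem Gi.sub (h : Gi G) (Y : Finset V) : Gi (sub G Y) := by
  refine ⟨fun e f a b h1 h2 h3 h4 => ?_, fun e f g a b c h1 h2 h3 h4 h5 h6 => ?_,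
    fun e f g k a b c d h1 h2 h3 h4 h5 h6 h7 h8 h9 h10 => ?_⟩
  · exact h.np e f a b h1 h2 ((sub_joins h2).mp h3).1 ((sub_joins h2).mp h4).1
  · exact h.nt e f g a b c h1 h2 h3 ((sub_joins h1).mp h4).1 ((sub_joins h2).mp h5).1
      ((sub_joins h3.symm).mp h6).1
  · exact h.nq e f g k a b c d h1 h2 h3 h4 h5 h6 ((sub_joins h1).mp h7).1 ((sub_joins h4).mp h8).1
      ((sub_joins h6).mp h9).1 ((sub_joins h3.symm).mp h10).1

theorem exists_sp (gi : Gi G) (f2 : 2 ≤ f) (f3 : f ≤ 3) {Z : Finset V} (h6 : 6 ≤ Z.card)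
    (hF : Fz G Z ≤ f) : ∃ Y ⊆ Z, Sp (sub G Y) Y f := by
  obtain ⟨Y, hY, hmin⟩ := exists_min_image
    (Z.powerset.filter (fun Y => 6 ≤ Y.card ∧ Fz G Y ≤ f)) card ⟨Z, by simp [h6, hF]⟩
  simp only [mem_filter, mem_powerset] at hY hmin
  obtain ⟨h1, h2, h3⟩ := hY
  have hsp : ∀ W ⊆ Y, W ≠ Y → 6 ≤ W.card → (f : ℤ) + 1 ≤ Fz G W := by
    intro W a b c
    by_contra hn
    have := hmin W ⟨a.trans h1, c, by omega⟩
    exact b (eq_of_subset_of_card_le a this)
  have h7 : 7 ≤ Y.card := by
    have := (gi.F_small Y).2.2.2.2.2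
    omega
  have hd : ∀ v ∈ Y, (f : ℤ) + 3 - Fz G Y ≤ dg G v Y := by
    intro v hv
    have a := Fz_erase gi.np hv
    have b := hsp (Y.erase v) (erase_subset _ _) (fun h => by rw [← h] at hv; simp at hv)
      (by rw [card_erase_of_mem hv]; omega)
    omega
  have ht : Fz G Y = f := by
    have a := card_nsmul_le_sum Y (fun v => (dg G v Y : ℤ)) _ hd
    rw [← Nat.cast_sum, sum_dg gi.np, nsmul_eq_mul] at a
    by_contra hn
    have b : (0 : ℤ) ≤ ((Y.card : ℤ) - 2) * ((f : ℤ) - Fz G Y - 1) :=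
      mul_nonneg (by omega) (by omega)
    have c : (ein G Y : ℤ) = 2 * Y.card - 2 - Fz G Y := by unfold Fz; ring
    push_cast at a
    rw [c] at a
    nlinarith
  refine ⟨Y, h1, gi.sub Y, fun e he => ?_, by rw [sub_F Subset.rfl, ht],
    fun W a b c => by rw [sub_F a]; exact hsp W a b c, fun v hv => ?_, f2, f3⟩
  · have := sub_ne.mp he
    simp only [sub, this, if_true]
    exact (mem_eset.mp this).2
  · have a := hd v hv
    have b : dg (sub G Y) v Y = dg G v Y := by
      unfold dg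
      congr 1
      exact filter_congr fun w hw => by simp [sub_adj, hv, hw]
    omega

/-- the boundary which a chain outside `Y` leaves on `Y` -/
def bdry (G : MG V E) (Y : Finset V) (φ : E → K) (v : V) : K :=
  if v ∈ Y then G.df (fun e => if e ∈ eset G Y then 0 else φ e) v else 0

theorem bdry_off {Y : Finset V} {φ : E → K} (v : V) (hv : v ∉ Y) : bdry G Y φ v = 0 := if_neg hv

theorem bdry_sum {Y : Finset V} {φ : E → K} (h : G.Loc (↑Y : Set V)ᶜ φ) : ∑ v, bdry G Y φ v = 0 := by
  unfold bdry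
  rw [sum_ite_mem, univ_inter]
  convert sum_df_set (G := G) (X := (↑Y : Set V)) Y (by simp) (eset G Y) (fun e he h' => ?_) h
  have := mem_eset.mp he
  rw [MG.mem_cut] at h'
  simp [this.2.1, this.2.2] at h'

theorem col_of_feas {Y : Finset V} {φ : E → K} (h : G.Loc (↑Y : Set V)ᶜ φ)
    (hF : Feas (sub G Y) (bdry G Y φ)) : G.Col := by
  obtain ⟨ψ, h1, h2⟩ := hF
  refine ⟨fun e => if e ∈ eset G Y then ψ e else φ e, fun e => ?_, fun v _ => ?_⟩
  · dsimp only
    split_ifs
    · exact h1 e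
    · exact h.1 e
  · have a : G.df (fun e => if e ∈ eset G Y then ψ e else φ e) v =
        G.df (fun e => if e ∈ eset G Y then 0 else φ e) v +
          G.df (fun e => if e ∈ eset G Y then ψ e else 0) v := by
      rw [← df_add]
      apply df_congr
      intro e _
      split_ifs <;> simp
    have b : G.df (fun e => if e ∈ eset G Y then ψ e else 0) v = (sub G Y).df ψ v := by
      unfold df
      rw [sum_ite_mem]
      congr 1
      ext e
      rw [mem_inter, mem_cut_single, mem_cut_single, sub_ne]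
      constructor
      · rintro ⟨a, b⟩
        simp only [sub, b, if_true, true_and]
        exact a.2
      · rintro ⟨a, b⟩
        simp only [sub, a, if_true] at b
        exact ⟨⟨(mem_eset.mp a).1, b⟩, a⟩
    rw [a, b, h2]
    by_cases hv : v ∈ Y
    · rw [bdry, if_pos hv, K.add_self]
    · rw [bdry_off v hv, add_zero, ← h.2 v hv]
      apply df_congr
      intro e he
      rw [if_neg]
      intro h'
      rw [mem_cut_single] at he
      have := mem_eset.mp h'
      rcases he.2 with a | a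
      · exact hv (a ▸ this.2.1)
      · exact hv (a ▸ this.2.2)

theorem part_sum {α : Type} [DecidableEq α] (π : V → α) (N : Finset V) :
    ∑ i ∈ N.image π, Fz G (N.filter (fun v => π v = i)) + 2 * (N.image π).card ≤
      (G.map π).m + 2 + Fz G N := by
  obtain ⟨C, hC, mC⟩ : ∃ C : Finset E, C.card = (G.map π).m ∧ ∀ e, π (G.s e) ≠ π (G.t e) → e ∈ C :=
    ⟨_, rfl, fun e h => by simpa [MG.map] using h⟩
  have h1 : eset G N ⊆ C ∪
      (N.image π).biUnion (fun i => eset G (N.filter (fun v => π v = i))) := by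
    intro e he
    have := mem_eset.mp he
    by_cases h : π (G.s e) = π (G.t e)
    · refine mem_union_right _ (mem_biUnion.mpr ⟨π (G.s e), mem_image_of_mem _ this.2.1, ?_⟩)
      simp [mem_eset, this, h]
    · exact mem_union_left _ (mC e h)
  have h2 := (card_le_card h1).trans ((card_union_le _ _).trans
    (Nat.add_le_add_left card_biUnion_le _))
  have h3 := card_eq_sum_card_fiberwise (f := π) (s := N) (t := N.image π)
    (fun v hv => mem_image_of_mem _ hv)
  have h4 : ∑ i ∈ N.image π, Fz G (N.filter (fun v => π v = i)) =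
      2 * (N.card : ℤ) - 2 * (N.image π).card -
        (∑ i ∈ N.image π, (eset G (N.filter (fun v => π v = i))).card : ℕ) := by
    unfold Fz ein
    rw [sum_sub_distrib, sum_sub_distrib, ← mul_sum, sum_const, h3]
    push_cast
    simp only [nsmul_eq_mul]
    ring
  rw [h4]
  unfold Fz ein
  omega

def NIs (G : MG V E) : Finset V := univ.filter G.NI

theorem mem_NIs {v : V} : v ∈ NIs G ↔ G.NI v := by simp [NIs]

theorem NIs_hN (e : E) (h : G.s e ≠ G.t e) : G.s e ∈ NIs G ∧ G.t e ∈ NIs G :=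
  ⟨mem_NIs.mpr ((joins_self e).ni h), mem_NIs.mpr ((joins_self e).ni' h)⟩

theorem NIs_sub (hN : ∀ e, G.s e ≠ G.t e → G.s e ∈ N ∧ G.t e ∈ N) : NIs G ⊆ N := by
  intro v hv
  obtain ⟨e, b, hj, h⟩ := mem_NIs.mp hv
  have := hN e (hj.ne h)
  rcases hj with ⟨a, -⟩ | ⟨-, a⟩
  · exact a ▸ this.1
  · exact a ▸ this.2

/-- every partition into `k` classes has at least `2 k - 2 - f` crossing edges -/
def Hyp (f : ℕ) (G : MG V E) : Prop :=
  ∀ π : V → ℕ, 2 * ((NIs G).image π).card ≤ (G.map π).m + 2 + f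

theorem Hyp.mono {g : ℕ} (h : Hyp f G) (hfg : f ≤ g) : Hyp g G := fun π => by
  have := h π
  omega

theorem Hyp.map (h : Hyp f G) {V' : Type} [Fintype V'] (ρ : V → V') : Hyp f (G.map ρ) := by
  intro π
  refine le_trans (Nat.mul_le_mul_left 2 (card_le_card ?_)) (h (π ∘ ρ))
  intro i hi
  obtain ⟨w, hw, rfl⟩ := mem_image.mp hi
  obtain ⟨e, b, hj, hne⟩ := mem_NIs.mp hw
  have h1 : G.s e ≠ G.t e := fun h => hj.ne hne (congrArg ρ h)
  rcases hj with ⟨a, -⟩ | ⟨-, a⟩
  · exact mem_image.mpr ⟨_, (NIs_hN e h1).1, congrArg π a⟩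
  · exact mem_image.mpr ⟨_, (NIs_hN e h1).2, congrArg π a⟩

theorem hyp_of_sparse (hN : ∀ e, G.s e ≠ G.t e → G.s e ∈ N ∧ G.t e ∈ N)
    (h0 : ∀ K ⊆ N, K.Nonempty → 0 ≤ Fz G K) (hf : Fz G N ≤ f) : Hyp f G := by
  intro π
  have h1 := part_sum (G := G) π N
  have h2 : 0 ≤ ∑ i ∈ N.image π, Fz G (N.filter (fun v => π v = i)) := by
    apply sum_nonneg
    intro i hi
    obtain ⟨v, hv, rfl⟩ := mem_image.mp hi
    exact h0 _ (filter_subset _ _) ⟨v, by simp [hv]⟩
  have h3 := card_le_card (image_subset_image (f := π) (NIs_sub hN))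
  omega

theorem Hyp.F_le (h : Hyp f G) : Fz G (NIs G) ≤ f := by
  let π : V → ℕ := fun v => Fintype.equivFin V v
  have hπ : Function.Injective π := fun a b h => (Fintype.equivFin V).injective (Fin.ext h)
  have h1 := h π
  rw [card_image_of_injective _ hπ] at h1
  have h2 : (G.map π).m ≤ ein G (NIs G) := by
    apply card_le_card
    intro e he
    simp only [mem_filter] at he
    have : G.s e ≠ G.t e := fun h => he.2 (congrArg π h)
    exact mem_eset.mpr ⟨this, NIs_hN e this⟩
  unfold Fz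
  omega

theorem quo_m_le {π : V → Fin 10} {ι : Fin 15 → E} (h : G.QuoVia Pet π ι) {α : Type}
    (j : Fin 10 → α) : (G.map (j ∘ π)).m ≤ 15 := by
  have : univ.filter (fun e => (G.map (j ∘ π)).s e ≠ (G.map (j ∘ π)).t e) ⊆ univ.image ι := by
    intro e he
    by_contra hn
    simp only [mem_image, mem_univ, true_and, not_exists] at hn
    exact (mem_filter.mp he).2 (congrArg j (h.lp e hn))
  have := (card_le_card this).trans card_image_le
  simpa [MG.m] using this

theorem pet_d (w : Fin 10) : Pet.d {w} = 3 := by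
  have : ∀ w : Fin 10, (univ.filter (fun e => ¬ (Pet.s e = w ↔ Pet.t e = w))).card = 3 := by decide
  rw [← this w]
  unfold MG.d MG.cut
  congr 1
  ext e
  simp

theorem d_zero (hN : ∀ e, G.s e ≠ G.t e → G.s e ∈ N ∧ G.t e ∈ N) {X : Set V}
    (h : ∀ v ∈ N, v ∉ X) : G.d X = 0 := by
  unfold MG.d
  rw [card_eq_zero, eq_empty_iff_forall_notMem]
  intro e he
  rw [MG.mem_cut] at he
  have := hN e (fun h => he (by rw [h]))
  exact he (iff_of_false (h _ this.1) (h _ this.2))

theorem Hyp.not_pet (h : Hyp 2 G) : ¬ G.Quo Pet := by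
  rintro ⟨π, ι, q⟩
  have h1 := h (Fin.val ∘ π)
  have h2 := quo_m_le q Fin.val
  have h3 : range 10 ⊆ (NIs G).image (Fin.val ∘ π) := by
    intro i hi
    obtain ⟨w, rfl⟩ : ∃ w : Fin 10, w.val = i := ⟨⟨i, mem_range.mp hi⟩, rfl⟩
    by_contra hn
    have a := q.d_eq {w}
    have b : G.d (π ⁻¹' {w}) = 0 := d_zero NIs_hN (fun v hv hv' =>
      hn (mem_image.mpr ⟨v, hv, congrArg Fin.val (show π v = w from hv')⟩))
    rw [pet_d, b] at a
    omega
  have := card_le_card h3
  rw [card_range] at this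
  omega

theorem d_ge (N : Finset V) (X : Set V) :
    Fz G (N.filter (fun v => v ∈ X)) + Fz G (N.filter (fun v => v ∉ X)) + 2 ≤ G.d X + Fz G N := by
  have h1 : eset G N ⊆ G.cut X ∪
      (eset G (N.filter (fun v => v ∈ X)) ∪ eset G (N.filter (fun v => v ∉ X))) := by
    intro e he
    simp only [mem_eset, mem_union, MG.mem_cut, mem_filter] at he ⊢
    tauto
  have h2 := (card_le_card h1).trans ((card_union_le _ _).trans
    (Nat.add_le_add_left (card_union_le _ _) _))
  have h3 := card_filter_add_card_filter_not (s := N) (fun v => v ∈ X)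
  unfold Fz ein MG.d
  omega

end

end Pool.Agent.Lib.CF64
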