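import Pool.Agent.Lib.CF64.Core

set_option linter.unusedSectionVars false
set_option linter.unusedVariables false
set_option linter.unusedSimpArgs false

namespace Pool.Agent.Lib.CF64

open Finset Pool.Agent.Lib.MP_aa6b05_co Pool.Agent.Lib.MP_aa6b05_co.MG
  Pool.Agent.Lib.MP_aa6b05_co.D

open scoped Classical

noncomputable section

theorem induct3 {E : Type} [Fintype E] (n : ℕ) : ∀ {V : Type} [Fintype V] (G : MG V E), G.m ≤ n →
    G.Bl → Hyp 3 G → ¬ G.Col → G.Quo Pet := by
  induction n using Nat.strong_induction_on with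
  | _ n ih =>
  intro V _ G hm hb hyp hcol
  have IH : ∀ X : Set V, (G.map (con X)).m < G.m → ¬ (G.map (con X)).Col → G.Quo Pet :=
    fun X h1 h2 => Quo.of_map (ih _ (lt_of_lt_of_le h1 hm) _ le_rfl (hb.map _) (hyp.map _) h2)
  by_cases h2 : ∃ X, G.d X = 2
  · obtain ⟨X, hX⟩ := h2
    obtain ⟨e, f, hef, hc⟩ := card_eq_two.mp hX
    obtain ⟨a, b, hj, ha, hb'⟩ := exists_joins_of_mem_cut (G := G) (X := X) (e := e) (by simp [hc])
    have hab : a ≠ b := fun h => hb' (h ▸ ha)
    exact IH {a, b} (m_con_lt hj hab (by simp) (by simp))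
      (fun h => hcol (col_of_two_cut hc hef hj ha hb' h))
  push Not at h2
  have h12 : ∀ X, G.d X ≠ 1 ∧ G.d X ≠ 2 := fun X => ⟨hb X, h2 X⟩
  by_cases h3 : ∃ X, G.d X ≤ 3 ∧ ¬ G.Triv X ∧ ¬ G.Triv Xᶜ
  · obtain ⟨X, hX, t1, t2⟩ := h3
    have : Nonempty V := by
      by_contra hV
      apply hcol
      refine ⟨fun _ => .k1, fun _ => (by decide : K.k1 ≠ 0), fun v _ => absurd ⟨v⟩ hV⟩
    obtain ⟨e, a, b, hj, hab, ha, hb'⟩ := inner_edge_of_not_triv h12 hX t1
    obtain ⟨f, c, d, hj', hcd, hc, hd⟩ := inner_edge_of_not_triv h12 (by rwa [d_compl]) t2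
    have hd03 : G.d X = 0 ∨ G.d X = 3 := by
      have := h12 X
      omega
    by_cases c1 : (G.map (con X)).Col
    · by_cases c2 : (G.map (con Xᶜ)).Col
      · exact absurd (col_of_small_cut hd03 c1 c2) hcol
      · exact IH _ (m_con_lt hj' hcd hc hd) c2
    · exact IH _ (m_con_lt hj hab ha hb') c1
  have h4 : G.E4 := by
    refine ⟨h12, fun X hX => ?_⟩
    by_contra h
    push Not at h
    exact h3 ⟨X, hX, h.1, h.2⟩
  by_cases hp : G.NoPar
  swap
  · unfold NoPar at hp
    push Not at hp
    obtain ⟨e, f, a, b, hef, hab, he, hf⟩ := hp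
    exact IH {a, b} (m_con_lt he hab (by simp) (by simp))
      (fun h => hcol (col_of_par hef hab he hf h))
  by_cases ht : G.NoTri
  swap
  · unfold NoTri at ht
    push Not at ht
    obtain ⟨e, f, g, a, b, c, hab, hbc, hac, he, hf, hg⟩ := ht
    exact IH {a, b, c} (m_con_lt he hab (by simp) (by simp))
      (fun h => hcol (col_of_tri hab hbc hac he hf hg h))
  by_cases hq : G.NoQuad
  swap
  · unfold NoQuad at hq
    push Not at hq
    obtain ⟨e, f, g, k, a, b, c, d, hab, hac, had, hbc, hbd, hcd, he, hf, hg, hk⟩ := hq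
    exact IH {a, b, c, d} (m_con_lt he hab (by simp) (by simp))
      (fun h => hcol (col_of_quad hab hac had hbc hbd hcd he hf hg hk h))
  exact core h4 ⟨hp, ht, hq⟩ hyp hcol
    (fun G' h1 h2 h3 h4 => ih _ (lt_of_lt_of_le h1 hm) G' le_rfl h2 h3 h4)

theorem cross_ge {V E : Type} [Fintype V] [Fintype E] (s t : E → V) (F : Set E)
    (hc : ∀ u v, Conn s t Set.univ F u v) (π : V → ℕ) (S : Finset E)
    (hS : ∀ e ∈ F, π (s e) ≠ π (t e) → e ∈ S) : (univ.image π).card ≤ S.card + 1 := by
  rcases isEmpty_or_nonempty V with hV | ⟨⟨v0⟩⟩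
  · simp
  set I := univ.image π with hI
  let q : V → I := fun v => ⟨π v, mem_image_of_mem _ (mem_univ v)⟩
  let Φ : (I → Bool) → Bool × (S → Bool) := fun g => (g (q v0), fun e => xor (g (q (s e))) (g (q (t e))))
  have hΦ : Function.Injective Φ := by
    intro g g' h
    have h1 : g (q v0) = g' (q v0) := congrArg Prod.fst h
    have h2 : ∀ e ∈ F, (g (q (s e)) = g' (q (s e)) ↔ g (q (t e)) = g' (q (t e))) := by
      intro e he
      by_cases a : π (s e) = π (t e)
      · rw [show q (s e) = q (t e) from Subtype.ext a]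
      · have := congrFun (congrArg Prod.snd h) ⟨e, hS e he a⟩
        revert this
        simp only [Φ]
        generalize g (q (s e)) = x
        generalize g (q (t e)) = y
        generalize g' (q (s e)) = z
        generalize g' (q (t e)) = w
        revert x y z w
        decide
    have h3 : ∀ v, g (q v) = g' (q v) := by
      intro v
      induction hc v0 v with
      | refl => exact h1
      | tail _ hs ih =>
        obtain ⟨-, -, e, he, ⟨rfl, rfl⟩ | ⟨rfl, rfl⟩⟩ := hs
        · exact (h2 e he).mp ih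
        · exact (h2 e he).mpr ih
    funext i
    obtain ⟨v, -, hv⟩ := mem_image.mp i.2
    rw [show i = q v from Subtype.ext hv.symm, h3]
  have := Fintype.card_le_of_injective Φ hΦ
  simp only [Fintype.card_fun, Fintype.card_bool, Fintype.card_coe, Fintype.card_prod] at this
  rw [← pow_succ'] at this
  exact (Nat.pow_le_pow_iff_right (by omega)).mp this

theorem hyp_of_trees {V E : Type} [Fintype V] [Fintype E] (s t : E → V) (k : ℕ) (s' t' : Fin k → V)
    (c : E ⊕ Fin k → Bool)
    (hc : ∀ b u v, Conn (Sum.elim s s') (Sum.elim t t') Set.univ {e | c e = b} u v) :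
    Hyp k (⟨s, t⟩ : MG V E) := by
  intro π
  have h3 := card_le_card (image_subset_image (f := π) (subset_univ (NIs (⟨s, t⟩ : MG V E))))
  obtain ⟨C, hC, mC⟩ : ∃ C : Finset E, C.card = ((⟨s, t⟩ : MG V E).map π).m ∧
      ∀ e, π (s e) ≠ π (t e) → e ∈ C := ⟨_, rfl, fun e h => by simpa [MG.map] using h⟩
  set A := univ.filter (fun e => c e = true ∧
    π (Sum.elim s s' e) ≠ π (Sum.elim t t' e)) with hA
  set B := univ.filter (fun e => c e = false ∧
    π (Sum.elim s s' e) ≠ π (Sum.elim t t' e)) with hB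
  have h1 := cross_ge _ _ _ (hc true) π A (fun e a b => mem_filter.mpr ⟨mem_univ _, a, b⟩)
  have h2 := cross_ge _ _ _ (hc false) π B (fun e a b => mem_filter.mpr ⟨mem_univ _, a, b⟩)
  have h4 : Disjoint A B := by
    rw [disjoint_left]
    intro e a b
    simp only [hA, hB, mem_filter] at a b
    have := a.2.1.symm.trans b.2.1
    simp at this
  have h5 : A ∪ B ⊆ C.disjSum univ := by
    intro e he
    have : π (Sum.elim s s' e) ≠ π (Sum.elim t t' e) := by
      simp only [hA, hB, mem_union, mem_filter] at he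
      tauto
    rcases e with e | e
    · simpa using mC e this
    · simp
  have h6 := card_le_card h5
  rw [card_union_of_disjoint h4, card_disjSum, card_univ, Fintype.card_fin] at h6
  omega

theorem final3 {V E : Type} [Fintype V] [Fintype E] [DecidableEq V] (s t : E → V)
    (hc : ∀ a b, Conn s t Set.univ Set.univ a b) (hb : Bridgeless s t)
    (h3 : ∃ (s' t' : Fin 3 → V) (c : E ⊕ Fin 3 → Bool),
      ∀ b u v, Conn (Sum.elim s s') (Sum.elim t t') Set.univ {e | c e = b} u v) :
    HasNZ4Flow s t ∨ ContractsToPetersen s t := by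
  let G : MG V E := ⟨s, t⟩
  have hb' : G.Bl := bl_of hb
  obtain ⟨s', t', c, h3⟩ := h3
  by_cases h : G.Col
  · exact Or.inl h.flow
  · exact Or.inr ((induct3 _ G le_rfl hb' (hyp_of_trees s t 3 s' t' c h3) h).contracts hb' hc)

end

end Pool.Agent.Lib.CF64
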