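import Pool.Agent.Lib.CF64.Count

set_option linter.unusedSectionVars false
set_option linter.unusedVariables false
set_option linter.unusedSimpArgs false

namespace Pool.Agent.Lib.CF64

open Finset Pool.Agent.Lib.MP_aa6b05_co Pool.Agent.Lib.MP_aa6b05_co.MG

open scoped Classical

noncomputable section

variable {V E : Type} [Fintype V] [Fintype E]

/-- packing of two spanning sets for two supermodular co-rank functions -/
theorem pack (c1 c2 : Finset E → ℕ)
    (h1 : ∀ S T, c1 S + c1 T ≤ c1 (S ∪ T) + c1 (S ∩ T))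
    (h2 : ∀ S T, c2 S + c2 T ≤ c2 (S ∪ T) + c2 (S ∩ T)) (R : ℕ) (n : ℕ) :
    ∀ L1 L2 : Finset E, (L1 ∩ L2).card = n →
      (∀ X ⊆ L1 ∩ L2, c1 (L1 \ X) + c2 (L2 \ X) ≤ X.card + R) →
      ∃ T1 ⊆ L1, ∃ T2 ⊆ L2, Disjoint T1 T2 ∧ c1 T1 + c2 T2 ≤ R := by
  induction n with
  | zero =>
    intro L1 L2 hn h
    refine ⟨L1, Subset.rfl, L2, Subset.rfl, disjoint_iff_inter_eq_empty.mpr (card_eq_zero.mp hn), ?_⟩
    simpa using h ∅ (empty_subset _)
  | succ n ih =>
    intro L1 L2 hn h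
    obtain ⟨e, he⟩ : (L1 ∩ L2).Nonempty := card_pos.mp (by omega)
    have he1 := (mem_inter.mp he).1
    have he2 := (mem_inter.mp he).2
    have i1 : L1.erase e ∩ L2 = (L1 ∩ L2).erase e := by ext x; simp [and_assoc]
    have i2 : L1 ∩ L2.erase e = (L1 ∩ L2).erase e := by ext x; simp; tauto
    by_cases a : ∀ X ⊆ L1.erase e ∩ L2, c1 (L1.erase e \ X) + c2 (L2 \ X) ≤ X.card + R
    · obtain ⟨T1, a1, T2, a2, a3⟩ := ih _ _ (by rw [i1, card_erase_of_mem he]; omega) a
      exact ⟨T1, a1.trans (erase_subset _ _), T2, a2, a3⟩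
    by_cases b : ∀ X ⊆ L1 ∩ L2.erase e, c1 (L1 \ X) + c2 (L2.erase e \ X) ≤ X.card + R
    · obtain ⟨T1, a1, T2, a2, a3⟩ := ih _ _ (by rw [i2, card_erase_of_mem he]; omega) b
      exact ⟨T1, a1, T2, a2.trans (erase_subset _ _), a3⟩
    exfalso
    push Not at a b
    obtain ⟨X, hX, a⟩ := a
    obtain ⟨Y, hY, b⟩ := b
    rw [i1] at hX
    rw [i2] at hY
    have eX : e ∉ X := fun h => by simpa using hX h
    have eY : e ∉ Y := fun h => by simpa using hY h
    have p1 := h1 (L1.erase e \ X) (L1 \ Y)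
    have p2 := h2 (L2 \ X) (L2.erase e \ Y)
    have q1 : L1.erase e \ X ∪ L1 \ Y = L1 \ (X ∩ Y) := by
      ext x
      by_cases hx : x = e
      · simp [hx, eX, eY, he1]
      · simp [hx]; tauto
    have q2 : (L1.erase e \ X) ∩ (L1 \ Y) = L1 \ insert e (X ∪ Y) := by
      ext x; simp; tauto
    have q3 : L2 \ X ∪ L2.erase e \ Y = L2 \ (X ∩ Y) := by
      ext x
      by_cases hx : x = e
      · simp [hx, eX, eY, he2]
      · simp [hx]; tauto
    have q4 : (L2 \ X) ∩ (L2.erase e \ Y) = L2 \ insert e (X ∪ Y) := by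
      ext x; simp; tauto
    rw [q1, q2] at p1
    rw [q3, q4] at p2
    have hX' : X ⊆ L1 ∩ L2 := hX.trans (erase_subset _ _)
    have hY' : Y ⊆ L1 ∩ L2 := hY.trans (erase_subset _ _)
    have r1 := h (X ∩ Y) (inter_subset_left.trans hX')
    have r2 := h (insert e (X ∪ Y)) (insert_subset he (union_subset hX' hY'))
    have r3 := card_insert_le e (X ∪ Y)
    have r4 := card_union_add_card_inter X Y
    omega

/-- functions supported on `W` and constant along the edges of `S` -/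
def zsp (G : MG V E) (W : Finset V) (S : Finset E) : Submodule (ZMod 2) (V → ZMod 2) where
  carrier := {g | (∀ v, v ∉ W → g v = 0) ∧ ∀ e ∈ S, g (G.s e) = g (G.t e)}
  add_mem' := by
    rintro a b ⟨a1, a2⟩ ⟨b1, b2⟩
    exact ⟨fun v hv => by simp [a1 v hv, b1 v hv], fun e he => by simp [a2 e he, b2 e he]⟩
  zero_mem' := ⟨fun _ _ => rfl, fun _ _ => rfl⟩
  smul_mem' := by
    rintro c a ⟨a1, a2⟩
    exact ⟨fun v hv => by simp [a1 v hv], fun e he => by simp [a2 e he]⟩

def cc (G : MG V E) (W : Finset V) (S : Finset E) : ℕ := Module.finrank (ZMod 2) (zsp G W S)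

variable {G : MG V E}

theorem mem_zsp {W : Finset V} {S : Finset E} {g : V → ZMod 2} :
    g ∈ zsp G W S ↔ (∀ v, v ∉ W → g v = 0) ∧ ∀ e ∈ S, g (G.s e) = g (G.t e) := Iff.rfl

theorem cc_super (W : Finset V) (S T : Finset E) :
    cc G W S + cc G W T ≤ cc G W (S ∪ T) + cc G W (S ∩ T) := by
  have h1 := Submodule.finrank_sup_add_finrank_inf_eq (zsp G W S) (zsp G W T)
  have h2 : zsp G W S ⊓ zsp G W T = zsp G W (S ∪ T) := by
    ext g
    simp only [Submodule.mem_inf, mem_zsp, mem_union]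
    constructor
    · rintro ⟨⟨a, b⟩, -, c⟩
      exact ⟨a, fun e he => he.elim (b e) (c e)⟩
    · rintro ⟨a, b⟩
      exact ⟨⟨a, fun e he => b e (Or.inl he)⟩, a, fun e he => b e (Or.inr he)⟩
  have h3 : zsp G W S ⊔ zsp G W T ≤ zsp G W (S ∩ T) := by
    apply sup_le
    · exact fun g hg => ⟨hg.1, fun e he => hg.2 e (mem_inter.mp he).1⟩
    · exact fun g hg => ⟨hg.1, fun e he => hg.2 e (mem_inter.mp he).2⟩
  have h4 := Submodule.finrank_mono h3
  rw [h2] at h1
  unfold cc
  omega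

theorem cc_le {W : Finset V} {S : Finset E} (R : Finset V)
    (h : ∀ g ∈ zsp G W S, (∀ r ∈ R, g r = 0) → ∀ v ∈ W, g v = 0) : cc G W S ≤ R.card := by
  let f : zsp G W S →ₗ[ZMod 2] (R → ZMod 2) :=
    { toFun := fun g r => g.1 r.1
      map_add' := fun _ _ => rfl
      map_smul' := fun _ _ => rfl }
  have hf : Function.Injective f := by
    rw [injective_iff_map_eq_zero]
    intro g hg
    ext v
    by_cases hv : v ∈ W
    · exact h g.1 g.2 (fun r hr => congrFun hg ⟨r, hr⟩) v hv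
    · exact g.2.1 v hv
  have := LinearMap.finrank_le_finrank_of_injective hf
  simpa [cc] using this

theorem one_le_cc {W : Finset V} {S : Finset E} (hW : W.Nonempty)
    (hS : ∀ e ∈ S, (G.s e ∈ W ↔ G.t e ∈ W)) : 1 ≤ cc G W S := by
  unfold cc
  rw [Nat.one_le_iff_ne_zero, Ne, Submodule.finrank_eq_zero]
  intro h
  have : (fun v => if v ∈ W then (1 : ZMod 2) else 0) ∈ zsp G W S :=
    ⟨fun v hv => by simp [hv], fun e he => by simp [hS e he]⟩
  rw [h, Submodule.mem_bot] at this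
  obtain ⟨v, hv⟩ := hW
  have := congrFun this v
  simp [hv] at this

theorem const_of_cc {W : Finset V} {S : Finset E} (hS : ∀ e ∈ S, (G.s e ∈ W ↔ G.t e ∈ W))
    (h : cc G W S ≤ 1) {g : V → ZMod 2} (hg : g ∈ zsp G W S) {a b : V} (ha : a ∈ W) (hb : b ∈ W) :
    g a = g b := by
  have h1 : (fun v => if v ∈ W then (1 : ZMod 2) else 0) ∈ zsp G W S :=
    ⟨fun v hv => by simp [hv], fun e he => by simp [hS e he]⟩
  obtain ⟨x, hx⟩ := finrank_le_one_iff.mp h
  obtain ⟨c, hc⟩ := hx ⟨_, h1⟩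
  obtain ⟨d, hd⟩ := hx ⟨_, hg⟩
  have e1 := congrFun (congrArg Subtype.val hc) a
  have e2 := congrFun (congrArg Subtype.val hc) b
  have e3 := congrFun (congrArg Subtype.val hd) a
  have e4 := congrFun (congrArg Subtype.val hd) b
  simp only [Submodule.coe_smul, Pi.smul_apply, smul_eq_mul, ha, hb, if_true] at e1 e2 e3 e4
  rw [← e3, ← e4]
  have : ∀ c p q : ZMod 2, c * p = 1 → c * q = 1 → p = q := by decide
  rw [this c _ _ e1 e2]

theorem df_sum {M : Type} [AddCommMonoid M] {ι : Type} (I : Finset ι) (φ : ι → E → M) (v : V) :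
    G.df (fun e => ∑ i ∈ I, φ i e) v = ∑ i ∈ I, G.df (φ i) v := by
  unfold df
  rw [sum_comm]

/-- a connected edge set contains a join for every even set -/
theorem exists_join {W : Finset V} {S : Finset E} (hS : ∀ e ∈ S, (G.s e ∈ W ↔ G.t e ∈ W))
    (h : cc G W S ≤ 1) (u : V → ZMod 2) (hu : ∀ v, v ∉ W → u v = 0) (hs : ∑ v, u v = 0) :
    ∃ J : E → ZMod 2, (∀ e, e ∉ S → J e = 0) ∧ ∀ v, G.df J v = u v := by
  by_cases hW : W.Nonempty
  swap
  · rw [not_nonempty_iff_eq_empty] at hW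
    exact ⟨fun _ => 0, fun _ _ => rfl, fun v => by simp [df, hu v (by simp [hW])]⟩
  obtain ⟨r, hr⟩ := hW
  let P : V → Prop := fun w => ∃ J : E → ZMod 2, (∀ e, e ∉ S → J e = 0) ∧
    ∀ v, G.df J v = (if v = r then 1 else 0) + (if v = w then 1 else 0)
  have step : ∀ e ∈ S, ∀ a b, G.Joins e a b → P a → P b := by
    rintro e he a b hj ⟨J, j1, j2⟩
    refine ⟨fun f => J f + if f = e then 1 else 0, fun f hf => ?_, fun v => ?_⟩
    · have : f ≠ e := fun h => hf (h ▸ he)
      simp [j1 f hf, this]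
    · rw [df_add, j2, df_single zmod2_add_self hj]
      have : ∀ x y z : ZMod 2, x + y + (y + z) = x + z := by decide
      rw [this]
  have hg : (fun v => if v ∈ W ∧ P v then (1 : ZMod 2) else 0) ∈ zsp G W S := by
    refine ⟨fun v hv => by simp [hv], fun e he => ?_⟩
    have : P (G.s e) ↔ P (G.t e) :=
      ⟨step e he _ _ (joins_self e), step e he _ _ (joins_self e).symm⟩
    simp only [hS e he, this]
  have hall : ∀ w ∈ W, P w := by
    intro w hw
    have h1 := const_of_cc hS h hg hr hw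
    have h2 : P r := ⟨fun _ => 0, fun _ _ => rfl, fun v => by simp [df, zmod2_add_self]⟩
    by_contra hc
    simp [hr, h2, hc] at h1
  choose! J j1 j2 using hall
  refine ⟨fun e => ∑ w ∈ W, u w * J w e, fun e he => sum_eq_zero fun w hw => by simp [j1 w hw e he],
    fun v => ?_⟩
  rw [df_sum]
  have e1 : ∀ w ∈ W, G.df (fun e => u w * J w e) v =
      (if v = r then u w else 0) + (if v = w then u w else 0) := by
    intro w hw
    rw [df_hom (fun x => u w * x) (fun x y => mul_add _ _ _), j2 w hw]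
    split_ifs <;> simp [mul_add]
  rw [sum_congr rfl e1, sum_add_distrib, sum_ite_eq]
  have e2 : ∑ w ∈ W, u w = 0 := by
    rw [← hs]
    exact sum_subset (subset_univ _) (fun x _ hx => hu x hx)
  have e3 : ∑ w ∈ W, (if v = r then u w else 0) = 0 := by
    split_ifs
    · exact e2
    · simp
  rw [e3, zero_add]
  split_ifs with hv
  · rfl
  · exact (hu v hv).symm

/-- canonical representatives of the components of an edge set -/
theorem exists_rep (S : Finset E) : ∃ κ : V → V, (∀ e ∈ S, κ (G.s e) = κ (G.t e)) ∧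
    ∀ (α : Type) (g : V → α), (∀ e ∈ S, g (G.s e) = g (G.t e)) → ∀ v, g (κ v) = g v := by
  let r : V → V → Prop := fun a b => ∃ e ∈ S, G.s e = a ∧ G.t e = b
  refine ⟨fun v => (Quot.mk r v).out, fun e he => ?_, fun α g hg v => ?_⟩
  · have : Quot.mk r (G.s e) = Quot.mk r (G.t e) := Quot.sound ⟨e, he, rfl, rfl⟩
    simp only [this]
  · have hr : ∀ a b, r a b → g a = g b := by
      rintro a b ⟨e, he, rfl, rfl⟩
      exact hg e he
    have := congrArg (Quot.lift g hr) (Quot.out_eq (Quot.mk r v))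
    exact this

end

end Pool.Agent.Lib.CF64
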