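import Pool.Agent.Lib.CF64.Hyp
import Pool.Agent.Lib.MP_aa6b05_co.Final

set_option linter.unusedSectionVars false
set_option linter.unusedVariables false
set_option linter.unusedSimpArgs false

namespace Pool.Agent.Lib.CF64

open Finset Pool.Agent.Lib.MP_aa6b05_co Pool.Agent.Lib.MP_aa6b05_co.MG

open scoped Classical

noncomputable section

variable {V E : Type} [Fintype V] [Fintype E] {G : MG V E} {N : Finset V} {f : ℕ}

/-- a new vertex joined to every vertex of `S` -/
def plus (G : MG V E) (S : Finset V) : MG (Option V) (E ⊕ V) where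
  s := Sum.elim (fun e => some (G.s e)) (fun _ => none)
  t := Sum.elim (fun e => some (G.t e)) (fun v => if v ∈ S then some v else none)

theorem plus_d (S : Finset V) (X : Set (Option V)) : (plus G S).d X =
    G.d (some ⁻¹' X) + (S.filter (fun v => ¬ (none ∈ X ↔ some v ∈ X))).card := by
  rw [d_eq_sum, d_eq_sum, Fintype.sum_sum_type]
  congr 1
  rw [card_filter, ← sum_subset (subset_univ S)]
  · apply sum_congr rfl
    intro v hv
    simp [plus, hv]
  · intro v _ hv
    simp [plus, hv]

theorem plus_df (S : Finset V) (φ : E ⊕ V → K) (v : V) : (plus G S).df φ (some v) =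
    G.df (fun e => φ (Sum.inl e)) v + if v ∈ S then φ (Sum.inr v) else 0 := by
  unfold df cut
  rw [sum_filter, sum_filter, Fintype.sum_sum_type]
  congr 1
  · apply sum_congr rfl
    intro e _
    simp [plus]
  · rw [sum_eq_single v]
    · by_cases h : v ∈ S <;> simp [plus, h]
    · intro w _ hw
      by_cases h : w ∈ S <;> simp [plus, h, hw]
    · simp

theorem plus_m (S : Finset V) (π : Option V → Fin 10) :
    (G.map (π ∘ some)).m + (S.filter (fun v => π none ≠ π (some v))).card ≤
      ((plus G S).map (id ∘ π)).m := by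
  unfold MG.m
  rw [card_filter, card_filter, card_filter, Fintype.sum_sum_type]
  apply Nat.add_le_add
  · apply sum_le_sum
    intro e _
    by_cases h : π (some (G.s e)) = π (some (G.t e)) <;> simp [plus, MG.map, h]
  · refine le_trans (sum_le_sum fun v hv => ?_) (sum_le_sum_of_subset (subset_univ S))
    simp [plus, MG.map, hv]

theorem plus_oc (S : Finset V) : (plus G S).oc Set.univ ≤ G.oc Set.univ + S.card + 1 := by
  obtain ⟨O, h1, h2⟩ : ∃ O : Finset V, O.card = G.oc Set.univ ∧ ∀ v, Odd (G.d {v}) → v ∈ O :=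
    ⟨_, rfl, fun v hv => by simpa using hv⟩
  have h3 : (plus G S).oc Set.univ ≤ (insert none ((O ∪ S).image some)).card := by
    unfold oc
    apply card_le_card
    intro w hw
    simp only [mem_filter] at hw
    have h4 := hw.2.2
    rcases w with _ | v
    · simp
    · refine mem_insert_of_mem (mem_image_of_mem _ ?_)
      by_cases h : v ∈ S
      · exact mem_union_right _ h
      · refine mem_union_left _ (h2 v ?_)
        rw [plus_d, card_eq_zero.mpr, add_zero] at h4
        · convert h4
          ext x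
          simp
        · rw [eq_empty_iff_forall_notMem]
          intro x hx
          simp only [mem_filter] at hx
          have : x ≠ v := fun e => h (e ▸ hx.1)
          simp [this] at hx
  have h4 := card_insert_le none ((O ∪ S).image some)
  have h5 := card_image_le (s := O ∪ S) (f := some)
  have h6 := card_union_le O S
  omega

theorem plus_bl (sp : Sp G N 3) {S : Finset V} (hS : S ⊆ N) (h2 : 2 ≤ S.card) : (plus G S).Bl := by
  have key : ∀ X : Set (Option V), none ∉ X → (plus G S).d X ≠ 1 := by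
    intro X hX
    rw [plus_d]
    by_cases a : ∀ v ∈ N, v ∉ some ⁻¹' X
    · rw [d_zero sp.hN a, filter_false_of_mem]
      · simp
      · intro v hv
        have : some v ∉ X := a v (hS hv)
        simp [hX, this]
    by_cases b : ∀ v ∈ N, v ∉ (some ⁻¹' X)ᶜ
    · rw [filter_true_of_mem]
      · omega
      · intro v hv
        have : some v ∈ X := not_not.mp (b v (hS hv))
        simp [hX, this]
    push Not at a b
    obtain ⟨u, hu, a⟩ := a
    obtain ⟨v, hv, b⟩ := b
    have c1 := d_ge (G := G) N (some ⁻¹' X)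
    have c2 := sp.F_ge (filter_subset (fun v => v ∈ some ⁻¹' X) N)
    have c3 := sp.F_ge (filter_subset (fun v => v ∉ some ⁻¹' X) N)
    have c4 := card_filter_add_card_filter_not (s := N) (fun v => v ∈ some ⁻¹' X)
    have c5 : 0 < (N.filter (fun v => v ∈ some ⁻¹' X)).card := card_pos.mpr ⟨u, mem_filter.mpr ⟨hu, a⟩⟩
    have c6 : 0 < (N.filter (fun v => v ∉ some ⁻¹' X)).card := card_pos.mpr ⟨v, mem_filter.mpr ⟨hv, b⟩⟩
    have c7 := sp.ten
    have c8 := sp.tot
    omega
  intro X
  by_cases h : none ∈ X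
  · rw [← d_compl]
    exact key _ (by simpa using h)
  · exact key X h

theorem plus_not_pet (sp : Sp G N 3) {S : Finset V} (hS : S ⊆ N) (h2 : 2 ≤ S.card) :
    ¬ (plus G S).Quo Pet := by
  rintro ⟨π, ι, q⟩
  have a1 := (plus_m (G := G) S π).trans (quo_m_le q id)
  have a2 := part_sum (G := G) (π ∘ some) N
  have a3 := sp.tot
  have a4 : ∀ i ∈ N.image (π ∘ some), 0 ≤ Fz G (N.filter (fun v => (π ∘ some) v = i)) := by
    intro i hi
    obtain ⟨v, hv, rfl⟩ := mem_image.mp hi
    exact (sp.F_ge (filter_subset _ _)).1 (card_pos.mpr ⟨v, by simp [hv]⟩)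
  have a5 : ∀ i, i ∉ N.image (π ∘ some) →
      (S.filter (fun v => ¬ (none ∈ π ⁻¹' {i} ↔ some v ∈ π ⁻¹' {i}))).card = 3 := by
    intro i hi
    have b := q.d_eq {i}
    have c : G.d (some ⁻¹' (π ⁻¹' {i})) = 0 :=
      d_zero sp.hN (fun v hv hv' => hi (mem_image.mpr ⟨v, hv, hv'⟩))
    rw [pet_d, plus_d, c, zero_add] at b
    convert b
  have a6 : univ.erase (π none) ⊆ N.image (π ∘ some) := by
    intro i hi
    by_contra hn
    have b := a5 i hn
    rw [filter_false_of_mem] at b
    · simp at b
    · intro v hv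
      have c1 : π (some v) ≠ i := fun h => hn (mem_image.mpr ⟨v, hS hv, h⟩)
      have c2 : π none ≠ i := (mem_erase.mp hi).1.symm
      simp [c1, c2]
  have a7 := sum_nonneg a4
  by_cases h : π none ∈ N.image (π ∘ some)
  · have b1 : N.image (π ∘ some) = univ := by
      rw [eq_univ_iff_forall]
      intro i
      by_cases hi : i = π none
      · exact hi ▸ h
      · exact a6 (by simp [hi])
    have b2 : (N.image (π ∘ some)).card = 10 := by rw [b1]; simp
    have b3 := single_le_sum a4 h
    have b4 : S ⊆ N.filter (fun v => (π ∘ some) v = π none) := by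
      intro v hv
      refine mem_filter.mpr ⟨hS hv, ?_⟩
      by_contra hn
      have : 0 < (S.filter (fun v => π none ≠ π (some v))).card :=
        card_pos.mpr ⟨v, mem_filter.mpr ⟨hv, fun h => hn h.symm⟩⟩
      omega
    have b5 := (sp.F_ge (filter_subset (fun v => (π ∘ some) v = π none) N)).2.1
      (h2.trans (card_le_card b4))
    omega
  · have b1 := a5 _ h
    have b2 : (S.filter (fun v => ¬ (none ∈ π ⁻¹' {π none} ↔ some v ∈ π ⁻¹' {π none}))).card ≤
        (S.filter (fun v => π none ≠ π (some v))).card := by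
      apply card_le_card
      intro v hv
      simp only [mem_filter, Set.mem_preimage, Set.mem_singleton_iff, true_iff] at hv ⊢
      exact ⟨hv.1, Ne.symm hv.2⟩
    have b3 := card_le_card a6
    rw [card_erase_of_mem (mem_univ _)] at b3
    simp only [card_univ, Fintype.card_fin] at b3
    omega

theorem match_aut {β γ : V → K} (h : ∀ v, β v ≠ 0 ↔ γ v ≠ 0) (h1 : ∑ v, β v = 0) (h2 : ∑ v, γ v = 0)
    (h3 : 2 ≤ (univ.filter (fun v => β v ≠ 0)).card)
    (h4 : (univ.filter (fun v => β v ≠ 0)).card ≤ 3) : ∃ σ, GoodAut σ ∧ ∀ v, σ (γ v) = β v := by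
  set S := univ.filter (fun v => β v ≠ 0) with hS
  have mS : ∀ v, v ∈ S ↔ β v ≠ 0 := fun v => by simp [hS]
  have s1 : ∑ v ∈ S, β v = 0 := by
    rw [← h1]
    exact sum_subset (subset_univ _) fun v _ hv => not_not.mp (mt (mS v).mpr hv)
  have s2 : ∑ v ∈ S, γ v = 0 := by
    rw [← h2]
    exact sum_subset (subset_univ _) fun v _ hv => not_not.mp (mt (h v).mpr (mt (mS v).mpr hv))
  have fin : ∀ σ, GoodAut σ → (∀ v ∈ S, σ (γ v) = β v) → ∀ v, σ (γ v) = β v := by
    intro σ hσ a v
    by_cases hv : v ∈ S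
    · exact a v hv
    · have b1 : β v = 0 := not_not.mp (mt (mS v).mpr hv)
      have b2 : γ v = 0 := not_not.mp (mt (h v).mpr (mt (mS v).mpr hv))
      have := hσ.1 0 0
      rw [add_zero] at this
      rw [b1, b2, this, K.add_self]
  by_cases c : S.card = 2
  · obtain ⟨x, y, hxy, e⟩ := card_eq_two.mp c
    have nx := (mS x).mp (by simp [e])
    rw [e, sum_pair hxy] at s1 s2
    obtain ⟨σ, hσ, a⟩ := exists_aut_one (γ x) (β x) ((h x).mp nx) nx
    refine ⟨σ, hσ, fin σ hσ fun v hv => ?_⟩
    rw [e, mem_insert, mem_singleton] at hv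
    rcases hv with rfl | rfl
    · exact a
    · rw [← K.eq_of_add_eq_zero s1, ← K.eq_of_add_eq_zero s2, a]
  · obtain ⟨x, y, z, hxy, hxz, hyz, e⟩ := card_eq_three.mp (show S.card = 3 by omega)
    have nx := (mS x).mp (by simp [e])
    have ny := (mS y).mp (by simp [e])
    have nz := (mS z).mp (by simp [e])
    rw [e, sum_insert (by simp [hxy, hxz]), sum_pair hyz] at s1 s2
    obtain ⟨σ, hσ, a1, a2, a3⟩ := K.three _ _ _ _ _ _ ((h x).mp nx) ((h y).mp ny) ((h z).mp nz)
      nx ny nz s2 s1
    refine ⟨σ, hσ, fin σ hσ fun v hv => ?_⟩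
    simp only [e, mem_insert, mem_singleton] at hv
    rcases hv with rfl | rfl | rfl <;> assumption

/-- a sparse graph three edges short of two trees accepts every non-zero boundary -/
theorem feas3 (sp : Sp G N 3) {β : V → K} (hβ : ∀ v, v ∉ N → β v = 0) (hs : ∑ v, β v = 0)
    {p : V} (hp : β p ≠ 0) : Feas G β := by
  refine (key3 sp hβ hs).elim id fun ⟨h1, h2⟩ => ?_
  set S := univ.filter (fun v => β v ≠ 0) with hS
  have mS : ∀ v, v ∈ S ↔ β v ≠ 0 := fun v => by simp [hS]
  have h3 : S ⊆ N := fun v hv => by_contra fun h => (mS v).mp hv (hβ v h)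
  have h4 : 2 ≤ S.card := by
    by_contra hn
    rw [sum_eq_single p (fun v _ hv => by_contra fun h =>
      hv (card_le_one.mp (show S.card ≤ 1 by omega) v ((mS v).mpr h) p ((mS p).mpr hp)))
      (by simp)] at hs
    exact hp hs
  have h5 : (plus G S).Col := by
    by_contra hn
    exact plus_not_pet sp h3 h4 (t16 (plus_bl sp h3 h4)
      (by have := plus_oc (G := G) S; omega) hn)
  obtain ⟨φ, a1, a2⟩ := h5
  have a3 : ∀ v, β v ≠ 0 ↔ G.df (fun e => φ (Sum.inl e)) v ≠ 0 := by
    intro v
    have := a2 (some v) trivial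
    rw [plus_df] at this
    rw [K.eq_of_add_eq_zero this, ← mS]
    split_ifs with h
    · simp [h, a1]
    · simp [h]
  obtain ⟨σ, hσ, a4⟩ := match_aut a3 hs (sum_df_zero K.add_self _) h4 h2
  exact ⟨fun e => σ (φ (Sum.inl e)), fun e => hσ.2 _ (a1 _), fun v => by rw [df_hom σ hσ.1, a4]⟩

end

end Pool.Agent.Lib.CF64
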