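import Pool.Agent.Lib.MP_aa6b05_co.Defs

set_option linter.unusedSectionVars false
set_option linter.unusedVariables false
set_option linter.unusedSimpArgs false

namespace Pool.Agent.Lib.CF64.Sharp53

open Finset Pool.Agent.Lib.MP_aa6b05_co.D

section walks

variable {V E : Type} [DecidableEq V]

/-- Check that a list of edges, all satisfying `p`, is a walk from `a` to `b`. -/
def chk (s t : E → V) (p : E → Bool) : V → List E → V → Bool
  | a, [], b => decide (a = b)
  | a, f :: l, b => p f && ((decide (s f = a) && chk s t p (t f) l b) ||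
      (decide (t f = a) && chk s t p (s f) l b))

theorem conn_of_chk (s t : E → V) (p : E → Bool) (F : Set E) (hF : ∀ e, p e = true → e ∈ F) :
    ∀ (l : List E) (a b : V), chk s t p a l b = true → Conn s t Set.univ F a b
  | [], a, b, h => by
    simp only [chk, decide_eq_true_eq] at h
    subst h
    exact Relation.ReflTransGen.refl
  | f :: l, a, b, h => by
    simp only [chk, Bool.and_eq_true, Bool.or_eq_true, decide_eq_true_eq] at h
    obtain ⟨hp, ⟨h1, h2⟩ | ⟨h1, h2⟩⟩ := h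
    · exact Relation.ReflTransGen.head ⟨trivial, trivial, f, hF f hp, Or.inl ⟨h1, rfl⟩⟩
        (conn_of_chk s t p F hF l _ b h2)
    · exact Relation.ReflTransGen.head ⟨trivial, trivial, f, hF f hp, Or.inr ⟨rfl, h1⟩⟩
        (conn_of_chk s t p F hF l _ b h2)

theorem conn_symm {s t : E → V} {F : Set E} {a b : V} (h : Conn s t Set.univ F a b) :
    Conn s t Set.univ F b a := by
  induction h with
  | refl => exact Relation.ReflTransGen.refl
  | tail _ hs ih =>
    obtain ⟨-, -, e, he, hl⟩ := hs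
    exact Relation.ReflTransGen.head ⟨trivial, trivial, e, he, hl.symm⟩ ih

theorem conn_all {s t : E → V} {F : Set E} {r : V} (h : ∀ v, Conn s t Set.univ F r v) (a b : V) :
    Conn s t Set.univ F a b :=
  Relation.ReflTransGen.trans (conn_symm (h a)) (h b)

theorem conn_map {E' : Type} {s t : E → V} {s' t' : E' → V} {F : Set E} {F' : Set E'}
    (φ : E → E') (hs : ∀ e, s' (φ e) = s e) (ht : ∀ e, t' (φ e) = t e)
    (hF : ∀ e ∈ F, φ e ∈ F') {a b : V} (h : Conn s t Set.univ F a b) :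
    Conn s' t' Set.univ F' a b := by
  induction h with
  | refl => exact Relation.ReflTransGen.refl
  | tail _ hx ih =>
    obtain ⟨-, -, e, he, hl⟩ := hx
    refine Relation.ReflTransGen.tail ih ⟨trivial, trivial, φ e, hF e he, ?_⟩
    unfold Link at hl ⊢
    rw [hs, ht]
    exact hl

end walks

theorem sum_filter_list {E M : Type} [Fintype E] [DecidableEq E] [AddCommMonoid M] (p : E → Prop)
    [DecidablePred p] (l : List E) (hl : l.Nodup) (h : ∀ e, p e ↔ e ∈ l) (f : E → M) :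
    ∑ e with p e, f e = (l.map f).sum := by
  rw [← List.sum_toFinset f hl]
  refine sum_congr ?_ (fun _ _ => rfl)
  ext e
  simp [h]

/-- Two copies of the Petersen graph glued along the edge `0 1`: tails. -/
def sE (e : Fin 29) : Fin 18 :=
  ([0, 1, 2, 3, 4, 0, 1, 2, 3, 4, 5, 7, 9, 6, 8, 1, 10, 11, 12, 0, 1, 10, 11, 12, 13, 15, 17, 14,
    16] : List (Fin 18)).getD e.val 0

/-- Heads. -/
def tE (e : Fin 29) : Fin 18 :=
  ([1, 2, 3, 4, 0, 5, 6, 7, 8, 9, 7, 9, 6, 8, 5, 10, 11, 12, 0, 13, 14, 15, 16, 17, 15, 17, 14, 16,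
    13] : List (Fin 18)).getD e.val 0

def wConn (v : Fin 18) : List (Fin 29) :=
  ([[], [0], [0, 1], [4, 3], [4], [5], [0, 6], [5, 10], [5, 14], [4, 9], [0, 15], [18, 17], [18],
    [19], [0, 20], [19, 24], [19, 28], [18, 23]] : List (List (Fin 29))).getD v.val []

def wBl (e : Fin 29) : List (Fin 29) :=
  ([[4, 3, 2, 1], [0, 4, 3, 2], [1, 0, 4, 3], [2, 1, 0, 4], [3, 2, 1, 0], [0, 1, 7, 10],
    [0, 4, 9, 12], [1, 0, 5, 10], [2, 1, 6, 13], [3, 2, 7, 11], [5, 0, 1, 7], [7, 1, 6, 12],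
    [9, 3, 8, 13], [6, 0, 5, 14], [8, 2, 7, 10], [0, 18, 17, 16], [15, 0, 18, 17], [16, 15, 0, 18],
    [17, 16, 15, 0], [0, 15, 21, 24], [0, 18, 23, 26], [15, 0, 19, 24], [16, 15, 20, 27],
    [17, 16, 21, 25], [19, 0, 15, 21], [21, 15, 20, 26], [23, 17, 22, 27], [20, 0, 19, 28],
    [22, 16, 21, 24]] : List (List (Fin 29))).getD e.val []

theorem conn : ∀ a b, Conn sE tE Set.univ Set.univ a b := by
  have h : ∀ v, chk sE tE (fun _ => true) 0 (wConn v) v = true := by decide +kernel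
  exact conn_all (fun v => conn_of_chk sE tE _ _ (fun _ _ => trivial) _ _ _ (h v))

theorem bridgeless : Bridgeless sE tE := by
  have h : ∀ e, chk sE tE (fun f => decide (f ≠ e)) (sE e) (wBl e) (tE e) = true := by
    decide +kernel
  intro e
  exact conn_of_chk sE tE _ _ (fun f hf => by simpa using hf) _ _ _ (h e)

def tX (i : ℕ) : Fin 18 := ([9, 10, 11, 1, 2] : List (Fin 18)).getD i 0

def cX (i : ℕ) : Bool := ([false, false, false, true, true] : List Bool).getD i false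

def cE (e : Fin 29) : Bool :=
  ([false, false, true, false, true, true, false, false, false, true, false, true, true, true,
    false, true, true, true, false, false, false, true, true, true, false, false, true, false,
    true] : List Bool).getD e.val false

def ed (i : ℕ) : Fin 29 ⊕ Fin 5 :=
  if h : i < 29 then Sum.inl ⟨i, h⟩ else Sum.inr ⟨(i - 29) % 5, Nat.mod_lt _ (by decide)⟩

def wT (b : Bool) (v : Fin 18) : List (Fin 29 ⊕ Fin 5) :=
  (((if b then
    [[], [32], [33], [33, 2], [4], [5], [4, 9, 12], [4, 9, 11], [4, 9, 12, 13], [4, 9], [32, 15],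
      [32, 15, 16], [32, 15, 16, 17], [32, 15, 16, 22, 28], [32, 15, 16, 17, 23, 26], [32, 15, 21],
      [32, 15, 16, 22], [32, 15, 16, 17, 23]]
  else
    [[], [0], [0, 1], [0, 1, 7, 10, 14, 8], [0, 1, 7, 10, 14, 8, 3], [0, 1, 7, 10], [0, 6],
      [0, 1, 7], [0, 1, 7, 10, 14], [29], [30], [31], [18], [19], [0, 20], [19, 24], [0, 20, 27],
      [19, 24, 25]]) : List (List ℕ)).getD v.val []).map ed

theorem short (k : ℕ) (hk : 5 ≤ k) : ∃ (s' t' : Fin k → Fin 18) (c : Fin 29 ⊕ Fin k → Bool),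
    ∀ b u v, Conn (Sum.elim sE s') (Sum.elim tE t') Set.univ {e | c e = b} u v := by
  have h : ∀ b v, chk (Sum.elim sE (fun _ : Fin 5 => (0 : Fin 18)))
      (Sum.elim tE (fun i : Fin 5 => tX i.val))
      (fun e => decide (Sum.elim cE (fun i : Fin 5 => cX i.val) e = b)) 0 (wT b v) v = true := by
    decide +kernel
  refine ⟨fun _ => 0, fun i => tX i.val, Sum.elim cE (fun i => cX i.val), fun b => ?_⟩
  refine conn_all (r := 0) (fun v => ?_)
  have h1 := conn_of_chk _ _ _ {e | Sum.elim cE (fun i : Fin 5 => cX i.val) e = b}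
    (fun e he => by simpa using he) _ _ _ (h b v)
  refine conn_map (Sum.map id (Fin.castLE hk)) ?_ ?_ ?_ h1
  · rintro (e | e) <;> rfl
  · rintro (e | e) <;> rfl
  · rintro (e | e) he <;> exact he

theorem key : ∀ a b c d e z : ZMod 4, a ≠ 0 → b ≠ 0 → c ≠ 0 → d ≠ 0 → e ≠ 0 → z ≠ 0 →
    e - a ≠ 0 → b - c ≠ 0 → c - d ≠ 0 → d - e ≠ 0 → e - a + z ≠ 0 → b - c + (e - a + z) ≠ 0 →
    d - e + (b - c + (e - a + z)) ≠ 0 → z - (c - d) ≠ 0 →
    z - (c - d) - (d - e + (b - c + (e - a + z))) ≠ 0 → False := by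
  decide +kernel

/-- The Petersen graph has no nowhere-zero flow modulo 4 (one vertex equation is not needed). -/
theorem noP (x0 x1 x2 x3 x4 x5 x6 x7 x8 x9 x10 x11 x12 x13 x14 : ZMod 4)
    (n0 : x0 ≠ 0) (n1 : x1 ≠ 0) (n2 : x2 ≠ 0) (n3 : x3 ≠ 0) (n4 : x4 ≠ 0) (n5 : x5 ≠ 0)
    (n6 : x6 ≠ 0) (n7 : x7 ≠ 0) (n8 : x8 ≠ 0) (n9 : x9 ≠ 0) (n10 : x10 ≠ 0) (n11 : x11 ≠ 0)
    (n12 : x12 ≠ 0) (n13 : x13 ≠ 0) (n14 : x14 ≠ 0)
    (v0 : x0 + x5 = x4) (v2 : x2 + x7 = x1) (v3 : x3 + x8 = x2) (v4 : x4 + x9 = x3)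
    (v5 : x10 = x5 + x14) (v6 : x13 = x6 + x12) (v7 : x11 = x7 + x10) (v8 : x14 = x8 + x13)
    (v9 : x12 = x9 + x11) : False := by
  have e5 : x4 - x0 = x5 := by linear_combination -v0
  have e7 : x1 - x2 = x7 := by linear_combination -v2
  have e8 : x2 - x3 = x8 := by linear_combination -v3
  have e9 : x3 - x4 = x9 := by linear_combination -v4
  have e13 : x14 - x8 = x13 := by linear_combination v8
  have e6 : x13 - x12 = x6 := by linear_combination v6
  refine key x0 x1 x2 x3 x4 x14 n0 n1 n2 n3 n4 n14 ?_ ?_ ?_ ?_ ?_ ?_ ?_ ?_ ?_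
  · rwa [e5]
  · rwa [e7]
  · rwa [e8]
  · rwa [e9]
  · rwa [e5, ← v5]
  · rwa [e5, ← v5, e7, ← v7]
  · rwa [e5, ← v5, e7, ← v7, e9, ← v9]
  · rwa [e8, e13]
  · rwa [e5, ← v5, e7, ← v7, e9, ← v9, e8, e13, e6]

def outL (v : Fin 18) : List (Fin 29) :=
  ([[0, 5, 19], [1, 6, 15, 20], [2, 7], [3, 8], [4, 9], [10], [13], [11], [14], [12], [16, 21],
    [17, 22], [18, 23], [24], [27], [25], [28], [26]] : List (List (Fin 29))).getD v.val []

def inL (v : Fin 18) : List (Fin 29) :=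
  ([[4, 18], [0], [1], [2], [3], [5, 14], [6, 12], [7, 10], [8, 13], [9, 11], [15], [16], [17],
    [19, 28], [20, 26], [21, 24], [22, 27], [23, 25]] : List (List (Fin 29))).getD v.val []

theorem noflow : ¬ HasNZ4Flow sE tE := by
  rintro ⟨f, hf, hc⟩
  have o1 : ∀ v, (outL v).Nodup := by decide +kernel
  have o2 : ∀ v e, sE e = v ↔ e ∈ outL v := by decide +kernel
  have i1 : ∀ v, (inL v).Nodup := by decide +kernel
  have i2 : ∀ v e, tE e = v ↔ e ∈ inL v := by decide +kernel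
  obtain ⟨g, hg⟩ : ∃ g : Fin 29 → ZMod 4, ∀ e, g e = (f e : ZMod 4) := ⟨_, fun _ => rfl⟩
  have n : ∀ e, g e ≠ 0 := by
    intro e h
    rw [hg, ZMod.intCast_zmod_eq_zero_iff_dvd] at h
    obtain ⟨a, b⟩ := hf e
    obtain ⟨k, hk⟩ := h
    rcases abs_cases (f e) with ⟨c, _⟩ | ⟨c, _⟩ <;> omega
  have c : ∀ v, ((outL v).map g).sum = ((inL v).map g).sum := by
    intro v
    rw [← sum_filter_list _ _ (o1 v) (o2 v), ← sum_filter_list _ _ (i1 v) (i2 v)]
    have := congrArg (fun z : ℤ => (z : ZMod 4)) (hc v)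
    simpa only [Int.cast_sum, ← hg] using this
  have c0 : g 0 + (g 5 + (g 19 + 0)) = g 4 + (g 18 + 0) := c 0
  have c2 : g 2 + (g 7 + 0) = g 1 + 0 := c 2
  have c3 : g 3 + (g 8 + 0) = g 2 + 0 := c 3
  have c4 : g 4 + (g 9 + 0) = g 3 + 0 := c 4
  have c5 : g 10 + 0 = g 5 + (g 14 + 0) := c 5
  have c6 : g 13 + 0 = g 6 + (g 12 + 0) := c 6
  have c7 : g 11 + 0 = g 7 + (g 10 + 0) := c 7
  have c8 : g 14 + 0 = g 8 + (g 13 + 0) := c 8
  have c9 : g 12 + 0 = g 9 + (g 11 + 0) := c 9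
  have c10 : g 16 + (g 21 + 0) = g 15 + 0 := c 10
  have c11 : g 17 + (g 22 + 0) = g 16 + 0 := c 11
  have c12 : g 18 + (g 23 + 0) = g 17 + 0 := c 12
  have c13 : g 24 + 0 = g 19 + (g 28 + 0) := c 13
  have c14 : g 27 + 0 = g 20 + (g 26 + 0) := c 14
  have c15 : g 25 + 0 = g 21 + (g 24 + 0) := c 15
  have c16 : g 28 + 0 = g 22 + (g 27 + 0) := c 16
  have c17 : g 26 + 0 = g 23 + (g 25 + 0) := c 17
  simp only [add_zero] at c0 c2 c3 c4 c5 c6 c7 c8 c9 c10 c11 c12 c13 c14 c15 c16 c17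
  by_cases h : g 18 - g 19 = 0
  · exact noP (g 0) (g 1) (g 2) (g 3) (g 4) (g 5) (g 6) (g 7) (g 8) (g 9) (g 10) (g 11) (g 12)
      (g 13) (g 14) (n _) (n _) (n _) (n _) (n _) (n _) (n _) (n _) (n _) (n _) (n _) (n _) (n _)
      (n _) (n _) (by linear_combination c0 + h) c2 c3 c4 c5 c6 c7 c8 c9
  · exact noP (g 18 - g 19) (g 15) (g 16) (g 17) (g 18) (g 19) (g 20) (g 21) (g 22) (g 23) (g 24)
      (g 25) (g 26) (g 27) (g 28) h (n _) (n _) (n _) (n _) (n _) (n _) (n _) (n _) (n _) (n _)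
      (n _) (n _) (n _) (n _) (by ring) c10 c11 c12 c13 c14 c15 c16 c17

/-- Indicator of two different Booleans. -/
def df (x y : Bool) : ℕ := (xor x y).toNat

theorem cutA : ∀ x1 x2 x3 x4 x5 x6 x7 x8 x9 : Bool,
    (x1 && (x2 && (x3 && (x4 && (x5 && (x6 && (x7 && (x8 && x9)))))))) = true ∨
    3 ≤ df true x1 + df x1 x2 + df x2 x3 + df x3 x4 + df x4 true + df true x5 + df x1 x6 +
      df x2 x7 + df x3 x8 + df x4 x9 + df x5 x7 + df x7 x9 + df x9 x6 + df x6 x8 + df x8 x5 := by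
  decide +kernel

theorem cutB : ∀ x1 x2 x3 x4 x5 x6 x7 x8 x9 : Bool,
    (x1 && (x2 && (x3 && (x4 && (x5 && (x6 && (x7 && (x8 && x9)))))))) = true ∨
    1 ≤ df x1 x2 + df x2 x3 + df x3 x4 + df x4 true + df true x5 + df x1 x6 +
      df x2 x7 + df x3 x8 + df x4 x9 + df x5 x7 + df x7 x9 + df x9 x6 + df x6 x8 + df x8 x5 := by
  decide +kernel

theorem big (g : Fin 18 → Bool) (h0 : g 0 = true)
    (hc : ∑ e : Fin 29, df (g (sE e)) (g (tE e)) ≤ 3) :
    (univ.filter (fun v => g v = false)).card ≤ 8 := by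
  have hs : ∑ e : Fin 29, df (g (sE e)) (g (tE e)) =
      ((List.finRange 29).map (fun e => df (g (sE e)) (g (tE e)))).sum := Fin.sum_univ_def _
  have hs' : ((List.finRange 29).map (fun e => df (g (sE e)) (g (tE e)))).sum =
      df (g 0) (g 1) + (df (g 1) (g 2) + (df (g 2) (g 3) + (df (g 3) (g 4) + (df (g 4) (g 0) +
      (df (g 0) (g 5) + (df (g 1) (g 6) + (df (g 2) (g 7) + (df (g 3) (g 8) + (df (g 4) (g 9) +
      (df (g 5) (g 7) + (df (g 7) (g 9) + (df (g 9) (g 6) + (df (g 6) (g 8) + (df (g 8) (g 5) +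
      (df (g 1) (g 10) + (df (g 10) (g 11) + (df (g 11) (g 12) + (df (g 12) (g 0) +
      (df (g 0) (g 13) + (df (g 1) (g 14) + (df (g 10) (g 15) + (df (g 11) (g 16) +
      (df (g 12) (g 17) + (df (g 13) (g 15) + (df (g 15) (g 17) + (df (g 17) (g 14) +
      (df (g 14) (g 16) + (df (g 16) (g 13) + 0)))))))))))))))))))))))))))) := rfl
  rw [hs, hs', h0] at hc
  have a := cutA (g 1) (g 2) (g 3) (g 4) (g 5) (g 6) (g 7) (g 8) (g 9)
  have b := cutB (g 1) (g 10) (g 11) (g 12) (g 13) (g 14) (g 15) (g 16) (g 17)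
  simp only [Bool.and_eq_true] at a b
  rcases a with ⟨a1, a2, a3, a4, a5, a6, a7, a8, a9⟩ | a
  · refine le_trans (card_le_card (t := {10, 11, 12, 13, 14, 15, 16, 17}) ?_) (by decide)
    intro v hv
    have hv2 : g v ≠ true := by simpa using hv
    have : ∀ v : Fin 18, v ∈ ({10, 11, 12, 13, 14, 15, 16, 17} : Finset (Fin 18)) ∨
        v ∈ ([0, 1, 2, 3, 4, 5, 6, 7, 8, 9] : List (Fin 18)) := by decide +kernel
    refine (this v).resolve_right (fun h => hv2 ?_)
    simp only [List.mem_cons, List.not_mem_nil, or_false] at h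
    rcases h with rfl | rfl | rfl | rfl | rfl | rfl | rfl | rfl | rfl | rfl
    exacts [h0, a1, a2, a3, a4, a5, a6, a7, a8, a9]
  · rcases b with ⟨a1, a2, a3, a4, a5, a6, a7, a8, a9⟩ | b
    · refine le_trans (card_le_card (t := {2, 3, 4, 5, 6, 7, 8, 9}) ?_) (by decide)
      intro v hv
      have hv2 : g v ≠ true := by simpa using hv
      have : ∀ v : Fin 18, v ∈ ({2, 3, 4, 5, 6, 7, 8, 9} : Finset (Fin 18)) ∨
          v ∈ ([0, 1, 10, 11, 12, 13, 14, 15, 16, 17] : List (Fin 18)) := by decide +kernel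
      refine (this v).resolve_right (fun h => hv2 ?_)
      simp only [List.mem_cons, List.not_mem_nil, or_false] at h
      rcases h with rfl | rfl | rfl | rfl | rfl | rfl | rfl | rfl | rfl | rfl
      exacts [h0, a1, a2, a3, a4, a5, a6, a7, a8, a9]
    · have c := Nat.add_le_add a b
      simp only [add_assoc, add_zero] at c hc
      exact absurd (le_trans c hc) (by decide)

theorem nocontract : ¬ ContractsToPetersen sE tE := by
  classical
  rintro ⟨π, hs, -, hc⟩
  obtain ⟨a, ha⟩ : ∃ a, π 0 = a := ⟨_, rfl⟩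
  let g : Fin 18 → Bool := fun v => decide (π v = a)
  have h3 : ∀ a : PV, (univ.filter (fun b : PV => Disjoint a.1 b.1)).card = 3 := by
    decide +kernel
  have h10 : Fintype.card PV = 10 := by decide +kernel
  have hcut : ∑ e : Fin 29, df (g (sE e)) (g (tE e)) ≤ 3 := by
    have h1 : ∀ e, df (g (sE e)) (g (tE e)) ≤
        ∑ b ∈ univ.erase a, if Link (π ∘ sE) (π ∘ tE) e a b then 1 else 0 := by
      intro e
      by_cases p : π (sE e) = a <;> by_cases q : π (tE e) = a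
      · simp [g, df, p, q]
      · refine le_trans ?_ (single_le_sum (f := fun b =>
          if Link (π ∘ sE) (π ∘ tE) e a b then 1 else 0) (fun _ _ => Nat.zero_le _)
          (mem_erase.mpr ⟨q, mem_univ _⟩))
        rw [if_pos (show Link (π ∘ sE) (π ∘ tE) e a (π (tE e)) from Or.inl ⟨p, rfl⟩)]
        simp [g, df, p, q]
      · refine le_trans ?_ (single_le_sum (f := fun b =>
          if Link (π ∘ sE) (π ∘ tE) e a b then 1 else 0) (fun _ _ => Nat.zero_le _)
          (mem_erase.mpr ⟨p, mem_univ _⟩))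
        rw [if_pos (show Link (π ∘ sE) (π ∘ tE) e a (π (sE e)) from Or.inr ⟨rfl, q⟩)]
        simp [g, df, p, q]
      · simp [g, df, p, q]
    refine le_trans (sum_le_sum (fun e _ => h1 e)) ?_
    rw [sum_comm, ← h3 a, card_filter]
    refine le_trans (sum_le_sum (g := fun b : PV => if Disjoint a.1 b.1 then 1 else 0) ?_)
      (sum_le_sum_of_subset (erase_subset _ _))
    intro b hb
    rw [← hc a b (ne_of_mem_erase hb).symm, ← card_filter, ← Set.ncard_coe_finset]
    apply le_of_eq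
    congr 1
    ext e
    simp
  have h8 := big g (by simp [g, ha]) hcut
  have h9 : univ.erase a ⊆ (univ.filter (fun v => g v = false)).image π := by
    intro b hb
    obtain ⟨v, rfl⟩ := hs b
    exact mem_image_of_mem _ (by simpa [g] using ne_of_mem_erase hb)
  have h := le_trans (card_le_card h9) card_image_le
  rw [card_erase_of_mem (mem_univ _), card_univ, h10] at h
  omega

/-- For `k ≥ 5` the statement fails: two Petersen graphs glued along an edge. -/
theorem sharp (k : ℕ) (hk : 5 ≤ k) : ∃ s t : Fin 29 → Fin 18,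
    (∀ a b, Conn s t Set.univ Set.univ a b) ∧ Bridgeless s t ∧
    (∃ (s' t' : Fin k → Fin 18) (c : Fin 29 ⊕ Fin k → Bool),
      ∀ b u v, Conn (Sum.elim s s') (Sum.elim t t') Set.univ {e | c e = b} u v) ∧
    ¬ HasNZ4Flow s t ∧ ¬ ContractsToPetersen s t :=
  ⟨sE, tE, conn, bridgeless, short k hk, noflow, nocontract⟩

end Pool.Agent.Lib.CF64.Sharp53
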