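import Pool.Agent.Lib.CF64.Exist

set_option linter.unusedSectionVars false
set_option linter.unusedVariables false
set_option linter.unusedSimpArgs false

namespace Pool.Agent.Lib.CF64

open Finset Pool.Agent.Lib.MP_aa6b05_co Pool.Agent.Lib.MP_aa6b05_co.MG

open scoped Classical

noncomputable section

variable {V E : Type} [Fintype V] [Fintype E] {G : MG V E} {N : Finset V} {f : ℕ}

theorem excess (sp : Sp G N 3) :
    ∑ v ∈ N.filter (fun v => ¬ dg G v N = 3), ((dg G v N : ℤ) - 4) =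
      (N.filter (fun v => dg G v N = 3)).card - 10 := by
  have h1 : ∑ v ∈ N, ((dg G v N : ℤ) - 4) = -10 := by
    have a := sum_dg sp.gi.np N
    have b := sp.tot
    rw [sum_sub_distrib, sum_const, ← Nat.cast_sum, a]
    unfold Fz at b
    simp only [nsmul_eq_mul]
    push_cast at *
    omega
  rw [← sum_filter_add_sum_filter_not N (fun v => dg G v N = 3)] at h1
  have h2 : ∑ v ∈ N.filter (fun v => dg G v N = 3), ((dg G v N : ℤ) - 4) =
      ∑ v ∈ N.filter (fun v => dg G v N = 3), (-1 : ℤ) :=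
    sum_congr rfl fun v hv => by rw [(mem_filter.mp hv).2]; rfl
  rw [h2, sum_const] at h1
  simp only [nsmul_eq_mul] at h1
  omega

theorem three_n3 (sp : Sp G N 3) (g : V → ℤ) (h0 : ∀ v ∈ N, ¬ dg G v N = 3 → 0 ≤ g v)
    (h : ∀ a b, Adj G a b → dg G a N = 3 → ¬ dg G b N = 3 ∧ (dg G b N : ℤ) ≤ g b) :
    3 * ((N.filter (fun v => dg G v N = 3)).card : ℤ) ≤
      ∑ v ∈ N.filter (fun v => ¬ dg G v N = 3), g v := by
  set C := N.filter (fun v => dg G v N = 3) with hC
  set D := N.filter (fun v => ¬ dg G v N = 3) with hD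
  have h1 : ∑ a ∈ C, dg G a D = C.card * 3 := by
    rw [← smul_eq_mul, ← sum_const]
    apply sum_congr rfl
    intro a ha
    rw [← (mem_filter.mp ha).2]
    unfold dg
    congr 1
    ext w
    simp only [hD, mem_filter]
    exact ⟨fun a => ⟨a.1.1, a.2⟩, fun b => ⟨⟨b.1, (h a w b.2 (mem_filter.mp ha).2).1⟩, b.2⟩⟩
  rw [dg_double] at h1
  have h2 : ∑ b ∈ D, (dg G b C : ℤ) ≤ ∑ v ∈ D, g v := by
    apply sum_le_sum
    intro b hb
    by_cases hz : dg G b C = 0
    · rw [hz]
      exact h0 b (mem_filter.mp hb).1 (mem_filter.mp hb).2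
    · obtain ⟨a, ha, hab⟩ := dg_pos.mp (Nat.pos_of_ne_zero hz)
      have := (h a b hab.symm (mem_filter.mp ha).2).2
      have : dg G b C ≤ dg G b N := dg_mono b (filter_subset _ _)
      omega
  rw [← Nat.cast_sum, h1] at h2
  push_cast at h2
  omega

theorem exists35 (sp : Sp G N 3) : ∃ x y, Adj G x y ∧ dg G x N = 3 ∧ dg G y N ≤ 5 := by
  by_contra hn
  push Not at hn
  have h1 := three_n3 sp (fun v => 3 * ((dg G v N : ℤ) - 4))
    (fun v hv h => by have := sp.deg v hv; omega)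
    (fun a b h h' => by have := hn a b h h'; omega)
  rw [← mul_sum, excess sp] at h1
  omega

theorem n3_ge (sp : Sp G N 3) (h4 : (N.filter (fun v => dg G v N = 4)).card ≤ 3)
    (hn : ∀ a b, Adj G a b → dg G a N = 3 → ¬ dg G b N = 3) :
    19 ≤ (N.filter (fun v => dg G v N = 3)).card := by
  have h1 := three_n3 sp (fun v => 5 * ((dg G v N : ℤ) - 4) + 4 * if dg G v N = 4 then 1 else 0)
    (fun v hv h => by have := sp.deg v hv; split_ifs <;> omega)
    (fun a b h h' => by
      have := hn a b h h'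
      have := sp.deg b (sp.adj_mem h)
      split_ifs <;> omega)
  rw [sum_add_distrib, ← mul_sum, ← mul_sum, excess sp, sum_boole] at h1
  have : ((N.filter (fun v => ¬ dg G v N = 3)).filter (fun v => dg G v N = 4)).card ≤ 3 :=
    (card_le_card (filter_subset_filter _ (filter_subset _ _))).trans h4
  omega

theorem oc_le (sp : Sp G N 3) :
    G.oc Set.univ + 10 ≤ 2 * (N.filter (fun v => dg G v N = 3)).card := by
  have h1 := excess sp
  set C := N.filter (fun v => dg G v N = 3) with hC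
  set D := N.filter (fun v => ¬ dg G v N = 3) with hD
  have h2 : G.oc Set.univ ≤ (C ∪ D.filter (fun v => 5 ≤ dg G v N)).card := by
    unfold oc
    apply card_le_card
    intro v hv
    simp only [mem_filter] at hv
    have h3 := hv.2.2
    rw [sp.d_eq] at h3
    obtain ⟨w, hw, hvw⟩ := dg_pos.mp h3.pos
    have h4 := sp.adj_mem hvw.symm
    have h5 := sp.deg v h4
    simp only [hC, hD, mem_union, mem_filter, h4, true_and]
    rw [Nat.odd_iff] at h3
    omega
  have h3 := h2.trans (card_union_le _ _)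
  have h4 : ((D.filter (fun v => 5 ≤ dg G v N)).card : ℤ) ≤ ∑ v ∈ D, ((dg G v N : ℤ) - 4) := by
    rw [card_filter]
    push_cast
    apply sum_le_sum
    intro v hv
    have := sp.deg v (mem_filter.mp hv).1
    have := (mem_filter.mp hv).2
    split_ifs <;> omega
  omega

theorem noP4 (sp : Sp G N 3) {x y : V} (hxy : Adj G x y) (hx : dg G x N = 3)
    (hno : ∀ a b c d, Adj G a b → Adj G b c → Adj G c d → a ≠ c → b ≠ d → dg G d N ≤ 3 →
      (∀ v ∈ ({a, b, c, d} : Finset V), v ≠ x ∧ ¬ Adj G v x) →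
      (∀ v ∈ ({a, b, c, d} : Finset V), v ≠ y ∧ ¬ Adj G v y) → False) :
    (dg G y N = 3 → (N.filter (fun v => dg G v N = 3)).card ≤ 11) ∧
    (dg G y N ≤ 5 → (∀ a b, Adj G a b → dg G a N = 3 → ¬ dg G b N = 3) →
      (N.filter (fun v => dg G v N = 3)).card ≤ 13) := by
  set R := N.filter (fun w => (w ≠ x ∧ ¬ Adj G w x) ∧ (w ≠ y ∧ ¬ Adj G w y)) with hR
  set X := (N.filter (Adj G x)).erase y with hX
  set Y := (N.filter (Adj G y)).erase x with hY
  have mR : ∀ w, w ∈ R ↔ w ∈ N ∧ (w ≠ x ∧ ¬ Adj G w x) ∧ (w ≠ y ∧ ¬ Adj G w y) :=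
    fun w => mem_filter
  have mX : ∀ w, w ∈ X ↔ w ≠ y ∧ w ∈ N ∧ Adj G x w := fun w => by simp [hX]
  have mY : ∀ w, w ∈ Y ↔ w ≠ x ∧ w ∈ N ∧ Adj G y w := fun w => by simp [hY]
  have nx := sp.adj_mem hxy.symm
  have ny := sp.adj_mem hxy
  have cX : X.card = 2 := by
    rw [hX, card_erase_of_mem (mem_filter.mpr ⟨ny, hxy⟩)]
    unfold dg at hx
    omega
  have cY : Y.card + 1 = dg G y N := by
    rw [hY, card_erase_add_one (mem_filter.mpr ⟨nx, hxy.symm⟩)]
    rfl
  have no4 : ∀ a ∈ R, ∀ b ∈ R, ∀ c ∈ R, ∀ d ∈ R, Adj G a b → Adj G b c → Adj G c d → a ≠ c → b ≠ d →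
      dg G d N ≤ 3 → False := by
    intro a ha b hb c hc d hd h1 h2 h3 h4 h5 h6
    rw [mR] at ha hb hc hd
    refine hno a b c d h1 h2 h3 h4 h5 h6 (fun v hv => ?_) (fun v hv => ?_) <;>
      simp only [mem_insert, mem_singleton] at hv <;> rcases hv with rfl | rfl | rfl | rfl <;> tauto
  have cov : ∀ w ∈ N, w = x ∨ w = y ∨ w ∈ X ∨ w ∈ Y ∨ w ∈ R := by
    intro w hw
    simp only [mR, mX, mY, hw, true_and, adj_comm (a := w)]
    tauto
  have bd : ∀ r ∈ R, dg G r N ≤ dg G r (X ∪ Y) + dg G r R := by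
    intro r hr
    refine le_trans (card_le_card ?_) (dg_union_le _ _ _)
    intro w hw
    obtain ⟨h1, h2⟩ := mem_filter.mp hw
    have h3 := (mR r).mp hr
    refine mem_filter.mpr ⟨?_, h2⟩
    simp only [mem_union]
    rcases cov w h1 with rfl | rfl | h | h | h <;> tauto
  have bX : ∀ r ∈ R, dg G r X ≤ 1 := fun r hr =>
    dg_nbr_le sp.gi ((mR r).mp hr).2.1.1 fun z hz => ((mX z).mp hz).2.2
  have bY : ∀ r ∈ R, dg G r Y ≤ 1 := fun r hr =>
    dg_nbr_le sp.gi ((mR r).mp hr).2.2.1 fun z hz => ((mY z).mp hz).2.2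
  set L := R.filter (fun r => dg G r R ≤ 1) with hL
  set S := R.filter (fun r => dg G r N = 3 ∧ 2 ≤ dg G r R) with hS
  have mL : ∀ w, w ∈ L ↔ w ∈ R ∧ dg G w R ≤ 1 := fun w => mem_filter
  have mS : ∀ w, w ∈ S ↔ w ∈ R ∧ dg G w N = 3 ∧ 2 ≤ dg G w R := fun w => mem_filter
  have fL : ∀ r ∈ L, 0 < dg G r X ∧ 0 < dg G r Y ∧ dg G r N = 3 := by
    intro r hr
    obtain ⟨h1, h2⟩ := (mL r).mp hr
    have := bd r h1
    have := bX r h1
    have := bY r h1
    have := dg_union_le (G := G) r X Y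
    have := sp.deg r ((mR r).mp h1).1
    omega
  have cL : L.card ≤ 2 * Y.card := by
    rw [← cX, ← card_product]
    have a1 : ∀ r ∈ L, ∃ p, p ∈ X ×ˢ Y ∧ Adj G r p.1 ∧ Adj G r p.2 := by
      intro r hr
      obtain ⟨p, p1, p2⟩ := dg_pos.mp (fL r hr).1
      obtain ⟨q, q1, q2⟩ := dg_pos.mp (fL r hr).2.1
      exact ⟨(p, q), mem_product.mpr ⟨p1, q1⟩, p2, q2⟩
    choose! φ a2 a3 a4 using a1
    apply card_le_card_of_injOn φ a2
    intro r hr r' hr' h
    obtain ⟨p1, q1⟩ := mem_product.mp (a2 r hr)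
    refine sp.gi.quad (a3 r hr).symm (a4 r hr) (h ▸ (a4 r' hr').symm) (h ▸ a3 r' hr') fun h' => ?_
    exact sp.gi.tri hxy ((mY _).mp q1).2.2 (h' ▸ ((mX _).mp p1).2.2.symm)
  have fS : ∀ s ∈ S, ∀ w ∈ R, Adj G s w → w ∈ L := by
    intro s hs w hw hsw
    obtain ⟨s1, s2, s3⟩ := (mS s).mp hs
    by_contra hn
    obtain ⟨t, ht, hwt, hts⟩ := exists_adj_ne (G := G) (v := w) (S := R)
      (by rw [mL] at hn; push Not at hn; exact hn hw) s
    by_cases tL : t ∈ L
    · obtain ⟨z, hz, hsz, hzw⟩ := exists_adj_ne s3 w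
      exact no4 z hz s s1 w hw t ht hsz.symm hsw hwt hzw hts.symm (fL t tL).2.2.le
    · obtain ⟨z, hz, htz, hzw⟩ := exists_adj_ne (G := G) (v := t) (S := R)
        (by rw [mL] at tL; push Not at tL; exact tL ht) w
      exact no4 z hz t ht w hw s s1 htz.symm hwt.symm hsw.symm hzw hts s2.le
  have cS : ∑ s ∈ S, dg G s R ≤ L.card := by
    have a1 : ∑ s ∈ S, dg G s R ≤ ∑ s ∈ S, dg G s L := by
      apply sum_le_sum
      intro s hs
      apply card_le_card
      intro w hw
      obtain ⟨h1, h2⟩ := mem_filter.mp hw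
      exact mem_filter.mpr ⟨fS s hs w h1 h2, h2⟩
    rw [dg_double S L] at a1
    have a2 := sum_le_card_nsmul L (fun l => dg G l S) 1
      (fun l hl => (dg_mono l (filter_subset _ _)).trans ((mL l).mp hl).2)
    simp only [smul_eq_mul] at a2
    omega
  have cS2 : S.card * 2 ≤ ∑ s ∈ S, dg G s R := by
    have := card_nsmul_le_sum S (fun s => dg G s R) 2 (fun s hs => ((mS s).mp hs).2.2)
    simpa using this
  have cub : ∀ w ∈ R, dg G w N = 3 → w ∈ L ∨ w ∈ S := by
    intro w hw h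
    rw [mL, mS]
    by_cases h' : dg G w R ≤ 1
    · exact Or.inl ⟨hw, h'⟩
    · exact Or.inr ⟨hw, h, by omega⟩
  constructor
  · intro hy
    by_contra hc
    have a1 : N.filter (fun v => dg G v N = 3) ⊆
        {x, y} ∪ (((X ∪ Y).filter (fun v => dg G v N = 3)) ∪ (L ∪ S)) := by
      intro w hw
      obtain ⟨h1, h2⟩ := mem_filter.mp hw
      have := cub w
      simp only [mem_union, mem_insert, mem_singleton, mem_filter (s := X ∪ Y), h2, and_true]
      rcases cov w h1 with h | h | h | h | h <;> tauto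
    have a2 := (card_le_card a1).trans ((card_union_le _ _).trans (Nat.add_le_add card_le_two
      ((card_union_le _ _).trans (Nat.add_le_add_left (card_union_le _ _) _))))
    have a3 := card_union_le X Y
    have a4 : (X ∪ Y).filter (fun v => dg G v N = 3) = X ∪ Y :=
      eq_of_subset_of_card_le (filter_subset _ _) (by omega)
    have a5 : ∑ w ∈ X ∪ Y, dg G w (L ∪ S) ≤ (X ∪ Y).card * 2 := by
      have := sum_le_card_nsmul (X ∪ Y) (fun w => dg G w (L ∪ S)) 2 (fun w hw => by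
        have b1 : dg G w N = 3 := by
          rw [← a4] at hw
          exact (mem_filter.mp hw).2
        obtain ⟨z, z1, z2, z3⟩ : ∃ z ∈ N, z ∉ R ∧ Adj G w z := by
          rcases mem_union.mp hw with h | h
          · exact ⟨x, nx, fun h => ((mR x).mp h).2.1.1 rfl, ((mX w).mp h).2.2.symm⟩
          · exact ⟨y, ny, fun h => ((mR y).mp h).2.2.1 rfl, ((mY w).mp h).2.2.symm⟩
        have b2 := dg_insert (G := G) w z z2
        rw [if_pos z3] at b2
        have b3 : dg G w (insert z R) ≤ dg G w N := dg_mono w (insert_subset z1 (filter_subset _ _))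
        have b4 : dg G w (L ∪ S) ≤ dg G w R :=
          dg_mono w (union_subset (filter_subset _ _) (filter_subset _ _))
        omega)
      simpa using this
    rw [dg_double, sum_union (disjoint_left.mpr fun w h1 h2 => by
      have := ((mL w).mp h1).2
      have := ((mS w).mp h2).2.2
      omega)] at a5
    have a6 : L.card * 2 ≤ ∑ l ∈ L, dg G l (X ∪ Y) := by
      have := card_nsmul_le_sum L (fun l => dg G l (X ∪ Y)) 2 (fun l hl => by
        have := bd l ((mL l).mp hl).1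
        have := ((mL l).mp hl).2
        have := (fL l hl).2.2
        omega)
      simpa using this
    have a7 : S.card * 3 ≤ ∑ s ∈ S, (dg G s (X ∪ Y) + dg G s R) := by
      have := card_nsmul_le_sum S (fun s => dg G s (X ∪ Y) + dg G s R) 3 (fun s hs => by
        have := bd s ((mS s).mp hs).1
        have := ((mS s).mp hs).2.1
        omega)
      simpa using this
    rw [sum_add_distrib] at a7
    have := card_filter_le (X ∪ Y) (fun v => dg G v N = 3)
    omega
  · intro hy hn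
    have a1 : N.filter (fun v => dg G v N = 3) ⊆ {x} ∪ (Y ∪ L) := by
      intro w hw
      obtain ⟨h1, h2⟩ := mem_filter.mp hw
      simp only [mem_union, mem_singleton]
      rcases cov w h1 with h | h | h | h | h
      · exact Or.inl h
      · exact absurd (h ▸ h2) (hn x y hxy hx)
      · exact absurd h2 (hn x w ((mX w).mp h).2.2 hx)
      · exact Or.inr (Or.inl h)
      · rcases cub w h h2 with h' | h'
        · exact Or.inr (Or.inr h')
        · obtain ⟨z, hz, hwz⟩ := dg_pos.mp (show 0 < dg G w R by have := ((mS w).mp h').2.2; omega)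
          exact absurd (fL z (fS w h' z hz hwz)).2.2 (hn w z hwz h2)
    have a2 := (card_le_card a1).trans ((card_union_le _ _).trans
      (Nat.add_le_add_left (card_union_le _ _) _))
    rw [card_singleton] at a2
    omega

theorem miss_le_three {β : V → K}
    (h0 : ∀ k, k ≠ 0 → ∀ u ∈ N, ∀ v ∈ N, UU G β k u = 0 → UU G β k v = 0 → u = v)
    {D : Finset V} (hD : ∀ v ∈ D, v ∈ N ∧ ∃ k, k ≠ 0 ∧ UU G β k v = 0) : D.card ≤ 3 := by
  choose! h1 k h2 h3 using hD
  have : (univ.erase (0 : K)).card = 3 := by decide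
  rw [← this]
  apply card_le_card_of_injOn k (fun v hv => by simpa using h2 v hv)
  intro u hu v hv h
  exact h0 _ (h2 u hu) u (h1 u hu) v (h1 v hv) (h3 u hu) (h ▸ h3 v hv)

theorem key3 (sp : Sp G N 3) {β : V → K} (hβ : ∀ v, v ∉ N → β v = 0) (hs : ∑ v, β v = 0) :
    Feas G β ∨ (G.oc Set.univ ≤ 12 ∧ (univ.filter (fun v => β v ≠ 0)).card ≤ 3) := by
  by_cases h0 : ∀ k, k ≠ 0 → ∀ u ∈ N, ∀ v ∈ N, UU G β k u = 0 → UU G β k v = 0 → u = v
  swap
  · push Not at h0
    obtain ⟨k, hk, u, hu, v, hv, h1, h2, h3⟩ := h0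
    exact Or.inl (feasVV sp hβ hs hk hu hv h3 h1 h2)
  by_cases hF : Feas G β
  · exact Or.inl hF
  right
  have hk : K.k1 ≠ 0 := by decide
  have no := fun x y (hxy : Adj G x y) hx => noP4 sp hxy hx (fun a b c d h1 h2 h3 h4 h5 h6 h7 h8 =>
    hF (feasP sp hβ hs hk (h0 _ hk) h1 h2 h3 h4 h5 h6 hxy h7 h8))
  refine ⟨?_, miss_le_three h0 fun v hv => ?_⟩
  · have := oc_le sp
    by_cases hn : ∀ a b, Adj G a b → dg G a N = 3 → ¬ dg G b N = 3
    · obtain ⟨x, y, hxy, hx, hy⟩ := exists35 sp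
      have a1 := (no x y hxy hx).2 hy hn
      have a2 := n3_ge sp (miss_le_three h0 fun v hv => by
        obtain ⟨b1, b2⟩ := mem_filter.mp hv
        refine ⟨b1, ?_⟩
        unfold UU
        rw [sp.d_eq, b2]
        exact (by decide : ∀ x : K, ∃ k, k ≠ 0 ∧ lam k x + ((4 : ℕ) : ZMod 2) = 0) _) hn
      omega
    · push Not at hn
      obtain ⟨x, y, hxy, hx, hy⟩ := hn
      have := (no x y hxy hx).1 hy
      omega
  · have h1 := (mem_filter.mp hv).2
    exact ⟨by_contra fun h => h1 (hβ v h),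
      (by decide : ∀ x : K, x ≠ 0 → ∀ j : ZMod 2, ∃ k, k ≠ 0 ∧ lam k x + j = 0) _ h1 _⟩

end

end Pool.Agent.Lib.CF64
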